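import Pool.Agent.Lib.MP_a688ad_al.T3.SpecL
import Pool.Agent.Lib.MP_a688ad_al.T2.Act
import Pool.Agent.Lib.MP_a688ad_al.T2.AmP
import Pool.Agent.Lib.MP_a688ad_al.T2.CW
import Pool.Agent.Lib.MP_a688ad_al.T2.Ch
import Pool.Agent.Lib.MP_a688ad_al.T2.Cs
import Pool.Agent.Lib.MP_a688ad_al.T2.DAm
import Pool.Agent.Lib.MP_a688ad_al.T2.DH
import Pool.Agent.Lib.MP_a688ad_al.T2.Defs
import Pool.Agent.Lib.MP_a688ad_al.T2.End
import Pool.Agent.Lib.MP_a688ad_al.T2.In
import Pool.Agent.Lib.MP_a688ad_al.T2.Inj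
import Pool.Agent.Lib.MP_a688ad_al.T2.Inv
import Pool.Agent.Lib.MP_a688ad_al.T2.K2
import Pool.Agent.Lib.MP_a688ad_al.T2.Key
import Pool.Agent.Lib.MP_a688ad_al.T2.Kn
import Pool.Agent.Lib.MP_a688ad_al.T2.LG
import Pool.Agent.Lib.MP_a688ad_al.T2.Li
import Pool.Agent.Lib.MP_a688ad_al.T2.Main
import Pool.Agent.Lib.MP_a688ad_al.T2.Mu
import Pool.Agent.Lib.MP_a688ad_al.T2.Or1
import Pool.Agent.Lib.MP_a688ad_al.T2.Or2
import Pool.Agent.Lib.MP_a688ad_al.T2.PR
import Pool.Agent.Lib.MP_a688ad_al.T2.PhE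
import Pool.Agent.Lib.MP_a688ad_al.T2.Pol
import Pool.Agent.Lib.MP_a688ad_al.T2.Rel
import Pool.Agent.Lib.MP_a688ad_al.T2.RelK
import Pool.Agent.Lib.MP_a688ad_al.T2.Sq
import Pool.Agent.Lib.MP_a688ad_al.T2.Sw
import Pool.Agent.Lib.MP_a688ad_al.T2.TT
import Pool.Agent.Lib.MP_a688ad_al.T2.ThE
import Pool.Agent.Lib.MP_a688ad_al.T2.ThO
import Pool.Agent.Lib.MP_a688ad_al.T2.Tra

/-!
# MP_a688ad_al, all large `n`: assembly
-/

set_option autoImplicit false

open MvPolynomial Finset

namespace Pool.Agent.Lib.MP_a688ad_al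

namespace T3

open T2

/-- The stable range. -/
theorem asm_T2 : T2Stmt := by
  have relP := kRelP kCH
  have relM := kRelM kCH
  have relE := kRelE kE2
  have relK := kRelK kE2 kCH
  have amP := kAmP relP relE
  have hK2 := kK2 relM relK amP kKn
  have hSw := kSw relM relE amP kIn
  have hMu := kMu hK2
  have hPR := kPR relE
  have hOr2 := kOr2 amP hK2 hMu hPR
  have hEnd := kEnd (kOr1 kE2) hOr2 hSw kDAm kDH
  have hTT := kTT (kInj kPol) (kSq kPol) kTra kInv
  exact kT2 kCh hTT (kThO kPol) kThE hEnd (kLi kLG) kCW (kCs kCW kPhE)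

/-- The inequality of dimensions in at most `2 m` variables, and for row lengths of at most `2 m`
rows. -/
theorem asm_dim {k N : ℕ} (h2 : ∀ n ≥ N, ∀ lam : Fin (R2 k) → ℤ, Antitone lam →
    ∑ i, lam i = ((k + 1) * n : ℕ) → (∀ i : Fin (R2 k), (i : ℕ) = 0 → lam i + n < (k + 1) * n) →
    Module.finrank ℂ ((Gl (R2 k) (n - 1) (k + 1)).HW lam)
      ≤ Module.finrank ℂ ((Gl (R2 k) k n).HW lam)) (h3 : VarStmt) {n : ℕ} (hn : N ≤ n) (hn1 : 1 ≤ n)
    (r : ℕ) (lam : Fin r → ℤ) (hl : Antitone lam) (h0 : ∀ i, 0 ≤ lam i)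
    (hs : ∑ i, lam i = ((k + 1) * n : ℕ))
    (hf : ∀ i : Fin r, (i : ℕ) = 0 → lam i + n < (k + 1) * n)
    (hz : ∀ i : Fin r, R2 k ≤ i → lam i = 0) :
    Module.finrank ℂ ((Gl r (n - 1) (k + 1)).HW lam) ≤ Module.finrank ℂ ((Gl r k n).HW lam) := by
  rcases le_total r (R2 k) with hr | hr
  · obtain ⟨t, ht⟩ := Nat.exists_eq_add_of_le hr
    have key : ∀ R, R2 k = R → ∀ lam : Fin R → ℤ, Antitone lam →
        ∑ i, lam i = ((k + 1) * n : ℕ) → (∀ i : Fin R, (i : ℕ) = 0 → lam i + n < (k + 1) * n) →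
        Module.finrank ℂ ((Gl R (n - 1) (k + 1)).HW lam)
          ≤ Module.finrank ℂ ((Gl R k n).HW lam) := by
      rintro R rfl
      exact h2 n hn
    rw [h3 r t (n - 1) (k + 1) lam, h3 r t k n lam]
    have hr0 : 0 < r := by
      rcases Nat.eq_zero_or_pos r with h | h
      · subst h
        rw [Finset.univ_eq_empty, Finset.sum_empty] at hs
        have : 0 < (k + 1) * n := by positivity
        exact absurd hs.symm (by exact_mod_cast this.ne')
      · exact h
    refine key (r + t) ht _ ?_ ?_ ?_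
    · intro i j hij
      refine Fin.addCases (fun i' => ?_) (fun i' => ?_) i (motive := fun i => i ≤ j →
        Fin.append lam (fun _ => 0) j ≤ Fin.append lam (fun _ => 0) i) hij
      · refine Fin.addCases (fun j' => ?_) (fun j' => ?_) j (motive := fun j => Fin.castAdd t i' ≤ j →
          Fin.append lam (fun _ => 0) j ≤ Fin.append lam (fun _ => 0) (Fin.castAdd t i'))
        · intro h
          rw [Fin.append_left, Fin.append_left]
          exact hl h
        · intro _
          rw [Fin.append_left, Fin.append_right]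
          exact h0 i'
      · refine Fin.addCases (fun j' => ?_) (fun j' => ?_) j (motive := fun j => Fin.natAdd r i' ≤ j →
          Fin.append lam (fun _ => 0) j ≤ Fin.append lam (fun _ => 0) (Fin.natAdd r i'))
        · intro h
          exfalso
          have h1 : r + (i' : ℕ) ≤ (j' : ℕ) := h
          have := j'.2
          omega
        · intro _
          rw [Fin.append_right, Fin.append_right]
    · rw [Fin.sum_univ_add]
      simp only [Fin.append_left, Fin.append_right, Finset.sum_const_zero, add_zero]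
      exact hs
    · intro i hi
      have hi' : i = Fin.castAdd t ⟨0, hr0⟩ := Fin.ext hi
      rw [hi', Fin.append_left]
      exact hf ⟨0, hr0⟩ rfl
  · obtain ⟨t, rfl⟩ := Nat.exists_eq_add_of_le hr
    have hlam : lam = Fin.append (fun i : Fin (R2 k) => lam (Fin.castAdd t i)) fun _ : Fin t => 0 := by
      funext i
      refine Fin.addCases (fun i' => ?_) (fun i' => ?_) i
      · rw [Fin.append_left]
      · rw [Fin.append_right]
        exact hz _ (by rw [Fin.val_natAdd]; omega)
    rw [hlam, ← h3 (R2 k) t (n - 1) (k + 1), ← h3 (R2 k) t k n]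
    refine h2 n hn _ (fun i j hij => hl (by exact hij)) ?_ fun i hi => hf (Fin.castAdd t i) hi
    rw [hlam, Fin.sum_univ_add] at hs
    simp only [Fin.append_left, Fin.append_right, Finset.sum_const_zero, add_zero] at hs
    exact hs

/-- The left side is zero if there are more than `2 m` rows. -/
theorem asm_zero (h1 : UppStmt) {k n : ℕ} (hn1 : 1 ≤ n) (r : ℕ) (lam : Fin r → ℤ)
    (i : Fin r) (hi : R2 k ≤ i) (hlam : lam i ≠ 0) :
    Module.finrank ℂ ((Gl r (n - 1) (k + 1)).HW lam) = 0 := by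
  have h := (h1 (k + 1) r n lam hn1).2
  have hE : E1 (k + 1) r n lam = ∅ := by
    rw [Set.eq_empty_iff_forall_notMem]
    rintro d ⟨a, _, _, h2, _⟩
    apply hlam
    rw [← h2 i]
    have h3 : row a i = 0 := by
      unfold row
      refine Finset.sum_eq_zero fun C _ => if_neg ?_
      have h4 : C.card ≤ k + 1 + (k + 1) := by
        have := Finset.card_le_univ C
        rwa [Fintype.card_fin] at this
      have h5 : k + 1 + (k + 1) ≤ (i : ℕ) := hi
      omega
    rw [h3]
    rfl
  rw [hE, Set.ncard_empty] at h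
  omega

theorem kAsm (h1 : UppStmt) (h2 : RgBStmt) (h3 : VarStmt) : AsmStmt := by
  intro m hm
  obtain ⟨k, rfl⟩ : ∃ k, m = k + 1 := ⟨m - 1, by omega⟩
  obtain ⟨N0, hN0⟩ := h2 k (by omega)
  refine ⟨max N0 (k + 2), fun n hn s lam hl hs hcase => ?_⟩
  have hn0 : N0 ≤ n := (le_max_left _ _).trans hn
  have hn1 : k + 2 ≤ n := (le_max_right _ _).trans hn
  rw [Nat.add_sub_cancel] at hcase
  by_cases hlam : n * k ≤ lam 0
  · exact asm_T2 (k + 1) n hm (by omega) s lam hl hs (hcase.resolve_right (by omega)) (by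
      rwa [Nat.add_sub_cancel])
  · obtain ⟨l, rfl⟩ : ∃ l, n = l + 1 := ⟨n - 1, by omega⟩
    rw [kCh (s + 1) l (k + 1) lam hl (by rw [hs]), kCh (s + 1) k (l + 1) lam hl (by rw [hs]; ring)]
    rw [Nat.cast_le]
    have hanti : Antitone fun i => (lam i : ℤ) := fun i j hij => by
      show (lam j : ℤ) ≤ lam i
      exact_mod_cast hl hij
    by_cases hz : ∀ i : Fin (s + 1), R2 k ≤ i → lam i = 0
    · refine asm_dim hN0 h3 hn0 (by omega) (s + 1) _ hanti (fun i => Int.natCast_nonneg _) ?_ ?_ ?_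
      · rw [← Nat.cast_sum, hs]
        push_cast
        ring
      · intro i hi
        have hi' : i = 0 := Fin.ext hi
        rw [hi']
        have h5 : lam 0 < (l + 1) * k := by omega
        have h6 : (lam 0 : ℤ) < (l + 1) * k := by exact_mod_cast h5
        push_cast
        nlinarith
      · intro i hi
        rw [hz i hi]
        rfl
    · push Not at hz
      obtain ⟨i, hi, hi'⟩ := hz
      have h5 := asm_zero h1 (k := k) (n := l + 1) (by omega) (s + 1) (fun i => (lam i : ℤ)) i hi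
        (by exact_mod_cast hi')
      rw [Nat.add_sub_cancel] at h5
      rw [h5]
      exact Nat.zero_le _

end T3

end Pool.Agent.Lib.MP_a688ad_al
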