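import Pool.Agent.Lib.MP_a688ad_al.T3.SpecB

/-!
# MP_a688ad_al, all large `n`, module Br: symmetric polynomials of large content
-/

set_option autoImplicit false

open MvPolynomial Finset

namespace Pool.Agent.Lib.MP_a688ad_al

namespace T3

open T2

private abbrev brW (K r : ℕ) (p : Fin K × Fin r) : Fin K → ℤ := sg p.1

/-- the polynomials of degree `c` in the `el p` -/
private noncomputable def brP (k r c : ℕ) : Submodule ℂ (Z (k + 1) r) :=
  (homogeneousSubmodule (Ib r k) ℂ c).map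
    (aeval (fun p : Ib r k => (el p : Z (k + 1) r))).toLinearMap

private theorem br_iff {k r c : ℕ} {f : Z (k + 1) r} : f ∈ brP k r c ↔ PE c f := by
  constructor
  · rintro ⟨P, hP, hPf⟩
    exact ⟨P, hP, hPf⟩
  · rintro ⟨P, hP, hPf⟩
    exact ⟨P, hP, hPf⟩

private theorem br_mul {k r a b : ℕ} {f g : Z (k + 1) r} (hf : PE a f) (hg : PE b g) :
    PE (a + b) (f * g) := by
  obtain ⟨P, hP, rfl⟩ := hf
  obtain ⟨Q, hQ, rfl⟩ := hg
  exact ⟨P * Q, hP.mul hQ, map_mul _ _ _⟩

private theorem br_one {k r : ℕ} : PE 0 (1 : Z (k + 1) r) :=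
  ⟨1, isHomogeneous_one _ _, map_one _⟩

private theorem br_zero {k r c : ℕ} : PE c (0 : Z (k + 1) r) :=
  br_iff.1 (Submodule.zero_mem _)

private theorem br_el {k r : ℕ} (p : Ib r k) : PE 1 (el p : Z (k + 1) r) :=
  ⟨X p, isHomogeneous_X _ _, aeval_X _ _⟩

private theorem br_ul (h : ElStmt) {k r : ℕ} (l : Fin r → ℂ) : PE 1 (ul l : Z (k + 1) r) := by
  have h1 : Submodule.span ℂ (Set.range fun p : Ib r k => (el p : Z (k + 1) r)) ≤ brP k r 1 := by
    rw [Submodule.span_le]
    rintro _ ⟨p, rfl⟩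
    exact br_iff.2 (br_el p)
  exact br_iff.1 (h1 ((h k r).2.2.2 l))

private theorem br_pow (h : ElStmt) {k r : ℕ} (l : Fin r → ℂ) (t : ℕ) :
    PE t ((ul l : Z (k + 1) r) ^ t) := by
  induction t with
  | zero => rw [pow_zero]; exact br_one
  | succ t ih => rw [pow_succ]; exact br_mul ih (br_ul h l)

private theorem br_prod (h : ElStmt) {k r : ℕ} (L : Multiset (Fin r → ℂ)) :
    PE (Multiset.card L) ((L.map fun l => (ul l : Z (k + 1) r)).prod) := by
  induction L using Multiset.induction_on with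
  | empty => simpa using br_one
  | cons l L ih =>
    rw [Multiset.map_cons, Multiset.prod_cons, Multiset.card_cons, mul_comm]
    exact br_mul ih (br_ul h l)

private theorem br_mono (h : ElStmt) {k r c N N' : ℕ} {l : Fin r → ℂ} {f : Z (k + 1) r}
    (hN : N ≤ N') (hf : PE (c + N) (ul l ^ N * f)) : PE (c + N') (ul l ^ N' * f) := by
  obtain ⟨t, rfl⟩ := Nat.exists_eq_add_of_le hN
  have h1 := br_mul hf (br_pow h (k := k) l t)
  have e1 : ul l ^ N * f * ul l ^ t = ul l ^ (N + t) * f := by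
    rw [pow_add]
    ring
  rw [e1, add_assoc] at h1
  exact h1

private theorem br_unif {ι : Type} (s : Finset ι) (Q : ι → ℕ → Prop)
    (hm : ∀ i N N', N ≤ N' → Q i N → Q i N') (hs : ∀ i ∈ s, ∃ N, Q i N) :
    ∃ N, ∀ i ∈ s, Q i N := by
  classical
  induction s using Finset.induction_on with
  | empty => exact ⟨0, fun i hi => absurd hi (Finset.notMem_empty i)⟩
  | insert a s _ ih =>
    obtain ⟨N, hN⟩ := ih fun i hi => hs i (Finset.mem_insert_of_mem hi)
    obtain ⟨N', hN'⟩ := hs a (Finset.mem_insert_self a s)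
    refine ⟨max N N', fun i hi => ?_⟩
    rcases Finset.mem_insert.1 hi with rfl | hi
    · exact hm _ _ _ (le_max_right _ _) hN'
    · exact hm _ _ _ (le_max_left _ _) (hN i hi)

private theorem br_weight {K r : ℕ} (d : (Fin K × Fin r) →₀ ℕ) (κ : Fin K) :
    Finsupp.weight (brW K r) d κ = ((∑ i, d (κ, i) : ℕ) : ℤ) := by
  rw [Finsupp.weight_apply, Finsupp.sum_fintype d (fun p n => n • brW K r p)
    (fun _ => zero_smul ℕ _), Fintype.sum_prod_type, Finset.sum_apply, Finset.sum_eq_single κ]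
  · rw [Finset.sum_apply]
    push_cast
    refine Finset.sum_congr rfl fun i _ => ?_
    unfold brW sg
    simp
  · intro κ' _ hne
    rw [Finset.sum_apply]
    refine Finset.sum_eq_zero fun i _ => ?_
    unfold brW sg
    simp [Pi.single_apply, hne.symm]
  · intro h
    exact absurd (Finset.mem_univ _) h

private theorem br_finite (K r c : ℕ) :
    {d : (Fin K × Fin r) →₀ ℕ | Finsupp.weight (brW K r) d = fun _ => (c : ℤ)}.Finite := by
  apply (Finsupp.finite_of_degree_eq (σ := Fin K × Fin r) (K * c)).subset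
  intro d hd
  have h1 : Finsupp.weight (brW K r) d = fun _ => (c : ℤ) := hd
  show d.degree = K * c
  rw [Finsupp.degree_eq_sum, Fintype.sum_prod_type]
  have h2 : ∀ κ, ∑ i, d (κ, i) = c := by
    intro κ
    have h3 := congrFun h1 κ
    rw [br_weight] at h3
    exact_mod_cast h3
  rw [Finset.sum_congr rfl fun κ _ => h2 κ, Finset.sum_const, Finset.card_univ, Fintype.card_fin,
    smul_eq_mul]

/-- symmetric polynomials of content `c` -/
private noncomputable def brM (K r c : ℕ) : Submodule ℂ (Z K r) where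
  carrier := {f | Cn c f ∧ Sy f}
  add_mem' := by
    rintro f g ⟨h1, h2⟩ ⟨h3, h4⟩
    exact ⟨h1.add h3, fun σ => by rw [map_add, h2 σ, h4 σ]⟩
  zero_mem' := ⟨isWeightedHomogeneous_zero _ _ _, fun σ => map_zero _⟩
  smul_mem' := by
    rintro t f ⟨h1, h2⟩
    refine ⟨?_, fun σ => by rw [map_smul, h2 σ]⟩
    exact Submodule.smul_mem (weightedHomogeneousSubmodule ℂ (brW K r) (fun _ => (c : ℤ))) t h1

private theorem br_fg (K r c : ℕ) : (brM K r c).FG := by
  have h1 : Module.Finite ℂ (weightedHomogeneousSubmodule ℂ (brW K r) (fun _ => (c : ℤ))) := by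
    rw [weightedHomogeneousSubmodule_eq_finsupp_supported]
    have := (br_finite K r c).to_subtype
    exact Module.Finite.of_basis (basisRestrictSupport ℂ
      {d : (Fin K × Fin r) →₀ ℕ | Finsupp.weight (brW K r) d = fun _ => (c : ℤ)})
  have h2 : brM K r c ≤ weightedHomogeneousSubmodule ℂ (brW K r) (fun _ => (c : ℤ)) :=
    fun f hf => hf.1
  have h3 : Module.Finite ℂ (brM K r c) := Submodule.finiteDimensional_of_le h2
  exact Module.Finite.iff_fg.1 h3

private theorem br_ul_zero {k r : ℕ} : (ul (0 : Fin r → ℂ) : Z (k + 1) r) = 0 := by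
  unfold ul
  rw [Finset.prod_eq_zero (Finset.mem_univ (0 : Fin (k + 1)))]
  simp

/-- the uniform exponent -/
private theorem br_exp (h1 : ElStmt) (h3 : LocStmt) (k r c : ℕ) (s : Finset (Fin r → ℂ)) :
    ∃ N, ∀ l ∈ s, ∀ f ∈ brM (k + 1) r c, PE (c + N) (ul l ^ N * f) := by
  apply br_unif s (fun l N => ∀ f ∈ brM (k + 1) r c, PE (c + N) (ul l ^ N * f))
  · intro l N N' hN h f hf
    exact br_mono h1 hN (h f hf)
  · intro l _
    by_cases hl : l = 0
    · refine ⟨1, fun f _ => ?_⟩
      rw [hl, br_ul_zero, pow_one, zero_mul]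
      exact br_zero
    obtain ⟨S, hS⟩ := br_fg (k + 1) r c
    obtain ⟨N, hN⟩ := br_unif S (fun f N => PE (c + N) (ul l ^ N * f))
      (fun f N N' hN h => br_mono h1 hN h) (by
        intro f hf
        have hfM : f ∈ brM (k + 1) r c := by
          rw [← hS]
          exact Submodule.subset_span hf
        exact h3 k r c l f hl hfM.1 hfM.2)
    refine ⟨N, fun f hf => ?_⟩
    have h4 : Submodule.span ℂ (S : Set (Z (k + 1) r)) ≤
        (brP k r (c + N)).comap (LinearMap.mulLeft ℂ (ul l ^ N)) := by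
      rw [Submodule.span_le]
      intro g hg
      exact br_iff.2 (hN g hg)
    rw [hS] at h4
    exact br_iff.1 (h4 hf)

/-- products of `t` of the `ul l` and a symmetric polynomial of content `c` -/
private def brT (k r c : ℕ) (s : Finset (Fin r → ℂ)) (t : ℕ) : Set (Z (k + 1) r) :=
  {z | ∃ (L : Multiset (Fin r → ℂ)) (h : Z (k + 1) r), Multiset.card L = t ∧ (∀ l ∈ L, l ∈ s) ∧
    h ∈ brM (k + 1) r c ∧ z = (L.map fun l => (ul l : Z (k + 1) r)).prod * h}

private theorem br_span (h2 : GenStmt) (k r : ℕ) {N1 : ℕ} {s : Finset (Fin r → ℂ)}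
    (hs : ∀ p : Ib r k, (el p : Z (k + 1) r) ∈ Submodule.span ℂ (ul '' (s : Set (Fin r → ℂ))))
    (hN1 : 1 ≤ N1) (hg : ∀ c ≥ N1, ∀ f : Z (k + 1) r, Cn c f → Sy f →
      ∃ g : Ib r k → Z (k + 1) r, (∀ p, Cn (c - 1) (g p) ∧ Sy (g p)) ∧ f = ∑ p, g p * el p) :
    ∀ (t : ℕ) (f : Z (k + 1) r), Cn (N1 + t) f → Sy f →
      f ∈ Submodule.span ℂ (brT k r N1 s t) := by
  intro t
  induction t with
  | zero =>
    intro f hf hsf
    exact Submodule.subset_span ⟨0, f, rfl, fun l hl => absurd hl (Multiset.notMem_zero l),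
      ⟨hf, hsf⟩, by simp⟩
  | succ t ih =>
    intro f hf hsf
    obtain ⟨g, hg1, hg2⟩ := hg (N1 + (t + 1)) (by omega) f hf hsf
    rw [hg2]
    refine Submodule.sum_mem _ fun p _ => ?_
    have h3 : g p ∈ Submodule.span ℂ (brT k r N1 s t) := ih (g p) (hg1 p).1 (hg1 p).2
    have h4 := Submodule.mul_mem_mul h3 (hs p)
    rw [Submodule.span_mul_span] at h4
    refine Submodule.span_mono ?_ h4
    rintro _ ⟨_, ⟨L, h, hL, hLs, hh, rfl⟩, _, ⟨l, hl, rfl⟩, rfl⟩
    refine ⟨l ::ₘ L, h, by rw [Multiset.card_cons, hL], ?_, hh, ?_⟩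
    · intro l' hl'
      rcases Multiset.mem_cons.1 hl' with rfl | hl'
      · exact hl
      · exact hLs l' hl'
    · rw [Multiset.map_cons, Multiset.prod_cons]
      ring

theorem kBr (h1 : ElStmt) (h2 : GenStmt) (h3 : LocStmt) : BrStmt := by
  classical
  intro k r
  obtain ⟨N1, hN1, hg⟩ := h2 k r
  obtain ⟨s, hs⟩ := (h1 k r).2.2.1
  obtain ⟨N, hN⟩ := br_exp h1 h3 k r N1 s
  refine ⟨N1 + (s.card * N + 1), ?_⟩
  intro c hc f hf hsf
  obtain ⟨t, rfl⟩ := Nat.exists_eq_add_of_le (show N1 ≤ c by omega)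
  have h4 := br_span h2 k r hs hN1 hg t f hf hsf
  have h5 : Submodule.span ℂ (brT k r N1 s t) ≤ brP k r (N1 + t) := by
    rw [Submodule.span_le]
    rintro _ ⟨L, h, hL, hLs, hh, rfl⟩
    have h6 : ∃ l ∈ s, N ≤ L.count l := by
      by_contra hcon
      push Not at hcon
      have h7 : ∑ l ∈ s, L.count l = Multiset.card L :=
        Multiset.sum_count_eq_card hLs
      have h8 : ∑ l ∈ s, L.count l ≤ ∑ _l ∈ s, N := Finset.sum_le_sum fun l hl => (hcon l hl).le
      rw [Finset.sum_const, smul_eq_mul] at h8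
      omega
    obtain ⟨l, hl, hlN⟩ := h6
    obtain ⟨L', rfl⟩ := Multiset.le_iff_exists_add.1 (Multiset.le_count_iff_replicate_le.1 hlN)
    have h9 := br_mul (hN l hl h hh) (br_prod h1 (k := k) L')
    rw [Multiset.card_add, Multiset.card_replicate] at hL
    have e1 : N1 + N + Multiset.card L' = N1 + t := by omega
    have e2 : ul l ^ N * h * (L'.map fun l => (ul l : Z (k + 1) r)).prod =
        ((Multiset.replicate N l + L').map fun l => (ul l : Z (k + 1) r)).prod * h := by
      rw [Multiset.map_add, Multiset.prod_add, Multiset.map_replicate, Multiset.prod_replicate]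
      ring
    rw [e1, e2] at h9
    exact br_iff.2 h9
  exact br_iff.1 (h5 h4)

end T3

end Pool.Agent.Lib.MP_a688ad_al
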