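import Pool.Agent.Lib.MP_a688ad_al.T3.SpecE

/-!
# MP_a688ad_al, all large `n`: minors are killed by the raising operators
-/

set_option autoImplicit false

open MvPolynomial Finset

namespace Pool.Agent.Lib.MP_a688ad_al

namespace T3

open T2

theorem brk_der_prod {R : Type} [CommRing R] [Algebra ℂ R] (D : Derivation ℂ R R) {ι : Type}
    [DecidableEq ι] (s : Finset ι) (F : ι → R) :
    D (∏ k ∈ s, F k) = ∑ k ∈ s, (∏ l ∈ s.erase k, F l) * D (F k) := by
  induction s using Finset.induction_on with
  | empty => simp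
  | insert a s ha ih =>
    rw [Finset.prod_insert ha, Derivation.leibniz, ih, Finset.sum_insert ha,
      Finset.erase_insert ha, smul_eq_mul, smul_eq_mul, Finset.mul_sum, add_comm]
    congr 1
    refine Finset.sum_congr rfl fun k hk => ?_
    have hak : a ≠ k := fun h => ha (h ▸ hk)
    rw [Finset.erase_insert_of_ne hak, Finset.prod_insert]
    · ring
    · simp [ha]

theorem brk_der_det {R : Type} [CommRing R] [Algebra ℂ R] (D : Derivation ℂ R R) {p : ℕ}
    (M : Matrix (Fin p) (Fin p) R) :
    D M.det = ∑ b, (M.updateCol b fun a => D (M a b)).det := by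
  rw [Matrix.det_apply', map_sum]
  simp only [Matrix.det_apply']
  rw [Finset.sum_comm]
  refine Finset.sum_congr rfl fun σ _ => ?_
  rw [Derivation.leibniz, Derivation.map_intCast, smul_zero, add_zero, smul_eq_mul,
    brk_der_prod, Finset.mul_sum]
  refine Finset.sum_congr rfl fun b _ => ?_
  congr 1
  rw [← Finset.prod_erase_mul univ _ (Finset.mem_univ b), Matrix.updateCol_self]
  congr 1
  refine Finset.prod_congr rfl fun l hl => ?_
  rw [Matrix.updateCol_ne (Finset.ne_of_mem_erase hl)]

theorem brk_sum_sg {r : ℕ} (p : ℕ) (hp : p ≤ r) :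
    ∑ b : Fin p, sg (Fin.castLE hp b) = (om p : Fin r → ℤ) := by
  funext i
  rw [Finset.sum_apply]
  unfold sg om
  simp only [Pi.single_apply]
  by_cases h : (i : ℕ) < p
  · rw [if_pos h, Finset.sum_eq_single (⟨i, h⟩ : Fin p)]
    · exact if_pos (Fin.ext rfl)
    · intro b _ hb
      rw [if_neg]
      intro h2
      apply hb
      apply Fin.ext
      exact (congrArg Fin.val h2).symm
    · intro h2
      exact (h2 (Finset.mem_univ _)).elim
  · rw [if_neg h]
    refine Finset.sum_eq_zero fun b _ => ?_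
    rw [if_neg]
    intro h2
    apply h
    rw [h2]
    exact b.2

theorem kBrk : BrkStmt := by
  intro r k p hp β c q ξ hξ
  refine ⟨?_, ?_, ?_⟩
  · unfold brk
    rw [Matrix.det_apply']
    refine IsWeightedHomogeneous.sum _ _ _ fun σ _ => ?_
    have h1 : IsWeightedHomogeneous WE (∏ b, ξ (σ b) (Fin.castLE hp b))
        (∑ b, ((β (σ b) + sg (Fin.castLE hp b), c (σ b), q (σ b)) :
          (Fin r → ℤ) × (Fin (k + 1) → ℤ) × ℤ)) :=
      IsWeightedHomogeneous.prod _ _ _ fun b _ => (hξ (σ b)).hom _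
    have h2 : ∑ b, ((β (σ b) + sg (Fin.castLE hp b), c (σ b), q (σ b)) :
        (Fin r → ℤ) × (Fin (k + 1) → ℤ) × ℤ) = (om p + ∑ a, β a, ∑ a, c a, ∑ a, q a) := by
      refine Prod.ext ?_ (Prod.ext ?_ ?_)
      · rw [Prod.fst_sum]
        simp only
        rw [Finset.sum_add_distrib, brk_sum_sg, Equiv.sum_comp σ β, add_comm]
      · rw [Prod.snd_sum, Prod.fst_sum]
        exact Equiv.sum_comp σ c
      · rw [Prod.snd_sum, Prod.snd_sum]
        exact Equiv.sum_comp σ q
    rw [h2] at h1
    have h3 : (((Equiv.Perm.sign σ : ℤˣ) : ℤ) : Ex r k) = C (((Equiv.Perm.sign σ : ℤˣ) : ℤ) : ℂ) := by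
      rw [map_intCast]
    have h4 := (isWeightedHomogeneous_C (WE : Fin (k + 1) × Fin r ⊕ Ib r k → _)
      (((Equiv.Perm.sign σ : ℤˣ) : ℤ) : ℂ)).mul h1
    rw [zero_add] at h4
    rw [h3]
    exact h4
  · intro i j hij
    unfold brk
    rw [brk_der_det]
    refine Finset.sum_eq_zero fun b _ => ?_
    by_cases hb : Fin.castLE hp b = j
    · have hip : (i : ℕ) < p := by
        have h1 : (i : ℕ) < j := hij
        rw [← hb] at h1
        exact lt_trans h1 b.2
      have hne : (⟨i, hip⟩ : Fin p) ≠ b := by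
        rintro rfl
        apply hij.ne
        rw [← hb]
        rfl
      rw [← Matrix.det_updateCol_eq_zero (M := Matrix.of fun a b => ξ a (Fin.castLE hp b)) hne]
      congr 2
      funext a
      show DX i j (ξ a (Fin.castLE hp b)) = ξ a (Fin.castLE hp ⟨i, hip⟩)
      rw [(hξ a).inv i j _ hij, if_pos hb]
      rfl
    · apply Matrix.det_eq_zero_of_column_eq_zero b
      intro a
      rw [Matrix.updateCol_self]
      show DX i j (ξ a (Fin.castLE hp b)) = 0
      rw [(hξ a).inv i j _ hij, if_neg hb]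
  · unfold brk
    rw [AlgHom.map_det]
    congr 1
    funext a b
    exact (hξ a).prj _

end T3

end Pool.Agent.Lib.MP_a688ad_al
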