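import Pool.Agent.Lib.MP_a688ad_al.T3.SpecU

/-!
# MP_a688ad_al, D3: counting
-/

set_option autoImplicit false

open MvPolynomial Finset

namespace Pool.Agent.Lib.MP_a688ad_al

namespace T3

open T2

private noncomputable def cmb_push (m r : ℕ) (d : (Fin m × Fin r) →₀ ℕ) :
    (Fin (m + m) × Fin r) →₀ ℕ := d.mapDomain (Prod.map (Fin.castAdd m) id)

private theorem cmb_inj (m r : ℕ) :
    Function.Injective (Prod.map (Fin.castAdd m) id : Fin m × Fin r → Fin (m + m) × Fin r) :=
  Function.Injective.prodMap (Fin.castAdd_injective m m) Function.injective_id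

private theorem cmb_dC (m r : ℕ) (C : Finset (Fin m)) :
    dC r (C.map (Fin.castAddEmb m)) = cmb_push m r (dC r C) := by
  ext ⟨κ, i⟩
  have h1 : dC r (C.map (Fin.castAddEmb m)) (κ, i) =
      if κ ∈ C.map (Fin.castAddEmb m) ∧
        ((C.map (Fin.castAddEmb m)).filter (· < κ)).card = (i : ℕ) then 1 else 0 := rfl
  rw [h1]
  unfold cmb_push
  refine Fin.addCases ?_ ?_ κ
  · intro κ
    have h2 : (Finsupp.mapDomain (Prod.map (Fin.castAdd m) id) (dC r C)) (Fin.castAdd m κ, i) =
        dC r C (κ, i) := Finsupp.mapDomain_apply (cmb_inj m r) (dC r C) (κ, i)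
    rw [h2]
    have h3 : dC r C (κ, i) = if κ ∈ C ∧ (C.filter (· < κ)).card = (i : ℕ) then 1 else 0 := rfl
    rw [h3]
    have h4 : (Fin.castAdd m κ ∈ C.map (Fin.castAddEmb m)) ↔ κ ∈ C :=
      Finset.mem_map' (Fin.castAddEmb m)
    have h5 : ((C.map (Fin.castAddEmb m)).filter (· < Fin.castAdd m κ)).card =
        (C.filter (· < κ)).card := by
      rw [Finset.filter_map, Finset.card_map]
      rfl
    rw [h5]
    by_cases h6 : κ ∈ C ∧ (C.filter (· < κ)).card = (i : ℕ)
    · rw [if_pos h6, if_pos ⟨h4.mpr h6.1, h6.2⟩]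
    · rw [if_neg h6, if_neg (fun h => h6 ⟨h4.mp h.1, h.2⟩)]
  · intro κ
    rw [if_neg, Finsupp.mapDomain_notin_range]
    · rintro ⟨⟨κ', i'⟩, h⟩
      have h2 := congrArg Prod.fst h
      have h3 : Fin.castAdd m κ' = Fin.natAdd m κ := h2
      have h4 := congrArg Fin.val h3
      simp at h4
      omega
    · rintro ⟨h, -⟩
      rw [Finset.mem_map] at h
      obtain ⟨κ', -, h⟩ := h
      have h4 := congrArg Fin.val h
      simp at h4
      omega

private theorem cmb_dA_add {K : ℕ} (r : ℕ) (a b : Finset (Fin K) → ℕ) :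
    dA r (a + b) = dA r a + dA r b := by
  unfold dA
  rw [← Finset.sum_add_distrib]
  refine Finset.sum_congr rfl (fun C _ => ?_)
  rw [Pi.add_apply, add_smul]

private theorem cmb_dA_smul {K : ℕ} (r N : ℕ) (a : Finset (Fin K) → ℕ) :
    dA r (N • a) = N • dA r a := by
  unfold dA
  rw [Finset.smul_sum]
  refine Finset.sum_congr rfl (fun C _ => ?_)
  rw [Pi.smul_apply, smul_assoc]

private theorem cmb_push_add (m r : ℕ) (d d' : (Fin m × Fin r) →₀ ℕ) :
    cmb_push m r (d + d') = cmb_push m r d + cmb_push m r d' := Finsupp.mapDomain_add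

private theorem cmb_push_smul (m r N : ℕ) (d : (Fin m × Fin r) →₀ ℕ) :
    cmb_push m r (N • d) = N • cmb_push m r d := Finsupp.mapDomain_smul N d

private theorem cmb_up_sum {m : ℕ} {M : Type} [AddCommMonoid M] (a : Finset (Fin m) → ℕ)
    (F : Finset (Fin (m + m)) → M) :
    ∑ C, up a C • F C = ∑ C' : Finset (Fin m), a C' • F (C'.map (Fin.castAddEmb m)) := by
  unfold up
  simp only [Finset.sum_smul]
  rw [Finset.sum_comm]
  refine Finset.sum_congr rfl (fun C' _ => ?_)
  simp only [ite_smul, zero_smul]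
  rw [Finset.sum_ite_eq]
  simp

private theorem cmb_dA_up (m r : ℕ) (a : Finset (Fin m) → ℕ) :
    dA r (up a) = cmb_push m r (dA r a) := by
  have h1 : cmb_push m r (dA r a) = ∑ C', a C' • cmb_push m r (dC r C') := by
    unfold dA cmb_push
    rw [Finsupp.mapDomain_finset_sum]
    exact Finset.sum_congr rfl (fun C _ => Finsupp.mapDomain_smul _ _)
  rw [h1]
  unfold dA
  rw [cmb_up_sum a (fun C => dC r C)]
  exact Finset.sum_congr rfl (fun C _ => by rw [cmb_dC])

private theorem cmb_up_add {m : ℕ} (a b : Finset (Fin m) → ℕ) : up (a + b) = up a + up b := by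
  funext C
  unfold up
  rw [Pi.add_apply, ← Finset.sum_add_distrib]
  refine Finset.sum_congr rfl (fun C _ => ?_)
  split_ifs
  · rfl
  · rfl

private theorem cmb_up_smul {m : ℕ} (N : ℕ) (a : Finset (Fin m) → ℕ) : up (N • a) = N • up a := by
  funext C
  unfold up
  rw [Pi.smul_apply, Finset.smul_sum]
  refine Finset.sum_congr rfl (fun C _ => ?_)
  split_ifs
  · rfl
  · rw [smul_zero]

private theorem cmb_lin {K : ℕ} (P : Finset (Fin K) → Prop) [DecidablePred P]
    (a : Finset (Fin K) → ℕ) : ∑ C, (if P C then a C else 0) =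
      ∑ C, a C • (if P C then 1 else 0 : ℕ) := by
  refine Finset.sum_congr rfl (fun C _ => ?_)
  split_ifs
  · rw [smul_eq_mul, mul_one]
  · rw [smul_zero]

private theorem cmb_decomp {m N : ℕ} (b : Finset (Fin (m + m)) → ℕ) (g a : Finset (Fin m) → ℕ)
    (P : Finset (Fin (m + m)) → Prop) [DecidablePred P] (Q : Finset (Fin m) → Prop)
    [DecidablePred Q] (hPQ : ∀ C : Finset (Fin m), P (C.map (Fin.castAddEmb m)) ↔ Q C) :
    ∑ C, (if P C then (b + up (N • g + a)) C else 0) =
      ∑ C, (if P C then b C else 0) + (N * ∑ C, (if Q C then g C else 0) +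
        ∑ C, (if Q C then a C else 0)) := by
  rw [cmb_lin, cmb_lin, cmb_lin, cmb_lin]
  simp only [Pi.add_apply, add_smul]
  rw [Finset.sum_add_distrib, cmb_up_sum]
  simp only [Pi.add_apply, add_smul, Pi.smul_apply]
  rw [Finset.sum_add_distrib, Finset.mul_sum]
  have hite : ∀ C : Finset (Fin m), (if P (C.map (Fin.castAddEmb m)) then 1 else 0 : ℕ) =
      if Q C then 1 else 0 := by
    intro C
    by_cases h : Q C
    · rw [if_pos h, if_pos ((hPQ C).mpr h)]
    · rw [if_neg h, if_neg (fun h' => h ((hPQ C).mp h'))]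
  simp only [hite]
  congr 2
  refine Finset.sum_congr rfl (fun C _ => ?_)
  rw [smul_eq_mul, smul_eq_mul, smul_eq_mul]
  ring

private theorem cmb_E0fin (m r n : ℕ) (lam : Fin r → ℤ) : (E0 m r n lam).Finite := by
  have h1 : ({a : Finset (Fin m) → ℕ | ∀ C, a C ≤ n}).Finite := by
    have h2 : {a : Finset (Fin m) → ℕ | ∀ C, a C ≤ n} = Set.Iic (fun _ => n) := by
      ext a
      rfl
    rw [h2]
    exact Set.finite_Iic _
  refine (h1.image (dA r)).subset ?_
  rintro d ⟨a, ha, -, -, rfl⟩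
  refine ⟨a, fun C => ?_, rfl⟩
  rcases C.eq_empty_or_nonempty with h | ⟨κ, hκ⟩
  · rw [h, ha.1]
    exact Nat.zero_le _
  · rw [← ha.2 κ]
    unfold cont
    calc a C = if κ ∈ C then a C else 0 := by rw [if_pos hκ]
      _ ≤ ∑ C, if κ ∈ C then a C else 0 :=
        Finset.single_le_sum (f := fun C => if κ ∈ C then a C else 0)
          (fun _ _ => Nat.zero_le _) (Finset.mem_univ C)

theorem kCmb (h1 : UppStmt) (h2 : DkStmt) : CmbStmt := by
  classical
  intro m hm
  obtain ⟨B, G, hB, hG, hD⟩ := h2 m hm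
  refine ⟨B, G, hB, hG, ?_⟩
  intro j N
  obtain ⟨D, hD⟩ := hD j N
  refine ⟨D, ?_⟩
  intro n lam L hn ha hbg
  obtain ⟨hfin, hrank⟩ := h1 m (m + m) n lam hn
  refine hrank.trans ?_
  -- the pieces
  set lam' : (Finset (Fin (m + m)) → ℕ) × (Finset (Fin m) → ℕ) → Fin (m + m) → ℤ :=
    fun x i => lam i - row x.1 i - N * row x.2 i with hlam'
  set T : (Finset (Fin (m + m)) → ℕ) × (Finset (Fin m) → ℕ) → Set ((Fin m × Fin (m + m)) →₀ ℕ) :=
    fun x => {d | ∃ nb ng n', S1 m nb x.1 ∧ S0 m ng x.2 ∧ n = nb + N * ng + n' ∧ 1 ≤ ht x.2 j ∧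
      d ∈ E0 m (m + m) n' (lam' x)} with hT
  have κ0 : Fin m := ⟨0, hm⟩
  have hTE : ∀ x ∈ B ×ˢ G, (T x).Finite ∧ B.card * G.card * (T x).ncard ≤ L := by
    intro x hx
    rw [Finset.mem_product] at hx
    rcases (T x).eq_empty_or_nonempty with h | ⟨d, nb, ng, n', h3, h4, h5, h6, -⟩
    · rw [h]
      exact ⟨Set.finite_empty, by rw [Set.ncard_empty, mul_zero]; exact Nat.zero_le _⟩
    · have hsub : T x ⊆ E0 m (m + m) n' (lam' x) := by
        rintro d' ⟨nb', ng', n'', h3', h4', h5', -, h7'⟩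
        have e1 : nb = nb' := by rw [← h3.2.1 κ0, ← h3'.2.1 κ0]
        have e2 : ng = ng' := by rw [← h4.2 κ0, ← h4'.2 κ0]
        have e3 : n' = n'' := by
          subst e1
          subst e2
          omega
        rw [e3]
        exact h7'
      refine ⟨(cmb_E0fin m (m + m) n' _).subset hsub, ?_⟩
      refine le_trans ?_ (hbg x.1 hx.1 x.2 hx.2 h6 nb ng n' h3 h4 h5)
      exact Nat.mul_le_mul_left _ (Set.ncard_le_ncard hsub (cmb_E0fin m (m + m) n' _))
  set F : (Finset (Fin (m + m)) → ℕ) × (Finset (Fin m) → ℕ) → ((Fin m × Fin (m + m)) →₀ ℕ) →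
      ((Fin (m + m) × Fin (m + m)) →₀ ℕ) :=
    fun x d => dA (m + m) x.1 + cmb_push m (m + m) (N • dA (m + m) x.2 + d) with hF
  have hcover : E1 m (m + m) n lam ⊆ ⋃ x ∈ B ×ˢ G, F x '' T x := by
    rintro d ⟨a, ha1, ha2, ha3, rfl⟩
    obtain ⟨b, hb, g, hg, a', n', hS0, hgj, hab⟩ := hD n a ha1 (ha a ha1 ha3)
    obtain ⟨nb, hnb⟩ := hB b hb
    obtain ⟨ng, hng⟩ := hG g hg
    rw [Set.mem_iUnion₂]
    refine ⟨(b, g), Finset.mem_product.mpr ⟨hb, hg⟩, dA (m + m) a', ?_, ?_⟩
    · refine ⟨nb, ng, n', hnb, hng, ?_, hgj, ?_⟩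
      · have h3 := ha1.2.1 κ0
        have h4 := hnb.2.1 κ0
        have h5 := hng.2 κ0
        have h6 := hS0.2 κ0
        rw [hab] at h3
        unfold cont at *
        rw [cmb_decomp b g a' (fun C => Fin.castAdd m κ0 ∈ C) (fun C => κ0 ∈ C)
          (fun C => Finset.mem_map' (Fin.castAddEmb m)), h5, h6] at h3
        omega
      · refine ⟨a', hS0, ?_, ?_, rfl⟩
        · intro C hC
          exfalso
          have h3 := Finset.card_le_univ C
          rw [Fintype.card_fin] at h3
          omega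
        · intro i
          have h3 := ha3 i
          rw [hab] at h3
          have h4 : row (b + up (N • g + a')) i = row b i + (N * row g i + row a' i) :=
            cmb_decomp b g a' (fun C => (i : ℕ) < C.card) (fun C => (i : ℕ) < C.card)
              (fun C => by rw [Finset.card_map])
          rw [h4] at h3
          rw [hlam']
          push_cast at h3
          show (row a' i : ℤ) = lam i - row b i - N * row g i
          linarith
    · show dA (m + m) b + cmb_push m (m + m) (N • dA (m + m) g + dA (m + m) a') = dA (m + m) a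
      rw [hab, cmb_dA_add, cmb_dA_up, cmb_dA_add, cmb_dA_smul]
  have hfinU : (⋃ x ∈ B ×ˢ G, F x '' T x).Finite :=
    (B ×ˢ G).finite_toSet.biUnion (fun x hx => (hTE x hx).1.image _)
  have hle : (E1 m (m + m) n lam).ncard ≤ ∑ x ∈ B ×ˢ G, (T x).ncard := by
    refine (Set.ncard_le_ncard hcover hfinU).trans ?_
    have h3 : ∀ s ⊆ B ×ˢ G, (⋃ x ∈ s, F x '' T x).ncard ≤ ∑ x ∈ s, (T x).ncard := by
      intro s
      induction s using Finset.induction_on with
      | empty => simp
      | insert y s hy ih =>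
        intro hs
        rw [Finset.set_biUnion_insert, Finset.sum_insert hy]
        refine (Set.ncard_union_le _ _).trans ?_
        have h4 := Set.ncard_image_le (f := F y) (hTE y (hs (Finset.mem_insert_self y s))).1
        have h5 := ih ((Finset.subset_insert y s).trans hs)
        omega
    exact h3 _ (Finset.Subset.refl _)
  refine hle.trans ?_
  rcases Nat.eq_zero_or_pos (B.card * G.card) with h0 | h0
  · have h3 : B ×ˢ G = ∅ := by
      rw [← Finset.card_eq_zero, Finset.card_product]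
      exact h0
    rw [h3, Finset.sum_empty]
    exact Nat.zero_le _
  · have h3 : B.card * G.card * ∑ x ∈ B ×ˢ G, (T x).ncard ≤ B.card * G.card * L := by
      rw [Finset.mul_sum]
      calc ∑ x ∈ B ×ˢ G, B.card * G.card * (T x).ncard ≤ ∑ x ∈ B ×ˢ G, L :=
            Finset.sum_le_sum (fun x hx => (hTE x hx).2)
        _ = B.card * G.card * L := by rw [Finset.sum_const, Finset.card_product, smul_eq_mul]
    exact Nat.le_of_mul_le_mul_left h3 h0

end T3

end Pool.Agent.Lib.MP_a688ad_al
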