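import Pool.Agent.Lib.MP_a688ad_al.T3.SpecE

/-!
# MP_a688ad_al, T3: contractions
-/

set_option autoImplicit false

open MvPolynomial Finset

namespace Pool.Agent.Lib.MP_a688ad_al

namespace T3

open T2

section

variable {r k : ℕ}

private theorem cts_swap {n : ℕ} {M : Type} [AddCommMonoid M] (a : Fin n) (i j : Fin r)
    (F : (Fin n → Fin r) → M) :
    ∑ τ : Fin n → Fin r, (if τ a = j then F τ else 0) =
      ∑ τ : Fin n → Fin r, (if τ a = i then F (Function.update τ a j) else 0) := by
  rw [← Finset.sum_filter, ← Finset.sum_filter]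
  refine Finset.sum_nbij' (fun τ => Function.update τ a i) (fun τ => Function.update τ a j)
    ?_ ?_ ?_ ?_ ?_
  · intro τ _
    simp
  · intro τ _
    simp
  · intro τ hτ
    have h1 : τ a = j := (Finset.mem_filter.1 hτ).2
    simp only [Function.update_idem]
    rw [← h1, Function.update_eq_self]
  · intro τ hτ
    have h1 : τ a = i := (Finset.mem_filter.1 hτ).2
    simp only [Function.update_idem]
    rw [← h1, Function.update_eq_self]
  · intro τ hτ
    have h1 : τ a = j := (Finset.mem_filter.1 hτ).2
    simp only [Function.update_idem]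
    rw [← h1, Function.update_eq_self]

private theorem cts_leib {n : ℕ} (D : Derivation ℂ (Ex r k) (Ex r k)) (f : Fin n → Ex r k) :
    D (∏ a, f a) = ∑ a, (∏ b ∈ Finset.univ.erase a, f b) * D (f a) := by
  classical
  have h : ∀ s : Finset (Fin n), D (∏ a ∈ s, f a) = ∑ a ∈ s, (∏ b ∈ s.erase a, f b) * D (f a) := by
    intro s
    induction s using Finset.induction_on with
    | empty => simp
    | insert x s hx ih =>
      rw [Finset.prod_insert hx, Derivation.leibniz, ih, Finset.sum_insert hx,
        Finset.erase_insert hx, smul_eq_mul, smul_eq_mul, Finset.mul_sum, add_comm]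
      congr 1
      refine Finset.sum_congr rfl fun a ha => ?_
      have hxa : x ≠ a := fun h => hx (h ▸ ha)
      rw [Finset.erase_insert_of_ne hxa, Finset.prod_insert fun h => hx (Finset.mem_of_mem_erase h)]
      ring
  exact h Finset.univ

private theorem cts_inv {n : ℕ} (i j : Fin r) (v : Fin n → Fin r → Ex r k)
    (hv : ∀ a l, DX i j (v a l) = if l = i then -v a j else 0)
    (G E : (Fin n → Fin r) → Ex r k)
    (hG : ∀ τ, DX i j (G τ) = E τ + ∑ a, if τ a = j then G (Function.update τ a i) else 0) :
    DX i j (∑ τ : Fin n → Fin r, (∏ a, v a (τ a)) * G τ) =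
      ∑ τ : Fin n → Fin r, (∏ a, v a (τ a)) * E τ := by
  classical
  rw [map_sum]
  have h1 : ∀ τ : Fin n → Fin r, DX i j ((∏ a, v a (τ a)) * G τ) =
      (∏ a, v a (τ a)) * E τ +
        (∑ a, (if τ a = j then (∏ b, v b (τ b)) * G (Function.update τ a i) else 0) -
          ∑ a, (if τ a = i then (∏ b ∈ Finset.univ.erase a, v b (τ b)) * v a j * G τ else 0)) := by
    intro τ
    rw [Derivation.leibniz, hG, smul_eq_mul, smul_eq_mul, cts_leib, mul_add, add_assoc]
    congr 1
    rw [Finset.mul_sum, Finset.mul_sum, sub_eq_add_neg, ← Finset.sum_neg_distrib]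
    congr 1
    · refine Finset.sum_congr rfl fun a _ => ?_
      split_ifs <;> ring
    · refine Finset.sum_congr rfl fun a _ => ?_
      rw [hv]
      split_ifs <;> ring
  rw [Finset.sum_congr rfl fun τ _ => h1 τ, Finset.sum_add_distrib, Finset.sum_sub_distrib]
  rw [Finset.sum_comm, Finset.sum_comm (f := fun (τ : Fin n → Fin r) (a : Fin n) =>
    if τ a = i then (∏ b ∈ Finset.univ.erase a, v b (τ b)) * v a j * G τ else 0)]
  rw [← Finset.sum_sub_distrib]
  rw [Finset.sum_eq_zero (s := (Finset.univ : Finset (Fin n))), add_zero]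
  intro a _
  rw [sub_eq_zero, cts_swap a i j]
  refine Finset.sum_congr rfl fun τ _ => ?_
  split_ifs with h
  · rw [Function.update_idem]
    have h2 : Function.update τ a i = τ := by
      rw [← h, Function.update_eq_self]
    rw [h2]
    congr 1
    rw [← Finset.mul_prod_erase Finset.univ _ (Finset.mem_univ a), Function.update_self, mul_comm]
    congr 1
    refine Finset.prod_congr rfl fun b hb => ?_
    rw [Function.update_of_ne (Finset.ne_of_mem_erase hb)]
  · rfl

private theorem cts_hom {n : ℕ} (β : Fin n → Fin r → ℤ) (c : Fin n → Fin (k + 1) → ℤ)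
    (q : Fin n → ℤ) (γ : Fin r → ℤ) (v : Fin n → Fin r → Ex r k)
    (hv : ∀ a l, IsWeightedHomogeneous WE (v a l) (β a - sg l, c a, q a))
    (G : (Fin n → Fin r) → Ex r k)
    (hG : ∀ τ, IsWeightedHomogeneous WE (G τ) (γ + ∑ a, sg (τ a), 0, 1)) :
    IsWeightedHomogeneous WE (∑ τ : Fin n → Fin r, (∏ a, v a (τ a)) * G τ)
      (∑ a, β a + γ, ∑ a, c a, ∑ a, q a + 1) := by
  refine IsWeightedHomogeneous.sum _ _ _ fun τ _ => ?_
  have h1 := (IsWeightedHomogeneous.prod Finset.univ (fun a => v a (τ a))
    (fun a => (β a - sg (τ a), c a, q a)) fun a _ => hv a (τ a)).mul (hG τ)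
  have h2 : (∑ a, (β a - sg (τ a), c a, q a)) + (γ + ∑ a, sg (τ a), (0 : Fin (k + 1) → ℤ), (1 : ℤ)) =
      (∑ a, β a + γ, ∑ a, c a, ∑ a, q a + 1) := by
    refine Prod.ext ?_ (Prod.ext ?_ ?_)
    · simp only [Prod.fst_add, Prod.fst_sum, Finset.sum_sub_distrib]
      abel
    · simp only [Prod.snd_add, Prod.fst_add, Prod.snd_sum, Prod.fst_sum, add_zero]
    · simp only [Prod.snd_add, Prod.snd_sum]
  rw [h2] at h1
  exact h1

end

theorem kCts (h : GgStmt) : CtsStmt := by
  classical
  refine ⟨fun r k β c q v hv => ?_, fun r k β c q v hv => ?_⟩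
  · refine ⟨?_, fun i j hij => ?_, ?_⟩
    · have h1 := cts_hom β c q 0 v (fun a l => (hv a).hom l) (fun τ => gg τ)
        (fun τ => by
          rw [zero_add]
          exact (h r k τ).2.1)
      rw [add_zero] at h1
      exact h1
    · have h1 := cts_inv i j v (fun a l => (hv a).inv i j l hij) (fun τ => gg τ) (fun _ => 0)
        (fun τ => by
          rw [zero_add]
          exact (h r k τ).2.2.1 i j)
      unfold ct
      rw [h1]
      simp
    · unfold ct
      rw [map_sum]
      refine Finset.sum_congr rfl fun τ _ => ?_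
      rw [map_mul, map_prod, (h r k τ).2.2.2]
      congr 1
      exact Finset.prod_congr rfl fun a _ => (hv a).prj _
  · refine ⟨fun l => ?_, fun i j l hij => ?_, fun l => ?_⟩
    · refine cts_hom β c q (sg l) v (fun a l => (hv a).hom l) (fun τ => gg (Fin.cons l τ))
        (fun τ => ?_)
      have h1 := (h r k (Fin.cons l τ)).2.1
      rw [Fin.sum_univ_succ] at h1
      simp only [Fin.cons_zero, Fin.cons_succ] at h1
      exact h1
    · have h1 := cts_inv i j v (fun a l => (hv a).inv i j l hij) (fun τ => gg (Fin.cons l τ))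
        (fun τ => if l = j then gg (Fin.cons i τ) else 0)
        (fun τ => by
          rw [(h r k (Fin.cons l τ)).2.2.1 i j, Fin.sum_univ_succ]
          simp only [Fin.cons_zero, Fin.cons_succ, Fin.update_cons_zero]
          congr 1
          refine Finset.sum_congr rfl fun a _ => ?_
          rw [← Fin.cons_update])
      unfold cv
      rw [h1]
      split_ifs with hl
      · rfl
      · simp
    · unfold cv
      rw [map_sum]
      refine Finset.sum_congr rfl fun τ _ => ?_
      rw [map_mul, map_prod, (h r k (Fin.cons l τ)).2.2.2]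
      congr 1
      exact Finset.prod_congr rfl fun a _ => (hv a).prj _

end T3

end Pool.Agent.Lib.MP_a688ad_al
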