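import Pool.Agent.Lib.MP_a688ad_al.T2.Spec

/-!
# MP_a688ad_al, all large `n`: definitions

Particles are `κ : Fin K` with coordinates `z κ i`, `i : Fin r` (covectors of `V = ℂ^r`).
Columns are finite sets `C` of particles.
-/

set_option autoImplicit false

open MvPolynomial Finset

namespace Pool.Agent.Lib.MP_a688ad_al

namespace T3

open T2

/-! ## Columns -/

section Columns

variable {K : ℕ}

/-- The number of columns which contain `κ`. -/
def cont (a : Finset (Fin K) → ℕ) (κ : Fin K) : ℕ := ∑ C, if κ ∈ C then a C else 0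

/-- The number of columns of height `j`. -/
def ht (a : Finset (Fin K) → ℕ) (j : ℕ) : ℕ := ∑ C, if C.card = j then a C else 0

/-- The number of columns of height `> i`, that is the length of the row `i`. -/
def row (a : Finset (Fin K) → ℕ) (i : ℕ) : ℕ := ∑ C, if i < C.card then a C else 0

/-- The exponent of the diagonal monomial of a column: `κ ∈ C` is at the height
`#{κ' ∈ C | κ' < κ}`. -/
noncomputable def dC (r : ℕ) (C : Finset (Fin K)) : (Fin K × Fin r) →₀ ℕ :=
  Finsupp.equivFunOnFinite.symm fun p =>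
    if p.1 ∈ C ∧ (C.filter (· < p.1)).card = (p.2 : ℕ) then 1 else 0

/-- The exponent of the diagonal monomial of a multiset of columns. -/
noncomputable def dA (r : ℕ) (a : Finset (Fin K) → ℕ) : (Fin K × Fin r) →₀ ℕ := ∑ C, a C • dC r C

/-- Multisets of columns in which each of the first `m` particles occurs `n - 1` times and each of the
other ones occurs once. -/
def S1 (m n : ℕ) (a : Finset (Fin (m + m)) → ℕ) : Prop :=
  a ∅ = 0 ∧ (∀ κ : Fin m, cont a (Fin.castAdd m κ) + 1 = n) ∧
    ∀ κ : Fin m, cont a (Fin.natAdd m κ) = 1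

/-- Multisets of columns in which each particle occurs `n` times. -/
def S0 (m n : ℕ) (a : Finset (Fin m) → ℕ) : Prop := a ∅ = 0 ∧ ∀ κ, cont a κ = n

/-- Columns of the first `m` particles, as columns of all particles. -/
def up {m : ℕ} (a : Finset (Fin m) → ℕ) (C : Finset (Fin (m + m))) : ℕ :=
  ∑ C' : Finset (Fin m), if C'.map (Fin.castAddEmb m) = C then a C' else 0

/-- The exponents of the columns in `S1` with row lengths `lam`. -/
def E1 (m r n : ℕ) (lam : Fin r → ℤ) : Set ((Fin (m + m) × Fin r) →₀ ℕ) :=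
  {d | ∃ a, S1 m n a ∧ (∀ C, r < C.card → a C = 0) ∧ (∀ i : Fin r, (row a i : ℤ) = lam i) ∧
    dA r a = d}

/-- The exponents of the columns in `S0` with row lengths `lam`. -/
def E0 (m r n : ℕ) (lam : Fin r → ℤ) : Set ((Fin m × Fin r) →₀ ℕ) :=
  {d | ∃ a, S0 m n a ∧ (∀ C, r < C.card → a C = 0) ∧ (∀ i : Fin r, (row a i : ℤ) = lam i) ∧
    dA r a = d}

end Columns

/-! ## Particles -/

/-- Polynomials in the coordinates of `K` particles. -/
abbrev Z (K r : ℕ) := MvPolynomial (Fin K × Fin r) ℂ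

/-- The derivations `∑_κ z κ i ∂/∂(z κ j)`. -/
noncomputable def DZ {K r : ℕ} (i j : Fin r) : Derivation ℂ (Z K r) (Z K r) :=
  mkDerivation ℂ fun p => if p.2 = j then X (p.1, i) else 0

/-- Weight and content of a coordinate. -/
def WZ {K r : ℕ} (p : Fin K × Fin r) : (Fin r → ℤ) × (Fin K → ℤ) := (sg p.2, sg p.1)

/-- Permutation of the particles. -/
noncomputable def rz {K r : ℕ} (σ : Equiv.Perm (Fin K)) : Z K r →ₐ[ℂ] Z K r :=
  rename (Prod.map σ id)

/-- The covector made of the first `j` coordinates: the weight of a `j × j` minor. -/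
def om {r : ℕ} (j : ℕ) : Fin r → ℤ := fun i => if (i : ℕ) < j then 1 else 0

/-! ## `k + 1` particles and a generic element of `V ⊗ Sym^k V` -/

variable {r k : ℕ}

/-- Polynomials in the coordinates of `k + 1` particles and of a generic element `T` of the dual of
`V ⊗ Sym^k V`. -/
abbrev Ex (r k : ℕ) := MvPolynomial (Fin (k + 1) × Fin r ⊕ Ib r k) ℂ

/-- The action of `gl_r`. -/
noncomputable def DX (i j : Fin r) : Derivation ℂ (Ex r k) (Ex r k) :=
  mkDerivation ℂ (Sum.elim (fun p => if p.2 = j then X (Sum.inl (p.1, i)) else 0)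
    fun p => rename Sum.inr (DE i j (X p)))

/-- Weight, content, and degree in `T`. -/
def WE : Fin (k + 1) × Fin r ⊕ Ib r k → (Fin r → ℤ) × (Fin (k + 1) → ℤ) × ℤ :=
  Sum.elim (fun p => (sg p.2, sg p.1, 0)) fun p => (wt p, 0, 1)

/-- Permutation of the particles. -/
noncomputable def rs (σ : Equiv.Perm (Fin (k + 1))) : Ex r k →ₐ[ℂ] Ex r k :=
  rename (Sum.map (Prod.map σ id) id)

/-- The sum over all choices of the distinguished letter. -/
noncomputable def sym (p : Ib r k) : MvPolynomial (Ib r k) ℂ :=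
  X p + (p.2.1.map fun c => X (c, rp p.2 c p.1)).sum

/-- The part of `X p` without symmetric component. -/
noncomputable def dg (p : Ib r k) : MvPolynomial (Ib r k) ℂ := X p - (1 / ((k : ℂ) + 1)) • sym p

/-- The projection to the part without symmetric component. -/
noncomputable def pr : Ex r k →ₐ[ℂ] Ex r k :=
  aeval (Sum.elim (fun p => X (Sum.inl p)) fun p => rename Sum.inr (dg p))

/-- `∑_σ ∏_κ z (σ κ) (τ κ)` for the letters `τ` of `p` (in polarized form). -/
noncomputable def el (p : Ib r k) : Z (k + 1) r :=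
  ∑ A : Finset (Fin (k + 1)), ((-1 : ℂ) ^ (k + 1 - A.card)) •
    ((p.1 ::ₘ p.2.1).map fun c => ∑ κ ∈ A, X (κ, c)).prod

/-- Evaluation at the tensor `∏ x_κ + g`, where `g` is generic without symmetric component. -/
noncomputable def Ev : MvPolynomial (Ib r k) ℂ →ₐ[ℂ] Ex r k :=
  aeval fun p => rename Sum.inl (el p) + rename Sum.inr (dg p)

/-- The coordinates of `g`. -/
noncomputable def gg (τ : Fin (k + 1) → Fin r) : Ex r k :=
  rename Sum.inr (dg (τ 0, sy fun a => τ a.succ))

/-- The covector of the particle `κ`. -/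
noncomputable def xx (κ : Fin (k + 1)) (i : Fin r) : Ex r k := X (Sum.inl (κ, i))

/-- The minor of the first `p` coordinates of `p` covectors. -/
noncomputable def brk {R : Type} [CommRing R] (p : ℕ) (hp : p ≤ r) (ξ : Fin p → Fin r → R) : R :=
  Matrix.det (Matrix.of fun a b => ξ a (Fin.castLE hp b))

/-- The vector `v` with `ζ(v) = brk (ξ_1, ..., ξ_i, ζ)`. -/
noncomputable def vc {R : Type} [CommRing R] (i : ℕ) (hi : i + 1 ≤ r) (ξ : Fin i → Fin r → R)
    (l : Fin r) : R :=
  brk (i + 1) hi (Fin.snoc ξ fun l' => if l' = l then 1 else 0)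

/-- The contraction of `g` with `k + 1` vectors; the first one is put in the distinguished place. -/
noncomputable def ct (v : Fin (k + 1) → Fin r → Ex r k) : Ex r k :=
  ∑ τ : Fin (k + 1) → Fin r, (∏ a, v a (τ a)) * gg τ

/-- The contraction of `g` with `k` vectors, the distinguished place stays free. -/
noncomputable def cv (v : Fin k → Fin r → Ex r k) (l : Fin r) : Ex r k :=
  ∑ τ : Fin k → Fin r, (∏ a, v a (τ a)) * gg (Fin.cons l τ)

/-- Scalars: homogeneous elements killed by the raising operators, in the variables `x`, `g`. -/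
structure Sc (β : Fin r → ℤ) (c : Fin (k + 1) → ℤ) (q : ℤ) (F : Ex r k) : Prop where
  hom : IsWeightedHomogeneous WE F (β, c, q)
  inv : ∀ i j, i < j → DX i j F = 0
  prj : pr F = F

/-- Covectors. -/
structure Cv (β : Fin r → ℤ) (c : Fin (k + 1) → ℤ) (q : ℤ) (ξ : Fin r → Ex r k) : Prop where
  hom : ∀ l, IsWeightedHomogeneous WE (ξ l) (β + sg l, c, q)
  inv : ∀ i j l, i < j → DX i j (ξ l) = if l = j then ξ i else 0
  prj : ∀ l, pr (ξ l) = ξ l

/-- Vectors. -/
structure Vc (β : Fin r → ℤ) (c : Fin (k + 1) → ℤ) (q : ℤ) (v : Fin r → Ex r k) : Prop where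
  hom : ∀ l, IsWeightedHomogeneous WE (v l) (β - sg l, c, q)
  inv : ∀ i j l, i < j → DX i j (v l) = if l = i then -v j else 0
  prj : ∀ l, pr (v l) = v l

/-! ## Small lemmas -/

theorem Sc.mul {β β' : Fin r → ℤ} {c c' : Fin (k + 1) → ℤ} {q q' : ℤ} {F G : Ex r k}
    (h : Sc β c q F) (h' : Sc β' c' q' G) : Sc (β + β') (c + c') (q + q') (F * G) := by
  refine ⟨h.hom.mul h'.hom, fun i j hij => ?_, by rw [map_mul, h.prj, h'.prj]⟩
  rw [Derivation.leibniz, h.inv i j hij, h'.inv i j hij, smul_zero, smul_zero, add_zero]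

theorem Sc.one : Sc (0 : Fin r → ℤ) (0 : Fin (k + 1) → ℤ) 0 (1 : Ex r k) :=
  ⟨isWeightedHomogeneous_one _ _, fun i j _ => Derivation.map_one_eq_zero _, map_one _⟩

theorem Sc.pow {β : Fin r → ℤ} {c : Fin (k + 1) → ℤ} {q : ℤ} {F : Ex r k}
    (h : Sc β c q F) (n : ℕ) : Sc (n • β) (n • c) (n • q) (F ^ n) := by
  induction n with
  | zero => simpa using Sc.one
  | succ n ih =>
    rw [pow_succ, succ_nsmul, succ_nsmul, succ_nsmul]
    exact ih.mul h

theorem Sc.prod {ι : Type} (s : Finset ι) (β : ι → Fin r → ℤ) (c : ι → Fin (k + 1) → ℤ)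
    (q : ι → ℤ) (F : ι → Ex r k) (h : ∀ i ∈ s, Sc (β i) (c i) (q i) (F i)) :
    Sc (∑ i ∈ s, β i) (∑ i ∈ s, c i) (∑ i ∈ s, q i) (∏ i ∈ s, F i) := by
  classical
  induction s using Finset.induction_on with
  | empty => simpa using Sc.one
  | insert a s ha ih =>
    rw [Finset.sum_insert ha, Finset.sum_insert ha, Finset.sum_insert ha, Finset.prod_insert ha]
    exact (h a (Finset.mem_insert_self a s)).mul (ih fun i hi => h i (Finset.mem_insert_of_mem hi))

theorem Sc.add {β : Fin r → ℤ} {c : Fin (k + 1) → ℤ} {q : ℤ} {F G : Ex r k}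
    (h : Sc β c q F) (h' : Sc β c q G) : Sc β c q (F + G) := by
  refine ⟨h.hom.add h'.hom, fun i j hij => ?_, by rw [map_add, h.prj, h'.prj]⟩
  rw [map_add, h.inv i j hij, h'.inv i j hij, add_zero]

theorem Sc.zero {β : Fin r → ℤ} {c : Fin (k + 1) → ℤ} {q : ℤ} : Sc β c q (0 : Ex r k) :=
  ⟨isWeightedHomogeneous_zero _ _ _, fun i j _ => map_zero _, map_zero _⟩

theorem Sc.sum {ι : Type} (s : Finset ι) {β : Fin r → ℤ} {c : Fin (k + 1) → ℤ} {q : ℤ}
    (F : ι → Ex r k) (h : ∀ i ∈ s, Sc β c q (F i)) : Sc β c q (∑ i ∈ s, F i) := by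
  classical
  induction s using Finset.induction_on with
  | empty => simpa using Sc.zero
  | insert a s ha ih =>
    rw [Finset.sum_insert ha]
    exact (h a (Finset.mem_insert_self a s)).add (ih fun i hi => h i (Finset.mem_insert_of_mem hi))

theorem Sc.smul {β : Fin r → ℤ} {c : Fin (k + 1) → ℤ} {q : ℤ} {F : Ex r k}
    (h : Sc β c q F) (t : ℂ) : Sc β c q (t • F) := by
  refine ⟨?_, fun i j hij => ?_, by rw [map_smul, h.prj]⟩
  · rw [← mem_weightedHomogeneousSubmodule ℂ] at *
    exact Submodule.smul_mem _ _ h.hom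
  · rw [Derivation.map_smul, h.inv i j hij, smul_zero]

theorem xx_Cv (κ : Fin (k + 1)) : Cv (0 : Fin r → ℤ) (sg κ) 0 (xx κ : Fin r → Ex r k) := by
  refine ⟨fun l => ?_, fun i j l _ => ?_, fun l => ?_⟩
  · have h := isWeightedHomogeneous_X ℂ (WE : Fin (k + 1) × Fin r ⊕ Ib r k → _) (Sum.inl (κ, l))
    rw [zero_add]
    exact h
  · unfold xx DX
    rw [mkDerivation_X]
    rfl
  · unfold xx pr
    rw [aeval_X]
    rfl

theorem rs_xx (σ : Equiv.Perm (Fin (k + 1))) (κ : Fin (k + 1)) (i : Fin r) :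
    rs σ (xx κ i) = (xx (σ κ) i : Ex r k) := by
  unfold rs xx
  rw [rename_X]
  rfl

theorem rs_gg (σ : Equiv.Perm (Fin (k + 1))) (τ : Fin (k + 1) → Fin r) :
    rs σ (gg τ) = (gg τ : Ex r k) := by
  unfold rs gg
  rw [rename_rename]
  rfl

end T3

end Pool.Agent.Lib.MP_a688ad_al
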