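import Pool.Agent.Lib.MP_a688ad_al.T3.SpecU
import Mathlib.Order.WellQuasiOrder

/-!
# MP_a688ad_al, D1: Dickson's lemma for columns
-/

set_option autoImplicit false

open MvPolynomial Finset

namespace Pool.Agent.Lib.MP_a688ad_al

namespace T3

open T2

private theorem dk_dickson {ι : Type} [Finite ι] (S : Set (ι → ℕ)) :
    ∃ B : Finset (ι → ℕ), (∀ b ∈ B, b ∈ S) ∧ ∀ a ∈ S, ∃ b ∈ B, b ≤ a := by
  classical
  have hfin : {b | Minimal (· ∈ S) b}.Finite := by
    apply WellQuasiOrderedLE.finite_of_isAntichain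
    intro x hx y hy hxy hle
    exact hxy ((hy.eq_of_le hx.prop hle))
  refine ⟨hfin.toFinset, ?_, ?_⟩
  · intro b hb
    rw [Set.Finite.mem_toFinset] at hb
    exact hb.prop
  · intro a ha
    obtain ⟨b, hb, hmin⟩ := exists_minimal_le_of_wellFoundedLT (· ∈ S) a ha
    exact ⟨b, by rw [Set.Finite.mem_toFinset]; exact hmin, hb⟩

private theorem dk_add {K : ℕ} (P : Finset (Fin K) → Prop) [DecidablePred P]
    (a b : Finset (Fin K) → ℕ) : ∑ C, (if P C then (a + b) C else 0) =
      ∑ C, (if P C then a C else 0) + ∑ C, if P C then b C else 0 := by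
  rw [← Finset.sum_add_distrib]
  refine Finset.sum_congr rfl (fun C _ => ?_)
  split_ifs
  · rfl
  · rfl

private theorem dk_smul {K : ℕ} (P : Finset (Fin K) → Prop) [DecidablePred P] (N : ℕ)
    (a : Finset (Fin K) → ℕ) : ∑ C, (if P C then (N • a) C else 0) =
      N * ∑ C, (if P C then a C else 0) := by
  rw [Finset.mul_sum]
  refine Finset.sum_congr rfl (fun C _ => ?_)
  split_ifs
  · rfl
  · rfl

private theorem dk_sum {K : ℕ} (P : Finset (Fin K) → Prop) [DecidablePred P]
    (G : Finset (Finset (Fin K) → ℕ)) (e : (Finset (Fin K) → ℕ) → ℕ) :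
    ∑ C, (if P C then (∑ g ∈ G, e g • g) C else 0) =
      ∑ g ∈ G, e g * ∑ C, (if P C then g C else 0) := by
  simp only [Finset.mul_sum]
  rw [Finset.sum_comm]
  refine Finset.sum_congr rfl (fun C _ => ?_)
  split_ifs
  · rw [Finset.sum_apply]
    rfl
  · simp

private theorem dk_up {m : ℕ} (P : Finset (Fin (m + m)) → Prop) [DecidablePred P]
    (a : Finset (Fin m) → ℕ) : ∑ C, (if P C then up a C else 0) =
      ∑ C' : Finset (Fin m), if P (C'.map (Fin.castAddEmb m)) then a C' else 0 := by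
  unfold up
  have h1 : ∀ C : Finset (Fin (m + m)), (if P C then
      (∑ C' : Finset (Fin m), if C'.map (Fin.castAddEmb m) = C then a C' else 0) else 0) =
      ∑ C' : Finset (Fin m), if C'.map (Fin.castAddEmb m) = C then
        (if P (C'.map (Fin.castAddEmb m)) then a C' else 0) else 0 := by
    intro C
    by_cases h : P C
    · rw [if_pos h]
      refine Finset.sum_congr rfl (fun C' _ => ?_)
      by_cases h2 : C'.map (Fin.castAddEmb m) = C
      · rw [if_pos h2, if_pos h2, if_pos (by rw [h2]; exact h)]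
      · rw [if_neg h2, if_neg h2]
    · rw [if_neg h]
      symm
      apply Finset.sum_eq_zero
      intro C' _
      by_cases h2 : C'.map (Fin.castAddEmb m) = C
      · rw [if_pos h2, if_neg (by rw [h2]; exact h)]
      · rw [if_neg h2]
  rw [Finset.sum_congr rfl (fun C _ => h1 C), Finset.sum_comm]
  refine Finset.sum_congr rfl (fun C' _ => ?_)
  rw [Finset.sum_ite_eq]
  simp

private theorem dk_up_add {m : ℕ} (a b : Finset (Fin m) → ℕ) : up (a + b) = up a + up b := by
  funext C
  unfold up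
  rw [Pi.add_apply, ← Finset.sum_add_distrib]
  refine Finset.sum_congr rfl (fun C _ => ?_)
  split_ifs
  · rfl
  · rfl

/-- closure under differences -/
private theorem dk_S0sub {m na nb : ℕ} {a b : Finset (Fin m) → ℕ} (ha : S0 m na a)
    (hb : S0 m nb b) (h : b ≤ a) : S0 m (na - nb) (a - b) := by
  refine ⟨?_, fun κ => ?_⟩
  · rw [Pi.sub_apply, ha.1, hb.1]
  · have h1 := dk_add (fun C => κ ∈ C) b (a - b)
    rw [add_tsub_cancel_of_le h] at h1
    have h2 := ha.2 κ
    have h3 := hb.2 κ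
    unfold cont at *
    omega

private theorem dk_S0smul {m n : ℕ} {a : Finset (Fin m) → ℕ} (ha : S0 m n a) (N : ℕ) :
    S0 m (N * n) (N • a) := by
  refine ⟨?_, fun κ => ?_⟩
  · rw [Pi.smul_apply, ha.1, smul_zero]
  · unfold cont
    rw [dk_smul, ← ha.2 κ]
    rfl

private theorem dk_decomp {m : ℕ} (G : Finset (Finset (Fin m) → ℕ))
    (hG : ∀ g ∈ G, (∃ n, S0 m n g) ∧ g ≠ 0)
    (hG2 : ∀ a, (∃ n, S0 m n a) → a ≠ 0 → ∃ g ∈ G, g ≤ a) :
    ∀ M : ℕ, ∀ a, (∃ n, S0 m n a) → ∑ C, a C ≤ M →
      ∃ e : (Finset (Fin m) → ℕ) → ℕ, a = ∑ g ∈ G, e g • g := by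
  classical
  intro M
  induction M with
  | zero =>
    intro a _ h
    refine ⟨fun _ => 0, ?_⟩
    have h1 : ∀ C ∈ (univ : Finset (Finset (Fin m))), a C = 0 := by
      rw [← Finset.sum_eq_zero_iff]
      omega
    funext C
    rw [h1 C (Finset.mem_univ C)]
    simp
  | succ M ih =>
    intro a ha h
    by_cases h0 : a = 0
    · exact ⟨fun _ => 0, by rw [h0]; simp⟩
    · obtain ⟨g, hg, hga⟩ := hG2 a ha h0
      obtain ⟨na, hna⟩ := ha
      obtain ⟨⟨ng, hng⟩, hg0⟩ := hG g hg
      have h1 : a = g + (a - g) := (add_tsub_cancel_of_le hga).symm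
      have h2 : ∑ C, a C = ∑ C, g C + ∑ C, (a - g) C := by
        rw [← Finset.sum_add_distrib]
        exact Finset.sum_congr rfl (fun C _ => congrFun h1 C)
      have h3 : 1 ≤ ∑ C, g C := by
        by_contra h3
        have h4 : ∑ C, g C = 0 := by omega
        rw [Finset.sum_eq_zero_iff] at h4
        exact hg0 (funext fun C => h4 C (Finset.mem_univ C))
      obtain ⟨e, he⟩ := ih (a - g) ⟨_, dk_S0sub hna hng hga⟩ (by omega)
      refine ⟨fun g' => e g' + if g' = g then 1 else 0, ?_⟩
      rw [h1, he]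
      simp only [add_smul, Finset.sum_add_distrib, ite_smul, one_smul, zero_smul]
      rw [Finset.sum_ite_eq' G g, if_pos hg, add_comm]

theorem kDk : DkStmt := by
  classical
  intro m hm
  obtain ⟨B, hB1, hB2⟩ := dk_dickson {a : Finset (Fin (m + m)) → ℕ | ∃ n, S1 m n a}
  obtain ⟨G, hG1, hG2⟩ := dk_dickson {a : Finset (Fin m) → ℕ | (∃ n, S0 m n a) ∧ a ≠ 0}
  refine ⟨B, G, hB1, fun g hg => (hG1 g hg).1, ?_⟩
  intro j N
  refine ⟨∑ b ∈ B, ht b j + N * ∑ g ∈ G, ht g j + 1, ?_⟩
  intro n a ha hD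
  obtain ⟨b, hb, hba⟩ := hB2 a ⟨n, ha⟩
  obtain ⟨nb, hnb⟩ := hB1 b hb
  have hab : a = b + (a - b) := (add_tsub_cancel_of_le hba).symm
  -- contents of the difference
  have hc1 : ∀ κ : Fin m, cont (a - b) (Fin.castAdd m κ) = n - nb := by
    intro κ
    have h1 := dk_add (fun C => Fin.castAdd m κ ∈ C) b (a - b)
    rw [← hab] at h1
    have h2 := ha.2.1 κ
    have h3 := hnb.2.1 κ
    unfold cont at *
    omega
  have hc2 : ∀ κ : Fin m, cont (a - b) (Fin.natAdd m κ) = 0 := by
    intro κ
    have h1 := dk_add (fun C => Fin.natAdd m κ ∈ C) b (a - b)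
    rw [← hab] at h1
    have h2 := ha.2.2 κ
    have h3 := hnb.2.2 κ
    unfold cont at *
    omega
  set a' : Finset (Fin m) → ℕ := fun C' => (a - b) (C'.map (Fin.castAddEmb m)) with ha'
  have hup : up a' = a - b := by
    funext C
    by_cases hC : ∃ C' : Finset (Fin m), C'.map (Fin.castAddEmb m) = C
    · obtain ⟨C', rfl⟩ := hC
      unfold up
      rw [Finset.sum_eq_single C']
      · rw [if_pos rfl]
      · intro C'' _ hne
        rw [if_neg]
        intro h
        exact hne (Finset.map_injective _ h)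
      · intro h
        exact absurd (Finset.mem_univ C') h
    · have h1 : up a' C = 0 := by
        unfold up
        apply Finset.sum_eq_zero
        intro C' _
        rw [if_neg (fun h => hC ⟨C', h⟩)]
      rw [h1]
      by_contra h2
      apply hC
      refine ⟨univ.filter (fun κ => Fin.castAdd m κ ∈ C), ?_⟩
      ext x
      rw [Finset.mem_map]
      constructor
      · rintro ⟨κ, hκ, rfl⟩
        rw [Finset.mem_filter] at hκ
        exact hκ.2
      · intro hx
        refine Fin.addCases (motive := fun x => x ∈ C → ∃ a ∈ univ.filter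
          (fun κ => Fin.castAdd m κ ∈ C), Fin.castAddEmb m a = x) ?_ ?_ x hx
        · intro κ hκ
          exact ⟨κ, by rw [Finset.mem_filter]; exact ⟨Finset.mem_univ _, hκ⟩, rfl⟩
        · intro κ hκ
          exfalso
          have h3 := hc2 κ
          unfold cont at h3
          rw [Finset.sum_eq_zero_iff] at h3
          have h4 := h3 C (Finset.mem_univ C)
          rw [if_pos hκ] at h4
          exact h2 h4.symm
  have hS0 : S0 m (n - nb) a' := by
    refine ⟨?_, fun κ => ?_⟩
    · rw [ha']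
      show (a - b) (Finset.map (Fin.castAddEmb m) ∅) = 0
      rw [Finset.map_empty, Pi.sub_apply, ha.1, hnb.1]
    · rw [← hc1 κ, ← hup]
      unfold cont
      rw [dk_up]
      refine Finset.sum_congr rfl (fun C' _ => ?_)
      have h1 : (Fin.castAdd m κ ∈ C'.map (Fin.castAddEmb m)) ↔ κ ∈ C' := by
        exact Finset.mem_map' (Fin.castAddEmb m)
      by_cases h2 : κ ∈ C'
      · rw [if_pos h2, if_pos (h1.mpr h2)]
      · rw [if_neg h2, if_neg (fun h => h2 (h1.mp h))]
  obtain ⟨e, he⟩ := dk_decomp G hG1 (fun a h1 h2 => hG2 a ⟨h1, h2⟩) _ a' ⟨_, hS0⟩ le_rfl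
  -- heights
  have hh1 : ht a j = ht b j + ht a' j := by
    have h1 := dk_add (fun C => C.card = j) b (a - b)
    rw [← hab] at h1
    have h2 : ht (a - b) j = ht a' j := by
      rw [← hup]
      unfold ht
      rw [dk_up]
      simp only [Finset.card_map]
    rw [← h2]
    exact h1
  have hh2 : ht a' j = ∑ g ∈ G, e g * ht g j := by
    rw [he]
    exact dk_sum (fun C => C.card = j) G e
  have hh3 : ht b j ≤ ∑ b ∈ B, ht b j :=
    Finset.single_le_sum (f := fun b => ht b j) (fun _ _ => Nat.zero_le _) hb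
  have hex : ∃ g ∈ G, 1 ≤ ht g j ∧ N ≤ e g := by
    by_contra hcon
    push Not at hcon
    have h1 : ∑ g ∈ G, e g * ht g j ≤ N * ∑ g ∈ G, ht g j := by
      rw [Finset.mul_sum]
      apply Finset.sum_le_sum
      intro g hg
      rcases Nat.eq_zero_or_pos (ht g j) with h2 | h2
      · rw [h2, mul_zero, mul_zero]
      · exact Nat.mul_le_mul_right _ (hcon g hg h2).le
    omega
  obtain ⟨g, hg, hgj, hN⟩ := hex
  obtain ⟨⟨ng, hng⟩, -⟩ := hG1 g hg
  have hle : N • g ≤ a' := by
    rw [he]
    have h1 : N • g ≤ e g • g := by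
      intro C
      exact Nat.mul_le_mul_right _ hN
    refine h1.trans ?_
    exact Finset.single_le_sum (f := fun g => e g • g) (fun _ _ => zero_le) hg
  refine ⟨b, hb, g, hg, a' - N • g, _, dk_S0sub hS0 (dk_S0smul hng N) hle, hgj, ?_⟩
  rw [add_tsub_cancel_of_le hle, hup]
  exact hab

end T3

end Pool.Agent.Lib.MP_a688ad_al
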