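import Pool.Agent.Lib.MP_a688ad_al.T3.SpecL

/-!
# MP_a688ad_al, T3: module Ef0 (helper18), finiteness of `E0`
-/

set_option autoImplicit false

open MvPolynomial Finset

namespace Pool.Agent.Lib.MP_a688ad_al

namespace T3

open T2

/-- the multiplicities of the columns are bounded -/
theorem ef0_le {m n : ℕ} {a : Finset (Fin m) → ℕ} (h : S0 m n a) (C : Finset (Fin m)) :
    a C ≤ n := by
  rcases C.eq_empty_or_nonempty with rfl | ⟨κ, hκ⟩
  · rw [h.1]
    exact Nat.zero_le n
  · rw [← h.2 κ]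
    unfold cont
    have h1 := Finset.single_le_sum (f := fun C => if κ ∈ C then a C else 0)
      (fun _ _ => Nat.zero_le _) (Finset.mem_univ C)
    beta_reduce at h1
    rw [if_pos hκ] at h1
    exact h1

theorem kEf0 : Ef0Stmt := by
  intro m r n lam
  have h1 : {a : Finset (Fin m) → ℕ | ∀ C, a C ∈ Set.Iic n}.Finite :=
    Set.Finite.pi' (fun _ => Set.finite_Iic n)
  refine (h1.image (dA r)).subset ?_
  rintro d ⟨a, ha, _, _, rfl⟩
  exact ⟨a, fun C => ef0_le ha C, rfl⟩

end T3

end Pool.Agent.Lib.MP_a688ad_al
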