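import Pool.Agent.Lib.MP_a688ad_al.T3.SpecB
import Pool.Agent.Lib.MP_a688ad_al.T2.Pol

/-!
# MP_a688ad_al, all large `n`, module El: elementary symmetric functions of particles
-/

set_option autoImplicit false

open MvPolynomial Finset

namespace Pool.Agent.Lib.MP_a688ad_al

namespace T3

open T2

private theorem el_one {k r : ℕ} (τ : Fin (k + 1) → Fin r) :
    (el (τ 0, sy fun a => τ a.succ) : Z (k + 1) r)
      = ∑ σ : Equiv.Perm (Fin (k + 1)), ∏ κ, X (σ κ, τ κ) := by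
  have h := kPol (k + 1) (Z (k + 1) r) (Fin r) (fun c κ => X (κ, c)) τ
  rw [← h]
  unfold el
  refine Finset.sum_congr rfl fun A _ => ?_
  congr 1
  rw [Multiset.map_cons, Multiset.prod_cons, sy_val, Multiset.map_map, Fin.prod_univ_succ]
  rfl

private theorem el_letters {k r : ℕ} (p : Ib r k) :
    ∃ τ : Fin (k + 1) → Fin r, p = (τ 0, sy fun a => τ a.succ) := by
  obtain ⟨u, s⟩ := p
  obtain ⟨t, rfl⟩ := sy_surj s
  refine ⟨Fin.cons u t, ?_⟩
  simp only [Fin.cons_zero, Fin.cons_succ]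

private theorem el_inv {k r : ℕ} (τ : Fin (k + 1) → Fin r) :
    ∑ σ : Equiv.Perm (Fin (k + 1)), ∏ κ, (X (κ, τ (σ κ)) : Z (k + 1) r)
      = ∑ σ : Equiv.Perm (Fin (k + 1)), ∏ κ, X (σ κ, τ κ) := by
  rw [← Equiv.sum_comp (Equiv.inv (Equiv.Perm (Fin (k + 1))))]
  refine Finset.sum_congr rfl fun σ _ => ?_
  rw [← Equiv.prod_comp σ (fun κ => (X (κ, τ ((Equiv.inv (Equiv.Perm (Fin (k + 1)))) σ κ)) :
    Z (k + 1) r))]
  refine Finset.prod_congr rfl fun κ _ => ?_
  rw [Equiv.inv_apply]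
  show (X (σ κ, τ (σ.symm (σ κ))) : Z (k + 1) r) = X (σ κ, τ κ)
  rw [Equiv.symm_apply_apply]

private theorem el_sy {k r : ℕ} (p : Ib r k) : Sy (el p : Z (k + 1) r) := by
  obtain ⟨τ, rfl⟩ := el_letters p
  intro σ
  rw [el_one, map_sum]
  conv_rhs => rw [← Equiv.sum_comp (Equiv.mulLeft σ)]
  refine Finset.sum_congr rfl fun ρ _ => ?_
  rw [map_prod]
  refine Finset.prod_congr rfl fun κ _ => ?_
  unfold rz
  rw [rename_X]
  rfl

private theorem el_cn {k r : ℕ} (p : Ib r k) : Cn 1 (el p : Z (k + 1) r) := by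
  obtain ⟨τ, rfl⟩ := el_letters p
  rw [el_one]
  unfold Cn
  apply IsWeightedHomogeneous.sum
  intro σ _
  have h := IsWeightedHomogeneous.prod (R := ℂ)
    (w := fun p : Fin (k + 1) × Fin r => (sg p.1 : Fin (k + 1) → ℤ)) univ
    (fun κ : Fin (k + 1) => (X (σ κ, τ κ) : Z (k + 1) r)) (fun κ => sg (σ κ))
    (fun κ _ => isWeightedHomogeneous_X ℂ _ _)
  have e : ∑ κ, (sg (σ κ) : Fin (k + 1) → ℤ) = fun _ => ((1 : ℕ) : ℤ) := by
    rw [Equiv.sum_comp σ (fun κ => (sg κ : Fin (k + 1) → ℤ))]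
    funext i
    rw [Finset.sum_apply]
    unfold sg
    simp [Pi.single_apply]
  rw [e] at h
  exact h

private theorem el_three (k r : ℕ) : ∃ s : Finset (Fin r → ℂ), ∀ p : Ib r k,
    (el p : Z (k + 1) r) ∈ Submodule.span ℂ (ul '' (s : Set (Fin r → ℂ))) := by
  classical
  refine ⟨(univ : Finset (Finset (Fin (k + 1)) × (Fin (k + 1) → Fin r))).image fun q i =>
    ((q.1.filter fun t => q.2 t = i).card : ℂ), ?_⟩
  intro p
  obtain ⟨τ, rfl⟩ := el_letters p
  have h := kPol (k + 1) (Z (k + 1) r) (Fin (k + 1)) (fun κ t => X (κ, τ t)) id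
  have h' : (el (τ 0, sy fun a => τ a.succ) : Z (k + 1) r) =
      ∑ A : Finset (Fin (k + 1)), ((-1 : ℂ) ^ (k + 1 - A.card)) •
        ∏ κ : Fin (k + 1), ∑ t ∈ A, (X (κ, τ t) : Z (k + 1) r) := by
    rw [el_one, ← el_inv]
    exact h.symm
  rw [h']
  refine Submodule.sum_mem _ fun A _ => Submodule.smul_mem _ _ (Submodule.subset_span ?_)
  refine ⟨fun i => ((A.filter fun t => τ t = i).card : ℂ), ?_, ?_⟩
  · rw [Finset.mem_coe, Finset.mem_image]
    exact ⟨(A, τ), Finset.mem_univ _, rfl⟩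
  · unfold ul
    refine Finset.prod_congr rfl fun κ _ => ?_
    rw [← Finset.sum_fiberwise A τ (fun t => (X (κ, τ t) : Z (k + 1) r))]
    refine Finset.sum_congr rfl fun i _ => ?_
    have h1 : ∑ t ∈ A.filter (fun t => τ t = i), (X (κ, τ t) : Z (k + 1) r)
        = ∑ _t ∈ A.filter (fun t => τ t = i), X (κ, i) :=
      Finset.sum_congr rfl fun t ht => by rw [(Finset.mem_filter.1 ht).2]
    rw [h1, Finset.sum_const, nsmul_eq_mul]
    simp

private theorem el_four {k r : ℕ} (l : Fin r → ℂ) : (ul l : Z (k + 1) r) ∈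
    Submodule.span ℂ (Set.range fun p : Ib r k => (el p : Z (k + 1) r)) := by
  have h1 : (ul l : Z (k + 1) r) = ∑ τ : Fin (k + 1) → Fin r,
      (∏ κ, l (τ κ)) • ∏ κ, (X (κ, τ κ) : Z (k + 1) r) := by
    unfold ul
    rw [Finset.prod_univ_sum, Fintype.piFinset_univ]
    refine Finset.sum_congr rfl fun τ _ => ?_
    rw [Finset.prod_mul_distrib, ← map_prod, ← smul_eq_C_mul]
  have h2 : ∀ σ : Equiv.Perm (Fin (k + 1)), (ul l : Z (k + 1) r) = ∑ τ : Fin (k + 1) → Fin r,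
      (∏ κ, l (τ κ)) • ∏ κ, (X (κ, τ (σ κ)) : Z (k + 1) r) := by
    intro σ
    rw [h1, ← Equiv.sum_comp (Equiv.arrowCongr σ.symm (Equiv.refl (Fin r)))]
    refine Finset.sum_congr rfl fun τ _ => ?_
    congr 1
    exact Equiv.prod_comp σ (fun κ => l (τ κ))
  have h3 : ((k + 1).factorial : ℂ) • (ul l : Z (k + 1) r) = ∑ τ : Fin (k + 1) → Fin r,
      (∏ κ, l (τ κ)) • (el (τ 0, sy fun a => τ a.succ) : Z (k + 1) r) := by
    have h4 : ∑ _σ : Equiv.Perm (Fin (k + 1)), (ul l : Z (k + 1) r)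
        = ((k + 1).factorial : ℂ) • (ul l : Z (k + 1) r) := by
      rw [Finset.sum_const, Finset.card_univ, Fintype.card_perm, Fintype.card_fin,
        Nat.cast_smul_eq_nsmul]
    rw [← h4, Finset.sum_congr rfl fun σ _ => h2 σ, Finset.sum_comm]
    refine Finset.sum_congr rfl fun τ _ => ?_
    rw [el_one, ← el_inv, Finset.smul_sum]
  have h5 : (ul l : Z (k + 1) r) = (((k + 1).factorial : ℂ)⁻¹) •
      ∑ τ : Fin (k + 1) → Fin r,
      (∏ κ, l (τ κ)) • (el (τ 0, sy fun a => τ a.succ) : Z (k + 1) r) := by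
    rw [← h3, smul_smul, inv_mul_cancel₀, one_smul]
    exact_mod_cast (Nat.factorial_ne_zero (k + 1))
  rw [h5]
  refine Submodule.smul_mem _ _ (Submodule.sum_mem _ fun τ _ => Submodule.smul_mem _ _ ?_)
  exact Submodule.subset_span ⟨(τ 0, sy fun a => τ a.succ), rfl⟩

theorem kEl : ElStmt := fun k r =>
  ⟨el_one, fun p => ⟨el_sy p, el_cn p⟩, el_three k r, el_four⟩

end T3

end Pool.Agent.Lib.MP_a688ad_al
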