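import Pool.Agent.Lib.MP_a688ad_al.T3.SpecL

/-!
# MP_a688ad_al, T3: the evaluation map commutes with `gl_r`
-/

set_option autoImplicit false

open MvPolynomial Finset

namespace Pool.Agent.Lib.MP_a688ad_al

namespace T3

open T2

section

variable {r k : ℕ}

private theorem eve_leib {n : ℕ} (D : Derivation ℂ (Ex r k) (Ex r k)) (f : Fin n → Ex r k) :
    D (∏ a, f a) = ∑ a, (∏ b ∈ Finset.univ.erase a, f b) * D (f a) := by
  classical
  have h : ∀ s : Finset (Fin n), D (∏ a ∈ s, f a) = ∑ a ∈ s, (∏ b ∈ s.erase a, f b) * D (f a) := by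
    intro s
    induction s using Finset.induction_on with
    | empty => simp
    | insert x s hx ih =>
      rw [Finset.prod_insert hx, Derivation.leibniz, ih, Finset.sum_insert hx,
        Finset.erase_insert hx, smul_eq_mul, smul_eq_mul, Finset.mul_sum, add_comm]
      congr 1
      refine Finset.sum_congr rfl fun a ha => ?_
      have hxa : x ≠ a := fun h => hx (h ▸ ha)
      rw [Finset.erase_insert_of_ne hxa, Finset.prod_insert fun h => hx (Finset.mem_of_mem_erase h)]
      ring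
  exact h Finset.univ

/-- the symmetric element of the letters `τ` -/
private noncomputable def eveL (τ : Fin (k + 1) → Fin r) : Ex r k :=
  ∑ σ : Equiv.Perm (Fin (k + 1)), ∏ κ, X (Sum.inl (σ κ, τ κ))

private theorem eve_el (h1 : ElStmt) (τ : Fin (k + 1) → Fin r) :
    (rename Sum.inl (el (τ 0, sy fun a => τ a.succ)) : Ex r k) = eveL τ := by
  rw [(h1 k r).1 τ, map_sum]
  unfold eveL
  refine Finset.sum_congr rfl fun σ _ => ?_
  rw [map_prod]
  refine Finset.prod_congr rfl fun κ _ => ?_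
  rw [rename_X]

private theorem eve_Xt (h1 : ElStmt) (τ : Fin (k + 1) → Fin r) :
    Ev (Xt τ) = eveL τ + gg τ := by
  rw [← eve_el h1 τ]
  unfold Ev Xt gg
  rw [aeval_X]

private theorem eve_D (i j : Fin r) (τ : Fin (k + 1) → Fin r) :
    DX i j (eveL τ : Ex r k) = ∑ a, if τ a = j then eveL (Function.update τ a i) else 0 := by
  classical
  unfold eveL
  rw [map_sum]
  have h1 : ∀ σ : Equiv.Perm (Fin (k + 1)),
      DX i j (∏ κ, X (Sum.inl (σ κ, τ κ)) : Ex r k) =
        ∑ a, if τ a = j then ∏ κ, X (Sum.inl (σ κ, Function.update τ a i κ)) else 0 := by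
    intro σ
    rw [eve_leib]
    refine Finset.sum_congr rfl fun a _ => ?_
    have h2 : DX i j (X (Sum.inl (σ a, τ a)) : Ex r k) =
        if τ a = j then X (Sum.inl (σ a, i)) else 0 := by
      unfold DX
      rw [mkDerivation_X]
      rfl
    rw [h2]
    split_ifs with h
    · rw [← Finset.mul_prod_erase Finset.univ _ (Finset.mem_univ a), Function.update_self, mul_comm]
      congr 1
      refine Finset.prod_congr rfl fun b hb => ?_
      rw [Function.update_of_ne (Finset.ne_of_mem_erase hb)]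
    · rw [mul_zero]
  rw [Finset.sum_congr rfl fun σ _ => h1 σ, Finset.sum_comm]
  refine Finset.sum_congr rfl fun a _ => ?_
  split_ifs
  · rfl
  · simp

private theorem eve_swap (τ : Fin (k + 1) → Fin r) (s : Equiv.Perm (Fin (k + 1))) :
    (eveL (τ ∘ s) : Ex r k) = eveL τ := by
  unfold eveL
  rw [← Equiv.sum_comp (Equiv.mulRight s) fun σ : Equiv.Perm (Fin (k + 1)) =>
    (∏ κ, X (Sum.inl (σ κ, (τ ∘ s) κ)) : Ex r k)]
  refine Finset.sum_congr rfl fun σ _ => ?_
  simp only [Equiv.coe_mulRight, Equiv.Perm.coe_mul, Function.comp_apply]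
  exact Equiv.prod_comp s fun κ => (X (Sum.inl (σ κ, τ κ)) : Ex r k)

/-- `Ev` commutes with the derivations -/
private theorem eve_1 (h1 : ElStmt) (h2 : GgStmt) (i j : Fin r) (P : MvPolynomial (Ib r k) ℂ) :
    Ev (DE i j P) = DX i j (Ev P) := by
  induction P using MvPolynomial.induction_on with
  | C a =>
    have e1 : DE i j (C a : MvPolynomial (Ib r k) ℂ) = 0 := Derivation.map_algebraMap _ a
    have e2 : Ev (C a : MvPolynomial (Ib r k) ℂ) = algebraMap ℂ (Ex r k) a := by
      unfold Ev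
      rw [aeval_C]
    rw [e1, e2, map_zero, Derivation.map_algebraMap]
  | add p q hp hq => rw [map_add, map_add, hp, hq, map_add, map_add]
  | mul_X p n hp =>
    have e : Ev (DE i j (X n : MvPolynomial (Ib r k) ℂ)) = DX i j (Ev (X n)) := by
      obtain ⟨τ, hτ⟩ := Xt_surj n
      rw [← hτ, DE_Xt, eve_Xt h1, map_add, eve_D, (h2 r k τ).2.2.1 i j, map_sum,
        ← Finset.sum_add_distrib]
      refine Finset.sum_congr rfl fun a _ => ?_
      split_ifs
      · exact eve_Xt h1 _
      · rw [map_zero, add_zero]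
    rw [Derivation.leibniz, map_mul, Derivation.leibniz, map_add, smul_eq_mul, smul_eq_mul,
      map_mul, map_mul, hp, e, smul_eq_mul, smul_eq_mul]

private theorem eve_k : ((k : ℂ) + 1) ≠ 0 := Nat.cast_add_one_ne_zero k

/-- the symmetric part -/
private theorem eve_sym (h2 : GgStmt) (τ : Fin (k + 1) → Fin r) :
    sym ((τ 0, sy fun a => τ a.succ) : Ib r k) = ∑ a, Xt (τ ∘ Equiv.swap 0 a) := by
  have h3 := (h2 r k τ).1
  unfold gg at h3
  have h4 := rename_injective Sum.inr Sum.inr_injective h3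
  unfold dg at h4
  have h5 : (X (τ 0, sy fun a => τ a.succ) : MvPolynomial (Ib r k) ℂ) = Xt τ := rfl
  rw [h5, sub_right_inj] at h4
  have h6 : (1 / ((k : ℂ) + 1)) ≠ 0 := one_div_ne_zero eve_k
  exact smul_right_injective _ h6 h4

/-- the sum of the `gg` over the choices of the distinguished letter is zero -/
private theorem eve_gg (h2 : GgStmt) (τ : Fin (k + 1) → Fin r) :
    ∑ a, (gg (τ ∘ Equiv.swap 0 a) : Ex r k) = 0 := by
  have h3 := (h2 r k τ).2.2.2
  have hpr : ∀ τ' : Fin (k + 1) → Fin r, pr (rename Sum.inr (Xt τ') : Ex r k) = gg τ' := by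
    intro τ'
    unfold Xt gg pr
    rw [rename_X, aeval_X]
    rfl
  have h4 : pr (gg τ : Ex r k) = gg τ - (1 / ((k : ℂ) + 1)) • ∑ a, gg (τ ∘ Equiv.swap 0 a) := by
    rw [(h2 r k τ).1]
    simp only [map_sub, map_smul, map_sum]
    rw [hpr]
    congr 1
    · have h5 := (h2 r k τ).1
      rw [h5]
      simp only [map_sub, map_smul, map_sum]
    · congr 1
      exact Finset.sum_congr rfl fun a _ => hpr _
  rw [h3] at h4
  have h5 : (1 / ((k : ℂ) + 1)) • ∑ a, (gg (τ ∘ Equiv.swap 0 a) : Ex r k) = 0 := by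
    have h6 := sub_eq_self.1 h4.symm
    exact h6
  have h6 : (1 / ((k : ℂ) + 1)) ≠ 0 := one_div_ne_zero eve_k
  exact (smul_eq_zero.1 h5).resolve_left h6

private theorem eve_2 (h1 : ElStmt) (h2 : GgStmt) (p : Ib r k) :
    Ev (dg p) = (rename Sum.inr (dg p) : Ex r k) ∧
    Ev (sym p) = ((k : ℂ) + 1) • (rename Sum.inl (el p) : Ex r k) := by
  obtain ⟨τ, hτ⟩ := Xt_surj p
  have hp : p = (τ 0, sy fun a => τ a.succ) := by
    unfold Xt at hτ
    exact (X_injective hτ).symm
  rw [hp]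
  have e2 : Ev (sym ((τ 0, sy fun a => τ a.succ) : Ib r k)) =
      ((k : ℂ) + 1) • (rename Sum.inl (el (τ 0, sy fun a => τ a.succ)) : Ex r k) := by
    rw [eve_sym h2, map_sum, Finset.sum_congr rfl fun a _ => eve_Xt h1 _, Finset.sum_add_distrib,
      eve_gg h2, add_zero, Finset.sum_congr rfl fun a _ => eve_swap τ _, eve_el h1,
      Finset.sum_const, Finset.card_univ, Fintype.card_fin, ← Nat.cast_smul_eq_nsmul ℂ]
    push_cast
    rfl
  refine ⟨?_, e2⟩
  have e1 : Ev (X (τ 0, sy fun a => τ a.succ) : MvPolynomial (Ib r k) ℂ) = eveL τ + gg τ :=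
    eve_Xt h1 τ
  have e3 : dg ((τ 0, sy fun a => τ a.succ) : Ib r k) = X (τ 0, sy fun a => τ a.succ) -
      (1 / ((k : ℂ) + 1)) • sym (τ 0, sy fun a => τ a.succ) := rfl
  have e4 : (rename Sum.inr (dg ((τ 0, sy fun a => τ a.succ) : Ib r k)) : Ex r k) = gg τ := rfl
  rw [e4, e3, map_sub, map_smul, e1, e2, eve_el h1, smul_smul, one_div,
    inv_mul_cancel₀ eve_k, one_smul]
  ring

private theorem eve_W1 {F : Ex r k} {β : Fin r → ℤ} {c : Fin (k + 1) → ℤ} {q : ℤ}
    (h : IsWeightedHomogeneous WE F (β, c, q)) : IsWeightedHomogeneous W1 F β := by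
  intro d hd
  have h1 := h hd
  have h2 : Finsupp.weight (W1 : _ → Fin r → ℤ) d = (Finsupp.weight (WE (r := r) (k := k)) d).1 := by
    rw [Finsupp.weight_apply, Finsupp.weight_apply, Finsupp.sum, Finsupp.sum, Prod.fst_sum]
    rfl
  rw [h2, h1]

private theorem eve_hX (h1 : ElStmt) (h2 : GgStmt) (p : Ib r k) :
    IsWeightedHomogeneous W1 (Ev (X p) : Ex r k) (wt p) := by
  obtain ⟨τ, hτ⟩ := Xt_surj p
  have hp : p = (τ 0, sy fun a => τ a.succ) := by
    unfold Xt at hτ
    exact (X_injective hτ).symm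
  have hw : wt p = ∑ a, sg (τ a) := by
    rw [hp, wt_tuple]
  rw [← hτ, eve_Xt h1, hw]
  refine IsWeightedHomogeneous.add ?_ (eve_W1 (h2 r k τ).2.1)
  unfold eveL
  refine IsWeightedHomogeneous.sum _ _ _ fun σ _ => ?_
  refine IsWeightedHomogeneous.prod _ _ _ fun κ _ => ?_
  exact isWeightedHomogeneous_X ℂ W1 (Sum.inl (σ κ, τ κ))

private theorem eve_3 (h1 : ElStmt) (h2 : GgStmt) (ν : Fin r → ℤ) (d : ℤ)
    (P : MvPolynomial (Ib r k) ℂ) (hP : IsWeightedHomogeneous WT P (ν, d)) :
    IsWeightedHomogeneous W1 (Ev P) ν := by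
  rw [← support_sum_monomial_coeff P, map_sum]
  refine IsWeightedHomogeneous.sum _ _ _ fun e he => ?_
  have hw : Finsupp.weight WT e = (ν, d) := hP (mem_support_iff.1 he)
  have h3 : Ev (monomial e (coeff e P)) = coeff e P • ∏ p ∈ e.support, (Ev (X p) : Ex r k) ^ e p := by
    unfold Ev
    rw [aeval_monomial, Algebra.smul_def, Finsupp.prod]
    simp only [aeval_X]
  rw [h3, ← mem_weightedHomogeneousSubmodule ℂ]
  apply Submodule.smul_mem
  rw [mem_weightedHomogeneousSubmodule]
  have h4 := IsWeightedHomogeneous.prod e.support (fun p => (Ev (X p) : Ex r k) ^ e p)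
    (fun p => e p • wt p) fun p _ => (eve_hX h1 h2 p).pow (e p)
  have h5 : ∑ p ∈ e.support, e p • wt p = ν := by
    have h6 := congrArg Prod.fst hw
    rw [Finsupp.weight_apply, Finsupp.sum, Prod.fst_sum] at h6
    exact h6
  rw [h5] at h4
  exact h4

end

theorem kEvE (h1 : ElStmt) (h2 : GgStmt) : EvEStmt := fun _ _ =>
  ⟨fun i j P => eve_1 h1 h2 i j P, fun p => eve_2 h1 h2 p, fun ν d P hP => eve_3 h1 h2 ν d P hP⟩

end T3

end Pool.Agent.Lib.MP_a688ad_al
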