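import Pool.Agent.Lib.MP_a688ad_al.T3.SpecE

/-!
# MP_a688ad_al: evaluation at the coordinate covectors (for the modules `HfB`, `SaB`, `Wp`)
-/

set_option autoImplicit false

open MvPolynomial Finset

namespace Pool.Agent.Lib.MP_a688ad_al

namespace T3

open T2

/-- The point whose covectors are the coordinate functions. -/
def exE {r k : ℕ} (κ : Fin (k + 1)) (l : Fin r) : ℂ := if (l : ℕ) = (κ : ℕ) then 1 else 0

theorem ex_sum {n r : ℕ} (u : Fin n → Fin r → ℂ) (m : Fin n → Fin r) (ε : Fin n → ℂ)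
    (hu : ∀ a l, u a l = if l = m a then ε a else 0) (G : (Fin n → Fin r) → ℂ) :
    ∑ τ : Fin n → Fin r, (∏ a, u a (τ a)) * G τ = (∏ a, ε a) * G m := by
  rw [Finset.sum_eq_single m]
  · congr 1
    apply Finset.prod_congr rfl
    intro a _
    rw [hu, if_pos rfl]
  · intro τ _ hτ
    obtain ⟨a, ha⟩ : ∃ a, τ a ≠ m a := by
      by_contra h
      push Not at h
      exact hτ (funext h)
    rw [Finset.prod_eq_zero (Finset.mem_univ a), zero_mul]
    rw [hu, if_neg ha]
  · intro h
    exact absurd (Finset.mem_univ m) h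

theorem ex_snoc_last {R : Type} {r i : ℕ} (ξ : Fin i → Fin r → R) (ζ : Fin r → R) :
    (Fin.snoc ξ ζ : Fin (i + 1) → Fin r → R) (Fin.last i) = ζ := by
  rw [Fin.snoc_last]

theorem ex_snoc_cast {R : Type} {r i : ℕ} (ξ : Fin i → Fin r → R) (ζ : Fin r → R) (t : Fin i) :
    (Fin.snoc ξ ζ : Fin (i + 1) → Fin r → R) t.castSucc = ξ t := by
  rw [Fin.snoc_castSucc]

theorem ex_vc {r k i : ℕ} (hi : i + 1 ≤ r) (c : Fin i → Fin (k + 1)) (hc : Function.Injective c)
    (hci : ∀ t, (c t : ℕ) ≤ i) (a : ℕ) (ha : a ≤ i) (hca : ∀ t, (c t : ℕ) ≠ a) :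
    ∃ ε : ℂ, ε * ε = 1 ∧ ∀ l : Fin r,
      vc i hi (fun t l => (exE (c t) l : ℂ)) l = if (l : ℕ) = a then ε else 0 := by
  classical
  set σ : Fin (i + 1) → Fin (i + 1) :=
    Fin.snoc (fun t => (⟨c t, Nat.lt_succ_of_le (hci t)⟩ : Fin (i + 1)))
      ⟨a, Nat.lt_succ_of_le ha⟩ with hσdef
  have hσl : σ (Fin.last i) = ⟨a, Nat.lt_succ_of_le ha⟩ := by
    rw [hσdef, Fin.snoc_last]
  have hσc : ∀ t, σ (Fin.castSucc t) = ⟨c t, Nat.lt_succ_of_le (hci t)⟩ := by
    intro t
    rw [hσdef, Fin.snoc_castSucc]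
  have hσ : Function.Injective σ := by
    intro b b'
    refine Fin.lastCases ?_ (fun t => ?_) b
    · refine Fin.lastCases (fun _ => rfl) (fun t' => ?_) b'
      intro h
      rw [hσl, hσc, Fin.mk.injEq] at h
      exact absurd h.symm (hca t')
    · refine Fin.lastCases ?_ (fun t' => ?_) b'
      · intro h
        rw [hσl, hσc, Fin.mk.injEq] at h
        exact absurd h (hca t)
      · intro h
        rw [hσc, hσc, Fin.mk.injEq] at h
        rw [hc (Fin.ext h)]
  have hσs : Function.Surjective σ := Finite.injective_iff_surjective.mp hσ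
  set M : Matrix (Fin (i + 1)) (Fin (i + 1)) ℂ := Matrix.of fun b b' => if b' = σ b then 1 else 0
    with hM
  refine ⟨M.det, ?_, ?_⟩
  · have h1 : M * M.transpose = 1 := by
      ext b b'
      rw [Matrix.mul_apply]
      have h2 : ∀ j, M b j * M.transpose j b' = if j = σ b then (if σ b = σ b' then 1 else 0)
          else 0 := by
        intro j
        rw [Matrix.transpose_apply, hM, Matrix.of_apply, Matrix.of_apply]
        split_ifs with h3 h4 h5 h6
        · rw [mul_one]
        · exact absurd (h3.symm.trans h4) h5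
        · exact absurd (h3.trans h6) h4
        · rw [mul_zero]
        · rw [zero_mul]
        · rw [zero_mul]
      rw [Finset.sum_congr rfl (fun j _ => h2 j), Finset.sum_ite_eq' Finset.univ (σ b),
        if_pos (Finset.mem_univ _), Matrix.one_apply]
      by_cases h3 : b = b'
      · rw [if_pos (by rw [h3]), if_pos h3]
      · rw [if_neg (fun h => h3 (hσ h)), if_neg h3]
    have h2 := congrArg Matrix.det h1
    rwa [Matrix.det_mul, Matrix.det_transpose, Matrix.det_one] at h2
  · intro l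
    have hrow : ∀ (t : Fin i) (b : Fin (i + 1)),
        (Fin.snoc (fun t l => (exE (c t) l : ℂ)) (fun l' => if l' = l then (1 : ℂ) else 0) :
          Fin (i + 1) → Fin r → ℂ) t.castSucc (Fin.castLE hi b) =
        if b = σ t.castSucc then 1 else 0 := by
      intro t b
      rw [ex_snoc_cast, hσc]
      unfold exE
      rw [Fin.val_castLE]
      simp only [Fin.ext_iff]
    have hlast : ∀ (b : Fin (i + 1)),
        (Fin.snoc (fun t l => (exE (c t) l : ℂ)) (fun l' => if l' = l then (1 : ℂ) else 0) :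
          Fin (i + 1) → Fin r → ℂ) (Fin.last i) (Fin.castLE hi b) =
        if (b : ℕ) = (l : ℕ) then 1 else 0 := by
      intro b
      rw [ex_snoc_last]
      simp only [Fin.ext_iff, Fin.val_castLE]
    unfold vc brk
    by_cases hla : (l : ℕ) = a
    · rw [if_pos hla]
      congr 1
      ext b b'
      rw [Matrix.of_apply, hM, Matrix.of_apply]
      refine Fin.lastCases ?_ (fun t => ?_) b
      · rw [hlast, hσl, hla]
        simp only [Fin.ext_iff]
      · exact hrow t b'
    · rw [if_neg hla]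
      by_cases hli : (l : ℕ) ≤ i
      · obtain ⟨b, hb⟩ := hσs ⟨l, Nat.lt_succ_of_le hli⟩
        have hbl : b ≠ Fin.last i := by
          rintro rfl
          rw [hσl, Fin.mk.injEq] at hb
          exact hla hb.symm
        obtain ⟨t, rfl⟩ := Fin.exists_castSucc_eq.mpr hbl
        apply Matrix.det_zero_of_row_eq hbl
        funext b'
        change (Fin.snoc (fun t l => (exE (c t) l : ℂ)) (fun l' => if l' = l then (1 : ℂ) else 0) :
          Fin (i + 1) → Fin r → ℂ) t.castSucc (Fin.castLE hi b') =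
          (Fin.snoc (fun t l => (exE (c t) l : ℂ)) (fun l' => if l' = l then (1 : ℂ) else 0) :
          Fin (i + 1) → Fin r → ℂ) (Fin.last i) (Fin.castLE hi b')
        rw [hrow, hlast, hb]
        simp only [Fin.ext_iff]
      · apply Matrix.det_eq_zero_of_row_eq_zero (Fin.last i)
        intro b
        rw [Matrix.of_apply, hlast, if_neg]
        have := b.2
        omega

/-- the minor of the coordinate covectors -/
theorem ex_brk {r k p : ℕ} (hp : p ≤ r) (hpk : p ≤ k + 1) :
    brk p hp (fun a => (exE (Fin.castLE hpk a : Fin (k + 1)) : Fin r → ℂ)) = 1 := by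
  unfold brk
  have h : (Matrix.of fun a b : Fin p => (exE (Fin.castLE hpk a : Fin (k + 1))
      (Fin.castLE hp b) : ℂ)) = 1 := by
    ext a b
    rw [Matrix.of_apply, Matrix.one_apply]
    unfold exE
    rw [Fin.val_castLE, Fin.val_castLE]
    by_cases hab : a = b
    · rw [if_pos (by rw [hab]), if_pos hab]
    · rw [if_neg (fun h => hab (Fin.ext h.symm)), if_neg hab]
  rw [h, Matrix.det_one]

/-- the vectors made of all particles but one -/
theorem ex_vt {r k : ℕ} (hr : k + 1 ≤ r) (a : Fin (k + 1)) :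
    ∃ ε : ℂ, ε * ε = 1 ∧ ∀ l : Fin r,
      vc k hr (fun t l => (exE (a.succAbove t) l : ℂ)) l = if l = Fin.castLE hr a then ε else 0 := by
  obtain ⟨ε, h1, h2⟩ := ex_vc hr a.succAbove Fin.succAbove_right_injective
    (fun t => Nat.lt_succ_iff.mp (a.succAbove t).2) a (Nat.lt_succ_iff.mp a.2)
    (fun t h => Fin.succAbove_ne a t (Fin.ext h))
  refine ⟨ε, h1, fun l => ?_⟩
  rw [h2 l]
  simp only [Fin.ext_iff, Fin.val_castLE]

/-- contents -/
theorem ex_sg_sum {n : ℕ} : ∑ κ : Fin n, sg κ = fun _ => 1 := by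
  funext i
  rw [Finset.sum_apply]
  unfold sg
  simp only [Pi.single_apply]
  rw [Finset.sum_ite_eq Finset.univ i, if_pos (Finset.mem_univ _)]

theorem ex_sg_succAbove {n : ℕ} (i : Fin (n + 1)) :
    ∑ t, sg (i.succAbove t) = (fun _ => 1) - (sg i : Fin (n + 1) → ℤ) := by
  have h := Fin.sum_univ_succAbove (fun κ : Fin (n + 1) => (sg κ : Fin (n + 1) → ℤ)) i
  rw [ex_sg_sum] at h
  rw [h, add_sub_cancel_left]

/-- the vectors made of all particles but one -/
theorem ex_Vc (h1 : VcsStmt) {r k : ℕ} (hr : k + 1 ≤ r) (i : Fin (k + 1)) :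
    Vc (om (k + 1)) ((fun _ => 1) - (sg i : Fin (k + 1) → ℤ)) 0
      (vt k hr i.succAbove : Fin r → Ex r k) := by
  have h := h1 r k k hr (fun _ => 0) (fun t => sg (i.succAbove t)) (fun _ => 0)
    (fun t => xx (i.succAbove t)) (fun t => xx_Cv _)
  rw [Finset.sum_const_zero, Finset.sum_const_zero, add_zero, ex_sg_succAbove] at h
  exact h

/-- evaluation of these vectors -/
theorem ex_evt (h4 : EvpStmt) {r k i : ℕ} (hi : i + 1 ≤ r) (c : Fin i → Fin (k + 1))
    (T : Ib r k → ℂ) (l : Fin r) :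
    evp exE T (vt i hi c l) = vc i hi (fun t l => (exE (c t) l : ℂ)) l := by
  unfold vt
  rw [(h4 r k exE T).2.2.2.1 i hi]
  congr 1
  funext t l
  exact (h4 r k exE T).1 _ _

end T3

end Pool.Agent.Lib.MP_a688ad_al
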