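import Pool.Agent.Lib.MP_a688ad_al.T3.SpecE

/-!
# MP_a688ad_al, T3: module `Evp` (helper62)
-/

set_option autoImplicit false

open MvPolynomial Finset

namespace Pool.Agent.Lib.MP_a688ad_al

namespace T3

open T2

private theorem evp_brk {r k p : ℕ} (hp : p ≤ r) (f : Ex r k →ₐ[ℂ] ℂ) (ξ : Fin p → Fin r → Ex r k) :
    f (brk p hp ξ) = brk p hp fun a l => f (ξ a l) := by
  unfold brk
  rw [AlgHom.map_det]
  congr 1

private theorem evp_vc {r k i : ℕ} (hi : i + 1 ≤ r) (f : Ex r k →ₐ[ℂ] ℂ)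
    (ξ : Fin i → Fin r → Ex r k) (l : Fin r) :
    f (vc i hi ξ l) = vc i hi (fun a l => f (ξ a l)) l := by
  unfold vc
  rw [evp_brk hi f]
  congr 1
  ext a l'
  refine Fin.lastCases ?_ (fun a => ?_) a
  · rw [Fin.snoc_last, Fin.snoc_last]
    split_ifs
    · exact map_one f
    · exact map_zero f
  · rw [Fin.snoc_castSucc, Fin.snoc_castSucc]

theorem kEvp (h : GgStmt) : EvpStmt := by
  intro r k x T
  have hg : ∀ τ, evp x T (gg τ) = gp T τ := by
    intro τ
    rw [(h r k τ).1]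
    unfold evp gp
    rw [aeval_rename, map_sub, map_smul, map_sum, smul_eq_mul]
    have e : ∀ τ : Fin (k + 1) → Fin r,
        aeval (Sum.elim (fun p : Fin (k + 1) × Fin r => x p.1 p.2) T ∘ Sum.inr) (Xt τ) =
          T (τ 0, sy fun a => τ a.succ) := by
      intro τ
      unfold Xt
      rw [aeval_X]
      rfl
    rw [e]
    congr 2
    refine Finset.sum_congr rfl fun a _ => ?_
    rw [e]
  refine ⟨fun κ l => ?_, hg, fun p hp ξ => evp_brk hp _ ξ, fun i hi ξ l => evp_vc hi _ ξ l,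
    fun v => ?_, fun v l => ?_⟩
  · unfold evp xx
    rw [aeval_X]
    rfl
  · unfold ct
    rw [map_sum]
    refine Finset.sum_congr rfl fun τ _ => ?_
    rw [map_mul, map_prod, hg]
  · unfold cv
    rw [map_sum]
    refine Finset.sum_congr rfl fun τ _ => ?_
    rw [map_mul, map_prod, hg]

end T3

end Pool.Agent.Lib.MP_a688ad_al
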