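import Pool.Agent.Lib.MP_a688ad_al.T3.SpecL

/-!
# MP_a688ad_al, T3, Fr: dimension of a space of scalars
-/

set_option autoImplicit false

open MvPolynomial Finset

namespace Pool.Agent.Lib.MP_a688ad_al

namespace T3

open T2

theorem kFr (h : LftStmt) : FrStmt := by
  intro r k n lam W _ _ _ ψ hψ hanti hsum hw
  have hfd : FiniteDimensional ℂ ((Gl r k n).HW lam) :=
    Submodule.finiteDimensional_of_le (fun v hv => hv.1 : (Gl r k n).HW lam ≤ (Gl r k n).G lam)
  have hle : LinearMap.range ψ ≤
      Submodule.map (Ev (r := r) (k := k)).toLinearMap ((Gl r k n).HW lam) := by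
    rintro _ ⟨w, rfl⟩
    obtain ⟨hinv, P, hP, hPw⟩ := hw w
    obtain ⟨P', hP', hPP⟩ := h r k n lam P hanti hsum hP fun i j hij => by
      rw [hPw]; exact hinv i j hij
    exact ⟨P', hP', by rw [← hPw, ← hPP]; rfl⟩
  calc Module.finrank ℂ W = Module.finrank ℂ (LinearMap.range ψ) :=
        (LinearMap.finrank_range_of_inj hψ).symm
    _ ≤ Module.finrank ℂ (Submodule.map (Ev (r := r) (k := k)).toLinearMap ((Gl r k n).HW lam)) :=
        Submodule.finrank_mono hle
    _ ≤ Module.finrank ℂ ((Gl r k n).HW lam) := Submodule.finrank_map_le _ _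

end T3

end Pool.Agent.Lib.MP_a688ad_al
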