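import Pool.Agent.Lib.MP_a688ad_al.T3.SpecL

/-!
# MP_a688ad_al, T3, GE: `Ex r k` with the operators `DX` is a `GlFam`
-/

set_option autoImplicit false

open MvPolynomial Finset

namespace Pool.Agent.Lib.MP_a688ad_al

namespace T3

open T2

variable {r k : ℕ}

private abbrev geV (r k : ℕ) : Type := Fin (k + 1) × Fin r ⊕ Ib r k

private theorem ge_W1_inl (p : Fin (k + 1) × Fin r) : W1 (Sum.inl p : geV r k) = sg p.2 := rfl

private theorem ge_W1_inr (p : Ib r k) : W1 (Sum.inr p : geV r k) = wt p := rfl

private theorem ge_DX_inl (i j : Fin r) (p : Fin (k + 1) × Fin r) :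
    DX i j (X (Sum.inl p) : Ex r k) = if p.2 = j then X (Sum.inl (p.1, i)) else 0 := by
  unfold DX
  rw [mkDerivation_X]
  rfl

private theorem ge_DX_inr (i j : Fin r) (p : Ib r k) :
    DX i j (X (Sum.inr p) : Ex r k) = rename Sum.inr (DE i j (X p)) := by
  unfold DX
  rw [mkDerivation_X]
  rfl

private theorem ge_DX_rename (i j : Fin r) (F : MvPolynomial (Ib r k) ℂ) :
    DX i j (rename Sum.inr F : Ex r k) = rename Sum.inr (DE i j F) := by
  induction F using MvPolynomial.induction_on with
  | C a => simp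
  | add p q hp hq => rw [map_add, map_add, hp, hq, map_add, map_add]
  | mul_X p n hp =>
    rw [map_mul, Derivation.leibniz, hp, rename_X, ge_DX_inr, Derivation.leibniz, map_add,
      smul_eq_mul, smul_eq_mul, smul_eq_mul, smul_eq_mul, map_mul, map_mul, rename_X]

private theorem ge_hom_rename {G : MvPolynomial (Ib r k) ℂ} {m : (Fin r → ℤ) × ℤ}
    (h : IsWeightedHomogeneous WT G m) :
    IsWeightedHomogeneous (W1 : geV r k → _) (rename Sum.inr G) m.1 := by
  intro d hd
  obtain ⟨u, rfl, hu⟩ := coeff_rename_ne_zero _ _ _ hd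
  have h1 := h hu
  rw [← h1, Finsupp.weight_apply, Finsupp.weight_apply, Finsupp.sum_mapDomain_index
    (fun _ => by simp) (fun _ _ _ => by rw [add_smul]), Finsupp.sum, Finsupp.sum, Prod.fst_sum]
  exact Finset.sum_congr rfl fun p _ => rfl

private theorem ge_X_hom (i j : Fin r) (v : geV r k) :
    IsWeightedHomogeneous W1 (DX i j (X v : Ex r k)) (W1 v + (sg i - sg j)) := by
  rcases v with p | p
  · rw [ge_DX_inl, ge_W1_inl]
    split_ifs with h
    · have h1 := isWeightedHomogeneous_X ℂ (W1 : geV r k → _) (Sum.inl (p.1, i))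
      rw [ge_W1_inl] at h1
      rw [h, add_sub_cancel]
      exact h1
    · exact isWeightedHomogeneous_zero _ _ _
  · rw [ge_DX_inr, ge_W1_inr]
    exact ge_hom_rename (DE_X_hom i j p)

private theorem ge_monomial (i j : Fin r) (d : geV r k →₀ ℕ) (c : ℂ) :
    DX i j (monomial d c : Ex r k)
      = c • d.sum fun p n => monomial (d - Finsupp.single p 1) (n : ℂ) • DX i j (X p) := by
  unfold DX
  rw [mkDerivation_monomial]
  simp only [mkDerivation_X]

private theorem ge_hom (i j : Fin r) {F : Ex r k} {m : Fin r → ℤ}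
    (hF : IsWeightedHomogeneous W1 F m) :
    IsWeightedHomogeneous W1 (DX i j F) (m + (sg i - sg j)) := by
  rw [← support_sum_monomial_coeff F, map_sum]
  apply IsWeightedHomogeneous.sum
  intro d hd
  have hw : Finsupp.weight W1 d = m := hF (mem_support_iff.1 hd)
  rw [ge_monomial]
  rw [← mem_weightedHomogeneousSubmodule ℂ]
  apply Submodule.smul_mem
  rw [Finsupp.sum]
  apply Submodule.sum_mem
  intro p hp
  rw [mem_weightedHomogeneousSubmodule, smul_eq_mul]
  have hp0 : d p ≠ 0 := Finsupp.mem_support_iff.1 hp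
  have h1 := isWeightedHomogeneous_monomial (W1 : geV r k → _) (d - Finsupp.single p 1)
    ((d p : ℕ) : ℂ) rfl
  have h2 := h1.mul (ge_X_hom i j p)
  have e : Finsupp.weight W1 (d - Finsupp.single p 1) + (W1 p + (sg i - sg j))
      = m + (sg i - sg j) := by
    rw [← add_assoc, Finsupp.weight_sub_single_add hp0, hw]
  rw [e] at h2
  exact h2

private theorem ge_diag_X (i : Fin r) (v : geV r k) :
    DX i i (X v : Ex r k) = (W1 v i : ℂ) • X v := by
  rcases v with p | p
  · rw [ge_DX_inl, ge_W1_inl]
    by_cases h : p.2 = i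
    · rw [if_pos h, ← h]
      simp [sg]
    · rw [if_neg h]
      unfold sg
      rw [Pi.single_apply, if_neg (fun h' => h h'.symm)]
      simp
  · rw [ge_DX_inr, ge_W1_inr, DE_diag_X, map_smul, rename_X]

private theorem ge_diag (i : Fin r) {F : Ex r k} {m : Fin r → ℤ}
    (hF : IsWeightedHomogeneous W1 F m) : DX i i F = (m i : ℂ) • F := by
  conv_lhs => rw [← support_sum_monomial_coeff F]
  conv_rhs => rw [← support_sum_monomial_coeff F]
  rw [map_sum, Finset.smul_sum]
  apply Finset.sum_congr rfl
  intro d hd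
  have hw : Finsupp.weight W1 d = m := hF (mem_support_iff.1 hd)
  rw [ge_monomial]
  have h1 : (d.sum fun p n => monomial (d - Finsupp.single p 1) (n : ℂ) • DX i i (X p : Ex r k))
      = ∑ p ∈ d.support, (((d p : ℕ) : ℂ) * (W1 p i : ℂ)) • monomial d (1 : ℂ) := by
    rw [Finsupp.sum]
    refine Finset.sum_congr rfl fun p hp => ?_
    have hp0 : d p ≠ 0 := Finsupp.mem_support_iff.1 hp
    rw [ge_diag_X, smul_eq_mul, mul_smul_comm, X, monomial_mul,
      Finsupp.sub_add_single_one_cancel hp0, mul_one, smul_monomial, smul_monomial]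
    congr 1
    simp only [smul_eq_mul]
    ring
  rw [h1, ← Finset.sum_smul, ← hw, Finsupp.weight_apply, Finsupp.sum]
  rw [smul_monomial, smul_monomial, smul_monomial]
  congr 1
  simp only [smul_eq_mul, mul_one]
  rw [mul_comm]
  congr 1
  rw [Finset.sum_apply]
  push_cast
  refine Finset.sum_congr rfl fun p _ => ?_
  simp

private theorem ge_comm (i j a l : Fin r) (F : Ex r k) :
    DX i j (DX a l F) - DX a l (DX i j F)
      = (if j = a then DX i l F else 0) - (if i = l then DX a j F else 0) := by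
  have key : ⁅(DX i j : Derivation ℂ (Ex r k) (Ex r k)), (DX a l : Derivation ℂ (Ex r k) (Ex r k))⁆
      = (if j = a then (1 : ℂ) else 0) • DX i l - (if i = l then (1 : ℂ) else 0) • DX a j := by
    apply derivation_ext
    intro v
    rw [Derivation.commutator_apply, Derivation.sub_apply, Derivation.smul_apply,
      Derivation.smul_apply]
    rcases v with p | p
    · have h1 : ∀ i j a l : Fin r, DX i j (DX a l (X (Sum.inl p) : Ex r k)) =
          if p.2 = l ∧ a = j then X (Sum.inl (p.1, i)) else 0 := by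
        intro i j a l
        rw [ge_DX_inl]
        by_cases h : p.2 = l
        · rw [if_pos h, ge_DX_inl]
          by_cases h2 : a = j
          · rw [if_pos h2, if_pos ⟨h, h2⟩]
          · rw [if_neg h2, if_neg (fun h3 => h2 h3.2)]
        · rw [if_neg h, map_zero, if_neg (fun h3 => h h3.1)]
      rw [h1, h1, ge_DX_inl, ge_DX_inl]
      have h2 : ∀ (P Q Q' : Prop) [Decidable P] [Decidable Q] [Decidable Q'] (y : Ex r k),
          (Q ↔ Q') → (if P ∧ Q then y else 0) = (if Q' then (1 : ℂ) else 0) • (if P then y else 0) := by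
        intro P Q Q' _ _ _ y hQ
        by_cases hq : Q
        · by_cases hp : P
          · rw [if_pos ⟨hp, hq⟩, if_pos (hQ.1 hq), if_pos hp, one_smul]
          · rw [if_neg (fun h => hp h.1), if_neg hp, smul_zero]
        · rw [if_neg (fun h => hq h.2), if_neg (fun h => hq (hQ.2 h)), zero_smul]
      rw [h2 _ _ (j = a) _ eq_comm, h2 _ _ (i = l) _ Iff.rfl]
    · rw [ge_DX_inr, ge_DX_inr, ge_DX_rename, ge_DX_rename, ge_DX_inr, ge_DX_inr, ← map_sub]
      have h := congrArg (fun D => D (X p)) (DE_comm (k := k) i j a l)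
      rw [Derivation.commutator_apply, Derivation.sub_apply, Derivation.smul_apply,
        Derivation.smul_apply] at h
      rw [h, map_sub, map_smul, map_smul]
  have h := congrArg (fun D => D F) key
  rw [Derivation.commutator_apply, Derivation.sub_apply, Derivation.smul_apply,
    Derivation.smul_apply] at h
  rw [h]
  congr 1 <;> split_ifs <;> simp

private theorem ge_W1_nonneg (v : geV r k) (i : Fin r) : 0 ≤ W1 v i := by
  rcases v with p | p
  · exact sg_nonneg _ _
  · exact wt_nonneg p i

private theorem ge_W1_sum (v : geV r k) : 1 ≤ ∑ i, W1 v i := by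
  rcases v with p | p
  · rw [ge_W1_inl, GlFam.sum_sg]
  · rw [ge_W1_inr, sum_wt]
    omega

private theorem ge_weight (d : geV r k →₀ ℕ) (i : Fin r) :
    (Finsupp.weight W1 d) i = ∑ p ∈ d.support, (d p : ℤ) * W1 p i := by
  rw [Finsupp.weight_apply, Finsupp.sum, Finset.sum_apply]
  refine Finset.sum_congr rfl fun p _ => ?_
  simp

private theorem ge_degree (d : geV r k →₀ ℕ) : (d.degree : ℤ) ≤ ∑ i, (Finsupp.weight W1 d) i := by
  simp_rw [ge_weight]
  rw [Finset.sum_comm, Finsupp.degree_apply]
  push_cast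
  refine Finset.sum_le_sum fun p _ => ?_
  rw [← Finset.mul_sum]
  have h1 := ge_W1_sum p
  have h2 : (0 : ℤ) ≤ d p := Int.natCast_nonneg _
  nlinarith

private theorem ge_finite (m : Fin r → ℤ) :
    {d : geV r k →₀ ℕ | Finsupp.weight W1 d = m}.Finite := by
  apply (Finsupp.finite_of_degree_le (σ := geV r k) (∑ i, m i).toNat).subset
  intro d hd
  have h1 : Finsupp.weight W1 d = m := hd
  have h2 := ge_degree d
  rw [h1] at h2
  show d.degree ≤ (∑ i, m i).toNat
  omega

private noncomputable def geG (r k d : ℕ) (ν : Fin r → ℤ) : Submodule ℂ (Ex r k) :=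
  if ∑ i, ν i = (d : ℤ) then weightedHomogeneousSubmodule ℂ W1 ν else ⊥

private theorem ge_mem {d : ℕ} {ν : Fin r → ℤ} {F : Ex r k} :
    F ∈ geG r k d ν ↔ IsWeightedHomogeneous W1 F ν ∧ (F = 0 ∨ ∑ i, ν i = (d : ℤ)) := by
  unfold geG
  by_cases h : ∑ i, ν i = (d : ℤ)
  · rw [if_pos h, mem_weightedHomogeneousSubmodule]
    exact ⟨fun h1 => ⟨h1, Or.inr h⟩, fun h1 => h1.1⟩
  · rw [if_neg h, Submodule.mem_bot]
    constructor
    · rintro rfl
      exact ⟨isWeightedHomogeneous_zero _ _ _, Or.inl rfl⟩
    · rintro ⟨_, h1 | h1⟩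
      · exact h1
      · exact absurd h1 h

private noncomputable def geS (r k d : ℕ) : GlFam r (Ex r k) where
  E := fun i j => (DX i j).toLinearMap
  comm := fun i j a l v => ge_comm i j a l v
  G := geG r k d
  fin := by
    intro ν
    unfold geG
    by_cases h : ∑ i, ν i = (d : ℤ)
    · rw [if_pos h, weightedHomogeneousSubmodule_eq_finsupp_supported]
      have := (ge_finite (r := r) (k := k) ν).to_subtype
      exact Module.Finite.of_basis
        (basisRestrictSupport ℂ {d : geV r k →₀ ℕ | Finsupp.weight W1 d = ν})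
    · rw [if_neg h]
      infer_instance
  map := by
    intro ν i j v hv
    rw [ge_mem] at hv ⊢
    have h1 := ge_hom i j hv.1
    rw [← add_sub_assoc] at h1
    refine ⟨h1, ?_⟩
    rcases hv.2 with h2 | h2
    · left
      rw [h2, map_zero]
    · right
      rw [← h2]
      simp only [Pi.add_apply, Pi.sub_apply, Finset.sum_sub_distrib, Finset.sum_add_distrib,
        GlFam.sum_sg]
      ring
  diag := fun ν i v hv => ge_diag i (ge_mem.1 hv).1
  d0 := d
  nonneg := by
    intro ν i hi
    rw [Submodule.eq_bot_iff]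
    intro F hF
    by_contra h0
    obtain ⟨d, hd⟩ := MvPolynomial.ne_zero_iff.1 h0
    have h1 : Finsupp.weight W1 d = ν := (ge_mem.1 hF).1 hd
    have h2 := ge_weight d i
    rw [h1] at h2
    have h3 : 0 ≤ ∑ p ∈ d.support, (d p : ℤ) * W1 p i :=
      Finset.sum_nonneg fun p _ => mul_nonneg (Int.natCast_nonneg _) (ge_W1_nonneg p i)
    exact absurd (h2 ▸ h3) (not_le.2 hi)
  deg := fun ν hν => if_neg hν

theorem kGE : GEStmt := by
  intro r k d
  exact ⟨geS r k d, rfl, fun i j F => rfl, fun ν F => ge_mem⟩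

end T3

end Pool.Agent.Lib.MP_a688ad_al
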