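import Pool.Agent.Lib.MP_a688ad_al.T3.SpecU

/-!
# MP_a688ad_al, all large `n`: particles are a `gl_r` family
-/

set_option autoImplicit false

open MvPolynomial Finset

namespace Pool.Agent.Lib.MP_a688ad_al

namespace T3

open T2

section GZ

variable {K r : ℕ}

theorem gz_X (i j : Fin r) (p : Fin K × Fin r) :
    DZ i j (X p : Z K r) = if p.2 = j then X (p.1, i) else 0 := by
  unfold DZ
  rw [mkDerivation_X]

theorem gz_comm (i j k' l : Fin r) :
    ⁅(DZ i j : Derivation ℂ (Z K r) (Z K r)), (DZ k' l : Derivation ℂ (Z K r) (Z K r))⁆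
      = (if j = k' then (1 : ℂ) else 0) • DZ i l - (if i = l then (1 : ℂ) else 0) • DZ k' j := by
  apply derivation_ext
  intro p
  obtain ⟨κ, s⟩ := p
  rw [Derivation.commutator_apply, Derivation.sub_apply, Derivation.smul_apply,
    Derivation.smul_apply]
  have key : ∀ i j k' l : Fin r, DZ i j (DZ k' l (X (κ, s) : Z K r))
      = if j = k' then (if s = l then X (κ, i) else 0) else 0 := by
    intro i j k' l
    rw [gz_X]
    by_cases h : s = l
    · rw [if_pos h, gz_X]
      by_cases h' : k' = j
      · rw [if_pos h', if_pos h'.symm, if_pos h]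
      · rw [if_neg h', if_neg (fun e => h' e.symm)]
    · rw [if_neg h, map_zero, if_neg h]
      split_ifs <;> rfl
  rw [key i j k' l, key k' l i j, gz_X, gz_X]
  congr 1
  · split_ifs <;> simp
  · by_cases hil : i = l
    · rw [if_pos hil, if_pos hil.symm, one_smul]
    · rw [if_neg hil, if_neg (fun e => hil e.symm), zero_smul]

theorem gz_monomial (i j : Fin r) (d : (Fin K × Fin r) →₀ ℕ) (c : ℂ) :
    DZ i j (monomial d c : Z K r)
      = c • d.sum fun p n => monomial (d - Finsupp.single p 1) (n : ℂ) • DZ i j (X p) := by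
  unfold DZ
  rw [mkDerivation_monomial]
  simp only [mkDerivation_X]

theorem gz_X_hom (i j : Fin r) (p : Fin K × Fin r) :
    IsWeightedHomogeneous (fun p : Fin K × Fin r => sg p.2) (DZ i j (X p : Z K r))
      (sg p.2 + (sg i - sg j)) := by
  rw [gz_X]
  split_ifs with h
  · have h2 := isWeightedHomogeneous_X ℂ (fun p : Fin K × Fin r => sg p.2) (p.1, i)
    have e : sg p.2 + (sg i - sg j) = sg i := by
      rw [h]; abel
    rw [e]
    exact h2
  · exact isWeightedHomogeneous_zero _ _ _

theorem gz_hom (i j : Fin r) {F : Z K r} {m : Fin r → ℤ}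
    (hF : IsWeightedHomogeneous (fun p : Fin K × Fin r => sg p.2) F m) :
    IsWeightedHomogeneous (fun p : Fin K × Fin r => sg p.2) (DZ i j F) (m + (sg i - sg j)) := by
  rw [← support_sum_monomial_coeff F, map_sum]
  apply IsWeightedHomogeneous.sum
  intro d hd
  have hw : Finsupp.weight (fun p : Fin K × Fin r => sg p.2) d = m := hF (mem_support_iff.1 hd)
  rw [gz_monomial]
  rw [← mem_weightedHomogeneousSubmodule ℂ]
  apply Submodule.smul_mem
  rw [Finsupp.sum]
  apply Submodule.sum_mem
  intro p hp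
  rw [mem_weightedHomogeneousSubmodule, smul_eq_mul]
  have hp0 : d p ≠ 0 := Finsupp.mem_support_iff.1 hp
  have h1 := isWeightedHomogeneous_monomial (fun p : Fin K × Fin r => sg p.2)
    (d - Finsupp.single p 1) ((d p : ℕ) : ℂ) rfl
  have h2 := h1.mul (gz_X_hom i j p)
  have e : Finsupp.weight (fun p : Fin K × Fin r => sg p.2) (d - Finsupp.single p 1)
      + (sg p.2 + (sg i - sg j)) = m + (sg i - sg j) := by
    have h3 := Finsupp.weight_sub_single_add (w := fun p : Fin K × Fin r => sg p.2) hp0
    rw [← add_assoc]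
    rw [hw] at h3
    rw [h3]
  rw [e] at h2
  exact h2

theorem gz_diag_X (i : Fin r) (p : Fin K × Fin r) :
    DZ i i (X p : Z K r) = (sg p.2 i : ℂ) • X p := by
  obtain ⟨κ, s⟩ := p
  rw [gz_X]
  unfold sg
  rw [Pi.single_apply]
  by_cases h : s = i
  · subst h
    simp
  · have h' : i ≠ s := fun e => h e.symm
    simp [h, h']

theorem gz_diag (i : Fin r) {F : Z K r} {m : Fin r → ℤ}
    (hF : IsWeightedHomogeneous (fun p : Fin K × Fin r => sg p.2) F m) :
    DZ i i F = (m i : ℂ) • F := by
  conv_lhs => rw [← support_sum_monomial_coeff F]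
  conv_rhs => rw [← support_sum_monomial_coeff F]
  rw [map_sum, Finset.smul_sum]
  apply Finset.sum_congr rfl
  intro d hd
  have hw : Finsupp.weight (fun p : Fin K × Fin r => sg p.2) d = m := hF (mem_support_iff.1 hd)
  rw [gz_monomial]
  have h1 : (d.sum fun p n => monomial (d - Finsupp.single p 1) (n : ℂ) • DZ i i (X p : Z K r))
      = ∑ p ∈ d.support, (((d p : ℕ) : ℂ) * (sg p.2 i : ℂ)) • monomial d (1 : ℂ) := by
    rw [Finsupp.sum]
    refine Finset.sum_congr rfl fun p hp => ?_
    have hp0 : d p ≠ 0 := Finsupp.mem_support_iff.1 hp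
    rw [gz_diag_X, smul_eq_mul, mul_smul_comm, X, monomial_mul, Finsupp.sub_add_single_one_cancel hp0,
      mul_one, smul_monomial, smul_monomial]
    congr 1
    simp only [smul_eq_mul]
    ring
  rw [h1, ← Finset.sum_smul, ← hw, Finsupp.weight_apply, Finsupp.sum]
  rw [smul_monomial, smul_monomial, smul_monomial]
  congr 1
  simp only [smul_eq_mul, mul_one]
  rw [mul_comm]
  congr 1
  rw [Finset.sum_apply]
  push_cast
  refine Finset.sum_congr rfl fun p _ => ?_
  simp

theorem gz_weight (d : (Fin K × Fin r) →₀ ℕ) (i : Fin r) :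
    (Finsupp.weight (fun p : Fin K × Fin r => sg p.2) d) i
      = ∑ p ∈ d.support, (d p : ℤ) * sg p.2 i := by
  rw [Finsupp.weight_apply, Finsupp.sum, Finset.sum_apply]
  refine Finset.sum_congr rfl fun p _ => ?_
  simp

theorem gz_deg (d : (Fin K × Fin r) →₀ ℕ) :
    ∑ i, (Finsupp.weight (fun p : Fin K × Fin r => sg p.2) d) i = (d.degree : ℤ) := by
  simp only [gz_weight]
  rw [Finset.sum_comm]
  simp only [← Finset.mul_sum, GlFam.sum_sg, mul_one]
  rw [Finsupp.degree_apply]
  push_cast
  rfl

theorem gz_finite (m : Fin r → ℤ) :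
    {d : (Fin K × Fin r) →₀ ℕ | Finsupp.weight (fun p : Fin K × Fin r => sg p.2) d = m}.Finite := by
  apply (Finsupp.finite_of_degree_eq (σ := Fin K × Fin r) (∑ i, m i).toNat).subset
  intro d hd
  have h1 : Finsupp.weight (fun p : Fin K × Fin r => sg p.2) d = m := hd
  have h2 := gz_deg d
  rw [h1] at h2
  show d.degree = (∑ i, m i).toNat
  omega

/-- The weight spaces. -/
noncomputable def gzG (K r d : ℕ) (ν : Fin r → ℤ) : Submodule ℂ (Z K r) :=
  if ∑ i, ν i = (d : ℤ) then
    weightedHomogeneousSubmodule ℂ (fun p : Fin K × Fin r => sg p.2) ν else ⊥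

theorem gz_mem (d : ℕ) (ν : Fin r → ℤ) (f : Z K r) : f ∈ gzG K r d ν ↔
    IsWeightedHomogeneous (fun p : Fin K × Fin r => sg p.2) f ν ∧ (f = 0 ∨ ∑ i, ν i = (d : ℤ)) := by
  unfold gzG
  split_ifs with h
  · rw [mem_weightedHomogeneousSubmodule]
    exact ⟨fun hf => ⟨hf, Or.inr h⟩, fun hf => hf.1⟩
  · rw [Submodule.mem_bot]
    refine ⟨fun hf => ⟨?_, Or.inl hf⟩, fun hf => hf.2.resolve_right h⟩
    rw [hf]
    exact isWeightedHomogeneous_zero _ _ _

/-- Particles as a `gl_r` family. -/
noncomputable def gzFam (K r d : ℕ) : GlFam r (Z K r) where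
  E := fun i j => (DZ i j).toLinearMap
  comm := by
    intro i j a l v
    have h := congrArg (fun D => D v) (gz_comm (K := K) i j a l)
    rw [Derivation.commutator_apply, Derivation.sub_apply, Derivation.smul_apply,
      Derivation.smul_apply] at h
    show DZ i j (DZ a l v) - DZ a l (DZ i j v) = (if j = a then DZ i l v else 0)
      - (if i = l then DZ a j v else 0)
    rw [h]
    congr 1 <;> split_ifs <;> simp
  G := gzG K r d
  fin := by
    intro ν
    have hle : gzG K r d ν ≤ weightedHomogeneousSubmodule ℂ (fun p : Fin K × Fin r => sg p.2) ν := by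
      intro f hf
      rw [mem_weightedHomogeneousSubmodule]
      exact ((gz_mem d ν f).1 hf).1
    have hfd : FiniteDimensional ℂ
        (weightedHomogeneousSubmodule ℂ (fun p : Fin K × Fin r => sg p.2) ν) := by
      rw [weightedHomogeneousSubmodule_eq_finsupp_supported]
      have := (gz_finite (K := K) (r := r) ν).to_subtype
      exact Module.Finite.of_basis (basisRestrictSupport ℂ
        {d : (Fin K × Fin r) →₀ ℕ | Finsupp.weight (fun p : Fin K × Fin r => sg p.2) d = ν})
    exact Submodule.finiteDimensional_of_le hle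
  map := by
    intro ν i j v hv
    rw [gz_mem] at hv
    obtain ⟨h1, h2⟩ := hv
    show DZ i j v ∈ gzG K r d (ν + sg i - sg j)
    rw [gz_mem]
    have e : ν + sg i - sg j = ν + (sg i - sg j) := by abel
    refine ⟨?_, ?_⟩
    · rw [e]
      exact gz_hom i j h1
    · rcases h2 with h2 | h2
      · left
        rw [h2, map_zero]
      · right
        rw [← h2]
        simp only [Pi.sub_apply, Pi.add_apply, Finset.sum_sub_distrib, Finset.sum_add_distrib,
          GlFam.sum_sg]
        ring
  diag := by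
    intro ν i v hv
    exact gz_diag i ((gz_mem d ν v).1 hv).1
  d0 := d
  nonneg := by
    intro ν i hi
    rw [Submodule.eq_bot_iff]
    intro F hF
    rw [gz_mem] at hF
    by_contra h0
    obtain ⟨e, he⟩ := MvPolynomial.ne_zero_iff.1 h0
    have h1 : Finsupp.weight (fun p : Fin K × Fin r => sg p.2) e = ν := hF.1 he
    have h2 := gz_weight e i
    rw [h1] at h2
    have h3 : 0 ≤ ∑ p ∈ e.support, (e p : ℤ) * sg p.2 i :=
      Finset.sum_nonneg fun p _ => mul_nonneg (Int.natCast_nonneg _) (sg_nonneg _ _)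
    omega
  deg := by
    intro ν hν
    rw [Submodule.eq_bot_iff]
    intro F hF
    rw [gz_mem] at hF
    exact hF.2.resolve_right hν

end GZ

theorem kGZ : GZStmt := fun K r d =>
  ⟨gzFam K r d, rfl, fun _ _ _ => rfl, fun ν f => gz_mem d ν f⟩

end T3

end Pool.Agent.Lib.MP_a688ad_al
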