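import Pool.Agent.Lib.MP_a688ad_al.T3.SpecB

/-!
# MP_a688ad_al, all large `n`, module Gen: finite generation
-/

set_option autoImplicit false

open MvPolynomial Finset

namespace Pool.Agent.Lib.MP_a688ad_al

namespace T3

open T2

private abbrev genW (K r : ℕ) (p : Fin K × Fin r) : Fin K → ℤ := sg p.1

private theorem gen_sg {K : ℕ} (σ : Equiv.Perm (Fin K)) (i κ : Fin K) :
    (sg (σ i) : Fin K → ℤ) κ = (sg i : Fin K → ℤ) (σ.symm κ) := by
  unfold sg
  rw [Pi.single_apply, Pi.single_apply]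
  by_cases h : κ = σ i
  · rw [if_pos h, if_pos (by rw [h, Equiv.symm_apply_apply])]
  · rw [if_neg h, if_neg]
    intro h'
    apply h
    rw [← h', Equiv.apply_symm_apply]

private theorem gen_rz {K r c : ℕ} {f : Z K r} (h : Cn c f) (σ : Equiv.Perm (Fin K)) :
    Cn c (rz σ f) := by
  intro d hd
  obtain ⟨u, hu, hu0⟩ := coeff_rename_ne_zero (Prod.map σ id) f d hd
  have h1 : Finsupp.weight (genW K r) u = fun _ => (c : ℤ) := h hu0
  show Finsupp.weight (genW K r) d = fun _ => (c : ℤ)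
  rw [← hu, Finsupp.weight_apply, Finsupp.sum_mapDomain_index (h := fun p n => n • genW K r p)
    (fun _ => zero_smul ℕ _) (fun _ _ _ => add_smul _ _ _)]
  funext κ
  have h2 := congrFun h1 (σ.symm κ)
  rw [Finsupp.weight_apply] at h2
  simp only [Finsupp.sum, Finset.sum_apply, Pi.smul_apply] at h2 ⊢
  rw [← h2]
  refine Finset.sum_congr rfl fun p _ => ?_
  congr 1
  exact gen_sg σ p.1 κ

private theorem gen_weight {K r : ℕ} (d : (Fin K × Fin r) →₀ ℕ) (κ : Fin K) :
    Finsupp.weight (genW K r) d κ = ((∑ i, d (κ, i) : ℕ) : ℤ) := by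
  rw [Finsupp.weight_apply, Finsupp.sum_fintype d (fun p n => n • genW K r p)
    (fun _ => zero_smul ℕ _), Fintype.sum_prod_type, Finset.sum_apply, Finset.sum_eq_single κ]
  · rw [Finset.sum_apply]
    push_cast
    refine Finset.sum_congr rfl fun i _ => ?_
    unfold genW sg
    simp
  · intro κ' _ hne
    rw [Finset.sum_apply]
    refine Finset.sum_eq_zero fun i _ => ?_
    unfold genW sg
    simp [Pi.single_apply, hne.symm]
  · intro h
    exact absurd (Finset.mem_univ _) h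

private theorem gen_mem {k r N : ℕ} {I : Ideal (Z (k + 1) r)}
    (hN : ∀ a : Fin (k + 1) → Fin r, (∏ κ, X (κ, a κ) : Z (k + 1) r) ^ N ∈ I)
    {c : ℕ} (hc : N * r + 1 ≤ c) {f : Z (k + 1) r} (hf : Cn c f) : f ∈ I := by
  rw [← support_sum_monomial_coeff f]
  refine Ideal.sum_mem _ fun d hd => ?_
  have h1 : Finsupp.weight (genW (k + 1) r) d = fun _ => (c : ℤ) := hf (mem_support_iff.1 hd)
  have h2 : ∀ κ : Fin (k + 1), ∃ i, N ≤ d (κ, i) := by
    intro κ
    by_contra hcon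
    push Not at hcon
    have h3 := congrFun h1 κ
    rw [gen_weight] at h3
    have h4 : ∑ i, d (κ, i) = c := by exact_mod_cast h3
    have h5 : ∑ i : Fin r, d (κ, i) ≤ ∑ _i : Fin r, N :=
      Finset.sum_le_sum fun i _ => (hcon i).le
    rw [Finset.sum_const, Finset.card_univ, Fintype.card_fin, smul_eq_mul] at h5
    have h6 : r * N = N * r := mul_comm _ _
    omega
  choose a ha using h2
  have h3 : (∏ κ, X (κ, a κ) : Z (k + 1) r) ^ N ∣ monomial d (coeff d f) := by
    rw [monomial_eq, Finsupp.prod_fintype _ _ (fun _ => pow_zero _), Fintype.prod_prod_type,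
      ← Finset.prod_pow]
    refine dvd_mul_of_dvd_right (Finset.prod_dvd_prod_of_dvd _ _ fun κ _ => ?_) _
    exact (pow_dvd_pow _ (ha κ)).trans
      (Finset.dvd_prod_of_mem (fun i => (X (κ, i) : Z (k + 1) r) ^ d (κ, i)) (Finset.mem_univ _))
  obtain ⟨q, hq⟩ := h3
  rw [hq]
  exact I.mul_mem_right _ (hN a)

private theorem gen_comp {k r c : ℕ} (hc : 1 ≤ c) (h : Ib r k → Z (k + 1) r)
    (hel : ∀ p : Ib r k, Cn 1 (el p : Z (k + 1) r)) (hf : Cn c (∑ p, h p * el p)) :
    ∃ g : Ib r k → Z (k + 1) r, (∀ p, Cn (c - 1) (g p)) ∧ ∑ p, h p * el p = ∑ p, g p * el p := by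
  let _ := weightedGradedAlgebra ℂ (genW (k + 1) r)
  set 𝒜 := weightedHomogeneousSubmodule ℂ (genW (k + 1) r) with h𝒜
  refine ⟨fun p => (DirectSum.decompose 𝒜 (h p) (fun _ => ((c - 1 : ℕ) : ℤ)) : Z (k + 1) r),
    fun p => ?_, ?_⟩
  · exact (DirectSum.decompose 𝒜 (h p) (fun _ => ((c - 1 : ℕ) : ℤ))).2
  · have h1 : (∑ p, h p * el p : Z (k + 1) r) ∈ 𝒜 (fun _ => (c : ℤ)) := hf
    have h2 := DirectSum.decompose_of_mem_same 𝒜 h1
    rw [← h2, DirectSum.decompose_sum]
    have h3 : (fun _ => (c : ℤ) : Fin (k + 1) → ℤ) =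
        (fun _ => ((c - 1 : ℕ) : ℤ)) + fun _ => ((1 : ℕ) : ℤ) := by
      funext i
      rw [Pi.add_apply]
      push_cast [Nat.cast_sub hc]
      ring
    rw [h3, DFinsupp.finset_sum_apply, AddSubmonoidClass.coe_finset_sum]
    refine Finset.sum_congr rfl fun p _ => ?_
    have h4 : (el p : Z (k + 1) r) ∈ 𝒜 (fun _ => ((1 : ℕ) : ℤ)) := hel p
    exact DirectSum.coe_decompose_mul_add_of_right_mem 𝒜 h4

theorem kGen (h1 : ElStmt) (h2 : RadStmt) : GenStmt := by
  intro k r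
  have h3 := h2 k r
  choose N hN using h3
  have hN' : ∀ a : Fin (k + 1) → Fin r, (∏ κ, X (κ, a κ) : Z (k + 1) r) ^ (∑ b, N b) ∈
      Ideal.span (Set.range fun p : Ib r k => (el p : Z (k + 1) r)) := by
    intro a
    have h4 : N a ≤ ∑ b, N b := Finset.single_le_sum (fun _ _ => Nat.zero_le _) (Finset.mem_univ a)
    obtain ⟨t, ht⟩ := Nat.exists_eq_add_of_le h4
    rw [ht, pow_add]
    exact Ideal.mul_mem_right _ _ (hN a)
  refine ⟨(∑ b, N b) * r + 1, by omega, ?_⟩
  intro c hc f hf hsf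
  have hc1 : 1 ≤ c := by omega
  have h5 : f ∈ Ideal.span (Set.range fun p : Ib r k => (el p : Z (k + 1) r)) := gen_mem hN' hc hf
  obtain ⟨h, hh⟩ := (Ideal.mem_span_range_iff_exists_fun).1 h5
  have hf' : Cn c (∑ p, h p * el p) := by
    rw [hh]
    exact hf
  obtain ⟨g, hg, hg'⟩ := gen_comp hc1 h (fun p => ((h1 k r).2.1 p).2) hf'
  rw [hh] at hg'
  refine ⟨fun p => ((((k + 1).factorial : ℕ) : ℂ)⁻¹) • ∑ σ : Equiv.Perm (Fin (k + 1)), rz σ (g p),
    fun p => ⟨?_, ?_⟩, ?_⟩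
  · have h6 : (∑ σ : Equiv.Perm (Fin (k + 1)), rz σ (g p)) ∈
        weightedHomogeneousSubmodule ℂ (genW (k + 1) r) (fun _ => ((c - 1 : ℕ) : ℤ)) :=
      Submodule.sum_mem _ fun σ _ => gen_rz (hg p) σ
    exact Submodule.smul_mem _ _ h6
  · intro ρ
    rw [map_smul, map_sum]
    congr 1
    rw [← Equiv.sum_comp (Equiv.mulLeft ρ) (fun σ => rz σ (g p))]
    refine Finset.sum_congr rfl fun σ _ => ?_
    unfold rz
    rw [rename_rename]
    rfl
  · have h7 : ∀ σ : Equiv.Perm (Fin (k + 1)), f = ∑ p, rz σ (g p) * el p := by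
      intro σ
      have h8 := hsf σ
      rw [← h8]
      conv_lhs => rw [hg']
      rw [map_sum]
      refine Finset.sum_congr rfl fun p _ => ?_
      rw [map_mul, ((h1 k r).2.1 p).1 σ]
    have h9 : (((k + 1).factorial : ℕ) : ℂ) • f =
        ∑ p, (∑ σ : Equiv.Perm (Fin (k + 1)), rz σ (g p)) * el p := by
      have h10 : ∑ _σ : Equiv.Perm (Fin (k + 1)), f = (((k + 1).factorial : ℕ) : ℂ) • f := by
        rw [Finset.sum_const, Finset.card_univ, Fintype.card_perm, Fintype.card_fin,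
          Nat.cast_smul_eq_nsmul]
      rw [← h10, Finset.sum_congr rfl fun σ _ => h7 σ, Finset.sum_comm]
      refine Finset.sum_congr rfl fun p _ => ?_
      rw [Finset.sum_mul]
    have h11 : f = ((((k + 1).factorial : ℕ) : ℂ)⁻¹) • ((((k + 1).factorial : ℕ) : ℂ) • f) := by
      rw [smul_smul, inv_mul_cancel₀, one_smul]
      exact_mod_cast Nat.factorial_ne_zero (k + 1)
    rw [h11, h9, Finset.smul_sum]
    refine Finset.sum_congr rfl fun p _ => ?_
    rw [smul_mul_assoc]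

end T3

end Pool.Agent.Lib.MP_a688ad_al
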