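import Pool.Agent.Lib.MP_a688ad_al.T3.SpecE

/-!
# MP_a688ad_al, all large `n`: the coordinates of a generic element
-/

set_option autoImplicit false

open MvPolynomial Finset

namespace Pool.Agent.Lib.MP_a688ad_al

namespace T3

open T2

variable {r k : ℕ}

private theorem gg_univ_map (f : Fin (k + 1) → Fin r) :
    (univ : Finset (Fin (k + 1))).val.map f =
      f 0 ::ₘ (univ : Finset (Fin k)).val.map fun a => f a.succ := by
  rw [Fin.univ_val_map, Fin.univ_val_map, List.ofFn_succ]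
  rfl

private theorem gg_Xt_congr {f g : Fin (k + 1) → Fin r} (h0 : f 0 = g 0)
    (h : (univ : Finset (Fin (k + 1))).val.map f = (univ : Finset (Fin (k + 1))).val.map g) :
    (Xt f : MvPolynomial (Ib r k) ℂ) = Xt g := by
  rw [gg_univ_map, gg_univ_map, h0, Multiset.cons_inj_right] at h
  have h1 : sy (fun a => f a.succ) = sy (fun a => g a.succ) := Subtype.ext h
  unfold Xt
  rw [h0, h1]

private theorem gg_Xt_perm (τ : Fin (k + 1) → Fin r) (σ : Equiv.Perm (Fin (k + 1))) :
    (Xt (τ ∘ σ) : MvPolynomial (Ib r k) ℂ) = Xt (τ ∘ Equiv.swap 0 (σ 0)) := by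
  have h1 : ∀ π : Equiv.Perm (Fin (k + 1)),
      (univ : Finset (Fin (k + 1))).val.map (τ ∘ π) = (univ : Finset (Fin (k + 1))).val.map τ := by
    intro π
    rw [← Multiset.map_map, Multiset.map_univ_val_equiv]
  refine gg_Xt_congr ?_ ?_
  · show τ (σ 0) = τ (Equiv.swap 0 (σ 0) 0)
    rw [Equiv.swap_apply_left]
  · rw [h1 σ, h1 (Equiv.swap 0 (σ 0))]

private theorem gg_sym (τ : Fin (k + 1) → Fin r) :
    sym ((τ 0, sy fun a => τ a.succ) : Ib r k) = ∑ a, Xt (τ ∘ Equiv.swap 0 a) := by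
  rw [Fin.sum_univ_succ]
  have h0 : (Xt (τ ∘ Equiv.swap 0 (0 : Fin (k + 1))) : MvPolynomial (Ib r k) ℂ)
      = X (τ 0, sy fun a => τ a.succ) := by
    rw [Equiv.swap_self]
    rfl
  rw [h0]
  unfold sym
  congr 1
  show (((univ : Finset (Fin k)).val.map fun a => τ a.succ).map fun c =>
      X (c, rp (sy fun a => τ a.succ) c (τ 0))).sum = _
  rw [Multiset.map_map]
  show ∑ a : Fin k, X (τ a.succ, rp (sy fun a => τ a.succ) (τ a.succ) (τ 0)) = _
  refine Finset.sum_congr rfl fun a _ => ?_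
  rw [rp_sy (fun a : Fin k => τ a.succ) a (τ 0)]
  unfold Xt
  have h1 : (τ ∘ Equiv.swap 0 a.succ) 0 = τ a.succ := by
    show τ (Equiv.swap 0 a.succ 0) = τ a.succ
    rw [Equiv.swap_apply_left]
  have h2 : (fun b : Fin k => (τ ∘ Equiv.swap 0 a.succ) b.succ)
      = Function.update (fun a : Fin k => τ a.succ) a (τ 0) := by
    funext b
    show τ (Equiv.swap 0 a.succ b.succ) = _
    by_cases hb : b = a
    · subst hb
      rw [Equiv.swap_apply_right, Function.update_self]
    · rw [Function.update_of_ne hb, Equiv.swap_apply_of_ne_of_ne (Fin.succ_ne_zero b)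
        (fun h => hb (Fin.succ_injective _ h))]
  rw [h1, h2]

/-- the coordinate before renaming -/
private noncomputable def ggV (τ : Fin (k + 1) → Fin r) : MvPolynomial (Ib r k) ℂ :=
  Xt τ - (1 / ((k : ℂ) + 1)) • ∑ a, Xt (τ ∘ Equiv.swap 0 a)

private theorem gg_dg (τ : Fin (k + 1) → Fin r) :
    dg ((τ 0, sy fun a => τ a.succ) : Ib r k) = ggV τ := by
  unfold dg ggV
  rw [gg_sym]
  rfl

private theorem gg_eq (τ : Fin (k + 1) → Fin r) : (gg τ : Ex r k) = rename Sum.inr (ggV τ) := by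
  unfold gg
  rw [gg_dg]

private theorem gg_hom_Xt (τ : Fin (k + 1) → Fin r) :
    IsWeightedHomogeneous WE (rename Sum.inr (Xt τ : MvPolynomial (Ib r k) ℂ) : Ex r k)
      (∑ a, sg (τ a), 0, 1) := by
  unfold Xt
  rw [rename_X]
  have h := isWeightedHomogeneous_X ℂ (WE (r := r) (k := k))
    (Sum.inr ((τ 0, sy fun a => τ a.succ) : Ib r k))
  have h1 : WE (r := r) (k := k) (Sum.inr ((τ 0, sy fun a => τ a.succ) : Ib r k))
      = (∑ a, sg (τ a), 0, 1) := by
    show (wt ((τ 0, sy fun a => τ a.succ) : Ib r k), (0 : Fin (k + 1) → ℤ), (1 : ℤ)) = _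
    rw [wt_tuple]
  rw [h1] at h
  exact h

private theorem gg_DX_rename (i j : Fin r) (F : MvPolynomial (Ib r k) ℂ) :
    DX i j (rename Sum.inr F : Ex r k) = rename Sum.inr (DE i j F) := by
  induction F using MvPolynomial.induction_on with
  | C a =>
    rw [rename_C]
    have h1 : DX i j (C a : Ex r k) = 0 := Derivation.map_algebraMap _ a
    have h2 : DE i j (C a : MvPolynomial (Ib r k) ℂ) = 0 := Derivation.map_algebraMap _ a
    rw [h1, h2, map_zero]
  | add p q hp hq => rw [map_add, map_add, map_add, hp, hq, map_add]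
  | mul_X p n hp =>
    rw [map_mul, Derivation.leibniz, hp, Derivation.leibniz, rename_X, map_add, smul_eq_mul,
      smul_eq_mul, smul_eq_mul, smul_eq_mul, map_mul, map_mul, rename_X]
    have h1 : DX i j (X (Sum.inr n) : Ex r k) = rename Sum.inr (DE i j (X n)) :=
      mkDerivation_X _ _ _
    rw [h1]

private theorem gg_update (τ : Fin (k + 1) → Fin r) (b a : Fin (k + 1)) (i : Fin r) :
    Function.update (τ ∘ Equiv.swap 0 b) (Equiv.swap 0 b a) i =
      Function.update τ a i ∘ Equiv.swap 0 b := by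
  funext x
  show _ = Function.update τ a i (Equiv.swap 0 b x)
  by_cases hx : x = Equiv.swap 0 b a
  · subst hx
    rw [Function.update_self, Equiv.swap_apply_self, Function.update_self]
  · rw [Function.update_of_ne hx]
    have h1 : Equiv.swap 0 b x ≠ a := by
      intro h
      apply hx
      rw [← h, Equiv.swap_apply_self]
    rw [Function.update_of_ne h1]
    rfl

private theorem gg_DE (i j : Fin r) (τ : Fin (k + 1) → Fin r) :
    DE i j (ggV τ) = ∑ a, if τ a = j then ggV (Function.update τ a i) else 0 := by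
  have h1 : ∀ b : Fin (k + 1), DE i j (Xt (τ ∘ Equiv.swap 0 b) : MvPolynomial (Ib r k) ℂ) =
      ∑ a, if τ a = j then Xt (Function.update τ a i ∘ Equiv.swap 0 b) else 0 := by
    intro b
    rw [DE_Xt, ← Equiv.sum_comp (Equiv.swap 0 b)]
    refine Finset.sum_congr rfl fun a _ => ?_
    rw [gg_update]
    show (if τ (Equiv.swap 0 b (Equiv.swap 0 b a)) = j then _ else _) = _
    rw [Equiv.swap_apply_self]
  have h2 : DE i j (ggV τ) = DE i j (Xt τ) - (1 / ((k : ℂ) + 1)) •
      ∑ b, DE i j (Xt (τ ∘ Equiv.swap 0 b)) := by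
    unfold ggV
    rw [map_sub, Derivation.map_smul, map_sum]
  rw [h2, DE_Xt, Finset.sum_congr rfl fun b _ => h1 b, Finset.sum_comm, Finset.smul_sum,
    ← Finset.sum_sub_distrib]
  refine Finset.sum_congr rfl fun a _ => ?_
  by_cases h : τ a = j
  · rw [if_pos h, if_pos h]
    unfold ggV
    congr 2
    exact Finset.sum_congr rfl fun b _ => if_pos h
  · rw [if_neg h, if_neg h, Finset.sum_eq_zero fun b _ => if_neg h, smul_zero, sub_zero]

private theorem gg_proj (τ : Fin (k + 1) → Fin r) :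
    aeval dg (ggV τ : MvPolynomial (Ib r k) ℂ) = ggV τ := by
  have h1 : ∀ σ : Fin (k + 1) → Fin r, aeval dg (Xt σ : MvPolynomial (Ib r k) ℂ) = ggV σ := by
    intro σ
    unfold Xt
    rw [aeval_X, gg_dg]
  have h2 : aeval dg (ggV τ : MvPolynomial (Ib r k) ℂ) = ggV τ - (1 / ((k : ℂ) + 1)) •
      ∑ a, ggV (τ ∘ Equiv.swap 0 a) := by
    conv_lhs => unfold ggV
    rw [map_sub, map_smul, map_sum, h1]
    congr 2
    exact Finset.sum_congr rfl fun a _ => h1 _
  have hk : ((k : ℂ) + 1) ≠ 0 := by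
    have : ((k + 1 : ℕ) : ℂ) ≠ 0 := Nat.cast_ne_zero.2 (Nat.succ_ne_zero k)
    push_cast at this
    exact this
  have h3 : ∑ a, ggV (τ ∘ Equiv.swap 0 a) = (0 : MvPolynomial (Ib r k) ℂ) := by
    unfold ggV
    rw [Finset.sum_sub_distrib, ← Finset.smul_sum]
    have h4 : ∀ a : Fin (k + 1), ∑ b, (Xt ((τ ∘ Equiv.swap 0 a) ∘ Equiv.swap 0 b) :
        MvPolynomial (Ib r k) ℂ) = ∑ c, Xt (τ ∘ Equiv.swap 0 c) := by
      intro a
      rw [← Equiv.sum_comp (Equiv.swap 0 a) fun c => (Xt (τ ∘ Equiv.swap 0 c) :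
        MvPolynomial (Ib r k) ℂ)]
      refine Finset.sum_congr rfl fun b _ => ?_
      have h6 : (τ ∘ Equiv.swap 0 a) ∘ Equiv.swap 0 b = τ ∘ (Equiv.swap 0 a * Equiv.swap 0 b) := rfl
      have h7 : (Equiv.swap 0 a * Equiv.swap 0 b) 0 = Equiv.swap 0 a b := by
        rw [Equiv.Perm.mul_apply, Equiv.swap_apply_left]
      rw [h6, gg_Xt_perm, h7]
    rw [Finset.sum_congr rfl fun a _ => h4 a, Finset.sum_const, Finset.card_univ, Fintype.card_fin,
      ← Nat.cast_smul_eq_nsmul ℂ, smul_smul]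
    have h7 : (1 / ((k : ℂ) + 1)) * ((k + 1 : ℕ) : ℂ) = 1 := by
      push_cast
      field_simp
    rw [h7, one_smul, sub_self]
  rw [h2, h3, smul_zero, sub_zero]

theorem kGg : GgStmt := by
  intro r k τ
  refine ⟨?_, ?_, ?_, ?_⟩
  · rw [gg_eq]
    rfl
  · rw [gg_eq]
    unfold ggV
    rw [map_sub, map_smul, map_sum]
    have h1 : ∀ b : Fin (k + 1), (rename Sum.inr (Xt (τ ∘ Equiv.swap 0 b) :
        MvPolynomial (Ib r k) ℂ) : Ex r k) ∈
        weightedHomogeneousSubmodule ℂ WE (∑ a, sg (τ a), 0, 1) := by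
      intro b
      have h2 := gg_hom_Xt (k := k) (τ ∘ Equiv.swap 0 b)
      have h3 : ∑ a, sg ((τ ∘ Equiv.swap 0 b) a) = ∑ a, sg (τ a) :=
        Equiv.sum_comp (Equiv.swap 0 b) fun a => sg (τ a)
      rw [h3] at h2
      exact (mem_weightedHomogeneousSubmodule ℂ _ _ _).2 h2
    rw [← mem_weightedHomogeneousSubmodule ℂ]
    refine Submodule.sub_mem _ ((mem_weightedHomogeneousSubmodule ℂ _ _ _).2 (gg_hom_Xt τ)) ?_
    exact Submodule.smul_mem _ _ (Submodule.sum_mem _ fun b _ => h1 b)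
  · intro i j
    rw [gg_eq, gg_DX_rename, gg_DE, map_sum]
    refine Finset.sum_congr rfl fun a _ => ?_
    by_cases h : τ a = j
    · rw [if_pos h, if_pos h, gg_eq]
    · rw [if_neg h, if_neg h, map_zero]
  · rw [gg_eq]
    unfold pr
    rw [aeval_rename]
    have h1 : (Sum.elim (fun p => (X (Sum.inl p) : Ex r k)) fun p => rename Sum.inr (dg p)) ∘
        Sum.inr = fun p => rename Sum.inr (dg p) := rfl
    rw [h1]
    have h2 : (aeval (fun p => (rename Sum.inr (dg p) : Ex r k)) :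
        MvPolynomial (Ib r k) ℂ →ₐ[ℂ] Ex r k) = (rename Sum.inr).comp (aeval dg) := by
      apply algHom_ext
      intro p
      rw [aeval_X, AlgHom.comp_apply, aeval_X]
    rw [h2, AlgHom.comp_apply, gg_proj]

end T3

end Pool.Agent.Lib.MP_a688ad_al
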