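import Pool.Agent.Lib.MP_a688ad_al.T3.SpecE

/-!
# MP_a688ad_al, all large `n`: products over pairs of tuples (module `Ha`)
-/

set_option autoImplicit false

open MvPolynomial Finset

namespace Pool.Agent.Lib.MP_a688ad_al

namespace T3

open T2

section

variable {r k i : ℕ}

private def haE (i : ℕ) (σ : Equiv.Perm (Fin (k + 1))) :
    (Fin i ↪ Fin (k + 1)) ≃ (Fin i ↪ Fin (k + 1)) where
  toFun c := c.trans σ.toEmbedding
  invFun c := c.trans σ.symm.toEmbedding
  left_inv c := by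
    ext t
    simp
  right_inv c := by
    ext t
    simp

private def haE2 (i : ℕ) (σ : Equiv.Perm (Fin (k + 1))) :
    ((Fin i ↪ Fin (k + 1)) × (Fin i ↪ Fin (k + 1))) ≃
      ((Fin i ↪ Fin (k + 1)) × (Fin i ↪ Fin (k + 1))) :=
  Equiv.prodCongr (haE i σ) (haE i σ)

private theorem ha_range (σ : Equiv.Perm (Fin (k + 1))) (c : Fin i ↪ Fin (k + 1))
    (a : Fin (k + 1)) : σ a ∈ Set.range (haE i σ c) ↔ a ∈ Set.range c := by
  constructor
  · rintro ⟨t, ht⟩
    exact ⟨t, σ.injective ht⟩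
  · rintro ⟨t, rfl⟩
    exact ⟨t, rfl⟩

private theorem ha_range_eq (σ : Equiv.Perm (Fin (k + 1))) (c c' : Fin i ↪ Fin (k + 1)) :
    Set.range (haE i σ c) = Set.range (haE i σ c') ↔ Set.range c = Set.range c' := by
  constructor
  · intro h
    ext a
    rw [← ha_range σ c, ← ha_range σ c', h]
  · intro h
    ext a
    obtain ⟨b, rfl⟩ := σ.surjective a
    rw [ha_range, ha_range, h]

/-- The condition on the pair `c`. -/
private def haP (a : Fin (k + 1)) (c : (Fin i ↪ Fin (k + 1)) × (Fin i ↪ Fin (k + 1))) : Prop :=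
  a ∉ Set.range c.2 ∧ Set.range c.1 ≠ Set.range c.2

private theorem haP_iff (σ : Equiv.Perm (Fin (k + 1))) (a : Fin (k + 1))
    (c : (Fin i ↪ Fin (k + 1)) × (Fin i ↪ Fin (k + 1))) :
    haP (σ a) (haE2 i σ c) ↔ haP a c := by
  show (σ a ∉ Set.range (haE i σ c.2) ∧ Set.range (haE i σ c.1) ≠ Set.range (haE i σ c.2)) ↔ _
  rw [ha_range, Ne, ha_range_eq]
  rfl

private theorem ha_vt (h3 : RscStmt) (hi : i + 1 ≤ r) (σ : Equiv.Perm (Fin (k + 1)))
    (c : Fin i ↪ Fin (k + 1)) (l : Fin r) :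
    rs σ (vt i hi c l : Ex r k) = vt i hi (haE i σ c) l := by
  obtain ⟨-, -, -, -, h3e, -⟩ := h3
  unfold vt
  rw [h3e]
  congr 1
  funext t l
  rw [rs_xx]
  rfl

open Classical in
private theorem ha_rs (h3 : RscStmt) (hi : i + 1 ≤ r) (σ : Equiv.Perm (Fin (k + 1)))
    (a : Fin (k + 1)) : rs σ (ha i hi a : Ex r k) = ha i hi (σ a) := by
  have h3f := h3.2.2.2.2.2
  unfold ha
  rw [map_prod]
  refine Fintype.prod_equiv (haE2 i σ) _ _ ?_
  intro c
  by_cases h : haP a c
  · have h' := (haP_iff σ a c).mpr h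
    unfold haP at h h'
    rw [if_pos h, if_pos h', map_pow, h3f]
    congr 2
    funext t l
    refine Fin.cases ?_ (fun t => ?_) t
    · rw [Fin.cons_zero, Fin.cons_zero]
      exact ha_vt h3 hi σ c.1 l
    · rw [Fin.cons_succ, Fin.cons_succ]
      exact ha_vt h3 hi σ c.2 l
  · have h' := fun h'' => h ((haP_iff σ a c).mp h'')
    unfold haP at h h'
    rw [if_neg h, if_neg h', map_one]

/-- The number of the factors. -/
private noncomputable def haN (i : ℕ) (a : Fin (k + 1)) : ℕ := by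
  classical
  exact ∑ c : (Fin i ↪ Fin (k + 1)) × (Fin i ↪ Fin (k + 1)), if haP a c then 1 else 0

private noncomputable def haI (c : Fin i ↪ Fin (k + 1)) (κ : Fin (k + 1)) : ℤ := by
  classical
  exact if κ ∈ Set.range c then 1 else 0

/-- The content. -/
private noncomputable def haC (i : ℕ) (a κ : Fin (k + 1)) : ℤ := by
  classical
  exact ∑ c : (Fin i ↪ Fin (k + 1)) × (Fin i ↪ Fin (k + 1)),
    if haP a c then 2 * (haI c.1 κ + k * haI c.2 κ) else 0

private theorem haI_inv (σ : Equiv.Perm (Fin (k + 1))) (c : Fin i ↪ Fin (k + 1))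
    (κ : Fin (k + 1)) : haI (haE i σ c) (σ κ) = haI c κ := by
  classical
  unfold haI
  exact if_congr (ha_range σ c κ) rfl rfl

private theorem haN_inv (σ : Equiv.Perm (Fin (k + 1))) (a : Fin (k + 1)) :
    haN i (σ a) = haN i a := by
  classical
  unfold haN
  symm
  refine Fintype.sum_equiv (haE2 i σ) _ _ ?_
  intro c
  exact if_congr (haP_iff σ a c).symm rfl rfl

private theorem haN_const (a b : Fin (k + 1)) : haN i a = haN i b := by
  have h := haN_inv (i := i) (Equiv.swap a b) a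
  rw [Equiv.swap_apply_left] at h
  exact h.symm

private theorem haC_inv (σ : Equiv.Perm (Fin (k + 1))) (a κ : Fin (k + 1)) :
    haC i (σ a) (σ κ) = haC i a κ := by
  classical
  unfold haC
  symm
  refine Fintype.sum_equiv (haE2 i σ) _ _ ?_
  intro c
  refine if_congr (haP_iff σ a c).symm ?_ rfl
  show 2 * (haI c.1 κ + k * haI c.2 κ) =
    2 * (haI (haE i σ c.1) (σ κ) + k * haI (haE i σ c.2) (σ κ))
  rw [haI_inv, haI_inv]

private theorem ha_ind (c : Fin i ↪ Fin (k + 1)) (κ : Fin (k + 1)) :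
    (∑ t, sg (c t) : Fin (k + 1) → ℤ) κ = haI c κ := by
  classical
  unfold haI
  rw [Finset.sum_apply]
  split_ifs with h
  · obtain ⟨t₀, rfl⟩ := h
    rw [Finset.sum_eq_single t₀]
    · simp [sg]
    · intro t _ ht
      have h2 : c t₀ ≠ c t := fun h => ht (c.injective h).symm
      simp [sg, h2]
    · intro h
      exact absurd (Finset.mem_univ _) h
  · refine Finset.sum_eq_zero fun t _ => ?_
    have h2 : κ ≠ c t := fun h' => h ⟨t, h'.symm⟩
    simp [sg, h2]

private theorem ha_fac (h1 : VcsStmt) (h2 : CtsStmt) (hi : i + 1 ≤ r)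
    (c : (Fin i ↪ Fin (k + 1)) × (Fin i ↪ Fin (k + 1))) :
    Sc ((2 * (k + 1)) • (om (i + 1) : Fin r → ℤ)) (fun κ => 2 * (haI c.1 κ + k * haI c.2 κ)) 2
      (ct (Fin.cons (vt i hi c.1) fun _ => vt i hi c.2) ^ 2 : Ex r k) := by
  have hv : ∀ c : Fin i ↪ Fin (k + 1), Vc (om (i + 1) : Fin r → ℤ) (haI c) 0
      (vt i hi c : Fin r → Ex r k) := by
    intro c
    have h := h1 r k i hi (fun _ => 0) (fun t => sg (c t)) (fun _ => 0) (fun t => xx (c t))
      (fun t => xx_Cv (c t))
    rw [Finset.sum_const_zero, Finset.sum_const_zero, add_zero] at h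
    have e : (∑ t, sg (c t) : Fin (k + 1) → ℤ) = haI c := funext fun κ => ha_ind c κ
    rw [e] at h
    exact h
  have h := (h2.1 r k (fun _ => om (i + 1)) (Fin.cons (haI c.1) fun _ => haI c.2) (fun _ => 0)
    (Fin.cons (vt i hi c.1) fun _ => vt i hi c.2) (fun a => by
      refine Fin.cases ?_ (fun t => ?_) a
      · rw [Fin.cons_zero, Fin.cons_zero]
        exact hv c.1
      · rw [Fin.cons_succ, Fin.cons_succ]
        exact hv c.2)).pow 2
  rw [Finset.sum_const_zero, Finset.sum_const, Finset.card_univ, Fintype.card_fin, smul_smul,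
    Fin.sum_univ_succ] at h
  have e : (2 • ((Fin.cons (haI c.1) (fun _ => haI c.2) : Fin (k + 1) → Fin (k + 1) → ℤ) 0 +
      ∑ i : Fin k, (Fin.cons (haI c.1) (fun _ => haI c.2) : Fin (k + 1) → Fin (k + 1) → ℤ) i.succ) :
      Fin (k + 1) → ℤ) = fun κ => 2 * (haI c.1 κ + k * haI c.2 κ) := by
    funext κ
    simp only [Fin.cons_zero, Fin.cons_succ, Finset.sum_const, Finset.card_univ, Fintype.card_fin,
      Pi.smul_apply, Pi.add_apply]
    simp only [nsmul_eq_mul]
    push_cast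
    ring
  rw [e] at h
  exact h

private theorem ha_sc (h1 : VcsStmt) (h2 : CtsStmt) (hi : i + 1 ≤ r) (a : Fin (k + 1)) :
    Sc (((2 * (k + 1) * haN i a : ℕ) : ℤ) • (om (i + 1) : Fin r → ℤ)) (haC i a)
      (2 * (haN i a : ℤ)) (ha i hi a : Ex r k) := by
  classical
  have h := Sc.prod (r := r) (k := k)
    (univ : Finset ((Fin i ↪ Fin (k + 1)) × (Fin i ↪ Fin (k + 1))))
    (fun c => if haP a c then (2 * (k + 1)) • om (i + 1) else 0)
    (fun c => if haP a c then (fun κ => 2 * (haI c.1 κ + k * haI c.2 κ)) else 0)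
    (fun c => if haP a c then 2 else 0)
    (fun c => if haP a c then ct (Fin.cons (vt i hi c.1) fun _ => vt i hi c.2) ^ 2 else 1)
    (fun c _ => by
      by_cases h : haP a c
      · simp only [if_pos h]
        exact ha_fac h1 h2 hi c
      · simp only [if_neg h]
        exact Sc.one)
  have e0 : haN i a = #{c : (Fin i ↪ Fin (k + 1)) × (Fin i ↪ Fin (k + 1)) | haP a c} := by
    unfold haN
    rw [Finset.card_filter]
  have e1 : (((2 * (k + 1) * haN i a : ℕ) : ℤ) • om (i + 1) : Fin r → ℤ) =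
      ∑ c : (Fin i ↪ Fin (k + 1)) × (Fin i ↪ Fin (k + 1)),
        if haP a c then (2 * (k + 1)) • om (i + 1) else 0 := by
    rw [← Finset.sum_filter, Finset.sum_const, ← e0, natCast_zsmul, smul_smul, mul_comm]
  have e2 : haC i a = ∑ c : (Fin i ↪ Fin (k + 1)) × (Fin i ↪ Fin (k + 1)),
      if haP a c then (fun κ => 2 * (haI c.1 κ + k * haI c.2 κ)) else 0 := by
    funext κ
    rw [Finset.sum_apply]
    unfold haC
    refine Finset.sum_congr rfl fun c _ => ?_
    split_ifs with h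
    · rfl
    · rfl
  have e3 : (2 * (haN i a : ℤ)) = ∑ c : (Fin i ↪ Fin (k + 1)) × (Fin i ↪ Fin (k + 1)),
      if haP a c then (2 : ℤ) else 0 := by
    rw [← Finset.sum_filter, Finset.sum_const, ← e0, nsmul_eq_mul, mul_comm]
  rw [e1, e2, e3]
  have e4 : (ha i hi a : Ex r k) = ∏ c : (Fin i ↪ Fin (k + 1)) × (Fin i ↪ Fin (k + 1)),
      if haP a c then ct (Fin.cons (vt i hi c.1) fun _ => vt i hi c.2) ^ 2 else 1 := by
    unfold ha haP
    refine Finset.prod_congr rfl fun c _ => ?_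
    congr
  rw [e4]
  exact h

/-- An embedding with a given set of values. -/
private theorem ha_emb (s : Finset (Fin (k + 1))) (hs : s.card = i) :
    ∃ c : Fin i ↪ Fin (k + 1), Set.range c = (s : Set (Fin (k + 1))) :=
  ⟨(s.orderEmbOfFin hs).toEmbedding, s.range_orderEmbOfFin hs⟩

private theorem ha_ex (h1 : 1 ≤ i) (h2 : i + 1 ≤ k) {a b : Fin (k + 1)} (hab : a ≠ b) :
    ∃ c : (Fin i ↪ Fin (k + 1)) × (Fin i ↪ Fin (k + 1)), haP a c ∧ b ∈ Set.range c.2 := by
  obtain ⟨s, hs1, hs2, hs3⟩ := Finset.exists_subsuperset_card_eq (n := i)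
    (s := {b}) (t := univ.erase a) (by simpa using hab.symm) (by simpa using h1)
    (by rw [Finset.card_erase_of_mem (Finset.mem_univ _)]; simp; omega)
  obtain ⟨s', hs'1, hs'2⟩ := Finset.exists_subset_card_eq (s := univ.erase b) (n := i)
    (by rw [Finset.card_erase_of_mem (Finset.mem_univ _)]; simp; omega)
  obtain ⟨c, hc⟩ := ha_emb s hs3
  obtain ⟨c', hc'⟩ := ha_emb s' hs'2
  have hb : b ∈ Set.range c := by
    rw [hc]
    exact hs1 (Finset.mem_singleton_self b)
  refine ⟨(c', c), ⟨?_, ?_⟩, hb⟩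
  · show a ∉ Set.range c
    rw [hc]
    intro h3
    exact absurd (hs2 h3) (Finset.notMem_erase a univ)
  · show Set.range c' ≠ Set.range c
    intro h
    rw [← h, hc'] at hb
    exact absurd (hs'1 hb) (Finset.notMem_erase b univ)

end

theorem kHa (h1 : VcsStmt) (h2 : CtsStmt) (h3 : RscStmt) (h4 : IvStmt) : HaStmt := by
  classical
  intro r k i hi hi1 hik
  refine ⟨fun σ a => ha_rs h3 hi σ a, ?_⟩
  obtain ⟨A, B, hAB⟩ := h4 k (haC i) (fun σ a κ => haC_inv σ a κ)
  refine ⟨2 * (k + 1) * haN i (0 : Fin (k + 1)), A, B, 2 * (haN i (0 : Fin (k + 1)) : ℤ), ?_,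
    fun a => ?_⟩
  · have hk1 : (0 : Fin (k + 1)) ≠ Fin.last k := by
      intro h
      have := congrArg Fin.val h
      simp at this
      omega
    have h5 : 0 < haN i (0 : Fin (k + 1)) := by
      obtain ⟨c, hc, -⟩ := ha_ex hi1 hik hk1
      unfold haN
      refine Finset.sum_pos' (fun c _ => Nat.zero_le _) ⟨c, Finset.mem_univ _, ?_⟩
      rw [if_pos hc]
      exact Nat.one_pos
    positivity
  · have h := ha_sc h1 h2 hi a
    have e : haC i a = fun κ => A + if κ = a then B else 0 := by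
      funext κ
      exact hAB a κ
    rw [e, haN_const a 0] at h
    exact h

end T3

end Pool.Agent.Lib.MP_a688ad_al
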