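import Pool.Agent.Lib.MP_a688ad_al.T3.SpecE

/-!
# MP_a688ad_al, all large `n`: separating points (module `HaE`)
-/

set_option autoImplicit false

open MvPolynomial Finset

namespace Pool.Agent.Lib.MP_a688ad_al

namespace T3

open T2

section

variable {r k i : ℕ}

/-- A linear form which does not vanish at finitely many given nonzero vectors. -/
private theorem haE_alpha {ι : Type} (s : Finset ι) (w : ι → Fin r → ℂ)
    (hw : ∀ c ∈ s, w c ≠ 0) : ∃ α : Fin r → ℂ, ∀ c ∈ s, ∑ l, α l * w c l ≠ 0 := by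
  classical
  let p : ι → Polynomial ℂ := fun c => ∑ l : Fin r, Polynomial.C (w c l) * Polynomial.X ^ (l : ℕ)
  have hp : ∀ c ∈ s, p c ≠ 0 := by
    intro c hc h
    apply hw c hc
    funext l
    have h1 := congrArg (fun q => Polynomial.coeff q (l : ℕ)) h
    simp only [p, Polynomial.finsetSum_coeff, Polynomial.coeff_C_mul, Polynomial.coeff_X_pow,
      Polynomial.coeff_zero, mul_ite, mul_one, mul_zero] at h1
    rw [Finset.sum_eq_single l] at h1
    · simpa using h1
    · intro l' _ hl'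
      rw [if_neg]
      intro h2
      exact hl' (Fin.ext h2.symm)
    · intro h2
      exact absurd (Finset.mem_univ _) h2
  have hP : ∏ c ∈ s, p c ≠ 0 := Finset.prod_ne_zero_iff.mpr hp
  have h2 : ∃ t : ℂ, (∏ c ∈ s, p c).eval t ≠ 0 := by
    by_contra hcon
    push Not at hcon
    exact hP (Polynomial.funext fun t => by rw [hcon t, Polynomial.eval_zero])
  obtain ⟨t, ht⟩ := h2
  rw [Polynomial.eval_prod, Finset.prod_ne_zero_iff] at ht
  refine ⟨fun l => t ^ (l : ℕ), fun c hc => ?_⟩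
  have h3 := ht c hc
  have h4 : (p c).eval t = ∑ l : Fin r, t ^ (l : ℕ) * w c l := by
    simp only [p, Polynomial.eval_finsetSum, Polynomial.eval_mul, Polynomial.eval_C,
      Polynomial.eval_pow, Polynomial.eval_X]
    exact Finset.sum_congr rfl fun l _ => mul_comm _ _
  rwa [h4] at h3

/-- The values of `vt`. -/
private noncomputable def haV (hi : i + 1 ≤ r) (c : Fin i ↪ Fin (k + 1)) : Fin r → ℂ :=
  vc i hi fun a => (vp (c a) : Fin r → ℂ)

private theorem haE_vt (h1 : EvpStmt) (hi : i + 1 ≤ r) (c : Fin i ↪ Fin (k + 1)) (T : Ib r k → ℂ)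
    (l : Fin r) : evp vp T (vt i hi c l : Ex r k) = haV hi c l := by
  have h := (h1 r k vp T).2.2.2.1 i hi (fun a => xx (c a)) l
  unfold vt haV
  rw [h]
  congr 1
  funext a l
  exact (h1 r k vp T).1 (c a) l

/-- The pairing with a covector. -/
private theorem haE_pair (h3 : PaiStmt) (hi : i + 1 ≤ r) (c : Fin i ↪ Fin (k + 1))
    (κ : Fin (k + 1)) :
    ∑ l, (vp κ : Fin r → ℂ) l * haV hi c l ≠ 0 ↔ κ ∉ Set.range c := by
  unfold haV
  rw [h3.1 ℂ r i hi _ _]
  have h4 : (Fin.snoc (fun a => (vp (c a) : Fin r → ℂ)) (vp κ) : Fin (i + 1) → Fin r → ℂ) =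
      fun a => vp ((Fin.snoc (fun a => c a) κ : Fin (i + 1) → Fin (k + 1)) a) := by
    funext a
    refine Fin.lastCases ?_ (fun a => ?_) a
    · rw [Fin.snoc_last, Fin.snoc_last]
    · rw [Fin.snoc_castSucc, Fin.snoc_castSucc]
  rw [h4, h3.2 r k (i + 1) hi]
  rw [Fin.snoc_injective_iff]
  exact ⟨fun h => h.2, fun h => ⟨c.injective, h⟩⟩

/-- The vector `w`. -/
private noncomputable def haW (hi : i + 1 ≤ r) (b : Fin (k + 1))
    (c : (Fin i ↪ Fin (k + 1)) × (Fin i ↪ Fin (k + 1))) : Fin r → ℂ := fun l =>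
  (∑ l', (vp b : Fin r → ℂ) l' * haV hi c.2 l') * haV hi c.1 l -
    (∑ l', (vp b : Fin r → ℂ) l' * haV hi c.1 l') * haV hi c.2 l

private theorem haE_ne (h3 : PaiStmt) (hi : i + 1 ≤ r) (b : Fin (k + 1))
    (c : (Fin i ↪ Fin (k + 1)) × (Fin i ↪ Fin (k + 1))) (h1 : b ∉ Set.range c.2)
    (h2 : Set.range c.1 ≠ Set.range c.2) : haW hi b c ≠ 0 := by
  classical
  have h4 : ∃ κ, κ ∈ Set.range c.2 ∧ κ ∉ Set.range c.1 := by
    by_contra hcon
    push Not at hcon
    apply h2
    have h5 : (univ.map c.2) ⊆ (univ.map c.1) := by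
      intro κ hκ
      rw [Finset.mem_map] at hκ ⊢
      obtain ⟨t, _, rfl⟩ := hκ
      obtain ⟨t', ht'⟩ := hcon (c.2 t) ⟨t, rfl⟩
      exact ⟨t', Finset.mem_univ _, ht'⟩
    have h6 := Finset.eq_of_subset_of_card_le h5 (by rw [Finset.card_map, Finset.card_map])
    have h7 := congrArg (fun s : Finset (Fin (k + 1)) => (s : Set (Fin (k + 1)))) h6
    simp only [Finset.coe_map, Finset.coe_univ, Set.image_univ] at h7
    exact h7.symm
  obtain ⟨κ, hκ2, hκ1⟩ := h4
  intro h0
  have h5 : ∑ l, (vp κ : Fin r → ℂ) l * haW hi b c l = 0 := by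
    rw [h0]
    simp
  have h6 : ∑ l, (vp κ : Fin r → ℂ) l * haV hi c.2 l = 0 := by
    by_contra h
    exact ((haE_pair h3 hi c.2 κ).mp h) hκ2
  have h7 : ∑ l, (vp κ : Fin r → ℂ) l * haW hi b c l =
      (∑ l', (vp b : Fin r → ℂ) l' * haV hi c.2 l') * (∑ l, (vp κ : Fin r → ℂ) l * haV hi c.1 l) -
      (∑ l', (vp b : Fin r → ℂ) l' * haV hi c.1 l') * (∑ l, (vp κ : Fin r → ℂ) l * haV hi c.2 l) := by
    unfold haW
    simp only [mul_sub, Finset.sum_sub_distrib]
    rw [Finset.mul_sum, Finset.mul_sum univ (fun l => (vp κ : Fin r → ℂ) l * haV hi c.2 l)]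
    congr 1
    · exact Finset.sum_congr rfl fun l _ => by ring
    · exact Finset.sum_congr rfl fun l _ => by ring
  rw [h7, h6, mul_zero, sub_zero] at h5
  rcases mul_eq_zero.mp h5 with h | h
  · exact (haE_pair h3 hi c.2 b).mpr h1 h
  · exact (haE_pair h3 hi c.1 κ).mpr hκ1 h

/-- The value of a factor. -/
private theorem haE_val (h1 : EvpStmt) (h2 : Rk1Stmt) (hk : 1 ≤ k) (hi : i + 1 ≤ r)
    (b : Fin (k + 1)) (α : Fin r → ℂ) (c : (Fin i ↪ Fin (k + 1)) × (Fin i ↪ Fin (k + 1))) :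
    evp vp (fun p : Ib r k => α p.1 * (p.2.1.map (vp b : Fin r → ℂ)).prod)
      (ct (Fin.cons (vt i hi c.1) fun _ => vt i hi c.2)) =
    ((k : ℂ) / (k + 1)) * (∑ l, (vp b : Fin r → ℂ) l * haV hi c.2 l) ^ (k - 1) *
      ∑ l, α l * haW hi b c l := by
  rw [h2 r k hk vp α (vp b) (vt i hi c.1) (vt i hi c.2)]
  simp only [haE_vt h1 hi]
  congr 1
  unfold haW
  simp only [mul_sub, Finset.sum_sub_distrib]
  rw [mul_comm (∑ l, α l * haV hi c.1 l), mul_comm (∑ l, α l * haV hi c.2 l), Finset.mul_sum,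
    Finset.mul_sum univ (fun l => α l * haV hi c.2 l)]
  congr 1
  · exact Finset.sum_congr rfl fun l _ => by ring
  · exact Finset.sum_congr rfl fun l _ => by ring

/-- An embedding with a given set of values. -/
private theorem haE_emb (s : Finset (Fin (k + 1))) (hs : s.card = i) :
    ∃ c : Fin i ↪ Fin (k + 1), Set.range c = (s : Set (Fin (k + 1))) :=
  ⟨(s.orderEmbOfFin hs).toEmbedding, s.range_orderEmbOfFin hs⟩

private theorem haE_ex (h1 : 1 ≤ i) (h2 : i + 1 ≤ k) {a b : Fin (k + 1)} (hab : a ≠ b) :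
    ∃ c : (Fin i ↪ Fin (k + 1)) × (Fin i ↪ Fin (k + 1)),
      (a ∉ Set.range c.2 ∧ Set.range c.1 ≠ Set.range c.2) ∧ b ∈ Set.range c.2 := by
  obtain ⟨s, hs1, hs2, hs3⟩ := Finset.exists_subsuperset_card_eq (n := i)
    (s := {b}) (t := univ.erase a) (by simpa using hab.symm) (by simpa using h1)
    (by rw [Finset.card_erase_of_mem (Finset.mem_univ _)]; simp; omega)
  obtain ⟨s', hs'1, hs'2⟩ := Finset.exists_subset_card_eq (s := univ.erase b) (n := i)
    (by rw [Finset.card_erase_of_mem (Finset.mem_univ _)]; simp; omega)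
  obtain ⟨c, hc⟩ := haE_emb s hs3
  obtain ⟨c', hc'⟩ := haE_emb s' hs'2
  have hb : b ∈ Set.range c := by
    rw [hc]
    exact hs1 (Finset.mem_singleton_self b)
  refine ⟨(c', c), ⟨?_, ?_⟩, hb⟩
  · show a ∉ Set.range c
    rw [hc]
    intro h3
    exact absurd (hs2 h3) (Finset.notMem_erase a univ)
  · show Set.range c' ≠ Set.range c
    intro h
    rw [← h, hc'] at hb
    exact absurd (hs'1 hb) (Finset.notMem_erase b univ)

end

open Classical in
theorem kHaE (h1 : EvpStmt) (h2 : Rk1Stmt) (h3 : PaiStmt) : HaEStmt := by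
  intro r k i hi hi1 hik b
  obtain ⟨α, hα⟩ := haE_alpha
    (univ.filter fun c : (Fin i ↪ Fin (k + 1)) × (Fin i ↪ Fin (k + 1)) =>
      b ∉ Set.range c.2 ∧ Set.range c.1 ≠ Set.range c.2) (fun c => haW (r := r) hi b c)
    (fun c hc => by
      rw [Finset.mem_filter] at hc
      exact haE_ne h3 hi b c hc.2.1 hc.2.2)
  refine ⟨fun p : Ib r k => α p.1 * (p.2.1.map (vp b : Fin r → ℂ)).prod, fun a => ?_⟩
  have hval := haE_val h1 h2 (by omega : 1 ≤ k) hi b α
  unfold ha
  rw [map_prod, Finset.prod_ne_zero_iff]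
  constructor
  · intro h
    by_contra hab
    obtain ⟨c, hc1, hc2⟩ := haE_ex hi1 hik hab
    have h4 := h c (Finset.mem_univ _)
    rw [if_pos hc1, map_pow, hval c] at h4
    apply h4
    have h5 : ∑ l, (vp b : Fin r → ℂ) l * haV hi c.2 l = 0 := by
      by_contra h
      exact ((haE_pair h3 hi c.2 b).mp h) hc2
    rw [h5, zero_pow (by omega : k - 1 ≠ 0)]
    ring
  · rintro rfl c _
    by_cases hc : a ∉ Set.range c.2 ∧ Set.range c.1 ≠ Set.range c.2
    · rw [if_pos hc, map_pow, hval c]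
      refine pow_ne_zero 2 (mul_ne_zero (mul_ne_zero ?_ (pow_ne_zero _ ?_)) ?_)
      · have hk : (k : ℂ) ≠ 0 := by
          have : k ≠ 0 := by omega
          exact_mod_cast this
        exact div_ne_zero hk (Nat.cast_add_one_ne_zero k)
      · exact (haE_pair h3 hi c.2 a).mpr hc.1
      · exact hα c (by
          rw [Finset.mem_filter]
          exact ⟨Finset.mem_univ _, hc⟩)
    · rw [if_neg hc, map_one]
      exact one_ne_zero

end T3

end Pool.Agent.Lib.MP_a688ad_al
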