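import Pool.Agent.Lib.MP_a688ad_al.T3.SpecE

/-!
# MP_a688ad_al, all large `n`: separating families of scalars of constant content, heights up to `k`
-/

set_option autoImplicit false

open MvPolynomial Finset

namespace Pool.Agent.Lib.MP_a688ad_al

namespace T3

open T2

theorem kHfA (h1 : HaStmt) (h2 : HaEStmt) (h3 : RbStmt) : HfAStmt := by
  intro k j hj hjk
  obtain ⟨i, rfl⟩ : ∃ i, j = i + 1 := ⟨j - 1, by omega⟩
  have hi : i + 1 ≤ R2 k := by
    unfold R2
    omega
  obtain ⟨ha1, w, A, B, q, hq, ha2⟩ := h1 (R2 k) k i hi (by omega) (by omega)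
  obtain ⟨rb1, rb2, ⟨w', A', Bp, hBp, rb3⟩, w'', A'', Bm, hBm, rb4⟩ :=
    h3 (R2 k) k (i + 1) hi (by omega) hjk
  have hE := h2 (R2 k) k i hi (by omega) (by omega)
  choose T hT using hE
  obtain ⟨x, hx⟩ : ∃ x : ℕ, (x : ℤ) = -Bm := ⟨(-Bm).toNat, by omega⟩
  have hx0 : x ≠ 0 := by omega
  obtain ⟨y, hy⟩ : ∃ y : ℕ, (y : ℤ) = (-Bm) * |B| :=
    ⟨((-Bm) * |B|).toNat, Int.toNat_of_nonneg (mul_nonneg (by omega) (abs_nonneg _))⟩
  have hz0 : 0 ≤ B + |B| * Bp := by
    have e1 : |B| * 1 ≤ |B| * Bp := mul_le_mul_of_nonneg_left (by omega) (abs_nonneg _)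
    have e2 := neg_abs_le B
    linarith
  obtain ⟨z, hz⟩ : ∃ z : ℕ, (z : ℤ) = B + |B| * Bp := ⟨(B + |B| * Bp).toNat, Int.toNat_of_nonneg hz0⟩
  refine ⟨x * w + y * w' + z * w'', x * A + y * A' + z * A'', x * q,
    fun a => ha i hi a ^ x * rb (i + 1) hi True a ^ y * rb (i + 1) hi False a ^ z,
    fun b => evp vp (T b), ?_, ?_, ?_, ?_⟩
  · exact mul_pos (by omega) hq
  · intro a
    have s := ((((ha2 a).pow x).mul ((rb3 a).pow y))).mul ((rb4 a).pow z)
    have e1 : x • ((w : ℤ) • (om (i + 1) : Fin (R2 k) → ℤ)) + y • ((w' : ℤ) • om (i + 1)) +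
        z • ((w'' : ℤ) • om (i + 1)) =
        ((x * w + y * w' + z * w'' : ℕ) : ℤ) • (om (i + 1) : Fin (R2 k) → ℤ) := by
      funext l
      simp only [Pi.add_apply, Pi.smul_apply]
      simp only [smul_eq_mul, nsmul_eq_mul]
      push_cast
      ring
    have e2 : (x • (fun κ => A + if κ = a then B else 0) + y • (fun κ => A' + if κ = a then Bp else 0)
        + z • (fun κ => A'' + if κ = a then Bm else 0) : Fin (k + 1) → ℤ) =
        fun _ => x * A + y * A' + z * A'' := by
      funext κ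
      simp only [Pi.add_apply, Pi.smul_apply]
      simp only [nsmul_eq_mul]
      by_cases hκ : κ = a
      · simp only [if_pos hκ]
        have : (x : ℤ) * B + y * Bp + z * Bm = 0 := by
          rw [hx, hy, hz]
          ring
        linear_combination this
      · simp only [if_neg hκ]
        ring
    have e3 : (x • q + y • (0 : ℤ) + z • (0 : ℤ)) = x * q := by
      simp
    rw [e1, e2, e3] at s
    exact s
  · intro σ a
    show rs σ (ha i hi a ^ x * rb (i + 1) hi True a ^ y * rb (i + 1) hi False a ^ z) = _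
    rw [map_mul, map_mul, map_pow, map_pow, map_pow, ha1, rb1, rb1]
  · intro a b
    show evp vp (T b) (ha i hi a ^ x * rb (i + 1) hi True a ^ y * rb (i + 1) hi False a ^ z) ≠ 0 ↔ _
    rw [map_mul, map_mul, map_pow, map_pow, map_pow, ← hT b a]
    constructor
    · intro h h'
      apply h
      rw [h', zero_pow hx0, zero_mul, zero_mul]
    · intro h
      exact mul_ne_zero (mul_ne_zero (pow_ne_zero _ h) (pow_ne_zero _ (rb2 True a (T b))))
        (pow_ne_zero _ (rb2 False a (T b)))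

end T3

end Pool.Agent.Lib.MP_a688ad_al
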