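import Pool.Agent.Lib.MP_a688ad_al.T3.EvX

/-!
# MP_a688ad_al: constant content, height `k + 1`
-/

set_option autoImplicit false

open MvPolynomial Finset

namespace Pool.Agent.Lib.MP_a688ad_al

namespace T3

open T2

theorem hfb_const {k r : ℕ} (u : Fin k → Fin r) (j : Fin r) (h : sy u = sy fun _ => j)
    (c : Fin k) : u c = j := by
  have h1 : u c ∈ (sy u).1 := Multiset.mem_map_of_mem u (Finset.mem_univ_val c)
  rw [h] at h1
  have h2 : u c ∈ (univ.val : Multiset (Fin k)).map (fun _ => j) := h1
  obtain ⟨_, _, h3⟩ := Multiset.mem_map.mp h2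
  exact h3.symm

theorem hfb_sum_cons {M : Type} [AddCommMonoid M] {k : ℕ} (x y : M) :
    ∑ i : Fin (k + 1), (Fin.cons x (fun _ => y) : Fin (k + 1) → M) i = x + ∑ _t : Fin k, y := by
  rw [Fin.sum_univ_succ, Fin.cons_zero]
  simp only [Fin.cons_succ]

theorem hfb_sum_ite {M : Type} [AddCommMonoid M] {k : ℕ} (a : Fin (k + 1)) (g : Fin (k + 1) → M) :
    ∑ b, (if b = a then 0 else g b) = ∑ t, g (a.succAbove t) := by
  rw [Fin.sum_univ_succAbove _ a, if_pos rfl, zero_add]
  apply Finset.sum_congr rfl
  intro t _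
  rw [if_neg (Fin.succAbove_ne a t)]

/-- multilinearity of the contraction, scalar factors -/
theorem hfb_ct_mul {r k : ℕ} (s : Fin (k + 1) → Ex r k) (v : Fin (k + 1) → Fin r → Ex r k) :
    ct (fun a l => s a * v a l) = (∏ a, s a) * ct v := by
  unfold ct
  rw [Finset.mul_sum]
  apply Finset.sum_congr rfl
  intro τ _
  rw [Finset.prod_mul_distrib, mul_assoc]

/-- permutation of the rows -/
theorem hfb_perm {r k : ℕ} (hr : k + 1 ≤ r) (a : Fin (k + 1)) (c c' : Fin k → Fin (k + 1))
    (hc : Function.Injective c) (hc' : Function.Injective c') (hca : ∀ t, c t ≠ a)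
    (hca' : ∀ t, c' t ≠ a) (R : Type) [CommRing R] (ξ : Fin (k + 1) → Fin r → R) :
    ∃ e : R, e * e = 1 ∧ ∀ l, vc k hr (fun t => ξ (c t)) l = e * vc k hr (fun t => ξ (c' t)) l := by
  classical
  have hinj : ∀ d : Fin k → Fin (k + 1), Function.Injective d → (∀ t, d t ≠ a) →
      Function.Injective (Fin.snoc d a : Fin (k + 1) → Fin (k + 1)) := by
    intro d hd hda b b'
    refine Fin.lastCases ?_ (fun t => ?_) b
    · refine Fin.lastCases (fun _ => rfl) (fun t' => ?_) b'
      intro h
      rw [Fin.snoc_last, Fin.snoc_castSucc] at h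
      exact absurd h.symm (hda t')
    · refine Fin.lastCases ?_ (fun t' => ?_) b'
      · intro h
        rw [Fin.snoc_last, Fin.snoc_castSucc] at h
        exact absurd h (hda t)
      · intro h
        rw [Fin.snoc_castSucc, Fin.snoc_castSucc] at h
        rw [hd h]
  have hb : ∀ d : Fin k → Fin (k + 1), Function.Injective d → (∀ t, d t ≠ a) →
      Function.Bijective (Fin.snoc d a : Fin (k + 1) → Fin (k + 1)) := fun d hd hda =>
    Finite.injective_iff_bijective.mp (hinj d hd hda)
  set P := Equiv.ofBijective _ (hb c hc hca) with hP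
  set P' := Equiv.ofBijective _ (hb c' hc' hca') with hP'
  have hPl : P (Fin.last k) = a := by
    rw [hP, Equiv.ofBijective_apply, Fin.snoc_last]
  have hPc : ∀ t : Fin k, P t.castSucc = c t := by
    intro t
    rw [hP, Equiv.ofBijective_apply, Fin.snoc_castSucc]
  have hPl' : P' (Fin.last k) = a := by
    rw [hP', Equiv.ofBijective_apply, Fin.snoc_last]
  have hPc' : ∀ t : Fin k, P' t.castSucc = c' t := by
    intro t
    rw [hP', Equiv.ofBijective_apply, Fin.snoc_castSucc]
  set ρ : Equiv.Perm (Fin (k + 1)) := P.trans P'.symm with hρ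
  have hρP : ∀ b, P' (ρ b) = P b := by
    intro b
    rw [hρ, Equiv.trans_apply, Equiv.apply_symm_apply]
  have hρl : ρ (Fin.last k) = Fin.last k := by
    apply P'.injective
    rw [hρP, hPl, hPl']
  refine ⟨((Equiv.Perm.sign ρ : ℤ) : R), ?_, fun l => ?_⟩
  · rw [← Int.cast_mul, ← Units.val_mul, Int.units_mul_self, Units.val_one, Int.cast_one]
  · unfold vc brk
    rw [← Matrix.det_permute]
    congr 1
    ext b b'
    rw [Matrix.submatrix_apply, Matrix.of_apply, Matrix.of_apply, id]
    refine Fin.lastCases ?_ (fun t => ?_) b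
    · rw [hρl, ex_snoc_last, ex_snoc_last]
    · have hne : ρ t.castSucc ≠ Fin.last k := by
        rw [← hρl]
        intro h
        have h1 := ρ.injective h
        exact absurd h1 (Fin.castSucc_lt_last t).ne
      obtain ⟨t', ht'⟩ := Fin.exists_castSucc_eq.mpr hne
      rw [← ht', ex_snoc_cast, ex_snoc_cast]
      have h1 := hρP t.castSucc
      rw [← ht', hPc, hPc'] at h1
      rw [h1]

/-- the value of `g` -/
theorem hfb_gp {k : ℕ} (hk : 2 ≤ k) (hr : k + 1 ≤ R2 k) (a b i : Fin (k + 1)) (hai : a ≠ i)
    (T : Ib (R2 k) k → ℂ)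
    (hT1 : ∀ p : Ib (R2 k) k, (p.1 = Fin.castLE hr b ∧ ∃ j : Fin (k + 1), j ≠ b ∧
      p.2 = sy (fun _ => Fin.castLE hr j)) → T p = 1)
    (hT0 : ∀ p : Ib (R2 k) k, ¬ (p.1 = Fin.castLE hr b ∧ ∃ j : Fin (k + 1), j ≠ b ∧
      p.2 = sy (fun _ => Fin.castLE hr j)) → T p = 0) :
    gp T (Fin.cons (Fin.castLE hr a) (fun _ => Fin.castLE hr i) : Fin (k + 1) → Fin (R2 k)) =
      if a = b then (k : ℂ) / (k + 1) else 0 := by
  classical
  set τ : Fin (k + 1) → Fin (R2 k) :=
    Fin.cons (Fin.castLE hr a) (fun _ => Fin.castLE hr i) with hτ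
  have hτ0 : τ 0 = Fin.castLE hr a := by rw [hτ, Fin.cons_zero]
  have hτs : ∀ t : Fin k, τ t.succ = Fin.castLE hr i := by
    intro t
    rw [hτ, Fin.cons_succ]
  have hk1 : ((k : ℂ) + 1) ≠ 0 := by
    have : ((k + 1 : ℕ) : ℂ) ≠ 0 := Nat.cast_ne_zero.mpr (by omega)
    push_cast at this
    exact this
  have hTτ : T (τ 0, sy fun t => τ t.succ) = if a = b then 1 else 0 := by
    split_ifs with hab
    · apply hT1
      refine ⟨by rw [hτ0, hab], i, ?_, congrArg sy (funext hτs)⟩
      rw [← hab]
      exact hai.symm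
    · apply hT0
      rintro ⟨h1, -⟩
      rw [hτ0] at h1
      exact hab (Fin.castLE_injective hr h1)
  have hsum : ∑ s, T ((τ ∘ Equiv.swap 0 s) 0, sy fun c => (τ ∘ Equiv.swap 0 s) c.succ) =
      if a = b then 1 else 0 := by
    rw [Fin.sum_univ_succ, Finset.sum_eq_zero, add_zero]
    · rw [Equiv.swap_self, Equiv.coe_refl, Function.comp_id]
      exact hTτ
    · intro t _
      apply hT0
      rintro ⟨h1, j, hj, h2⟩
      have h3 : i = b := by
        apply Fin.castLE_injective hr
        rw [← h1]
        simp only [Function.comp_apply, Equiv.swap_apply_left]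
        exact (hτs t).symm
      obtain ⟨t', ht'⟩ : ∃ t' : Fin k, t' ≠ t := by
        by_cases ht0 : t = ⟨0, by omega⟩
        · refine ⟨⟨1, by omega⟩, ?_⟩
          rw [ht0]
          intro h
          rw [Fin.mk.injEq] at h
          omega
        · exact ⟨⟨0, by omega⟩, fun h => ht0 h.symm⟩
      have h4 := hfb_const _ _ h2 t'
      rw [Function.comp_apply, Equiv.swap_apply_of_ne_of_ne (Fin.succ_ne_zero t')
        (fun h => ht' (Fin.succ_injective _ h)), hτs] at h4
      have h5 := Fin.castLE_injective hr h4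
      exact hj (h5.symm.trans h3)
  unfold gp
  rw [hTτ, hsum]
  split_ifs
  · field_simp
    ring
  · ring

theorem kHfB (h1 : VcsStmt) (h2 : CtsStmt) (h3 : RscStmt) (h4 : EvpStmt) : HfBStmt := by
  classical
  intro k hk
  have hr : k + 1 ≤ R2 k := by
    unfold R2
    omega
  set V : Fin (k + 1) → Fin (R2 k) → Ex (R2 k) k := fun i => vt k hr i.succAbove with hV
  set F : Fin (k + 1) → Fin (k + 1) → Ex (R2 k) k := fun a b =>
    ct (Fin.cons (V a) fun _ => V b) with hF
  let T : Fin (k + 1) → Ib (R2 k) k → ℂ := fun b p =>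
    if p.1 = Fin.castLE hr b ∧ ∃ j : Fin (k + 1), j ≠ b ∧ p.2 = sy (fun _ => Fin.castLE hr j)
      then 1 else 0
  have hFsc : ∀ a b, Sc (∑ _i : Fin (k + 1), om (k + 1))
      (((fun _ => 1) - sg a) + ∑ _t : Fin k, ((fun _ => 1) - sg b)) 1 (F a b) := by
    intro a b
    have h5 := h2.1 (R2 k) k (fun _ => om (k + 1))
      (Fin.cons ((fun _ => 1) - sg a) (fun _ => (fun _ => 1) - sg b) :
        Fin (k + 1) → Fin (k + 1) → ℤ) (fun _ => 0) (Fin.cons (V a) fun _ => V b) (by
        intro i
        refine Fin.cases ?_ (fun t => ?_) i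
        · rw [Fin.cons_zero, Fin.cons_zero]
          exact ex_Vc h1 hr a
        · rw [Fin.cons_succ, Fin.cons_succ]
          exact ex_Vc h1 hr b)
    rw [Finset.sum_const_zero, zero_add, hfb_sum_cons] at h5
    exact h5
  refine ⟨2 * k * (k + 1), 2 * k ^ 2, 2 * k, fun a => ∏ b, if b = a then 1 else F a b ^ 2,
    fun b => evp exE (T b), by omega, ?_, ?_, ?_⟩
  · -- weights
    intro a
    have h5 := Sc.prod (r := R2 k) (k := k) Finset.univ
      (fun b => if b = a then 0 else 2 • ∑ _i : Fin (k + 1), om (k + 1))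
      (fun b => if b = a then 0 else
        2 • (((fun _ => 1) - sg a) + ∑ _t : Fin k, ((fun _ => 1) - sg b)))
      (fun b => if b = a then 0 else 2 • 1) (fun b => if b = a then 1 else F a b ^ 2) (by
        intro b _
        by_cases hb : b = a
        · rw [if_pos hb, if_pos hb, if_pos hb, if_pos hb]
          exact Sc.one
        · rw [if_neg hb, if_neg hb, if_neg hb, if_neg hb]
          exact (hFsc a b).pow 2)
    rw [hfb_sum_ite, hfb_sum_ite, hfb_sum_ite] at h5
    convert h5 using 1
    · funext l
      simp only [Finset.sum_const, Finset.card_univ, Fintype.card_fin, Pi.smul_apply]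
      simp only [smul_eq_mul, nsmul_eq_mul]
      push_cast
      ring
    · funext κ
      rw [Finset.sum_apply]
      have e1 : ∀ t : Fin k, (2 • (((fun _ => (1 : ℤ)) - sg a) + ∑ _t : Fin k, ((fun _ => 1) -
          sg (a.succAbove t)) : Fin (k + 1) → ℤ)) κ =
          2 * ((1 - sg a κ) + k * (1 - sg (a.succAbove t) κ)) := by
        intro t
        simp only [Finset.sum_const, Finset.card_univ, Fintype.card_fin, Pi.smul_apply,
          Pi.add_apply, Pi.sub_apply]
        simp only [nsmul_eq_mul]
        push_cast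
        ring
      rw [Finset.sum_congr rfl (fun t _ => e1 t), ← Finset.mul_sum, Finset.sum_add_distrib,
        ← Finset.mul_sum, Finset.sum_sub_distrib, Finset.sum_sub_distrib]
      have e2 := congrFun (ex_sg_succAbove a) κ
      rw [Finset.sum_apply, Pi.sub_apply] at e2
      rw [e2]
      simp only [Finset.sum_const, Finset.card_univ, Fintype.card_fin]
      simp only [nsmul_eq_mul]
      ring
    · simp only [Finset.sum_const, Finset.card_univ, Fintype.card_fin]
      simp only [smul_eq_mul, nsmul_eq_mul]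
      push_cast
      ring
  · -- permutations
    intro σ a
    have hrsV : ∀ a : Fin (k + 1), ∃ e : Ex (R2 k) k, e * e = 1 ∧
        ∀ l, rs σ (V a l) = e * V (σ a) l := by
      intro a
      obtain ⟨e, he1, he2⟩ := hfb_perm hr (σ a) (fun t => σ (a.succAbove t)) (σ a).succAbove
        (fun t t' h => Fin.succAbove_right_injective (σ.injective h))
        Fin.succAbove_right_injective (fun t h => Fin.succAbove_ne a t (σ.injective h))
        (fun t => Fin.succAbove_ne _ t) (Ex (R2 k) k) (fun κ => xx κ)
      refine ⟨e, he1, fun l => ?_⟩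
      rw [hV]
      simp only
      unfold vt
      rw [h3.2.2.2.2.1 (R2 k) k σ k hr (fun t => xx (a.succAbove t)) l, ← he2 l]
      congr 1
      funext t l
      exact rs_xx σ _ _
    choose e he1 he2 using hrsV
    have hrsF : ∀ b, rs σ (F a b ^ 2) = F (σ a) (σ b) ^ 2 := by
      intro b
      have h5 : rs σ (F a b) = (∏ i : Fin (k + 1), (Fin.cons (e a) (fun _ => e b) :
          Fin (k + 1) → Ex (R2 k) k) i) * F (σ a) (σ b) := by
        rw [hF]
        simp only
        rw [h3.2.2.2.2.2, ← hfb_ct_mul]
        congr 1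
        funext i l
        refine Fin.cases ?_ (fun t => ?_) i
        · rw [Fin.cons_zero, Fin.cons_zero, Fin.cons_zero]
          exact he2 a l
        · rw [Fin.cons_succ, Fin.cons_succ, Fin.cons_succ]
          exact he2 b l
      rw [map_pow, h5, mul_pow]
      have h6 : (∏ i : Fin (k + 1), (Fin.cons (e a) (fun _ => e b) :
          Fin (k + 1) → Ex (R2 k) k) i) ^ 2 = 1 := by
        rw [sq, ← Finset.prod_mul_distrib]
        apply Finset.prod_eq_one
        intro i _
        refine Fin.cases ?_ (fun t => ?_) i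
        · rw [Fin.cons_zero]
          exact he1 a
        · rw [Fin.cons_succ]
          exact he1 b
      rw [h6, one_mul]
    simp only
    rw [map_prod, ← Equiv.prod_comp σ (fun b => if b = σ a then 1 else F (σ a) b ^ 2)]
    apply Finset.prod_congr rfl
    intro b _
    by_cases hb : b = a
    · rw [if_pos hb, if_pos (by rw [hb]), map_one]
    · rw [if_neg hb, if_neg (fun h => hb (σ.injective h)), hrsF]
  · -- values
    choose ε hε1 hε2 using fun i : Fin (k + 1) => ex_vt (r := R2 k) hr i
    have hne : ∀ i, ε i ≠ 0 := by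
      intro i h0
      have := hε1 i
      rw [h0, mul_zero] at this
      exact zero_ne_one this
    have hval : ∀ a b i : Fin (k + 1), a ≠ i → evp exE (T b) (F a i) =
        (∏ s : Fin (k + 1), (Fin.cons (ε a) (fun _ => ε i) : Fin (k + 1) → ℂ) s) *
          if a = b then (k : ℂ) / (k + 1) else 0 := by
      intro a b i hai
      rw [hF]
      simp only
      rw [(h4 (R2 k) k exE (T b)).2.2.2.2.1]
      rw [ex_sum (fun s l => evp exE (T b) ((Fin.cons (V a) fun _ => V i :
          Fin (k + 1) → Fin (R2 k) → Ex (R2 k) k) s l))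
        (Fin.cons (Fin.castLE hr a) (fun _ => Fin.castLE hr i))
        (Fin.cons (ε a) (fun _ => ε i)) (by
          intro s l
          refine Fin.cases ?_ (fun t => ?_) s
          · rw [Fin.cons_zero, Fin.cons_zero, Fin.cons_zero, hV]
            simp only
            rw [ex_evt h4]
            exact hε2 a l
          · rw [Fin.cons_succ, Fin.cons_succ, Fin.cons_succ, hV]
            simp only
            rw [ex_evt h4]
            exact hε2 i l)]
      rw [hfb_gp hk hr a b i hai (T b) (fun p hp => if_pos hp) (fun p hp => if_neg hp)]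
    have hk0 : ((k : ℂ) / (k + 1)) ≠ 0 := by
      apply div_ne_zero
      · exact Nat.cast_ne_zero.mpr (by omega)
      · have : ((k + 1 : ℕ) : ℂ) ≠ 0 := Nat.cast_ne_zero.mpr (by omega)
        push_cast at this
        exact this
    intro a b
    rw [map_prod]
    constructor
    · intro h
      by_contra hab
      apply h
      obtain ⟨i, hi⟩ : ∃ i : Fin (k + 1), i ≠ a := by
        refine ⟨b, fun h => hab h.symm⟩
      apply Finset.prod_eq_zero (Finset.mem_univ i)
      rw [if_neg hi, map_pow, hval a b i hi.symm, if_neg hab, mul_zero, zero_pow (by norm_num)]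
    · rintro rfl
      apply Finset.prod_ne_zero_iff.mpr
      intro i _
      by_cases hi : i = a
      · rw [if_pos hi, map_one]
        exact one_ne_zero
      · rw [if_neg hi, map_pow, hval a a i (fun h => hi h.symm), if_pos rfl]
        apply pow_ne_zero
        apply mul_ne_zero _ hk0
        apply Finset.prod_ne_zero_iff.mpr
        intro s _
        refine Fin.cases ?_ (fun t => ?_) s
        · rw [Fin.cons_zero]
          exact hne _
        · rw [Fin.cons_succ]
          exact hne _

end T3

end Pool.Agent.Lib.MP_a688ad_al
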