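import Pool.Agent.Lib.MP_a688ad_al.T3.SpecU

/-!
# MP_a688ad_al, U2: interlacing matrices are sums of columns
-/

set_option autoImplicit false

open MvPolynomial Finset

namespace Pool.Agent.Lib.MP_a688ad_al

namespace T3

open T2

private theorem ilc_dA_add {K : ℕ} (r : ℕ) (a b : Finset (Fin K) → ℕ) :
    dA r (a + b) = dA r a + dA r b := by
  unfold dA
  rw [← Finset.sum_add_distrib]
  refine Finset.sum_congr rfl (fun C _ => ?_)
  rw [Pi.add_apply, add_smul]

private theorem ilc_dA_single {K : ℕ} (r : ℕ) (C : Finset (Fin K)) :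
    dA r (Pi.single C 1) = dC r C := by
  unfold dA
  rw [Finset.sum_eq_single C]
  · rw [Pi.single_eq_same, one_smul]
  · intro C' _ h
    rw [Pi.single_eq_of_ne h, zero_smul]
  · intro h
    exact absurd (Finset.mem_univ C) h

/-- the first column -/
private theorem ilc_col {K r : ℕ} (A : (Fin K × Fin r) →₀ ℕ) (hA : Il A) (h0 : A ≠ 0) :
    ∃ (C : Finset (Fin K)) (A' : (Fin K × Fin r) →₀ ℕ), C.Nonempty ∧ C.card ≤ r ∧ Il A' ∧
      A = A' + dC r C := by
  classical
  obtain ⟨⟨κ0, i0⟩, hp0⟩ : ∃ p, A p ≠ 0 := by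
    by_contra h
    push Not at h
    exact h0 (Finsupp.ext h)
  haveI : Nonempty (Fin K) := ⟨κ0⟩
  have hex : ∀ i : Fin r, (∃ κ, A (κ, i) ≠ 0) → ∃ κ, A (κ, i) ≠ 0 ∧ ∀ κ' < κ, A (κ', i) = 0 := by
    intro i ⟨κ, hκ⟩
    have hne : (univ.filter fun κ => A (κ, i) ≠ 0).Nonempty := ⟨κ, by simp [hκ]⟩
    refine ⟨(univ.filter fun κ => A (κ, i) ≠ 0).min' hne, ?_, ?_⟩
    · have h := Finset.min'_mem _ hne
      simpa using h
    · intro κ' h
      by_contra hc
      have h1 := Finset.min'_le (univ.filter fun κ => A (κ, i) ≠ 0) κ' (by simp [hc])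
      exact absurd h (not_lt.mpr h1)
  choose! c hc1 hc2 using hex
  -- step
  have hstep : ∀ i i' : Fin r, (i : ℕ) + 1 = i' → (∃ κ, A (κ, i') ≠ 0) →
      (∃ κ, A (κ, i) ≠ 0) ∧ c i < c i' := by
    intro i i' h hR
    have h1 := hA (c i') i i' h
    have h2 : A (c i', i') ≤ ∑ κ' ∈ univ.filter (· ≤ c i'), A (κ', i') :=
      Finset.single_le_sum (f := fun κ' => A (κ', i')) (fun _ _ => Nat.zero_le _) (by simp)
    have h3 := hc1 i' hR
    have h4 : ∑ κ' ∈ univ.filter (· < c i'), A (κ', i) ≠ 0 := by omega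
    obtain ⟨κ, hκ, hκ'⟩ := Finset.exists_ne_zero_of_sum_ne_zero h4
    rw [Finset.mem_filter] at hκ
    refine ⟨⟨κ, hκ'⟩, ?_⟩
    by_contra hlt
    exact hκ' (hc2 i ⟨κ, hκ'⟩ κ (lt_of_lt_of_le hκ.2 (not_lt.mp hlt)))
  have hdown : ∀ d : ℕ, ∀ i j : Fin r, (j : ℕ) + d + 1 = i → (∃ κ, A (κ, i) ≠ 0) →
      (∃ κ, A (κ, j) ≠ 0) ∧ c j < c i := by
    intro d
    induction d with
    | zero =>
      intro i j h hR
      exact hstep j i (by omega) hR
    | succ d ih =>
      intro i j h hR
      have hi : (i : ℕ) - 1 < r := by omega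
      obtain ⟨h1, h2⟩ := hstep ⟨i - 1, hi⟩ i (by simp; omega) hR
      obtain ⟨h3, h4⟩ := ih ⟨i - 1, hi⟩ j (by simp; omega) h1
      exact ⟨h3, h4.trans h2⟩
  have hlt : ∀ i j : Fin r, j < i → (∃ κ, A (κ, i) ≠ 0) → (∃ κ, A (κ, j) ≠ 0) ∧ c j < c i := by
    intro i j h hR
    have h' : (j : ℕ) < i := h
    exact hdown ((i : ℕ) - j - 1) i j (by omega) hR
  set R : Finset (Fin r) := univ.filter fun i => ∃ κ, A (κ, i) ≠ 0 with hRdef
  have hRm : ∀ i, i ∈ R ↔ ∃ κ, A (κ, i) ≠ 0 := by
    intro i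
    simp [hRdef]
  have hcard : ∀ i ∈ R, ((R.image c).filter (· < c i)).card = (i : ℕ) := by
    intro i hi
    have h1 : (R.image c).filter (· < c i) = (Finset.Iio i).image c := by
      ext κ
      rw [Finset.mem_filter, Finset.mem_image, Finset.mem_image]
      constructor
      · rintro ⟨⟨j, hj, rfl⟩, hlt'⟩
        refine ⟨j, ?_, rfl⟩
        rw [Finset.mem_Iio]
        rcases lt_trichotomy j i with h | h | h
        · exact h
        · rw [h] at hlt'
          exact absurd hlt' (lt_irrefl _)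
        · exact absurd hlt' (not_lt.mpr (hlt j i h ((hRm j).mp hj)).2.le)
      · rintro ⟨j, hj, rfl⟩
        rw [Finset.mem_Iio] at hj
        have h2 := hlt i j hj ((hRm i).mp hi)
        exact ⟨⟨j, (hRm j).mpr h2.1, rfl⟩, h2.2⟩
    rw [h1, Finset.card_image_of_injOn, Fin.card_Iio]
    intro j hj j' hj' h
    rw [Finset.coe_Iio, Set.mem_Iio] at hj hj'
    have hjR := (hlt i j hj ((hRm i).mp hi)).1
    have hjR' := (hlt i j' hj' ((hRm i).mp hi)).1
    rcases lt_trichotomy j j' with h2 | h2 | h2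
    · exact absurd h (hlt j' j h2 hjR').2.ne
    · exact h2
    · exact absurd h.symm (hlt j j' h2 hjR).2.ne
  have hdC : ∀ (κ : Fin K) (i : Fin r), dC r (R.image c) (κ, i) =
      if κ = c i then (if i ∈ R then 1 else 0) else 0 := by
    intro κ i
    have h1 : dC r (R.image c) (κ, i) =
        if κ ∈ R.image c ∧ ((R.image c).filter (· < κ)).card = (i : ℕ) then 1 else 0 := rfl
    rw [h1]
    by_cases h2 : κ = c i ∧ i ∈ R
    · rw [if_pos h2.1, if_pos h2.2, if_pos]
      rw [h2.1]
      exact ⟨Finset.mem_image_of_mem c h2.2, hcard i h2.2⟩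
    · rw [if_neg]
      · by_cases h3 : κ = c i
        · rw [if_pos h3, if_neg (fun h4 => h2 ⟨h3, h4⟩)]
        · rw [if_neg h3]
      · rintro ⟨h3, h4⟩
        rw [Finset.mem_image] at h3
        obtain ⟨j, hj, rfl⟩ := h3
        rw [hcard j hj] at h4
        have h5 : j = i := Fin.ext h4
        subst h5
        exact h2 ⟨rfl, hj⟩
  have hle : ∀ p, dC r (R.image c) p ≤ A p := by
    rintro ⟨κ, i⟩
    rw [hdC]
    split_ifs with h1 h2
    · rw [h1]
      exact Nat.one_le_iff_ne_zero.mpr (hc1 i ((hRm i).mp h2))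
    · exact Nat.zero_le _
    · exact Nat.zero_le _
  have hsum : ∀ (s : Finset (Fin K)) (i : Fin r), ∑ κ' ∈ s, (A - dC r (R.image c)) (κ', i) +
      (if c i ∈ s then (if i ∈ R then 1 else 0) else 0) = ∑ κ' ∈ s, A (κ', i) := by
    intro s i
    have h1 : ∑ κ' ∈ s, dC r (R.image c) (κ', i) =
        if c i ∈ s then (if i ∈ R then 1 else 0) else 0 := by
      rw [← Finset.sum_ite_eq' s (c i) (fun _ => if i ∈ R then 1 else 0)]
      exact Finset.sum_congr rfl (fun κ _ => hdC κ i)
    rw [← h1, ← Finset.sum_add_distrib]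
    refine Finset.sum_congr rfl (fun κ _ => ?_)
    rw [Finsupp.tsub_apply]
    exact Nat.sub_add_cancel (hle _)
  refine ⟨R.image c, A - dC r (R.image c), ?_, ?_, ?_, ?_⟩
  · exact ⟨c i0, Finset.mem_image_of_mem c ((hRm i0).mpr ⟨κ0, hp0⟩)⟩
  · refine Finset.card_image_le.trans ?_
    calc R.card ≤ (univ : Finset (Fin r)).card := Finset.card_le_univ R
      _ = r := by rw [Finset.card_univ, Fintype.card_fin]
  · intro κ i i' h
    have h1 := hsum (univ.filter (· ≤ κ)) i'
    have h2 := hsum (univ.filter (· < κ)) i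
    have h3 := hA κ i i' h
    simp only [Finset.mem_filter, Finset.mem_univ, true_and] at h1 h2
    by_cases h4 : c i' ≤ κ ∧ i' ∈ R
    · rw [if_pos h4.1, if_pos h4.2] at h1
      have h5 : (if c i < κ then (if i ∈ R then 1 else 0) else 0) ≤ 1 := by
        split_ifs <;> omega
      omega
    · have h5 : ∑ κ' ∈ univ.filter (· ≤ κ), A (κ', i') = 0 := by
        apply Finset.sum_eq_zero
        intro κ' hκ'
        rw [Finset.mem_filter] at hκ'
        by_cases h6 : i' ∈ R
        · have h7 : ¬ c i' ≤ κ := fun h7 => h4 ⟨h7, h6⟩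
          exact hc2 i' ((hRm i').mp h6) κ' (lt_of_le_of_lt hκ'.2 (not_le.mp h7))
        · by_contra h7
          exact h6 ((hRm i').mpr ⟨κ', h7⟩)
      omega
  · ext p
    rw [Finsupp.add_apply, Finsupp.tsub_apply]
    exact (Nat.sub_add_cancel (hle p)).symm

theorem kIlc : IlcStmt := by
  intro K r
  have main : ∀ N : ℕ, ∀ A : (Fin K × Fin r) →₀ ℕ, ∑ p, A p ≤ N → Il A →
      ∃ a : Finset (Fin K) → ℕ, a ∅ = 0 ∧ (∀ C, r < C.card → a C = 0) ∧ dA r a = A := by
    intro N
    induction N with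
    | zero =>
      intro A hN _
      refine ⟨0, rfl, fun _ _ => rfl, ?_⟩
      have h1 : ∀ p ∈ (univ : Finset (Fin K × Fin r)), A p = 0 := by
        rw [← Finset.sum_eq_zero_iff]
        omega
      ext p
      rw [h1 p (Finset.mem_univ p)]
      simp [dA]
    | succ N ih =>
      intro A hN hA
      by_cases h0 : A = 0
      · refine ⟨0, rfl, fun _ _ => rfl, ?_⟩
        rw [h0]
        simp [dA]
      · obtain ⟨C, A', hC, hCr, hA', h1⟩ := ilc_col A hA h0
        have h2 : 1 ≤ ∑ p, dC r C p := by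
          by_contra h3
          have h4 : ∑ p, dC r C p = 0 := by omega
          rw [Finset.sum_eq_zero_iff] at h4
          set κ := C.min' hC with hκ
          have h6 : (C.filter (· < κ)).card = 0 := by
            rw [Finset.card_eq_zero, Finset.filter_eq_empty_iff]
            intro x hx
            exact not_lt.mpr (Finset.min'_le C x hx)
          have hr : 0 < r := by
            have := hC.card_pos
            omega
          have h5 := h4 (κ, ⟨0, hr⟩) (Finset.mem_univ _)
          have h7 : dC r C (κ, ⟨0, hr⟩) =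
              if κ ∈ C ∧ (C.filter (· < κ)).card = 0 then 1 else 0 := rfl
          rw [h7, if_pos ⟨Finset.min'_mem C hC, h6⟩] at h5
          omega
        have h3 : ∑ p, A p = ∑ p, A' p + ∑ p, dC r C p := by
          rw [← Finset.sum_add_distrib]
          exact Finset.sum_congr rfl (fun p _ => by rw [h1, Finsupp.add_apply])
        obtain ⟨a, ha0, har, haA⟩ := ih A' (by omega) hA'
        refine ⟨a + Pi.single C 1, ?_, ?_, ?_⟩
        · rw [Pi.add_apply, ha0, Pi.single_eq_of_ne hC.ne_empty.symm, add_zero]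
        · intro C' hC'
          have h4 : C' ≠ C := by
            rintro rfl
            omega
          rw [Pi.add_apply, har C' hC', Pi.single_eq_of_ne h4, add_zero]
        · rw [ilc_dA_add, ilc_dA_single, haA, h1]
  intro A hA
  exact main _ A le_rfl hA

end T3

end Pool.Agent.Lib.MP_a688ad_al
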