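import Pool.Agent.Lib.MP_a688ad_al.T3.SpecL

/-!
# MP_a688ad_al, T3: the image of the evaluation map
-/

set_option autoImplicit false

open MvPolynomial Finset

namespace Pool.Agent.Lib.MP_a688ad_al

namespace T3

open T2

variable {r k : ℕ}

/-- a polynomial as a polynomial in the variables of the tensor -/
private noncomputable def imF : Ex r k →ₐ[ℂ] MvPolynomial (Ib r k) (Z (k + 1) r) :=
  aeval (Sum.elim (fun p => C (X p)) X)

/-- the exponents of the particles -/
private noncomputable def imA (e : (Fin (k + 1) × Fin r ⊕ Ib r k) →₀ ℕ) :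
    (Fin (k + 1) × Fin r) →₀ ℕ :=
  Finsupp.equivFunOnFinite.symm fun p => e (Sum.inl p)

/-- the exponents of the tensor -/
private noncomputable def imB (e : (Fin (k + 1) × Fin r ⊕ Ib r k) →₀ ℕ) : Ib r k →₀ ℕ :=
  Finsupp.equivFunOnFinite.symm fun p => e (Sum.inr p)

private theorem imA_apply (e : (Fin (k + 1) × Fin r ⊕ Ib r k) →₀ ℕ) (p : Fin (k + 1) × Fin r) :
    imA e p = e (Sum.inl p) := rfl

private theorem imB_apply (e : (Fin (k + 1) × Fin r ⊕ Ib r k) →₀ ℕ) (p : Ib r k) :
    imB e p = e (Sum.inr p) := rfl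

private theorem im_mono (e : (Fin (k + 1) × Fin r ⊕ Ib r k) →₀ ℕ) (a : ℂ) :
    imF (monomial e a : Ex r k) = monomial (imB e) (monomial (imA e) a) := by
  have h1 : (monomial (imA e) a : Z (k + 1) r) = C a * ∏ p, X p ^ e (Sum.inl p) := by
    rw [monomial_eq, Finsupp.prod_fintype _ _ (fun i => pow_zero _)]
    simp only [imA_apply]
  have h2 : ∀ u : Z (k + 1) r, (monomial (imB e) u : MvPolynomial (Ib r k) (Z (k + 1) r)) =
      C u * ∏ b, X b ^ e (Sum.inr b) := by
    intro u
    rw [monomial_eq, Finsupp.prod_fintype _ _ (fun i => pow_zero _)]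
    simp only [imB_apply]
  rw [h2, h1, map_mul, map_prod]
  unfold imF
  rw [aeval_monomial, Finsupp.prod_fintype _ _ (fun i => pow_zero _), Fintype.prod_sum_type]
  simp only [Sum.elim_inl, Sum.elim_inr, map_pow]
  rw [MvPolynomial.algebraMap_apply, ← mul_assoc]
  rfl

private theorem im_rs (σ : Equiv.Perm (Fin (k + 1))) (F : Ex r k) :
    imF (rs σ F) = mapAlgHom (rz σ : Z (k + 1) r →ₐ[ℂ] Z (k + 1) r) (imF F) := by
  have h : (imF.comp (rs σ) : Ex r k →ₐ[ℂ] _) =
      (mapAlgHom (rz σ : Z (k + 1) r →ₐ[ℂ] Z (k + 1) r)).comp imF := by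
    apply MvPolynomial.algHom_ext
    rintro (p | p)
    · rw [AlgHom.comp_apply, AlgHom.comp_apply]
      unfold rs imF
      rw [rename_X, aeval_X, aeval_X]
      show C (X _) = _
      rw [Sum.elim_inl, mapAlgHom_apply, map_C]
      congr 1
      unfold rz
      exact (rename_X _ _).symm
    · rw [AlgHom.comp_apply, AlgHom.comp_apply]
      unfold rs imF
      rw [rename_X, aeval_X, aeval_X]
      show X _ = _
      rw [Sum.elim_inr, mapAlgHom_apply, map_X]
      rfl
  rw [← AlgHom.comp_apply, h, AlgHom.comp_apply]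

private theorem im_back (g : Ib r k → Ex r k) (F : Ex r k) :
    (aeval (Sum.elim (fun p => X (Sum.inl p)) g) F : Ex r k) =
      ∑ d ∈ (imF F).support, (rename Sum.inl (coeff d (imF F)) : Ex r k) * ∏ b, g b ^ d b := by
  have h : (aeval (Sum.elim (fun p => X (Sum.inl p)) g) : Ex r k →ₐ[ℂ] Ex r k) =
      (aevalTower (rename Sum.inl : Z (k + 1) r →ₐ[ℂ] Ex r k) g).comp imF := by
    apply MvPolynomial.algHom_ext
    rintro (p | p)
    · rw [AlgHom.comp_apply]
      unfold imF
      rw [aeval_X, aeval_X, Sum.elim_inl, Sum.elim_inl, aevalTower_C, rename_X]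
    · rw [AlgHom.comp_apply]
      unfold imF
      rw [aeval_X, aeval_X, Sum.elim_inr, Sum.elim_inr, aevalTower_X]
  rw [h, AlgHom.comp_apply]
  conv_lhs => rw [← support_sum_monomial_coeff (imF F)]
  rw [map_sum]
  refine Finset.sum_congr rfl fun d _ => ?_
  rw [monomial_eq, map_mul, aevalTower_C, Finsupp.prod_fintype _ _ (fun i => pow_zero _), map_prod]
  congr 1
  refine Finset.prod_congr rfl fun b _ => ?_
  rw [map_pow, aevalTower_X]

private theorem im_hom {β : Fin r → ℤ} {c : ℕ} {q : ℤ} {F : Ex r k}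
    (hF : IsWeightedHomogeneous WE F (β, (fun _ => (c : ℤ)), q)) (d : Ib r k →₀ ℕ) :
    Cn c (coeff d (imF F)) ∧ (coeff d (imF F) ≠ 0 → ((d.degree : ℕ) : ℤ) = q) := by
  classical
  have hsum : coeff d (imF F) = ∑ e ∈ F.support,
      if imB e = d then (monomial (imA e) (coeff e F) : Z (k + 1) r) else 0 := by
    conv_lhs => rw [← support_sum_monomial_coeff F]
    rw [map_sum, coeff_sum]
    refine Finset.sum_congr rfl fun e _ => ?_
    rw [im_mono, coeff_monomial]
  have hw : ∀ e ∈ F.support, Finsupp.weight (fun p : Fin (k + 1) × Fin r =>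
      (sg p.1 : Fin (k + 1) → ℤ)) (imA e) = (fun _ => (c : ℤ)) ∧
      (((imB e).degree : ℕ) : ℤ) = q := by
    intro e he
    have h1 : Finsupp.weight WE e = (β, (fun _ => (c : ℤ)), q) := hF (mem_support_iff.mp he)
    rw [Finsupp.weight_apply, Finsupp.sum_fintype e (fun i n => n • WE i)
      (fun i => zero_smul _ _), Fintype.sum_sum_type] at h1
    constructor
    · rw [Finsupp.weight_apply, Finsupp.sum_fintype (imA e)
        (fun (p : Fin (k + 1) × Fin r) n => n • (sg p.1 : Fin (k + 1) → ℤ))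
        (fun i => zero_smul _ _)]
      have h2 := congrArg (fun z => z.2.1) h1
      simp only [Prod.snd_add, Prod.fst_add, Prod.snd_sum, Prod.fst_sum, Prod.smul_snd,
        Prod.smul_fst, WE, Sum.elim_inl, Sum.elim_inr, smul_zero, Finset.sum_const_zero,
        add_zero] at h2
      exact h2
    · have h2 := congrArg (fun z => z.2.2) h1
      simp only [Prod.snd_add, Prod.snd_sum, Prod.smul_snd, WE, Sum.elim_inl, Sum.elim_inr,
        smul_zero, Finset.sum_const_zero, zero_add] at h2
      rw [Finsupp.degree_eq_sum]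
      push_cast
      rw [← h2]
      refine Finset.sum_congr rfl fun b _ => ?_
      simp [imB]
  constructor
  · rw [hsum]
    unfold Cn
    apply IsWeightedHomogeneous.sum
    intro e he
    split_ifs
    · exact isWeightedHomogeneous_monomial _ _ _ (hw e he).1
    · exact isWeightedHomogeneous_zero _ _ _
  · intro hne
    rw [hsum] at hne
    obtain ⟨e, he, hne'⟩ := Finset.exists_ne_zero_of_sum_ne_zero hne
    split_ifs at hne' with hd
    · rw [← hd]
      exact (hw e he).2
    · exact absurd rfl hne'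

private theorem im_dg (p : Ib r k) : (dg p).IsHomogeneous 1 ∧ (sym p).IsHomogeneous 1 := by
  have h1 : (sym p).IsHomogeneous 1 := by
    unfold sym
    refine (isHomogeneous_X _ _).add ?_
    induction p.2.1 using Multiset.induction_on with
    | empty =>
      rw [Multiset.map_zero, Multiset.sum_zero]
      exact isHomogeneous_zero _ _ _
    | cons a s ih =>
      rw [Multiset.map_cons, Multiset.sum_cons]
      exact (isHomogeneous_X _ _).add ih
  refine ⟨?_, h1⟩
  unfold dg
  apply (isHomogeneous_X _ _).sub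
  rw [← mem_homogeneousSubmodule]
  exact Submodule.smul_mem _ _ ((mem_homogeneousSubmodule _ _).mpr h1)

private theorem im_W1 {β : Fin r → ℤ} {m : (Fin (k + 1) → ℤ) × ℤ} {F : Ex r k}
    (hF : IsWeightedHomogeneous WE F (β, m)) : IsWeightedHomogeneous W1 F β := by
  intro f hf
  have h1 : Finsupp.weight WE f = (β, m) := hF hf
  have h2 := congrArg Prod.fst h1
  rw [Finsupp.weight_apply, Finsupp.sum, Prod.fst_sum] at h2
  rw [Finsupp.weight_apply, Finsupp.sum]
  exact h2

private theorem im_comp (hE : ∀ (ν : Fin r → ℤ) (d : ℤ) (P : MvPolynomial (Ib r k) ℂ),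
    IsWeightedHomogeneous WT P (ν, d) → IsWeightedHomogeneous W1 (Ev P) ν)
    {β : Fin r → ℤ} {F : Ex r k} (hF : IsWeightedHomogeneous W1 F β)
    {P₀ : MvPolynomial (Ib r k) ℂ} {N : ℕ} (hP₀ : P₀.IsHomogeneous N) (hEv : Ev P₀ = F) :
    ∃ P : MvPolynomial (Ib r k) ℂ, IsWeightedHomogeneous WT P (β, (N : ℤ)) ∧ Ev P = F := by
  classical
  have hwt : ∀ e ∈ P₀.support, Finsupp.weight WT e = ((Finsupp.weight WT e).1, (N : ℤ)) := by
    intro e he
    have h1 : Finsupp.weight (1 : Ib r k → ℕ) e = N := hP₀ (mem_support_iff.mp he)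
    have h2 := weight_snd e
    rw [Finsupp.degree_eq_weight_one] at h2
    have h3 : (Finsupp.weight (R := ℕ) (fun _ : Ib r k => (1 : ℕ))) e = N := h1
    rw [h3] at h2
    exact Prod.ext rfl h2
  let P : MvPolynomial (Ib r k) ℂ :=
    ∑ e ∈ P₀.support.filter (fun e => (Finsupp.weight WT e).1 = β), monomial e (coeff e P₀)
  let P' : MvPolynomial (Ib r k) ℂ :=
    ∑ e ∈ P₀.support.filter (fun e => ¬ (Finsupp.weight WT e).1 = β), monomial e (coeff e P₀)
  have hsplit : P₀ = P + P' := by
    conv_lhs => rw [← support_sum_monomial_coeff P₀]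
    exact (Finset.sum_filter_add_sum_filter_not _ _ _).symm
  have hP : IsWeightedHomogeneous WT P (β, (N : ℤ)) := by
    apply IsWeightedHomogeneous.sum
    intro e he
    rw [Finset.mem_filter] at he
    refine isWeightedHomogeneous_monomial _ _ _ ?_
    rw [hwt e he.1, he.2]
  refine ⟨P, hP, ?_⟩
  have hP1 := hE β N P hP
  have hP' : ∀ f, Finsupp.weight W1 f = β → coeff f (Ev P') = 0 := by
    intro f hf
    show coeff f (Ev (∑ e ∈ P₀.support.filter (fun e => ¬ (Finsupp.weight WT e).1 = β),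
      monomial e (coeff e P₀))) = 0
    rw [map_sum, coeff_sum]
    refine Finset.sum_eq_zero fun e he => ?_
    rw [Finset.mem_filter] at he
    have h1 := hE (Finsupp.weight WT e).1 N (monomial e (coeff e P₀))
      (isWeightedHomogeneous_monomial _ _ _ (hwt e he.1))
    refine h1.coeff_eq_zero f ?_
    rw [hf]
    exact Ne.symm he.2
  rw [hsplit, map_add] at hEv
  ext f
  by_cases hf : Finsupp.weight W1 f = β
  · rw [← hEv, coeff_add, hP' f hf, add_zero]
  · rw [hP1.coeff_eq_zero f hf, hF.coeff_eq_zero f hf]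

theorem kIm (h1 : BrStmt) (h2 : EvEStmt) : ImStmt := by
  classical
  intro k r
  obtain ⟨N0, hN0⟩ := h1 k r
  obtain ⟨_, hE2, hE3⟩ := h2 r k
  refine ⟨N0, fun c hc β q F hF hpr hsym => ?_⟩
  by_cases hF0 : F = 0
  · exact ⟨0, isWeightedHomogeneous_zero _ _ _, by rw [map_zero, hF0]⟩
  have hcoef : ∀ d, ∃ P : MvPolynomial (Ib r k) ℂ, P.IsHomogeneous c ∧
      aeval (fun p => (el p : Z (k + 1) r)) P = coeff d (imF F) := by
    intro d
    refine hN0 c hc _ (im_hom hF d).1 ?_
    intro σ
    have h3 := im_rs σ F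
    rw [hsym σ] at h3
    have h4 := congrArg (coeff d) h3
    rw [mapAlgHom_apply, coeff_map] at h4
    exact h4.symm
  choose Pd hPd1 hPd2 using hcoef
  have hk : ((k : ℂ) + 1) ≠ 0 := by
    have := Nat.cast_add_one_ne_zero (R := ℂ) k
    exact this
  let P₀ : MvPolynomial (Ib r k) ℂ := ∑ d ∈ (imF F).support,
    aeval (fun p => (1 / ((k : ℂ) + 1)) • sym p) (Pd d) * ∏ b, dg b ^ d b
  have hEv : Ev P₀ = F := by
    have h5 := im_back (fun p => rename Sum.inr (dg p)) F
    have h6 : (aeval (Sum.elim (fun p => X (Sum.inl p)) fun p => rename Sum.inr (dg p)) F :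
        Ex r k) = F := hpr
    rw [h6] at h5
    rw [h5]
    show Ev (∑ d ∈ (imF F).support,
      aeval (fun p => (1 / ((k : ℂ) + 1)) • sym p) (Pd d) * ∏ b, dg b ^ d b) = _
    rw [map_sum]
    refine Finset.sum_congr rfl fun d _ => ?_
    rw [map_mul, map_prod]
    congr 1
    · rw [← hPd2 d]
      have h7 : (Ev.comp (aeval fun p => (1 / ((k : ℂ) + 1)) • sym p) :
          MvPolynomial (Ib r k) ℂ →ₐ[ℂ] Ex r k) =
          (rename Sum.inl : Z (k + 1) r →ₐ[ℂ] Ex r k).comp (aeval fun p => (el p : Z (k + 1) r)) := by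
        apply MvPolynomial.algHom_ext
        intro p
        rw [AlgHom.comp_apply, AlgHom.comp_apply, aeval_X, aeval_X, map_smul, (hE2 p).2, smul_smul,
          one_div, inv_mul_cancel₀ hk, one_smul]
      exact congrArg (fun f => f (Pd d)) h7
    · refine Finset.prod_congr rfl fun b _ => ?_
      rw [map_pow, (hE2 b).1]
  obtain ⟨d₀, hd₀⟩ : (imF F).support.Nonempty := by
    by_contra hemp
    rw [Finset.not_nonempty_iff_eq_empty] at hemp
    apply hF0
    rw [← hEv]
    show Ev (∑ d ∈ (imF F).support,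
      aeval (fun p => (1 / ((k : ℂ) + 1)) • sym p) (Pd d) * ∏ b, dg b ^ d b) = 0
    rw [hemp, Finset.sum_empty, map_zero]
  have hq : ∀ d ∈ (imF F).support, ((d.degree : ℕ) : ℤ) = q := fun d hd =>
    (im_hom hF d).2 (mem_support_iff.mp hd)
  have hhom : P₀.IsHomogeneous (c + d₀.degree) := by
    apply IsHomogeneous.sum
    intro d hd
    have h8 : d.degree = d₀.degree := by
      have h9 := hq d hd
      rw [← hq d₀ hd₀] at h9
      exact_mod_cast h9
    rw [← h8]
    apply IsHomogeneous.mul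
    · have h10 := (hPd1 d).aeval (fun p => (1 / ((k : ℂ) + 1)) • sym p) (n := 1) (fun p => by
        rw [← mem_homogeneousSubmodule]
        exact Submodule.smul_mem _ _ ((mem_homogeneousSubmodule _ _).mpr (im_dg p).2))
      rw [one_mul] at h10
      exact h10
    · have h11 := IsHomogeneous.prod (Finset.univ : Finset (Ib r k)) (fun b => dg b ^ d b)
        (fun b => 1 * d b) (fun b _ => (im_dg b).1.pow _)
      simp only [one_mul] at h11
      rw [Finsupp.degree_eq_sum]
      exact h11
  obtain ⟨P, hP1, hP2⟩ := im_comp hE3 (im_W1 hF) hhom hEv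
  refine ⟨P, ?_, hP2⟩
  rw [Nat.cast_add, hq d₀ hd₀] at hP1
  exact hP1

end T3

end Pool.Agent.Lib.MP_a688ad_al
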