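import Pool.Agent.Lib.MP_a688ad_al.T3.SpecE

/-!
# MP_a688ad_al, T3: module `Iv` (helper62)
-/

set_option autoImplicit false

open MvPolynomial Finset

namespace Pool.Agent.Lib.MP_a688ad_al

namespace T3

open T2

theorem kIv : IvStmt := by
  intro k C hC
  have hdiag : ∀ a, C a a = C 0 0 := by
    intro a
    have h := hC (Equiv.swap 0 a) 0 0
    rwa [Equiv.swap_apply_left] at h
  rcases Nat.eq_zero_or_pos k with hk | hk
  · subst hk
    refine ⟨C 0 0, 0, fun a κ => ?_⟩
    have ha : a = 0 := Fin.ext (by have := a.2; simp only [Fin.val_zero]; omega)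
    have hκ : κ = 0 := Fin.ext (by have := κ.2; simp only [Fin.val_zero]; omega)
    rw [ha, hκ]
    simp
  · obtain ⟨o, ho⟩ : ∃ o : Fin (k + 1), o ≠ 0 := ⟨⟨1, by omega⟩, by
      intro h
      have := congrArg Fin.val h
      simp at this⟩
    refine ⟨C 0 o, C 0 0 - C 0 o, fun a κ => ?_⟩
    by_cases hκ : κ = a
    · rw [if_pos hκ, hκ, hdiag]
      ring
    · rw [if_neg hκ, add_zero]
      have h := hC (Equiv.swap (Equiv.swap 0 a o) κ * Equiv.swap 0 a) 0 o
      have h1 : (Equiv.swap (Equiv.swap 0 a o) κ * Equiv.swap 0 a) 0 = a := by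
        rw [Equiv.Perm.mul_apply, Equiv.swap_apply_left]
        refine Equiv.swap_apply_of_ne_of_ne (fun h2 => ?_) (Ne.symm hκ)
        have h3 : Equiv.swap 0 a 0 = Equiv.swap 0 a o := by
          rw [Equiv.swap_apply_left]
          exact h2
        exact ho ((Equiv.swap 0 a).injective h3).symm
      have h2 : (Equiv.swap (Equiv.swap 0 a o) κ * Equiv.swap 0 a) o = κ := by
        rw [Equiv.Perm.mul_apply, Equiv.swap_apply_left]
      rw [h1, h2] at h
      exact h

end T3

end Pool.Agent.Lib.MP_a688ad_al
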