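import Pool.Agent.Lib.MP_a688ad_al.T3.SpecL
import Mathlib.Algebra.Order.Rearrangement

/-!
# MP_a688ad_al, all large `n`: monomials in minors are independent
-/

set_option autoImplicit false

open MvPolynomial Finset

namespace Pool.Agent.Lib.MP_a688ad_al

namespace T3

open T2

/-- The order of an exponent. -/
noncomputable def liO {K r : ℕ} : ((Fin K × Fin r) →₀ ℕ) →+ ℕ :=
  Finsupp.weight fun p => (p.1 : ℕ) * (p.2 : ℕ)

/-- `f` has the top `d₀`. -/
def liT {K r : ℕ} (f : Z K r) (d₀ : (Fin K × Fin r) →₀ ℕ) : Prop :=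
  coeff d₀ f = 1 ∧ ∀ d, coeff d f ≠ 0 → liO d < liO d₀ ∨ d = d₀

section

variable {K r : ℕ}

theorem liT_one : liT (1 : Z K r) 0 := by
  classical
  refine ⟨coeff_zero_one, fun d hd => ?_⟩
  rw [coeff_one] at hd
  right
  by_contra h
  exact hd (if_neg fun h' => h h'.symm)

theorem liT_mul {f g : Z K r} {d e : (Fin K × Fin r) →₀ ℕ} (hf : liT f d) (hg : liT g e) :
    liT (f * g) (d + e) := by
  classical
  constructor
  · rw [coeff_mul, Finset.sum_eq_single (d, e)]
    · rw [hf.1, hg.1, mul_one]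
    · rintro ⟨x, y⟩ hxy hne
      rw [HasAntidiagonal.mem_antidiagonal] at hxy
      simp only at hxy ⊢
      by_contra h0
      have hx := hf.2 x (left_ne_zero_of_mul h0)
      have hy := hg.2 y (right_ne_zero_of_mul h0)
      have h1 : liO x + liO y = liO d + liO e := by rw [← map_add, ← map_add, hxy]
      rcases hx with hx | hx <;> rcases hy with hy | hy
      · omega
      · rw [hy] at h1
        omega
      · rw [hx] at h1
        omega
      · exact hne (by rw [hx, hy])
    · intro h
      exfalso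
      apply h
      rw [HasAntidiagonal.mem_antidiagonal]
  · intro c hc
    rw [coeff_mul] at hc
    obtain ⟨⟨x, y⟩, hxy, hne⟩ := Finset.exists_ne_zero_of_sum_ne_zero hc
    rw [HasAntidiagonal.mem_antidiagonal] at hxy
    simp only at hxy hne
    have hx := hf.2 x (left_ne_zero_of_mul hne)
    have hy := hg.2 y (right_ne_zero_of_mul hne)
    rw [← hxy, map_add, map_add]
    rcases hx with hx | hx <;> rcases hy with hy | hy
    · left
      omega
    · left
      rw [hy]
      omega
    · left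
      rw [hx]
      omega
    · right
      rw [hx, hy]

theorem liT_pow {f : Z K r} {d : (Fin K × Fin r) →₀ ℕ} (hf : liT f d) (n : ℕ) :
    liT (f ^ n) (n • d) := by
  induction n with
  | zero => simpa using liT_one
  | succ n ih =>
    rw [pow_succ, succ_nsmul]
    exact liT_mul ih hf

theorem liT_prod {ι : Type} (s : Finset ι) (f : ι → Z K r) (d : ι → ((Fin K × Fin r) →₀ ℕ))
    (h : ∀ i ∈ s, liT (f i) (d i)) : liT (∏ i ∈ s, f i) (∑ i ∈ s, d i) := by
  classical
  induction s using Finset.induction_on with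
  | empty => simpa using liT_one
  | insert a s ha ih =>
    rw [Finset.sum_insert ha, Finset.prod_insert ha]
    exact liT_mul (h a (Finset.mem_insert_self a s)) (ih fun i hi => h i (Finset.mem_insert_of_mem hi))

/-- The exponent of a permutation. -/
noncomputable def liE {p : ℕ} (hp : p ≤ r) (c : Fin p → Fin K) (σ : Equiv.Perm (Fin p)) :
    (Fin K × Fin r) →₀ ℕ := ∑ i, Finsupp.single (c (σ i), Fin.castLE hp i) 1

theorem liO_E {p : ℕ} (hp : p ≤ r) (c : Fin p → Fin K) (σ : Equiv.Perm (Fin p)) :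
    liO (liE hp c σ) = ∑ i, (c (σ i) : ℕ) * (i : ℕ) := by
  unfold liE liO
  rw [map_sum]
  refine Finset.sum_congr rfl fun i _ => ?_
  rw [Finsupp.weight_single, one_smul]
  rfl

theorem li_brk {p : ℕ} (hp : p ≤ r) (c : Fin p → Fin K) :
    brk p hp (fun t l => (X (c t, l) : Z K r))
      = ∑ σ : Equiv.Perm (Fin p), ((Equiv.Perm.sign σ : ℤ) : Z K r) * monomial (liE hp c σ) 1 := by
  unfold brk
  rw [Matrix.det_apply]
  refine Finset.sum_congr rfl fun σ _ => ?_
  have h1 : ∏ i, Matrix.of (fun a b => (X (c a, Fin.castLE hp b) : Z K r)) (σ i) i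
      = monomial (liE hp c σ) 1 := by
    unfold liE
    rw [monomial_sum_one]
    rfl
  rw [h1, Units.smul_def, zsmul_eq_mul]

theorem li_lt {p : ℕ} (hp : p ≤ r) (c : Fin p → Fin K) (hc : StrictMono c)
    (σ : Equiv.Perm (Fin p)) (hσ : σ ≠ 1) : liO (liE hp c σ) < liO (liE hp c 1) := by
  rw [liO_E, liO_E]
  have hcm : StrictMono fun i : Fin p => ((c i : Fin K) : ℕ) := fun i j hij => hc hij
  have hvm : StrictMono fun i : Fin p => (i : ℕ) := fun i j hij => hij
  have hm : Monovary (fun i : Fin p => ((c i : Fin K) : ℕ)) fun i : Fin p => (i : ℕ) :=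
    fun i j hij => hcm.monotone (Fin.le_def.2 (le_of_lt hij))
  have h1 := (hm.sum_comp_perm_mul_lt_sum_mul_iff (σ := σ)).2 (by
    intro h2
    apply hσ
    have h3 : Monotone fun i : Fin p => ((c (σ i) : Fin K) : ℕ) := by
      intro i j hij
      rcases hij.lt_or_eq with h | h
      · exact h2 h
      · rw [h]
    have h4 : StrictMono fun i : Fin p => σ i := by
      intro i j hij
      have h5 : ((c (σ i) : Fin K) : ℕ) ≤ c (σ j) := h3 hij.le
      have h6 : σ i ≤ σ j := by
        by_contra h7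
        exact absurd (hcm (not_le.1 h7)) (not_lt.2 h5)
      exact lt_of_le_of_ne h6 fun h7 => hij.ne (σ.injective h7)
    ext i
    have h5 : (fun i : Fin p => σ i) = id := by
      refine (StrictMono.range_inj h4 strictMono_id).1 ?_
      rw [Set.range_id]
      exact σ.surjective.range_eq
    rw [show σ i = id i from congrFun h5 i]
    rfl)
  exact h1

theorem liE_inj {p : ℕ} (hp : p ≤ r) (c : Fin p → Fin K) (hc : StrictMono c)
    {σ : Equiv.Perm (Fin p)} (h : liE hp c σ = liE hp c 1) : σ = 1 := by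
  by_contra hσ
  have := li_lt hp c hc σ hσ
  rw [h] at this
  exact lt_irrefl _ this

theorem li_brkT {p : ℕ} (hp : p ≤ r) (c : Fin p → Fin K) (hc : StrictMono c) :
    liT (brk p hp (fun t l => (X (c t, l) : Z K r))) (liE hp c 1) := by
  classical
  have hco : ∀ d, coeff d (brk p hp (fun t l => (X (c t, l) : Z K r)))
      = ∑ σ : Equiv.Perm (Fin p), if liE hp c σ = d then ((Equiv.Perm.sign σ : ℤ) : ℂ) else 0 := by
    intro d
    rw [li_brk, coeff_sum]
    refine Finset.sum_congr rfl fun σ _ => ?_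
    have h1 : ((Equiv.Perm.sign σ : ℤ) : Z K r) = C ((Equiv.Perm.sign σ : ℤ) : ℂ) := by
      rw [map_intCast]
    rw [h1, coeff_C_mul, coeff_monomial, mul_ite, mul_one, mul_zero]
  constructor
  · rw [hco, Finset.sum_eq_single 1]
    · simp
    · intro σ _ hσ
      exact if_neg fun h => hσ (liE_inj hp c hc h)
    · intro h
      exact absurd (Finset.mem_univ _) h
  · intro d hd
    rw [hco] at hd
    obtain ⟨σ, _, hσ⟩ := Finset.exists_ne_zero_of_sum_ne_zero hd
    have h1 : liE hp c σ = d := by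
      by_contra h
      exact hσ (if_neg h)
    by_cases h2 : σ = 1
    · right
      rw [← h1, h2]
    · left
      rw [← h1]
      exact li_lt hp c hc σ h2

theorem li_rank (C : Finset (Fin K)) (t : Fin C.card) :
    (C.filter (· < C.orderEmbOfFin rfl t)).card = (t : ℕ) := by
  have h1 : C.filter (· < C.orderEmbOfFin rfl t)
      = (Finset.Iio t).map (C.orderEmbOfFin rfl).toEmbedding := by
    ext κ
    rw [Finset.mem_filter, Finset.mem_map]
    constructor
    · rintro ⟨h1, h2⟩
      have h3 : κ ∈ Set.range (C.orderEmbOfFin rfl) := by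
        rw [Finset.range_orderEmbOfFin]
        exact h1
      obtain ⟨s, rfl⟩ := h3
      exact ⟨s, Finset.mem_Iio.2 ((C.orderEmbOfFin rfl).lt_iff_lt.1 h2), rfl⟩
    · rintro ⟨s, hs, rfl⟩
      exact ⟨Finset.orderEmbOfFin_mem C rfl s, (C.orderEmbOfFin rfl).lt_iff_lt.2 (Finset.mem_Iio.1 hs)⟩
  rw [h1, Finset.card_map, Fin.card_Iio]

theorem li_dC (C : Finset (Fin K)) (hC : C.card ≤ r) :
    liE hC (fun t => C.orderEmbOfFin rfl t) 1 = dC r C := by
  classical
  ext ⟨κ, i⟩
  unfold liE dC
  rw [Finsupp.finsetSum_apply, Finsupp.coe_equivFunOnFinite_symm]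
  by_cases h : κ ∈ C ∧ (C.filter (· < κ)).card = (i : ℕ)
  · rw [if_pos h]
    have h3 : κ ∈ Set.range (C.orderEmbOfFin rfl) := by
      rw [Finset.range_orderEmbOfFin]
      exact h.1
    obtain ⟨t, rfl⟩ := h3
    have h4 := h.2
    rw [li_rank] at h4
    rw [Finset.sum_eq_single t]
    · rw [Finsupp.single_apply, if_pos]
      exact Prod.ext rfl (Fin.ext h4)
    · intro s _ hs
      rw [Finsupp.single_apply, if_neg]
      intro h5
      exact hs ((C.orderEmbOfFin rfl).injective (congrArg Prod.fst h5))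
    · intro h5
      exact absurd (Finset.mem_univ _) h5
  · rw [if_neg h]
    refine Finset.sum_eq_zero fun t _ => ?_
    rw [Finsupp.single_apply, if_neg]
    intro h5
    apply h
    have h6 : C.orderEmbOfFin rfl t = κ := congrArg Prod.fst h5
    have h7 : Fin.castLE hC t = i := congrArg Prod.snd h5
    rw [← h6, ← h7, li_rank]
    exact ⟨Finset.orderEmbOfFin_mem C rfl t, rfl⟩

theorem li_mon (a : Finset (Fin K) → ℕ) (ha : ∀ C, r < C.card → a C = 0) :
    liT (mon r a) (dA r a) := by
  unfold mon dA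
  refine liT_prod _ _ _ fun C _ => ?_
  by_cases h : C.card ≤ r
  · rw [dif_pos h, ← li_dC C h]
    exact liT_pow (li_brkT h _ (C.orderEmbOfFin rfl).strictMono) _
  · rw [dif_neg h, ha C (not_le.1 h), pow_zero, zero_smul]
    exact liT_one

end

theorem kLI : LIStmt := by
  classical
  intro K r s c hs hinj h0 a₁ ha₁
  by_contra hc
  have hne : (s.filter fun a => c a ≠ 0).Nonempty := ⟨a₁, Finset.mem_filter.2 ⟨ha₁, hc⟩⟩
  obtain ⟨a, ha, hmax⟩ := Finset.exists_max_image _ (fun a => liO (dA r a)) hne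
  rw [Finset.mem_filter] at ha
  have h1 : coeff (dA r a) (∑ a ∈ s, c a • mon r a) = 0 := by rw [h0, coeff_zero]
  rw [coeff_sum, Finset.sum_eq_single a] at h1
  · rw [coeff_smul, (li_mon a (hs a ha.1)).1, smul_eq_mul, mul_one] at h1
    exact ha.2 h1
  · intro a' ha' hne'
    rw [coeff_smul, smul_eq_mul]
    by_contra h2
    have h3 := (li_mon a' (hs a' ha')).2 (dA r a) (right_ne_zero_of_mul h2)
    rcases h3 with h3 | h3
    · exact absurd (hmax a' (Finset.mem_filter.2 ⟨ha', left_ne_zero_of_mul h2⟩)) (not_le.2 h3)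
    · exact hne' (hinj a' ha' a ha.1 h3.symm)
  · intro h
    exact absurd ha.1 h

end T3

end Pool.Agent.Lib.MP_a688ad_al
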