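import Pool.Agent.Lib.MP_a688ad_al.T3.SpecU

/-!
# MP_a688ad_al, T3: leading exponents of highest weight vectors (module LMt)
-/

set_option autoImplicit false

open MvPolynomial Finset

namespace Pool.Agent.Lib.MP_a688ad_al

namespace T3

open T2

/-! ### exponents -/

private noncomputable def lmtEx {K r : ℕ} (d : (Fin K × Fin r) →₀ ℕ) (γ : Fin r → ℕ) :
    (Fin (K + 1) × Fin r) →₀ ℕ :=
  Finsupp.equivFunOnFinite.symm fun p =>
    Fin.lastCases (motive := fun _ => ℕ) (γ p.2) (fun κ => d (κ, p.2)) p.1

private theorem lmtEx_cast {K r : ℕ} (d : (Fin K × Fin r) →₀ ℕ) (γ : Fin r → ℕ) (κ : Fin K)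
    (i : Fin r) : lmtEx d γ (κ.castSucc, i) = d (κ, i) := by
  unfold lmtEx
  rw [Finsupp.equivFunOnFinite_symm_apply_apply]
  exact Fin.lastCases_castSucc ..

private theorem lmtEx_last {K r : ℕ} (d : (Fin K × Fin r) →₀ ℕ) (γ : Fin r → ℕ)
    (i : Fin r) : lmtEx d γ (Fin.last K, i) = γ i := by
  unfold lmtEx
  rw [Finsupp.equivFunOnFinite_symm_apply_apply]
  exact Fin.lastCases_last ..

private theorem lmt_ext {K r : ℕ} {a b : (Fin (K + 1) × Fin r) →₀ ℕ}
    (h1 : ∀ (κ : Fin K) (i : Fin r), a (κ.castSucc, i) = b (κ.castSucc, i))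
    (h2 : ∀ i : Fin r, a (Fin.last K, i) = b (Fin.last K, i)) : a = b := by
  ext ⟨κ, i⟩
  induction κ using Fin.lastCases with
  | last => exact h2 i
  | cast κ => exact h1 κ i

/-- the restriction of an exponent to the first particles -/
private noncomputable def lmtRes {K r : ℕ} (d : (Fin (K + 1) × Fin r) →₀ ℕ) :
    (Fin K × Fin r) →₀ ℕ :=
  Finsupp.equivFunOnFinite.symm fun p => d (p.1.castSucc, p.2)

private theorem lmtRes_apply {K r : ℕ} (d : (Fin (K + 1) × Fin r) →₀ ℕ) (κ : Fin K) (i : Fin r) :
    lmtRes d (κ, i) = d (κ.castSucc, i) := by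
  unfold lmtRes
  rw [Finsupp.equivFunOnFinite_symm_apply_apply]

private theorem lmtEx_res {K r : ℕ} (d : (Fin (K + 1) × Fin r) →₀ ℕ) :
    lmtEx (lmtRes d) (fun i => d (Fin.last K, i)) = d :=
  lmt_ext (fun κ i => by rw [lmtEx_cast, lmtRes_apply]) fun i => by rw [lmtEx_last]

/-- the slices -/
private noncomputable def lmtSl {K r : ℕ} (γ : Fin r → ℕ) (f : Z (K + 1) r) : Z K r :=
  ∑ d ∈ f.support, if (∀ i, d (Fin.last K, i) = γ i) then monomial (lmtRes d) (coeff d f) else 0

private theorem lmtSl_coeff {K r : ℕ} (γ : Fin r → ℕ) (f : Z (K + 1) r)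
    (d : (Fin K × Fin r) →₀ ℕ) : coeff d (lmtSl γ f) = coeff (lmtEx d γ) f := by
  classical
  unfold lmtSl
  rw [coeff_sum]
  have h1 : ∀ d' ∈ f.support, coeff d (if (∀ i, d' (Fin.last K, i) = γ i)
      then monomial (lmtRes d') (coeff d' f) else 0) = if d' = lmtEx d γ then coeff d' f else 0 := by
    intro d' _
    by_cases h : d' = lmtEx d γ
    · have h2 : ∀ i, d' (Fin.last K, i) = γ i := fun i => by rw [h, lmtEx_last]
      have h3 : lmtRes d' = d := by
        ext ⟨κ, i⟩
        rw [lmtRes_apply, h, lmtEx_cast]
      rw [if_pos h2, if_pos h, coeff_monomial, if_pos h3]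
    · rw [if_neg h]
      by_cases h2 : ∀ i, d' (Fin.last K, i) = γ i
      · rw [if_pos h2, coeff_monomial, if_neg]
        intro h3
        apply h
        rw [← lmtEx_res d', h3]
        have : (fun i => d' (Fin.last K, i)) = γ := funext h2
        rw [this]
      · rw [if_neg h2, coeff_zero]
  rw [Finset.sum_congr rfl h1, Finset.sum_ite_eq']
  split_ifs with h
  · rfl
  · rw [notMem_support_iff] at h
    rw [h]

/-! ### the derivations on coefficients -/

private theorem lmt_exp {σ : Type} [DecidableEq σ] {i j : σ} (hij : i ≠ j) (m d : σ →₀ ℕ)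
    (c : ℂ) :
    (if m - Finsupp.single j 1 = d - Finsupp.single i 1 then c * (m j : ℂ) else 0) =
      ((d j : ℂ) + 1) * (if m = d - Finsupp.single i 1 + Finsupp.single j 1 then c else 0) := by
  classical
  by_cases h : m = d - Finsupp.single i 1 + Finsupp.single j 1
  · have h1 : m - Finsupp.single j 1 = d - Finsupp.single i 1 := by
      rw [h, add_tsub_cancel_right]
    have h2 : m j = d j + 1 := by
      rw [h, Finsupp.add_apply, Finsupp.tsub_apply, Finsupp.single_eq_same,
        Finsupp.single_apply, if_neg hij, tsub_zero]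
    rw [if_pos h1, if_pos h, h2]
    push_cast
    ring
  · rw [if_neg h, mul_zero]
    split_ifs with h1
    · have h2 : m j = 0 := by
        by_contra h3
        apply h
        rw [← h1, tsub_add_cancel_of_le]
        rw [Finsupp.single_le_iff]
        omega
      rw [h2]
      simp
    · rfl

private theorem lmt_coeff {K r : ℕ} {i j : Fin r} (hij : i ≠ j) (f : Z K r) :
    ∀ d, coeff d (DZ i j f) = ∑ κ, if 1 ≤ d (κ, i) then ((d (κ, j) : ℂ) + 1) *
      coeff (d - Finsupp.single (κ, i) 1 + Finsupp.single (κ, j) 1) f else 0 := by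
  classical
  induction f using MvPolynomial.induction_on' with
  | add p q hp hq =>
    intro d
    rw [map_add, coeff_add, hp, hq, ← Finset.sum_add_distrib]
    refine Finset.sum_congr rfl fun κ _ => ?_
    split_ifs
    · rw [coeff_add, mul_add]
    · rw [add_zero]
  | monomial m c =>
    intro d
    unfold DZ
    rw [mkDerivation_monomial, coeff_smul, Finsupp.sum_fintype _ _ (by intro p; simp),
      Fintype.sum_prod_type, coeff_sum, Finset.smul_sum]
    refine Finset.sum_congr rfl fun κ _ => ?_
    have h1 : ∑ l, monomial (m - Finsupp.single (κ, l) 1) ((m (κ, l) : ℕ) : ℂ) •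
        (if l = j then (X (κ, i) : Z K r) else 0) =
        monomial (m - Finsupp.single (κ, j) 1) ((m (κ, j) : ℕ) : ℂ) * X (κ, i) := by
      rw [Finset.sum_eq_single j]
      · rw [if_pos rfl, smul_eq_mul]
      · intro l _ hl
        rw [if_neg hl, smul_zero]
      · intro h
        exact (h (Finset.mem_univ _)).elim
    rw [h1, coeff_mul_X']
    by_cases hd : 1 ≤ d (κ, i)
    · have hm : (κ, i) ∈ d.support := by
        rw [Finsupp.mem_support_iff]
        omega
      have hne : ((κ, i) : Fin K × Fin r) ≠ (κ, j) := fun h => hij (Prod.ext_iff.mp h).2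
      rw [if_pos hm, if_pos hd, coeff_monomial, coeff_monomial, ← lmt_exp hne m d c]
      split_ifs
      · rfl
      · rw [smul_zero]
    · have hm : (κ, i) ∉ d.support := by
        rw [Finsupp.mem_support_iff]
        omega
      rw [if_neg hm, if_neg hd, smul_zero]

private theorem lmt_star {K r : ℕ} {i j : Fin r} (hij : i ≠ j) (f : Z (K + 1) r)
    (hf : DZ i j f = 0) (γ : Fin r → ℕ) :
    DZ i j (lmtSl γ f) = if 1 ≤ γ i then -((γ j : ℂ) + 1) •
      lmtSl (Function.update (Function.update γ i (γ i - 1)) j (γ j + 1)) f else 0 := by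
  classical
  ext d
  have h := lmt_coeff hij f (lmtEx d γ)
  rw [hf, coeff_zero, Fin.sum_univ_castSucc] at h
  rw [lmt_coeff hij]
  have h1 : ∀ κ : Fin K, (if 1 ≤ lmtEx d γ (κ.castSucc, i) then
      ((lmtEx d γ (κ.castSucc, j) : ℂ) + 1) * coeff (lmtEx d γ -
        Finsupp.single (κ.castSucc, i) 1 + Finsupp.single (κ.castSucc, j) 1) f else 0) =
      if 1 ≤ d (κ, i) then ((d (κ, j) : ℂ) + 1) *
        coeff (d - Finsupp.single (κ, i) 1 + Finsupp.single (κ, j) 1) (lmtSl γ f) else 0 := by
    intro κ
    rw [lmtEx_cast, lmtEx_cast]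
    have h2 : lmtEx d γ - Finsupp.single (κ.castSucc, i) 1 + Finsupp.single (κ.castSucc, j) 1 =
        lmtEx (d - Finsupp.single (κ, i) 1 + Finsupp.single (κ, j) 1) γ := by
      refine lmt_ext (fun κ' l => ?_) fun l => ?_
      · rw [lmtEx_cast]
        simp only [Finsupp.add_apply, Finsupp.tsub_apply, lmtEx_cast, Finsupp.single_apply,
          Prod.mk.injEq, Fin.castSucc_inj]
      · rw [lmtEx_last]
        simp only [Finsupp.add_apply, Finsupp.tsub_apply, lmtEx_last, Finsupp.single_apply,
          Prod.mk.injEq, (Fin.castSucc_lt_last κ).ne, false_and, if_false, tsub_zero, add_zero]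
    rw [h2, lmtSl_coeff]
  rw [Finset.sum_congr rfl fun κ _ => h1 κ, lmtEx_last, lmtEx_last] at h
  have h3 : lmtEx d γ - Finsupp.single (Fin.last K, i) 1 + Finsupp.single (Fin.last K, j) 1 =
      lmtEx d (Function.update (Function.update γ i (γ i - 1)) j (γ j + 1)) := by
    refine lmt_ext (fun κ' l => ?_) fun l => ?_
    · rw [lmtEx_cast]
      simp only [Finsupp.add_apply, Finsupp.tsub_apply, lmtEx_cast, Finsupp.single_apply,
        Prod.mk.injEq, (Fin.castSucc_lt_last κ').ne', false_and, if_false, tsub_zero, add_zero]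
    · rw [lmtEx_last]
      simp only [Finsupp.add_apply, Finsupp.tsub_apply, lmtEx_last, Finsupp.single_apply,
        Prod.mk.injEq, true_and]
      by_cases hlj : j = l
      · subst hlj
        rw [Function.update_self, if_neg hij, if_pos rfl, tsub_zero]
      · rw [Function.update_of_ne (Ne.symm hlj), if_neg hlj]
        by_cases hli : i = l
        · subst hli
          rw [Function.update_self, if_pos rfl, add_zero]
        · rw [Function.update_of_ne (Ne.symm hli), if_neg hli, tsub_zero, add_zero]
  rw [h3] at h
  by_cases hγ : 1 ≤ γ i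
  · rw [if_pos hγ] at h ⊢
    rw [coeff_smul, lmtSl_coeff, smul_eq_mul]
    linear_combination -h
  · rw [if_neg hγ] at h ⊢
    rw [coeff_zero]
    rw [add_zero] at h
    exact h.symm

/-! ### weights -/

private theorem lmt_weight {K r : ℕ} (d : (Fin K × Fin r) →₀ ℕ) (i : Fin r) :
    (Finsupp.weight (fun p : Fin K × Fin r => (sg p.2 : Fin r → ℤ)) d) i =
      ∑ κ, (d (κ, i) : ℤ) := by
  classical
  rw [Finsupp.weight_apply, Finsupp.sum_fintype _ _ (by intro p; simp), Fintype.sum_prod_type,
    Finset.sum_apply]
  refine Finset.sum_congr rfl fun κ _ => ?_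
  rw [Finset.sum_apply, Finset.sum_eq_single i]
  · simp [sg]
  · intro l _ hl
    simp [sg, hl.symm]
  · intro h
    exact (h (Finset.mem_univ _)).elim

private theorem lmtSl_hom {K r : ℕ} {lam : Fin r → ℤ} {f : Z (K + 1) r}
    (hf : IsWeightedHomogeneous (fun p => sg p.2) f lam) (γ : Fin r → ℕ) :
    IsWeightedHomogeneous (fun p => sg p.2) (lmtSl γ f) (fun i => lam i - γ i) := by
  intro d hd
  rw [lmtSl_coeff] at hd
  have h1 := hf hd
  funext i
  have h2 := congrFun h1 i
  rw [lmt_weight, Fin.sum_univ_castSucc, lmtEx_last] at h2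
  simp only [lmtEx_cast] at h2
  rw [lmt_weight]
  linarith

/-- **U1.**  Leading exponents of highest weight vectors. -/
theorem kLMt (h : StrStmt) : LMtStmt := by
  classical
  intro K
  induction K with
  | zero =>
    intro r lam f hf _ _
    obtain ⟨d, hd⟩ := MvPolynomial.ne_zero_iff.mp hf
    refine ⟨d, ?_, hd⟩
    intro κ
    exact Fin.elim0 κ
  | succ K ih =>
    intro r lam f hf hw hk
    have hne : f.support.Nonempty := by
      rw [Finset.nonempty_iff_ne_empty]
      exact fun h0 => hf (support_eq_empty.mp h0)
    obtain ⟨d₀, hd₀, hmax⟩ := Finset.exists_max_image f.support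
      (fun d => ∑ i : Fin r, (i : ℕ) * d (Fin.last K, i)) hne
    obtain ⟨γ, hγ⟩ : ∃ γ : Fin r → ℕ, γ = fun i => d₀ (Fin.last K, i) := ⟨_, rfl⟩
    -- slices with larger sum vanish
    have hvan : ∀ γ' : Fin r → ℕ, ∑ i : Fin r, (i : ℕ) * γ i < ∑ i : Fin r, (i : ℕ) * γ' i →
        lmtSl γ' f = 0 := by
      intro γ' hlt
      ext d
      rw [lmtSl_coeff, coeff_zero]
      by_contra hc
      have h1 := hmax (lmtEx d γ') (mem_support_iff.mpr hc)
      simp only [lmtEx_last] at h1
      rw [hγ] at hlt
      exact absurd h1 (not_le.mpr hlt)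
    have hsl0 : lmtSl γ f ≠ 0 := by
      intro h0
      have h1 : coeff (lmtRes d₀) (lmtSl γ f) = 0 := by rw [h0, coeff_zero]
      rw [lmtSl_coeff, hγ, lmtEx_res] at h1
      exact (mem_support_iff.mp hd₀) h1
    have hkil : ∀ i j : Fin r, i < j → DZ i j (lmtSl γ f) = 0 := by
      intro i j hij
      rw [lmt_star hij.ne f (hk i j hij) γ]
      split_ifs with h1
      · rw [hvan, smul_zero]
        have e1 : ∀ l : Fin r, l ≠ i → l ≠ j →
            (l : ℕ) * Function.update (Function.update γ i (γ i - 1)) j (γ j + 1) l =
              (l : ℕ) * γ l := fun l hi hj => by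
          rw [Function.update_of_ne hj, Function.update_of_ne hi]
        have e2 : ∀ g : Fin r → ℕ, ∑ l, g l = g i + (g j + ∑ l ∈ (univ.erase i).erase j, g l) := by
          intro g
          rw [Finset.add_sum_erase _ _ (Finset.mem_erase.mpr ⟨hij.ne', Finset.mem_univ _⟩),
            Finset.add_sum_erase _ _ (Finset.mem_univ _)]
        rw [e2, e2 fun l => (l : ℕ) * Function.update (Function.update γ i (γ i - 1)) j (γ j + 1) l]
        have e3 : ∑ l ∈ (univ.erase i).erase j,
            (l : ℕ) * Function.update (Function.update γ i (γ i - 1)) j (γ j + 1) l =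
            ∑ l ∈ (univ.erase i).erase j, (l : ℕ) * γ l := by
          refine Finset.sum_congr rfl fun l hl => ?_
          rw [Finset.mem_erase, Finset.mem_erase] at hl
          exact e1 l hl.2.1 hl.1
        rw [e3, Function.update_self, Function.update_of_ne hij.ne, Function.update_self]
        have hij' : (i : ℕ) < (j : ℕ) := hij
        obtain ⟨g, hg⟩ : ∃ g, γ i = g + 1 := ⟨γ i - 1, by omega⟩
        rw [hg, Nat.add_sub_cancel]
        nlinarith
      · rfl
    obtain ⟨A', hA', hc'⟩ := ih r _ _ hsl0 (lmtSl_hom hw γ) hkil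
    have hwt : ∀ i, ∑ κ, (A' (κ, i) : ℤ) = lam i - γ i := by
      intro i
      have h1 := lmtSl_hom hw γ hc'
      have h2 := congrFun h1 i
      rwa [lmt_weight] at h2
    refine ⟨lmtEx A' γ, ?_, ?_⟩
    · intro κ i i' hi
      have hii : i < i' := by
        rw [Fin.lt_def]
        omega
      rw [Finset.sum_filter, Finset.sum_filter, Fin.sum_univ_castSucc, Fin.sum_univ_castSucc]
      simp only [lmtEx_cast, lmtEx_last]
      induction κ using Fin.lastCases with
      | cast κ =>
        have h1 : ¬ Fin.last K ≤ κ.castSucc := not_le.mpr (Fin.castSucc_lt_last κ)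
        have h2 : ¬ Fin.last K < κ.castSucc := not_lt.mpr (Fin.castSucc_lt_last κ).le
        rw [if_neg h1, if_neg h2, add_zero, add_zero]
        simp only [Fin.castSucc_le_castSucc_iff, Fin.castSucc_lt_castSucc_iff]
        rw [← Finset.sum_filter, ← Finset.sum_filter]
        exact hA' κ i i' hi
      | last =>
        rw [if_pos le_rfl, if_neg (lt_irrefl _), add_zero]
        have h1 : ∀ κ' : Fin K, (if κ'.castSucc ≤ Fin.last K then A' (κ', i') else 0) = A' (κ', i') :=
          fun κ' => if_pos (Fin.castSucc_lt_last κ').le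
        have h2 : ∀ κ' : Fin K, (if κ'.castSucc < Fin.last K then A' (κ', i) else 0) = A' (κ', i) :=
          fun κ' => if_pos (Fin.castSucc_lt_last κ')
        rw [Finset.sum_congr rfl fun κ' _ => h1 κ', Finset.sum_congr rfl fun κ' _ => h2 κ']
        -- the string
        obtain ⟨p, hp⟩ : ∃ p, p = γ i' := ⟨_, rfl⟩
        have hstr : ∀ t, t ≤ p → (DZ i i')^[t] (lmtSl (Function.update (Function.update γ i
            (γ i + p)) i' 0) f) = ((-1) ^ t * (t.factorial : ℂ)) •
            lmtSl (Function.update (Function.update γ i (γ i + (p - t))) i' t) f := by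
          intro t
          induction t with
          | zero =>
            intro _
            simp
          | succ t iht =>
            intro ht
            rw [Function.iterate_succ_apply', iht (by omega), Derivation.map_smul,
              lmt_star hii.ne f (hk i i' hii)]
            have e1 : Function.update (Function.update γ i (γ i + (p - t))) i' t i =
                γ i + (p - t) := by
              rw [Function.update_of_ne hii.ne, Function.update_self]
            have e2 : Function.update (Function.update γ i (γ i + (p - t))) i' t i' = t :=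
              Function.update_self ..
            rw [e1, e2, if_pos (by omega)]
            have e3 : Function.update (Function.update (Function.update (Function.update γ i
                (γ i + (p - t))) i' t) i (γ i + (p - t) - 1)) i' (t + 1) =
                Function.update (Function.update γ i (γ i + (p - (t + 1)))) i' (t + 1) := by
              funext l
              by_cases hl : l = i'
              · subst hl
                rw [Function.update_self, Function.update_self]
              · rw [Function.update_of_ne hl, Function.update_of_ne hl]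
                by_cases hl2 : l = i
                · subst hl2
                  rw [Function.update_self, Function.update_self]
                  omega
                · rw [Function.update_of_ne hl2, Function.update_of_ne hl,
                    Function.update_of_ne hl2, Function.update_of_ne hl2]
            rw [e3, smul_smul, Nat.factorial_succ]
            congr 1
            push_cast
            ring
        have h3 := hstr p le_rfl
        have e4 : Function.update (Function.update γ i (γ i + (p - p))) i' p = γ := by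
          rw [tsub_self, add_zero, Function.update_eq_self, hp, Function.update_eq_self]
        rw [e4] at h3
        have hc0 : ((-1) ^ p * (p.factorial : ℂ)) ≠ 0 :=
          mul_ne_zero (pow_ne_zero _ (by norm_num)) (Nat.cast_ne_zero.mpr (Nat.factorial_ne_zero p))
        have h4 := h K r i i' hii.ne p (fun i => lam i - γ i) _ _ ?_ h3 ?_ ?_
        · have h5 : ((∑ κ, A' (κ, i') + γ i' : ℕ) : ℤ) ≤ ((∑ κ, A' (κ, i) : ℕ) : ℤ) := by
            push_cast
            rw [hwt, hwt, ← hp]
            linarith
          exact_mod_cast h5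
        · have h6 := lmtSl_hom hw γ
          rw [← mem_weightedHomogeneousSubmodule] at h6 ⊢
          exact Submodule.smul_mem _ _ h6
        · rw [Derivation.map_smul, hkil i i' hii, smul_zero]
        · exact smul_ne_zero hc0 hsl0
    · rw [← lmtSl_coeff]
      exact hc'

end T3

end Pool.Agent.Lib.MP_a688ad_al
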