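import Pool.Agent.Lib.MP_a688ad_al.T3.SpecL
import Pool.Agent.Lib.MP_a688ad_al.T2.Cs

/-!
# MP_a688ad_al, T3, Lft: lifting by the Casimir operator
-/

set_option autoImplicit false

open MvPolynomial Finset

namespace Pool.Agent.Lib.MP_a688ad_al

namespace T3

open T2

theorem kLft (h1 : EvEStmt) (h2 : GEStmt) : LftStmt := by
  intro r k n lam P hanti hsum hP hinv
  obtain ⟨S, hSd, hSE, hSG⟩ := h2 r k ((k + 1) * n)
  obtain ⟨hE, _, hW⟩ := h1 r k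
  have hN : ∀ X ∈ (Gl r k n).G lam, (Gl r k n).Cas X ∈ (Gl r k n).G lam :=
    fun X hX => (Gl r k n).Cas_mem hX
  let f : (Gl r k n).G lam →ₗ[ℂ] (Gl r k n).G lam := (Gl r k n).Cas.restrict hN
  let g : Ex r k →ₗ[ℂ] Ex r k := S.Cas
  let φ : (Gl r k n).G lam →ₗ[ℂ] Ex r k :=
    (Ev (r := r) (k := k)).toLinearMap.domRestrict ((Gl r k n).G lam)
  have hφ : ∀ x, φ (f x) = g (φ x) := by
    intro x
    show Ev ((Gl r k n).Cas x.1) = S.Cas (Ev x.1)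
    rw [GlFam.Cas_apply, GlFam.Cas_apply, map_sum]
    refine Finset.sum_congr rfl fun i _ => ?_
    rw [map_sum]
    refine Finset.sum_congr rfl fun j _ => ?_
    rw [hSE, hSE, ← hE, ← hE]
    rfl
  have hmem : Ev P ∈ S.G lam := by
    rw [hSG]
    refine ⟨hW lam n P ((mem_weightedHomogeneousSubmodule _ _ _ _).1 hP), Or.inr ?_⟩
    exact_mod_cast hsum
  have hcas : g (φ ⟨P, hP⟩) = ((GlFam.cval lam : ℤ) : ℂ) • φ ⟨P, hP⟩ := by
    show S.Cas (Ev P) = ((GlFam.cval lam : ℤ) : ℂ) • Ev P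
    exact S.Cas_hw hmem fun i j hij => by rw [hSE]; exact hinv i j hij
  obtain ⟨x, hx, hx'⟩ := cs_lift f g φ hφ ((GlFam.cval lam : ℤ) : ℂ) ⟨P, hP⟩ hcas
  refine ⟨x.1, ?_, hx'⟩
  have e := Module.End.genEigenspace_restrict (Gl r k n).Cas ((Gl r k n).G lam) ⊤
    ((GlFam.cval lam : ℤ) : ℂ) hN
  have hx2 : x ∈ Submodule.comap ((Gl r k n).G lam).subtype
      (Module.End.maxGenEigenspace (Gl r k n).Cas ((GlFam.cval lam : ℤ) : ℂ)) := by
    rw [← show Module.End.maxGenEigenspace f ((GlFam.cval lam : ℤ) : ℂ) = _ from e]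
    exact hx
  rw [(Gl r k n).HW_eq hanti hsum]
  exact ⟨x.2, hx2⟩

end T3

end Pool.Agent.Lib.MP_a688ad_al
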