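import Pool.Agent.Lib.MP_a688ad_al.T3.SpecB

/-!
# MP_a688ad_al, all large `n`: B7, all charts
-/

set_option autoImplicit false

open MvPolynomial Finset

namespace Pool.Agent.Lib.MP_a688ad_al

namespace T3

open T2

/-- A linear substitution of the coordinates. -/
private noncomputable def loc_phi {K r : ℕ} (g : Fin r → Fin r → ℂ) : Z K r →ₐ[ℂ] Z K r :=
  aeval fun p => ∑ j, C (g p.2 j) * X (p.1, j)

private theorem loc_phi_X {K r : ℕ} (g : Fin r → Fin r → ℂ) (κ : Fin K) (i : Fin r) :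
    loc_phi g (X (κ, i)) = ∑ j, C (g i j) * X (κ, j) := by
  unfold loc_phi
  rw [aeval_X]

private theorem loc_Cn {K r : ℕ} (g : Fin r → Fin r → ℂ) {c : ℕ} {f : Z K r} (h : Cn c f) :
    Cn c (loc_phi g f) := by
  refine IsWeightedHomogeneous.induction_on
    (motive := fun f _ => Cn c (loc_phi g f)) ?_ ?_ ?_ h
  · show Cn c (loc_phi g (0 : Z K r))
    rw [map_zero]
    exact isWeightedHomogeneous_zero _ _ _
  · intro p q _ _ hp hq
    show Cn c (loc_phi g (p + q))
    rw [map_add]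
    exact IsWeightedHomogeneous.add hp hq
  · intro d a hd
    show Cn c (loc_phi g (monomial d a))
    unfold loc_phi
    rw [aeval_monomial]
    refine IsWeightedHomogeneous.C_mul ?_ a
    rw [← hd, Finsupp.weight_apply, Finsupp.prod, Finsupp.sum]
    refine IsWeightedHomogeneous.prod _ _ _ fun p _ => ?_
    refine IsWeightedHomogeneous.pow ?_ _
    refine IsWeightedHomogeneous.sum _ _ _ fun j _ => ?_
    exact (isWeightedHomogeneous_X ℂ (fun p : Fin K × Fin r => (sg p.1 : Fin K → ℤ)) (p.1, j)).C_mul _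

private theorem loc_rz {K r : ℕ} (g : Fin r → Fin r → ℂ) (σ : Equiv.Perm (Fin K)) (f : Z K r) :
    rz σ (loc_phi g f) = loc_phi g (rz σ f) := by
  have h : ((rz σ).comp (loc_phi g) : Z K r →ₐ[ℂ] Z K r) = (loc_phi g).comp (rz σ) := by
    apply MvPolynomial.algHom_ext
    rintro ⟨κ, i⟩
    rw [AlgHom.comp_apply, AlgHom.comp_apply, loc_phi_X, map_sum]
    have h1 : rz σ (X (κ, i) : Z K r) = X (σ κ, i) := by
      unfold rz
      rw [rename_X]
      rfl
    rw [h1, loc_phi_X]
    refine Finset.sum_congr rfl fun j _ => ?_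
    rw [map_mul]
    unfold rz
    rw [rename_C, rename_X]
    rfl
  exact congrArg (fun φ : Z K r →ₐ[ℂ] Z K r => φ f) h

private theorem loc_Sy {K r : ℕ} (g : Fin r → Fin r → ℂ) {f : Z K r} (h : Sy f) :
    Sy (loc_phi g f) := fun σ => by rw [loc_rz, h σ]

private theorem loc_inv {K r : ℕ} (g g' : Fin r → Fin r → ℂ)
    (h : ∀ i k, ∑ j, g' i j * g j k = if i = k then 1 else 0) (f : Z K r) :
    loc_phi g (loc_phi g' f) = f := by
  have h1 : ((loc_phi g).comp (loc_phi g') : Z K r →ₐ[ℂ] Z K r) = AlgHom.id ℂ _ := by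
    apply MvPolynomial.algHom_ext
    rintro ⟨κ, i⟩
    rw [AlgHom.comp_apply, loc_phi_X, map_sum, AlgHom.id_apply]
    have h2 : ∀ j, loc_phi g (C (g' i j) * X (κ, j) : Z K r)
        = ∑ k, C (g' i j * g j k) * X (κ, k) := by
      intro j
      rw [map_mul, loc_phi_X, Finset.mul_sum]
      refine Finset.sum_congr rfl fun k _ => ?_
      have h3 : loc_phi g (C (g' i j) : Z K r) = C (g' i j) := by
        unfold loc_phi
        exact aeval_C _ _
      rw [h3, ← mul_assoc, ← C_mul]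
    rw [Finset.sum_congr rfl fun j _ => h2 j, Finset.sum_comm]
    have h4 : ∀ k, ∑ j, (C (g' i j * g j k) * X (κ, k) : Z K r)
        = if i = k then X (κ, k) else 0 := by
      intro k
      rw [← Finset.sum_mul, ← map_sum, h i k]
      split_ifs <;> simp
    rw [Finset.sum_congr rfl fun k _ => h4 k, Finset.sum_ite_eq]
    simp
  exact congrArg (fun φ : Z K r →ₐ[ℂ] Z K r => φ f) h1

private theorem loc_el (h1 : ElStmt) {k r : ℕ} (g : Fin r → Fin r → ℂ) (p : Ib r k) :
    ∃ L : MvPolynomial (Ib r k) ℂ, L.IsHomogeneous 1 ∧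
      loc_phi g (el p : Z (k + 1) r) = aeval (fun p => (el p : Z (k + 1) r)) L := by
  obtain ⟨τ, hτ⟩ : ∃ τ : Fin (k + 1) → Fin r, (τ 0, sy fun a => τ a.succ) = p := by
    obtain ⟨u, s⟩ := p
    obtain ⟨t, rfl⟩ := sy_surj s
    exact ⟨Fin.cons u t, by simp only [Fin.cons_zero, Fin.cons_succ]⟩
  have hel := (h1 k r).1
  refine ⟨∑ τ' : Fin (k + 1) → Fin r, C (∏ κ, g (τ κ) (τ' κ)) * X (τ' 0, sy fun a => τ' a.succ),
    ?_, ?_⟩
  · refine IsHomogeneous.sum _ _ _ fun τ' _ => ?_
    exact (isHomogeneous_X _ _).C_mul _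
  · rw [← hτ, hel τ, map_sum, map_sum]
    have h2 : ∀ σ : Equiv.Perm (Fin (k + 1)), loc_phi g (∏ κ, X (σ κ, τ κ) : Z (k + 1) r)
        = ∑ τ' : Fin (k + 1) → Fin r, C (∏ κ, g (τ κ) (τ' κ)) * ∏ κ, X (σ κ, τ' κ) := by
      intro σ
      rw [map_prod]
      simp only [loc_phi_X]
      rw [Finset.prod_univ_sum, Fintype.piFinset_univ]
      refine Finset.sum_congr rfl fun τ' _ => ?_
      rw [Finset.prod_mul_distrib, map_prod]
    rw [Finset.sum_congr rfl fun σ _ => h2 σ, Finset.sum_comm]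
    refine Finset.sum_congr rfl fun τ' _ => ?_
    rw [map_mul, aeval_X, hel τ', ← Finset.mul_sum]
    congr 1
    exact (aeval_C _ _).symm

private theorem loc_PE (h1 : ElStmt) {k r : ℕ} (g : Fin r → Fin r → ℂ) {c : ℕ}
    {f : Z (k + 1) r} (h : PE c f) : PE c (loc_phi g f) := by
  obtain ⟨P, hP, rfl⟩ := h
  choose L hL1 hL2 using loc_el h1 (k := k) g
  refine ⟨aeval L P, ?_, ?_⟩
  · have := hP.aeval L hL1
    rwa [one_mul] at this
  · have e1 : aeval (fun p => (el p : Z (k + 1) r)) (aeval L P)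
        = aeval (fun p => aeval (fun p => (el p : Z (k + 1) r)) (L p)) P := by
      rw [← AlgHom.comp_apply, comp_aeval]
    have e2 : loc_phi g (aeval (fun p => (el p : Z (k + 1) r)) P)
        = aeval (fun p => loc_phi g (el p : Z (k + 1) r)) P := by
      rw [← AlgHom.comp_apply, comp_aeval]
    rw [e1, e2]
    congr 2
    funext p
    exact (hL2 p).symm

theorem kLoc (h1 : ElStmt) (h2 : Loc0Stmt) : LocStmt := by
  intro k r c l f hl hc hs
  obtain ⟨s, rfl⟩ : ∃ s, r = s + 1 := by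
    rcases r with _ | s
    · exact absurd (funext fun i => i.elim0) hl
    · exact ⟨s, rfl⟩
  have he : (Pi.single 0 1 : Fin (s + 1) → ℂ) ≠ 0 := fun h => by
    have := congrFun h 0
    simp at this
  obtain ⟨A, hA⟩ := SeparatingDual.exists_continuousLinearEquiv_apply_eq (R := ℂ) he hl
  -- the matrices
  let g : Fin (s + 1) → Fin (s + 1) → ℂ := fun i j => A (Pi.single i 1) j
  let g' : Fin (s + 1) → Fin (s + 1) → ℂ := fun i j => A.symm (Pi.single i 1) j
  have hbas : ∀ v : Fin (s + 1) → ℂ, v = ∑ j, v j • (Pi.single j 1 : Fin (s + 1) → ℂ) := by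
    intro v
    funext i
    simp [Finset.sum_apply, Pi.single_apply]
  have hgg' : ∀ i k, ∑ j, g' i j * g j k = if i = k then 1 else 0 := by
    intro i k
    have e1 := hbas (A.symm (Pi.single i 1))
    have e2 := congrArg A e1
    rw [map_sum, ContinuousLinearEquiv.apply_symm_apply] at e2
    have e3 := congrFun e2 k
    rw [Finset.sum_apply] at e3
    simp only [map_smul, Pi.smul_apply, smul_eq_mul] at e3
    change ∑ j, A.symm (Pi.single i 1) j * A (Pi.single j 1) k = _
    rw [← e3, Pi.single_apply]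
    simp only [eq_comm]
  have hul : loc_phi g (ul (Pi.single 0 1) : Z (k + 1) (s + 1)) = ul l := by
    unfold ul
    rw [map_prod]
    refine Finset.prod_congr rfl fun κ _ => ?_
    have e1 : (∑ i, C ((Pi.single 0 1 : Fin (s + 1) → ℂ) i) * X (κ, i) : Z (k + 1) (s + 1))
        = X (κ, 0) := by
      rw [Finset.sum_eq_single 0]
      · simp
      · intro b _ hb
        rw [Pi.single_apply, if_neg hb, C_0, zero_mul]
      · intro h
        exact absurd (Finset.mem_univ _) h
    rw [e1, loc_phi_X]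
    refine Finset.sum_congr rfl fun j _ => ?_
    change C (A (Pi.single 0 1) j) * _ = _
    rw [hA]
  obtain ⟨N, hN⟩ := h2 k s c (loc_phi g' f) (loc_Cn g' hc) (loc_Sy g' hs)
  refine ⟨N, ?_⟩
  have h3 := loc_PE h1 g hN
  rwa [map_mul, map_pow, hul, loc_inv g g' hgg'] at h3

end T3

end Pool.Agent.Lib.MP_a688ad_al
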