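import Pool.Agent.Lib.MP_a688ad_al.T3.SpecB

/-!
# MP_a688ad_al, all large `n`: the affine chart
-/

set_option autoImplicit false

open MvPolynomial Finset

namespace Pool.Agent.Lib.MP_a688ad_al

namespace T3

open T2

/-! ## The chart -/

private noncomputable def loc0D (K s : ℕ) : Z K (s + 1) →ₐ[ℂ] Z K s :=
  aeval fun p => (Fin.cases 1 (fun i => X (p.1, i)) p.2 : Z K s)

private theorem loc0D_zero {K s : ℕ} (κ : Fin K) : loc0D K s (X (κ, 0)) = 1 := by
  unfold loc0D
  rw [aeval_X]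
  rfl

private theorem loc0D_succ {K s : ℕ} (κ : Fin K) (i : Fin s) :
    loc0D K s (X (κ, i.succ)) = X (κ, i) := by
  unfold loc0D
  rw [aeval_X]
  rfl

private theorem loc0_rz {K r : ℕ} (σ : Equiv.Perm (Fin K)) (κ : Fin K) (i : Fin r) :
    rz σ (X (κ, i) : Z K r) = X (σ κ, i) := by
  unfold rz
  rw [rename_X]
  rfl

private theorem loc0D_rz {K s : ℕ} (σ : Equiv.Perm (Fin K)) (f : Z K (s + 1)) :
    loc0D K s (rz σ f) = rz σ (loc0D K s f) := by
  have h : (loc0D K s).comp (rz σ) = (rz σ).comp (loc0D K s) := by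
    apply MvPolynomial.algHom_ext
    rintro ⟨κ, i⟩
    refine Fin.cases ?_ (fun j => ?_) i
    · rw [AlgHom.comp_apply, AlgHom.comp_apply, loc0_rz, loc0D_zero, loc0D_zero, map_one]
    · rw [AlgHom.comp_apply, AlgHom.comp_apply, loc0_rz, loc0D_succ, loc0D_succ, loc0_rz]
  exact DFunLike.congr_fun h f

private theorem loc0_weight {K r : ℕ} (d : (Fin K × Fin r) →₀ ℕ) (κ : Fin K) :
    (Finsupp.weight (fun p : Fin K × Fin r => (sg p.1 : Fin K → ℤ)) d) κ =
      ((∑ i, d (κ, i) : ℕ) : ℤ) := by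
  rw [Finsupp.weight_apply, Finsupp.sum_fintype _ _ (fun i => by simp), Finset.sum_apply,
    Fintype.sum_prod_type, Finset.sum_eq_single κ]
  · push_cast
    refine Finset.sum_congr rfl fun i _ => ?_
    simp [sg]
  · intro b _ hb
    refine Finset.sum_eq_zero fun i _ => ?_
    simp [sg, hb.symm]
  · intro h
    exact absurd (Finset.mem_univ κ) h

private noncomputable def loc0R {K s : ℕ} (d : (Fin K × Fin (s + 1)) →₀ ℕ) :
    (Fin K × Fin s) →₀ ℕ :=
  Finsupp.equivFunOnFinite.symm fun p => d (p.1, p.2.succ)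

private theorem loc0R_apply {K s : ℕ} (d : (Fin K × Fin (s + 1)) →₀ ℕ) (κ : Fin K) (i : Fin s) :
    loc0R d (κ, i) = d (κ, i.succ) := rfl

private theorem loc0D_monomial {K s : ℕ} (d : (Fin K × Fin (s + 1)) →₀ ℕ) (a : ℂ) :
    loc0D K s (monomial d a) = monomial (loc0R d) a := by
  unfold loc0D
  rw [aeval_monomial, Finsupp.prod_fintype _ _ (fun i => pow_zero _), Fintype.prod_prod_type,
    monomial_eq, Finsupp.prod_fintype _ _ (fun i => pow_zero _), Fintype.prod_prod_type]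
  refine congrArg₂ (· * ·) rfl (Finset.prod_congr rfl fun κ _ => ?_)
  rw [Fin.prod_univ_succ]
  show (1 : Z K s) ^ d (κ, 0) * _ = _
  rw [one_pow, one_mul]
  rfl

private theorem loc0_inj {K s c : ℕ} (F : Z K (s + 1)) (hF : Cn c F) (h0 : loc0D K s F = 0) :
    F = 0 := by
  classical
  by_contra hne
  obtain ⟨d₀, hd₀⟩ := ne_zero_iff.1 hne
  have hw : ∀ d ∈ F.support, ∀ κ, ∑ i, d (κ, i) = c := by
    intro d hd κ
    have h1 := hF (mem_support_iff.1 hd)
    have h2 := congrFun h1 κ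
    rw [loc0_weight] at h2
    exact_mod_cast h2
  have hinj : ∀ d ∈ F.support, loc0R d = loc0R d₀ → d = d₀ := by
    intro d hd h
    ext ⟨κ, i⟩
    have hs : ∀ j : Fin s, d (κ, j.succ) = d₀ (κ, j.succ) := fun j => by
      rw [← loc0R_apply, h, loc0R_apply]
    refine Fin.cases ?_ (fun j => hs j) i
    have h1 := hw d hd κ
    have h2 := hw d₀ (mem_support_iff.2 hd₀) κ
    rw [Fin.sum_univ_succ] at h1 h2
    have h3 : ∑ j : Fin s, d (κ, j.succ) = ∑ j : Fin s, d₀ (κ, j.succ) :=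
      Finset.sum_congr rfl fun j _ => hs j
    omega
  have h1 : loc0D K s F = ∑ d ∈ F.support, monomial (loc0R d) (coeff d F) := by
    conv_lhs => rw [F.as_sum]
    rw [map_sum]
    exact Finset.sum_congr rfl fun d _ => loc0D_monomial d _
  have h2 : coeff (loc0R d₀) (loc0D K s F) = coeff d₀ F := by
    rw [h1, coeff_sum, Finset.sum_eq_single d₀]
    · rw [coeff_monomial, if_pos rfl]
    · intro d hd hdd
      rw [coeff_monomial, if_neg fun h => hdd (hinj d hd h)]
    · intro h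
      exact absurd (mem_support_iff.2 hd₀) h
  rw [h0, coeff_zero] at h2
  exact hd₀ h2.symm

/-! ## Contents -/

private theorem Cn_sub {K r c : ℕ} {f g : Z K r} (hf : Cn c f) (hg : Cn c g) : Cn c (f - g) := by
  unfold Cn at *
  rw [← mem_weightedHomogeneousSubmodule ℂ] at *
  exact Submodule.sub_mem _ hf hg

private theorem Cn_mul {K r c c' : ℕ} {f g : Z K r} (hf : Cn c f) (hg : Cn c' g) :
    Cn (c + c') (f * g) := by
  unfold Cn at *
  have h := hf.mul hg
  have e : ((fun _ => (c : ℤ)) + fun _ => (c' : ℤ) : Fin K → ℤ) = fun _ => ((c + c' : ℕ) : ℤ) := by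
    funext κ
    rw [Pi.add_apply]
    push_cast
    rfl
  rwa [e] at h

private theorem Cn_one {K r : ℕ} : Cn 0 (1 : Z K r) := by
  unfold Cn
  have h := isWeightedHomogeneous_one ℂ (fun p : Fin K × Fin r => (sg p.1 : Fin K → ℤ))
  have e : (0 : Fin K → ℤ) = fun _ => ((0 : ℕ) : ℤ) := by
    funext κ
    simp
  rwa [e] at h

private theorem Cn_pow {K r c : ℕ} {f : Z K r} (hf : Cn c f) (N : ℕ) : Cn (N * c) (f ^ N) := by
  induction N with
  | zero =>
    rw [pow_zero, Nat.zero_mul]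
    exact Cn_one
  | succ N ih =>
    rw [pow_succ, Nat.succ_mul]
    exact Cn_mul ih hf

private theorem Cn_aeval {K r M : ℕ} {ι : Type} (g : ι → Z K r) (hg : ∀ p, Cn 1 (g p))
    (P : MvPolynomial ι ℂ) (hP : P.IsHomogeneous M) : Cn M (aeval g P) := by
  classical
  have h0 : ∀ (s : Finset ι) (d : ι → ℕ), Cn (∑ i ∈ s, d i) (∏ i ∈ s, g i ^ d i) := by
    intro s d
    induction s using Finset.induction_on with
    | empty =>
      rw [Finset.sum_empty, Finset.prod_empty]
      exact Cn_one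
    | insert i s hi ih =>
      rw [Finset.sum_insert hi, Finset.prod_insert hi]
      have h1 := Cn_pow (hg i) (d i)
      rw [mul_one] at h1
      exact Cn_mul h1 ih
  have h1 : aeval g P = ∑ d ∈ P.support, coeff d P • d.prod fun i k => g i ^ k := by
    conv_lhs => rw [P.as_sum]
    rw [map_sum]
    refine Finset.sum_congr rfl fun d _ => ?_
    rw [aeval_monomial, Algebra.smul_def]
  rw [h1]
  unfold Cn
  rw [← mem_weightedHomogeneousSubmodule ℂ]
  refine Submodule.sum_mem _ fun d hd => Submodule.smul_mem _ _ ?_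
  rw [mem_weightedHomogeneousSubmodule]
  have h2 := h0 d.support d
  have h3 : ∑ i ∈ d.support, d i = M := by
    have h4 := hP (mem_support_iff.1 hd)
    rw [Finsupp.weight_apply] at h4
    simpa [Finsupp.sum] using h4
  rw [h3] at h2
  exact h2

/-! ## The unit -/

private theorem loc0_ul {K s : ℕ} : (ul (Pi.single 0 1) : Z K (s + 1)) = ∏ κ, X (κ, 0) := by
  unfold ul
  refine Finset.prod_congr rfl fun κ _ => ?_
  rw [Finset.sum_eq_single 0]
  · rw [Pi.single_eq_same, C_1, one_mul]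
  · intro i _ hi
    rw [Pi.single_eq_of_ne hi, C_0, zero_mul]
  · intro h
    exact absurd (Finset.mem_univ 0) h

private theorem loc0_Cn_ul {K s : ℕ} : Cn 1 (ul (Pi.single 0 1) : Z K (s + 1)) := by
  classical
  rw [loc0_ul]
  unfold Cn
  have h := IsWeightedHomogeneous.prod (Finset.univ : Finset (Fin K))
    (fun κ => (X (κ, 0) : Z K (s + 1))) (fun κ => (sg κ : Fin K → ℤ))
    (w := fun p : Fin K × Fin (s + 1) => (sg p.1 : Fin K → ℤ))
    (fun κ _ => isWeightedHomogeneous_X ℂ _ (κ, 0))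
  have e : ∑ κ : Fin K, (sg κ : Fin K → ℤ) = fun _ => ((1 : ℕ) : ℤ) := by
    funext κ
    rw [Finset.sum_apply, Finset.sum_eq_single κ]
    · simp [sg]
    · intro b _ hb
      simp [sg, hb.symm]
    · intro h
      exact absurd (Finset.mem_univ κ) h
  rwa [e] at h

private theorem loc0D_ul {K s : ℕ} : loc0D K s (ul (Pi.single 0 1)) = 1 := by
  rw [loc0_ul, map_prod]
  exact Finset.prod_eq_one fun κ _ => loc0D_zero κ

private theorem loc0D_el0 {k s : ℕ}
    (h : ∀ τ : Fin (k + 1) → Fin (s + 1), (el (τ 0, sy fun a => τ a.succ) : Z (k + 1) (s + 1))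
      = ∑ σ : Equiv.Perm (Fin (k + 1)), ∏ κ, X (σ κ, τ κ)) :
    loc0D (k + 1) s (el (0, sy fun _ => 0)) = C (((k + 1).factorial : ℕ) : ℂ) := by
  have h1 := h fun _ => 0
  rw [h1, map_sum]
  have h2 : ∀ σ : Equiv.Perm (Fin (k + 1)),
      loc0D (k + 1) s (∏ κ, X (σ κ, (0 : Fin (s + 1)))) = 1 := by
    intro σ
    rw [map_prod]
    exact Finset.prod_eq_one fun κ _ => loc0D_zero _
  rw [Finset.sum_congr rfl fun σ _ => h2 σ, Finset.sum_const, Finset.card_univ,
    Fintype.card_perm, Fintype.card_fin, nsmul_eq_mul, mul_one]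
  exact (map_natCast C _).symm

/-! ## The elementary functions -/

private theorem loc0_ext {α : Type} [Fintype α] [DecidableEq α] {S : Type} (e f : S ↪ α) :
    ∃ π : Equiv.Perm α, ∀ j, π (e j) = f j := by
  classical
  let e' : {x // x ∈ Set.range e} ≃ {x // x ∈ Set.range f} :=
    (Equiv.ofInjective e e.injective).symm.trans (Equiv.ofInjective f f.injective)
  refine ⟨e'.extendSubtype, fun j => ?_⟩
  rw [Equiv.extendSubtype_apply_of_mem e' (e j) ⟨j, rfl⟩]
  show ((Equiv.ofInjective f f.injective) ((Equiv.ofInjective e e.injective).symm ⟨e j, _⟩)).1 = _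
  have h1 : (Equiv.ofInjective e e.injective).symm ⟨e j, ⟨j, rfl⟩⟩ = j :=
    Equiv.ofInjective_symm_apply e.injective j
  rw [h1]
  rfl

private theorem loc0_fib {α : Type} [Fintype α] [DecidableEq α] {S : Type} [Fintype S]
    [DecidableEq S] {T : Type} [AddCommMonoid T] (e : S ↪ α) (g : (S ↪ α) → T) :
    ∃ N : ℕ, N ≠ 0 ∧ ∑ σ : Equiv.Perm α, g (e.trans σ.toEmbedding) = N • ∑ f, g f := by
  classical
  set N : ℕ := (Finset.univ.filter fun σ : Equiv.Perm α => e.trans σ.toEmbedding = e).card with hN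
  have hcard : ∀ f : S ↪ α,
      (Finset.univ.filter fun σ : Equiv.Perm α => e.trans σ.toEmbedding = f).card = N := by
    intro f
    obtain ⟨π, hπ⟩ := loc0_ext e f
    rw [hN]
    refine (Finset.card_bij (fun σ _ => π * σ) ?_ ?_ ?_).symm
    · intro σ hσ
      rw [Finset.mem_filter] at hσ ⊢
      refine ⟨Finset.mem_univ _, ?_⟩
      ext j
      have h1 : σ (e j) = e j := DFunLike.congr_fun hσ.2 j
      show π (σ (e j)) = f j
      rw [h1, hπ]
    · intro a _ b _ hab
      exact mul_left_cancel hab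
    · intro σ hσ
      rw [Finset.mem_filter] at hσ
      refine ⟨π⁻¹ * σ, ?_, mul_inv_cancel_left π σ⟩
      rw [Finset.mem_filter]
      refine ⟨Finset.mem_univ _, ?_⟩
      ext j
      have h1 : σ (e j) = f j := DFunLike.congr_fun hσ.2 j
      show π⁻¹ (σ (e j)) = e j
      rw [h1, ← hπ]
      exact π.symm_apply_apply (e j)
  refine ⟨N, ?_, ?_⟩
  · rw [hN]
    apply Finset.card_ne_zero_of_mem (a := 1)
    rw [Finset.mem_filter]
    exact ⟨Finset.mem_univ _, by ext j; rfl⟩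
  · rw [← Finset.sum_fiberwise Finset.univ (fun σ : Equiv.Perm α => e.trans σ.toEmbedding),
      Finset.smul_sum]
    refine Finset.sum_congr rfl fun f _ => ?_
    rw [Finset.sum_congr rfl (g := fun _ => g f) fun σ hσ => by
      rw [(Finset.mem_filter.1 hσ).2], Finset.sum_const, hcard f]

private theorem loc0D_el {k s : ℕ}
    (h : ∀ τ : Fin (k + 1) → Fin (s + 1), (el (τ 0, sy fun a => τ a.succ) : Z (k + 1) (s + 1))
      = ∑ σ : Equiv.Perm (Fin (k + 1)), ∏ κ, X (σ κ, τ κ)) (S : Finset ℕ) (u : ℕ → Fin s)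
    (hS : S.card ≤ k + 1) : ∃ (p : Ib (s + 1) k) (N : ℕ), N ≠ 0 ∧
      loc0D (k + 1) s (el p) = N • (es S u : Z (k + 1) s) := by
  classical
  obtain ⟨e⟩ : Nonempty (S ↪ Fin (k + 1)) := by
    rw [Function.Embedding.nonempty_iff_card_le, Fintype.card_coe, Fintype.card_fin]
    exact hS
  set τ : Fin (k + 1) → Fin (s + 1) := Function.extend e (fun j => (u j.1).succ) fun _ => 0 with hτ
  obtain ⟨N, hN, hsum⟩ := loc0_fib e fun f : S ↪ Fin (k + 1) =>
    (∏ j : S, X (f j, u j.1) : Z (k + 1) s)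
  refine ⟨(τ 0, sy fun a => τ a.succ), N, hN, ?_⟩
  have h1 : (es S u : Z (k + 1) s) = ∑ f : S ↪ Fin (k + 1), ∏ j : S, X (f j, u j.1) := rfl
  rw [h1, ← hsum, h, map_sum]
  refine Finset.sum_congr rfl fun σ _ => ?_
  rw [map_prod]
  refine (Fintype.prod_of_injective e e.injective _ _ ?_ ?_).symm
  · intro κ hκ
    have h2 : τ κ = 0 := by
      rw [hτ]
      exact Function.extend_apply' _ _ _ fun ⟨j, hj⟩ => hκ ⟨j, hj⟩
    rw [h2, loc0D_zero]
  · intro j
    have h2 : τ (e j) = (u j.1).succ := by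
      rw [hτ, e.injective.extend_apply]
    rw [h2, loc0D_succ]
    rfl

theorem kLoc0 (h1 : ElStmt) (h2 : MSbStmt) : Loc0Stmt := by
  classical
  intro k s c f hf hsf
  obtain ⟨hel, hsc, -, -⟩ := h1 k (s + 1)
  set φ : MvPolynomial (Ib (s + 1) k) ℂ →ₐ[ℂ] Z (k + 1) (s + 1) := aeval fun p => el p with hφ
  -- `δ f` is a polynomial in the `δ (el p)`
  have hsym : Sy (loc0D (k + 1) s f) := by
    intro σ
    rw [← loc0D_rz, hsf σ]
  have hmem := h2 (k + 1) s _ hsym
  have hle : Algebra.adjoin ℂ {z | ∃ (S : Finset ℕ) (u : ℕ → Fin s), S.card ≤ k + 1 ∧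
      (es S u : Z (k + 1) s) = z} ≤ ((loc0D (k + 1) s).comp φ).range := by
    rw [Algebra.adjoin_le_iff]
    rintro z ⟨S, u, hS, rfl⟩
    obtain ⟨p, N, hN, hp⟩ := loc0D_el hel S u hS
    have hNC : (N : ℂ) ≠ 0 := Nat.cast_ne_zero.2 hN
    refine ⟨((N : ℂ)⁻¹) • X p, ?_⟩
    show loc0D (k + 1) s (φ (((N : ℂ)⁻¹) • X p)) = es S u
    rw [map_smul, map_smul, hφ, aeval_X, hp, ← Nat.cast_smul_eq_nsmul ℂ, smul_smul,
      inv_mul_cancel₀ hNC, one_smul]
  obtain ⟨P, hP⟩ := hle hmem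
  have hP' : loc0D (k + 1) s (φ P) = loc0D (k + 1) s f := hP
  -- homogenize
  set N : ℕ := P.totalDegree with hN
  set b : ℂ := (((k + 1).factorial : ℕ) : ℂ) with hb
  have hb0 : b ≠ 0 := Nat.cast_ne_zero.2 (Nat.factorial_ne_zero _)
  set Q : MvPolynomial (Ib (s + 1) k) ℂ := C b⁻¹ * X (0, sy fun _ => 0) with hQ
  have hQh : Q.IsHomogeneous 1 := by
    have h3 := (isHomogeneous_C (Ib (s + 1) k) b⁻¹).mul (isHomogeneous_X ℂ
      ((0, sy fun _ => 0) : Ib (s + 1) k))
    rwa [Nat.zero_add] at h3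
  have hQ1 : loc0D (k + 1) s (φ Q) = 1 := by
    rw [hQ, map_mul, map_mul, hφ, aeval_X, loc0D_el0 hel]
    have h3 : loc0D (k + 1) s ((aeval fun p => (el p : Z (k + 1) (s + 1))) (C b⁻¹)) = C b⁻¹ := by
      rw [← algebraMap_eq, AlgHom.commutes, AlgHom.commutes]
      rfl
    rw [h3, ← C_mul, inv_mul_cancel₀ hb0, C_1]
  set P' : MvPolynomial (Ib (s + 1) k) ℂ := ∑ t ∈ range (N + 1),
    homogeneousComponent t P * Q ^ (c + N - t) with hP'def
  have hhom : P'.IsHomogeneous (c + N) := by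
    rw [hP'def]
    refine IsHomogeneous.sum _ _ _ fun t ht => ?_
    have h3 := (homogeneousComponent_isHomogeneous t P).mul (hQh.pow (c + N - t))
    rw [mem_range] at ht
    have e : t + 1 * (c + N - t) = c + N := by omega
    rwa [e] at h3
  have hval : loc0D (k + 1) s (φ P') = loc0D (k + 1) s f := by
    rw [← hP', hP'def, map_sum, map_sum]
    have h3 : P = ∑ t ∈ range (N + 1), homogeneousComponent t P :=
      (sum_homogeneousComponent P).symm
    conv_rhs => rw [h3]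
    rw [map_sum, map_sum]
    refine Finset.sum_congr rfl fun t _ => ?_
    rw [map_mul, map_mul, map_pow, map_pow, hQ1, one_pow, mul_one]
  refine ⟨N, P', hhom, ?_⟩
  have hC1 : Cn (c + N) (φ P') := Cn_aeval _ (fun p => (hsc p).2) P' hhom
  have hC2 : Cn (c + N) (ul (Pi.single 0 1) ^ N * f) := by
    have h3 := Cn_mul (Cn_pow (loc0_Cn_ul (K := k + 1) (s := s)) N) hf
    rwa [mul_one, Nat.add_comm N c] at h3
  have h4 := loc0_inj (φ P' - ul (Pi.single 0 1) ^ N * f) (Cn_sub hC1 hC2) (by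
    rw [map_sub, hval, map_mul, map_pow, loc0D_ul, one_pow, one_mul, sub_self])
  exact sub_eq_zero.1 h4

end T3

end Pool.Agent.Lib.MP_a688ad_al
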