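import Pool.Agent.Lib.MP_a688ad_al.T3.SpecL

/-!
# MP_a688ad_al, all large `n`: the lower bound
-/

set_option autoImplicit false

open MvPolynomial Finset

namespace Pool.Agent.Lib.MP_a688ad_al

namespace T3

open T2

private theorem psx_add {r k : ℕ} (M : ℕ) (Y θ θ' F F' : Ex r k) (x : ℕ) :
    psx M Y θ θ' (F + F') x = psx M Y θ θ' F x + psx M Y θ θ' F' x := by
  unfold psx
  rw [← add_mul, ← Finset.sum_add_distrib]
  congr 1
  refine Finset.sum_congr rfl fun σ _ => ?_
  rw [← map_add]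
  congr 1
  ring

private theorem psx_smul {r k : ℕ} (M : ℕ) (Y θ θ' F : Ex r k) (c : ℂ) (x : ℕ) :
    psx M Y θ θ' (c • F) x = c • psx M Y θ θ' F x := by
  unfold psx
  rw [← smul_mul_assoc, Finset.smul_sum]
  congr 1
  refine Finset.sum_congr rfl fun σ _ => ?_
  rw [← map_smul, smul_mul_assoc, smul_mul_assoc]

private theorem psi_add {r k : ℕ} (K : ℕ) (Y θ θ' : Ex r k) (F F' : Fin K → Ex r k) :
    psi K Y θ θ' (F + F') = psi K Y θ θ' F + psi K Y θ θ' F' := by
  unfold psi
  rw [← Finset.sum_add_distrib]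
  refine Finset.sum_congr rfl fun b _ => ?_
  rw [← Finset.sum_add_distrib]
  refine Finset.sum_congr rfl fun t _ => ?_
  rw [Pi.add_apply, psx_add]

private theorem psi_smul {r k : ℕ} (K : ℕ) (Y θ θ' : Ex r k) (c : ℂ) (F : Fin K → Ex r k) :
    psi K Y θ θ' (c • F) = c • psi K Y θ θ' F := by
  unfold psi
  rw [Finset.smul_sum]
  refine Finset.sum_congr rfl fun b _ => ?_
  rw [Finset.smul_sum]
  refine Finset.sum_congr rfl fun t _ => ?_
  rw [Pi.smul_apply, psx_smul]

/-- The linear map `psi`. -/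
private noncomputable def psiL {r k : ℕ} (K : ℕ) (Y θ θ' : Ex r k) :
    (Fin K → Ex r k) →ₗ[ℂ] Ex r k where
  toFun := psi K Y θ θ'
  map_add' := psi_add K Y θ θ'
  map_smul' := psi_smul K Y θ θ'

/-- The combinations of the monomials `mon (a d)`. -/
private noncomputable def lowF {r k K : ℕ} {ι : Type} [Fintype ι]
    (a : ι → Finset (Fin (k + 1)) → ℕ) : (Fin K → ι → ℂ) →ₗ[ℂ] (Fin K → Ex r k) where
  toFun v b := ∑ d, v b d • rename Sum.inl (mon r (a d))
  map_add' v v' := by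
    funext b
    simp only [Pi.add_apply, add_smul, Finset.sum_add_distrib]
  map_smul' c v := by
    funext b
    simp only [Pi.smul_apply, smul_eq_mul, mul_smul, Finset.smul_sum, RingHom.id_apply]

theorem kLow (h1 : ThtStmt) (h2 : ZjStmt) (h3 : YyStmt) (h4 : SizStmt) (h5 : ImStmt) (h6 : FrStmt)
    (h7 : LIStmt) (h8 : MScStmt) (h9 : Ef0Stmt) (h10 : PsiSStmt) (h11 : PsiIStmt) : LowStmt := by
  intro k j hk hj hjk b nb g ng hb hg hgj K
  rcases Nat.eq_zero_or_pos K with hK | hK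
  · exact ⟨0, 0, fun N _ n _ n' lam _ _ => by subst hK; simp⟩
  obtain ⟨w, cθ, qθ, θ, hqθ, hθ, hθσ⟩ := h1 k j hk hj hjk
  obtain ⟨cz, z, hz, hz0, hzσ⟩ := h2 k j (by omega) hjk
  obtain ⟨M, hM⟩ : ∃ M : ℕ, M = K * (k + 1).factorial - 1 := ⟨_, rfl⟩
  obtain ⟨N1, qY, hY⟩ := h3 k j hk hj hjk b nb g ng hb hg hgj (M * w)
  obtain ⟨N0, hIm⟩ := h5 k (R2 k)
  refine ⟨N1, N0 + (qY + M * qθ).toNat, ?_⟩
  intro N hN n hn n' lam hanti hsum
  obtain ⟨cY, Y, hYsc, hY0⟩ := hY N hN
  -- the function `θ'`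
  have hθ' : Sc (((((k + 1).factorial * w : ℕ) : ℤ)) • om j) (fun _ => (w : ℤ) * cz) 0 (z ^ w) := by
    have h := hz.pow w
    have e1 : w • ((((k + 1).factorial : ℕ) : ℤ) • (om j : Fin (R2 k) → ℤ))
        = ((((k + 1).factorial * w : ℕ) : ℤ)) • om j := by
      funext i
      simp only [Pi.smul_apply, smul_eq_mul, nsmul_eq_mul]
      push_cast
      ring
    have e2 : w • (fun _ : Fin (k + 1) => cz) = fun _ => (w : ℤ) * cz := by
      funext i
      simp only [Pi.smul_apply, nsmul_eq_mul]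
    rw [e1, e2, smul_zero] at h
    exact h
  have hθ'σ : ∀ σ, rs σ (z ^ w) = z ^ w := fun σ => by rw [map_pow, hzσ]
  have hθ'0 : z ^ w ≠ 0 := pow_ne_zero _ hz0
  -- the exponents
  obtain ⟨lam', hlam'⟩ : ∃ lam' : Fin (R2 k) → ℤ,
    lam' = fun i => lam i - row b i - ((k + 1).factorial * N : ℕ) * row g i := ⟨_, rfl⟩
  rw [← hlam']
  have hfin := h9 (k + 1) (R2 k) n' lam'
  haveI : Fintype (E0 (k + 1) (R2 k) n' lam') := hfin.fintype
  have hch : ∀ d : E0 (k + 1) (R2 k) n' lam', ∃ a, S0 (k + 1) n' a ∧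
      (∀ C, R2 k < C.card → a C = 0) ∧ (∀ i : Fin (R2 k), (row a i : ℤ) = lam' i) ∧
      dA (R2 k) a = d.1 := fun d => d.2
  choose a ha1 ha2 ha3 ha4 using hch
  have hinj : Function.Injective a := by
    intro d d' h
    apply Subtype.ext
    rw [← ha4 d, ← ha4 d', h]
  have hF : ∀ (v : Fin K → E0 (k + 1) (R2 k) n' lam' → ℂ) (b' : Fin K),
      Sc lam' (fun _ => (n' : ℤ)) 0 (lowF (r := R2 k) a v b') := by
    intro v b'
    refine Sc.sum _ _ fun d _ => Sc.smul ?_ _
    have h := h8 (R2 k) k (a d) (ha2 d)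
    have e1 : (fun i : Fin (R2 k) => (row (a d) i : ℤ)) = lam' := funext (ha3 d)
    have e2 : (fun κ => (cont (a d) κ : ℤ)) = fun _ => (n' : ℤ) := by
      funext κ
      rw [(ha1 d).2 κ]
    rw [e1, e2] at h
    exact h
  have hL : Module.finrank ℂ (Fin K → E0 (k + 1) (R2 k) n' lam' → ℂ)
      = K * (E0 (k + 1) (R2 k) n' lam').ncard := by
    rw [Module.finrank_pi_fintype]
    simp only [Module.finrank_fintype_fun_eq_card]
    rw [Finset.sum_const, Finset.card_univ, Fintype.card_fin, smul_eq_mul,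
      ← Nat.card_eq_fintype_card, Nat.card_coe_set_eq]
  rw [← hL]
  refine h6 (R2 k) k n lam _ ((psiL K Y θ (z ^ w)).comp (lowF a)) ?_ hanti hsum ?_
  · -- injectivity
    rw [injective_iff_map_eq_zero]
    intro v hv
    have h := h11 (R2 k) k K lam' _ _ n' cY cθ (w * cz) qY qθ Y θ (z ^ w) (lowF a v) (by omega)
      (hF v) hYsc hθ hθ' hθ'σ hqθ hY0 hθ'0 hθσ hv
    funext b' d
    have hb' := h b'
    have hb'' : ∑ d, v b' d • mon (R2 k) (a d) = 0 := by
      apply rename_injective (R := ℂ) (Sum.inl : Fin (k + 1) × Fin (R2 k) →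
        Fin (k + 1) × Fin (R2 k) ⊕ Ib (R2 k) k) Sum.inl_injective
      rw [map_zero, map_sum]
      rw [← hb']
      refine Finset.sum_congr rfl fun d _ => ?_
      rw [map_smul]
    classical
    have h7' := h7 (k + 1) (R2 k) (univ.image a)
      (fun a' => if h : ∃ d, a d = a' then v b' h.choose else 0) ?_ ?_ ?_ (a d)
      (Finset.mem_image_of_mem a (Finset.mem_univ d))
    · have hex : ∃ d', a d' = a d := ⟨d, rfl⟩
      rw [dif_pos hex, hinj hex.choose_spec] at h7'
      exact h7'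
    · intro a' ha'
      obtain ⟨d', _, rfl⟩ := Finset.mem_image.1 ha'
      exact ha2 d'
    · intro a' ha' a'' ha'' he
      obtain ⟨d', _, rfl⟩ := Finset.mem_image.1 ha'
      obtain ⟨d'', _, rfl⟩ := Finset.mem_image.1 ha''
      rw [ha4, ha4] at he
      rw [Subtype.ext he]
    · rw [Finset.sum_image fun d' _ d'' _ h => hinj h, ← hb'']
      refine Finset.sum_congr rfl fun d' _ => ?_
      have hex : ∃ d'', a d'' = a d' := ⟨d', rfl⟩
      rw [dif_pos hex, hinj hex.choose_spec]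
  · -- the image
    intro v
    have hsum1 : ∀ (b' : Fin K), ∀ t ∈ range (k + 1).factorial,
        (∀ i i', i < i' → DX i i' (psx M Y θ (z ^ w) (lowF (r := R2 k) a v b')
          ((b' : ℕ) * (k + 1).factorial + t)) = 0) ∧
        ∃ P ∈ (Gl (R2 k) k n).G lam, Ev P = psx M Y θ (z ^ w) (lowF (r := R2 k) a v b')
          ((b' : ℕ) * (k + 1).factorial + t) := by
      intro b' t ht
      have hx : (b' : ℕ) * (k + 1).factorial + t ≤ M := by
        have h1 := b'.2
        have h2 := Finset.mem_range.1 ht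
        have h3 : ((b' : ℕ) + 1) * (k + 1).factorial ≤ K * (k + 1).factorial :=
          Nat.mul_le_mul_right _ h1
        rw [Nat.add_mul, Nat.one_mul] at h3
        omega
      obtain ⟨x, hxx⟩ : ∃ x, x = (b' : ℕ) * (k + 1).factorial + t := ⟨_, rfl⟩
      rw [← hxx] at hx ⊢
      obtain ⟨hS, hsy⟩ := h10 (R2 k) k M lam' _ _ n' cY cθ (w * cz) qY qθ Y θ (z ^ w)
        (lowF a v b') (hF v b') hYsc hθ hθ' hθ'σ x hx
      refine ⟨hS.inv, ?_⟩
      have hwt : lam' + (fun i : Fin (R2 k) => (row b i : ℤ)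
          + (((k + 1).factorial * N : ℕ) : ℤ) * (row g i : ℤ)
          - (((k + 1).factorial * (M * w) : ℕ) : ℤ) * om j i)
          + (M : ℤ) • ((((k + 1).factorial * w : ℕ) : ℤ) • om j) = lam := by
        rw [hlam']
        funext i
        simp only [Pi.add_apply, Pi.smul_apply, smul_eq_mul]
        push_cast
        ring
      rw [hwt] at hS
      by_cases h0 : psx M Y θ (z ^ w) (lowF (r := R2 k) a v b') x = 0
      · refine ⟨0, Submodule.zero_mem _, ?_⟩
        rw [h0, map_zero]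
      · have hsz := h4 _ _ _ _ _ _ hS.hom h0
        rw [hsum, Finset.sum_const, Finset.card_univ, Fintype.card_fin] at hsz
        obtain ⟨c, hc⟩ : ∃ c : ℤ, c = n' + cY + x * cθ + ((M : ℤ) - x) * (w * cz) := ⟨_, rfl⟩
        obtain ⟨q, hq⟩ : ∃ q : ℤ, q = qY + x * qθ := ⟨_, rfl⟩
        rw [← hc, ← hq] at hsz
        have hS' := hS
        rw [← hc, ← hq] at hS'
        have hcq : c + q = n := by
          have h2 : ((k : ℤ) + 1) * (c + q) = ((k : ℤ) + 1) * n := by
            rw [nsmul_eq_mul] at hsz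
            push_cast at hsz
            linarith
          exact mul_left_cancel₀ (by positivity) h2
        have hqle : q ≤ qY + M * qθ := by
          rw [hq]
          have h2 : (x : ℤ) * qθ ≤ M * qθ := mul_le_mul_of_nonneg_right (by exact_mod_cast hx) hqθ.le
          linarith
        have hcN : (N0 : ℤ) ≤ c := by
          have h2 := Int.self_le_toNat (qY + M * qθ)
          have h3 : ((N0 + (qY + M * qθ).toNat : ℕ) : ℤ) ≤ n := by exact_mod_cast hn
          push_cast at h3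
          linarith
        obtain ⟨c', rfl⟩ : ∃ c' : ℕ, c = (c' : ℤ) := ⟨c.toNat, by omega⟩
        obtain ⟨P, hP1, hP2⟩ := hIm c' (by exact_mod_cast hcN) lam q _ hS'.hom hS'.prj hsy
        rw [hcq] at hP1
        exact ⟨P, hP1, hP2⟩
    have e : ((psiL K Y θ (z ^ w)).comp (lowF a)) v = ∑ b' : Fin K,
        ∑ t ∈ range (k + 1).factorial, psx M Y θ (z ^ w) (lowF (r := R2 k) a v b')
          ((b' : ℕ) * (k + 1).factorial + t) := by
      rw [hM]
      rfl
    rw [e]
    refine ⟨fun i i' hii => ?_, ?_⟩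
    · rw [map_sum]
      refine Finset.sum_eq_zero fun b' _ => ?_
      rw [map_sum]
      exact Finset.sum_eq_zero fun t ht => (hsum1 b' t ht).1 i i' hii
    · have h2 : ∀ (b' : Fin K) (t : ℕ), ∃ P ∈ (Gl (R2 k) k n).G lam,
          t ∈ range (k + 1).factorial → Ev P = psx M Y θ (z ^ w) (lowF (r := R2 k) a v b')
            ((b' : ℕ) * (k + 1).factorial + t) := by
        intro b' t
        by_cases ht : t ∈ range (k + 1).factorial
        · obtain ⟨P, hP1, hP2⟩ := (hsum1 b' t ht).2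
          exact ⟨P, hP1, fun _ => hP2⟩
        · exact ⟨0, Submodule.zero_mem _, fun h => (ht h).elim⟩
      choose P hP1 hP2 using h2
      refine ⟨∑ b' : Fin K, ∑ t ∈ range (k + 1).factorial, P b' t,
        Submodule.sum_mem _ fun b' _ => Submodule.sum_mem _ fun t _ => hP1 b' t, ?_⟩
      rw [map_sum]
      refine Finset.sum_congr rfl fun b' _ => ?_
      rw [map_sum]
      exact Finset.sum_congr rfl fun t ht => hP2 b' t ht

end T3

end Pool.Agent.Lib.MP_a688ad_al
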