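import Pool.Agent.Lib.MP_a688ad_al.T3.SpecB
import Pool.Agent.Lib.MP_a688ad_al.T2.Key

/-!
# MP_a688ad_al, all large `n`, module MSa: symmetric polynomials of particles are generated by power sums
-/

set_option autoImplicit false

open MvPolynomial Finset

namespace Pool.Agent.Lib.MP_a688ad_al

namespace T3

open T2

/-- the monomial in the coordinates of one particle -/
private noncomputable def msaM {K s : ℕ} (M : Multiset (Fin s)) (κ : Fin K) : Z K s :=
  (M.map fun i => X (κ, i)).prod

private theorem msa_add {K s : ℕ} (M N : Multiset (Fin s)) (κ : Fin K) :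
    msaM (M + N) κ = msaM M κ * msaM N κ := by
  unfold msaM
  rw [Multiset.map_add, Multiset.prod_add]

private theorem msa_sum {K s : ℕ} {L : Type} (M : L → Multiset (Fin s)) (R : Finset L)
    (κ : Fin K) : msaM (∑ j ∈ R, M j) κ = ∏ j ∈ R, msaM (M j) κ := by
  classical
  induction R using Finset.induction_on with
  | empty => unfold msaM; simp
  | insert j R hj ih => rw [sum_insert hj, prod_insert hj, msa_add, ih]

private theorem msa_ef {K s : ℕ} {L : Type} [DecidableEq L] (M : L → Multiset (Fin s)) :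
    ∀ (n : ℕ) (S : Finset L), S.card ≤ n → Ef (fun t (κ : Fin K) => msaM (M t) κ) S ∈
      Algebra.adjoin ℂ (Set.range fun M : Multiset (Fin s) =>
        (∑ κ, (M.map fun i => X (κ, i)).prod : Z K s)) := by
  intro n
  induction n with
  | zero =>
    intro S hS
    have h1 : S = ∅ := card_eq_zero.1 (Nat.le_zero.1 hS)
    have h2 : Ef (fun t (κ : Fin K) => (msaM (M t) κ : Z K s)) (∅ : Finset L) = 1 := by
      unfold Ef
      simp
    rw [h1, h2]
    exact one_mem _
  | succ n ih =>
    intro S hS
    rcases S.eq_empty_or_nonempty with h1 | ⟨j0, hj0⟩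
    · exact ih S (by rw [h1, card_empty]; exact Nat.zero_le _)
    · have hS' : S = insert j0 (S.erase j0) := (insert_erase hj0).symm
      have hnot : j0 ∉ S.erase j0 := notMem_erase j0 S
      rw [hS', kE2 K (Z K s) L _ j0 _ hnot]
      refine sum_mem fun R hR => ?_
      have hR' := mem_powerset.1 hR
      have hnotR : j0 ∉ R := fun h => hnot (hR' h)
      refine mul_mem (mul_mem (mul_mem (pow_mem (neg_mem (one_mem _)) _) (natCast_mem _ _)) ?_)
        (ih _ ?_)
      · have h3 : ∑ κ, (msaM (M j0) κ : Z K s) * ∏ j ∈ R, msaM (M j) κ =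
            ∑ κ, ((∑ j ∈ insert j0 R, M j).map fun i => X (κ, i)).prod := by
          refine sum_congr rfl fun κ _ => ?_
          rw [← prod_insert (f := fun j => (msaM (M j) κ : Z K s)) hnotR, ← msa_sum]
          rfl
        rw [h3]
        exact Algebra.subset_adjoin ⟨_, rfl⟩
      · have h6 : (S.erase j0 \ R).card ≤ (S.erase j0).card := card_le_card sdiff_subset
        rw [card_erase_of_mem hj0] at h6
        omega

private theorem msa_orb {K s : ℕ} (a : Fin K → Fin K → Z K s) :
    ∑ σ : Equiv.Perm (Fin K), ∏ t, a t (σ t) = Ef a (univ : Finset (Fin K)) := by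
  unfold Ef
  refine Fintype.sum_bijective
    (fun σ : Equiv.Perm (Fin K) => (⟨fun j => σ j.1, fun j k hjk => Subtype.ext (σ.injective hjk)⟩ :
      (univ : Finset (Fin K)) ↪ Fin K)) ⟨?_, ?_⟩ _ _ ?_
  · intro σ σ' hσ
    ext t
    have h1 := congrArg (fun f : (univ : Finset (Fin K)) ↪ Fin K => f ⟨t, mem_univ t⟩) hσ
    exact congrArg Fin.val h1
  · intro f
    have h1 : Function.Injective fun t : Fin K => f ⟨t, mem_univ t⟩ := by
      intro t t' ht
      have h2 := f.injective ht
      exact congrArg Subtype.val h2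
    refine ⟨Equiv.ofBijective _ (Finite.injective_iff_bijective.1 h1), ?_⟩
    ext j
    rfl
  · intro σ
    exact (prod_coe_sort univ fun t => a t (σ t)).symm

/-- the letters of the particle `κ` in a monomial -/
private noncomputable def msaL {K s : ℕ} (d : (Fin K × Fin s) →₀ ℕ) (κ : Fin K) : Multiset (Fin s) :=
  ∑ i, d (κ, i) • ({i} : Multiset (Fin s))

private theorem msa_msaL {K s : ℕ} (d : (Fin K × Fin s) →₀ ℕ) (κ κ' : Fin K) :
    (msaM (msaL d κ) κ' : Z K s) = ∏ i, X (κ', i) ^ d (κ, i) := by
  unfold msaL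
  rw [msa_sum]
  refine prod_congr rfl fun i _ => ?_
  unfold msaM
  rw [Multiset.map_nsmul, Multiset.prod_nsmul, Multiset.map_singleton, Multiset.prod_singleton]

private theorem msa_mono {K s : ℕ} (d : (Fin K × Fin s) →₀ ℕ) (σ : Equiv.Perm (Fin K)) :
    rz σ (monomial d (1 : ℂ)) = ∏ κ, msaM (msaL d κ) (σ κ) := by
  rw [monomial_eq, C_1, one_mul, Finsupp.prod_fintype _ _ (fun _ => pow_zero _), map_prod,
    Fintype.prod_prod_type]
  refine prod_congr rfl fun κ _ => ?_
  rw [msa_msaL]
  refine prod_congr rfl fun i _ => ?_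
  unfold rz
  rw [map_pow, rename_X]
  rfl

theorem kMSa : MSaStmt := by
  intro K s f hf
  have h1 : ((K.factorial : ℕ) : ℂ) • f = ∑ d ∈ f.support, coeff d f •
      Ef (fun t (κ : Fin K) => (msaM (msaL d t) κ : Z K s)) (univ : Finset (Fin K)) := by
    have h2 : ∑ σ : Equiv.Perm (Fin K), rz σ f = ((K.factorial : ℕ) : ℂ) • f := by
      rw [sum_congr rfl fun σ _ => hf σ, sum_const, card_univ, Fintype.card_perm,
        Fintype.card_fin, Nat.cast_smul_eq_nsmul]
    have h3 : ∀ σ : Equiv.Perm (Fin K), rz σ f =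
        ∑ d ∈ f.support, coeff d f • ∏ κ, (msaM (msaL d κ) (σ κ) : Z K s) := by
      intro σ
      conv_lhs => rw [← support_sum_monomial_coeff f]
      rw [map_sum]
      refine sum_congr rfl fun d _ => ?_
      have h4 : monomial d (coeff d f) = coeff d f • monomial d (1 : ℂ) := by
        rw [smul_monomial, smul_eq_mul, mul_one]
      rw [h4, map_smul, msa_mono]
    rw [← h2, sum_congr rfl fun σ _ => h3 σ, sum_comm]
    refine sum_congr rfl fun d _ => ?_
    rw [← smul_sum, msa_orb (fun t κ => (msaM (msaL d t) κ : Z K s))]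
  have h5 : f = (((K.factorial : ℕ) : ℂ)⁻¹) • ∑ d ∈ f.support, coeff d f •
      Ef (fun t (κ : Fin K) => (msaM (msaL d t) κ : Z K s)) (univ : Finset (Fin K)) := by
    rw [← h1, smul_smul, inv_mul_cancel₀, one_smul]
    exact_mod_cast Nat.factorial_ne_zero K
  rw [h5]
  exact Subalgebra.smul_mem _ (sum_mem fun d _ => Subalgebra.smul_mem _
    (msa_ef (msaL d) _ _ le_rfl) _) _

end T3

end Pool.Agent.Lib.MP_a688ad_al
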