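import Pool.Agent.Lib.MP_a688ad_al.T3.SpecB
import Pool.Agent.Lib.MP_a688ad_al.T2.Key

/-!
# MP_a688ad_al, B5: power sums from elementary symmetric functions
-/

set_option autoImplicit false

open MvPolynomial Finset

namespace Pool.Agent.Lib.MP_a688ad_al

namespace T3

open T2

private noncomputable def msb_A (K s : ℕ) : Subalgebra ℂ (Z K s) := Algebra.adjoin ℂ
  {z | ∃ (S : Finset ℕ) (u : ℕ → Fin s), S.card ≤ K ∧ (es S u : Z K s) = z}

private theorem msb_es {K s : ℕ} (S : Finset ℕ) (u : ℕ → Fin s) :
    (es S u : Z K s) ∈ msb_A K s := by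
  by_cases h : S.card ≤ K
  · exact Algebra.subset_adjoin ⟨S, u, h, rfl⟩
  · have h1 : IsEmpty (S ↪ Fin K) := by
      refine ⟨fun f => ?_⟩
      have h2 := Fintype.card_le_of_embedding f
      rw [Fintype.card_coe, Fintype.card_fin] at h2
      exact h h2
    have h2 : (es S u : Z K s) = 0 := by
      unfold es Ef
      rw [Finset.univ_eq_empty, Finset.sum_empty]
    rw [h2]
    exact Subalgebra.zero_mem _

private theorem msb_ps {K s : ℕ} (R : Finset ℕ) (j0 : ℕ) (hj : j0 ∉ R) (u : ℕ → Fin s) :
    (∑ κ : Fin K, ((xs (insert j0 R) u).map fun i => (X (κ, i) : Z K s)).prod) =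
      ∑ κ : Fin K, (X (κ, u j0) : Z K s) * ∏ j ∈ R, X (κ, u j) := by
  refine Finset.sum_congr rfl (fun κ _ => ?_)
  unfold xs
  rw [Multiset.map_map]
  rw [← Finset.prod_insert (f := fun j => (X (κ, u j) : Z K s)) hj]
  rfl

private theorem msb_power {K s : ℕ} : ∀ n : ℕ, ∀ M : Multiset (Fin s), Multiset.card M ≤ n →
    (∑ κ, (M.map fun i => X (κ, i)).prod : Z K s) ∈ msb_A K s := by
  classical
  intro n
  induction n with
  | zero =>
    intro M hM
    have h1 : M = 0 := Multiset.card_eq_zero.mp (Nat.le_zero.mp hM)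
    rw [h1]
    apply Subalgebra.sum_mem
    intro κ _
    rw [Multiset.map_zero, Multiset.prod_zero]
    exact Subalgebra.one_mem _
  | succ n ih =>
    intro M hM
    rcases Nat.lt_or_ge (Multiset.card M) (n + 1) with hlt | hge
    · exact ih M (by omega)
    have hcard : Multiset.card M = n + 1 := le_antisymm hM hge
    have hj : n ∉ range n := by simp
    have hi0 : ∃ i0 : Fin s, i0 ∈ M := by
      rw [← Multiset.card_pos_iff_exists_mem]
      omega
    obtain ⟨i0, -⟩ := hi0
    obtain ⟨u, hu, -⟩ := exists_xs M (fun _ => i0) (insert n (range n)) (by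
      rw [Finset.card_insert_of_notMem hj, Finset.card_range, hcard])
    have hE := kE2 K (Z K s) ℕ (fun ω κ => (X (κ, u ω) : Z K s)) n (range n) hj
    have hterm : ∀ R ∈ (range n).powerset, R ≠ range n →
        ((-1) ^ R.card * (R.card.factorial : Z K s)) *
          (∑ κ : Fin K, (X (κ, u n) : Z K s) * ∏ j ∈ R, X (κ, u j)) *
          Ef (fun (ω : ℕ) (κ : Fin K) => (X (κ, u ω) : Z K s)) (range n \ R) ∈ msb_A K s := by
      intro R hR hne
      rw [Finset.mem_powerset] at hR
      have hjR : n ∉ R := fun h => hj (hR h)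
      apply Subalgebra.mul_mem
      · apply Subalgebra.mul_mem
        · apply Subalgebra.mul_mem
          · apply Subalgebra.pow_mem
            exact Subalgebra.neg_mem _ (Subalgebra.one_mem _)
          · exact Subalgebra.natCast_mem _ _
        · rw [← msb_ps R n hjR u]
          apply ih
          unfold xs
          rw [Multiset.card_map]
          show (insert n R).card ≤ n
          rw [Finset.card_insert_of_notMem hjR]
          have h1 := Finset.card_lt_card (Finset.ssubset_iff_subset_ne.mpr ⟨hR, hne⟩)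
          rw [Finset.card_range] at h1
          omega
      · exact msb_es _ u
    rw [← Finset.add_sum_erase _ _ (Finset.mem_powerset_self (range n))] at hE
    have hlast : Ef (fun (ω : ℕ) (κ : Fin K) => (X (κ, u ω) : Z K s)) (range n \ range n) = 1 := by
      rw [Finset.sdiff_self]
      unfold Ef
      simp
    rw [hlast, mul_one, ← msb_ps (range n) n hj u, hu, Finset.card_range] at hE
    have hmain : ((-1) ^ n * (n.factorial : Z K s)) *
        (∑ κ : Fin K, (M.map fun i => (X (κ, i) : Z K s)).prod) ∈ msb_A K s := by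
      have h1 : ((-1) ^ n * (n.factorial : Z K s)) *
          (∑ κ : Fin K, (M.map fun i => (X (κ, i) : Z K s)).prod) =
          Ef (fun (ω : ℕ) (κ : Fin K) => (X (κ, u ω) : Z K s)) (insert n (range n)) -
            ∑ R ∈ (range n).powerset.erase (range n), ((-1) ^ R.card * (R.card.factorial : Z K s)) *
              (∑ κ : Fin K, (X (κ, u n) : Z K s) * ∏ j ∈ R, X (κ, u j)) *
              Ef (fun (ω : ℕ) (κ : Fin K) => (X (κ, u ω) : Z K s)) (range n \ R) := by
        rw [hE]
        ring
      rw [h1]
      apply Subalgebra.sub_mem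
      · exact msb_es _ u
      · apply Subalgebra.sum_mem
        intro R hR
        rw [Finset.mem_erase] at hR
        exact hterm R hR.2 hR.1
    have h2 : (∑ κ : Fin K, (M.map fun i => (X (κ, i) : Z K s)).prod) =
        (((-1 : ℂ) ^ n * (n.factorial : ℂ))⁻¹) • (((-1) ^ n * (n.factorial : Z K s)) *
        (∑ κ : Fin K, (M.map fun i => (X (κ, i) : Z K s)).prod)) := by
      have h3 : ((-1) ^ n * (n.factorial : Z K s)) = C ((-1 : ℂ) ^ n * (n.factorial : ℂ)) := by
        simp
      have h4 : ((-1 : ℂ) ^ n * (n.factorial : ℂ)) ≠ 0 :=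
        mul_ne_zero (pow_ne_zero _ (by norm_num)) (by exact_mod_cast Nat.factorial_ne_zero n)
      rw [h3, C_mul', smul_smul, inv_mul_cancel₀ h4, one_smul]
    rw [h2]
    exact Subalgebra.smul_mem _ hmain _

theorem kMSb (h : MSaStmt) : MSbStmt := by
  intro K s f hf
  have h1 := h K s f hf
  have h2 : Algebra.adjoin ℂ (Set.range fun M : Multiset (Fin s) =>
      (∑ κ, (M.map fun i => X (κ, i)).prod : Z K s)) ≤ msb_A K s := by
    apply Algebra.adjoin_le
    rintro _ ⟨M, rfl⟩
    exact msb_power _ M le_rfl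
  exact h2 h1

end T3

end Pool.Agent.Lib.MP_a688ad_al
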