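import Pool.Agent.Lib.MP_a688ad_al.T3.SpecL

/-!
# MP_a688ad_al, T3, MSc: weight of a monomial in minors
-/

set_option autoImplicit false

open MvPolynomial Finset

namespace Pool.Agent.Lib.MP_a688ad_al

namespace T3

open T2

/-- the factor of a column, as an element of `Ex` -/
private theorem msc_brk {r k : ℕ} (C : Finset (Fin (k + 1))) (h : C.card ≤ r) :
    (rename Sum.inl (brk C.card h fun t l => (X (C.orderEmbOfFin rfl t, l) : Z (k + 1) r))
      : Ex r k) = brk C.card h fun t => xx (C.orderEmbOfFin rfl t) := by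
  unfold brk
  rw [AlgHom.map_det]
  congr 1
  ext1 a b
  simp [xx, AlgHom.mapMatrix_apply, Matrix.map_apply, Matrix.of_apply, rename_X]

private theorem msc_col (h : BrkStmt) {r k : ℕ} (C : Finset (Fin (k + 1))) (hC : C.card ≤ r) :
    Sc (om C.card : Fin r → ℤ) (fun κ => if κ ∈ C then 1 else 0) 0
      (rename Sum.inl (brk C.card hC fun t l => (X (C.orderEmbOfFin rfl t, l) : Z (k + 1) r))
        : Ex r k) := by
  rw [msc_brk C hC]
  have h1 := h r k C.card hC (fun _ => 0) (fun t => sg (C.orderEmbOfFin rfl t)) (fun _ => 0)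
    (fun t => xx (C.orderEmbOfFin rfl t)) (fun t => xx_Cv _)
  have h2 : ∑ t : Fin C.card, sg (C.orderEmbOfFin rfl t) =
      fun κ : Fin (k + 1) => if κ ∈ C then (1 : ℤ) else 0 := by
    funext κ
    rw [Finset.sum_apply]
    have h3 : ∀ t : Fin C.card, sg (C.orderEmbOfFin rfl t) κ =
        if C.orderEmbOfFin rfl t = κ then (1 : ℤ) else 0 := by
      intro t
      unfold sg
      rw [Pi.single_apply]
      by_cases h4 : κ = C.orderEmbOfFin rfl t
      · rw [if_pos h4, if_pos h4.symm]
      · rw [if_neg h4, if_neg (Ne.symm h4)]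
    simp_rw [h3]
    by_cases hκ : κ ∈ C
    · rw [if_pos hκ]
      obtain ⟨t, ht⟩ : κ ∈ Set.range (C.orderEmbOfFin rfl) := by
        rw [Finset.range_orderEmbOfFin]
        exact hκ
      rw [Finset.sum_eq_single t]
      · rw [if_pos ht]
      · intro b _ hb
        rw [if_neg]
        intro hbt
        exact hb ((C.orderEmbOfFin rfl).injective (hbt.trans ht.symm))
      · intro hn
        exact absurd (Finset.mem_univ t) hn
    · rw [if_neg hκ]
      refine Finset.sum_eq_zero fun t _ => if_neg ?_
      rintro rfl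
      exact hκ (Finset.orderEmbOfFin_mem _ _ _)
  rw [h2] at h1
  simpa using h1

theorem kMSc (h : BrkStmt) : MScStmt := by
  intro r k a ha
  have h1 : ∀ C ∈ (univ : Finset (Finset (Fin (k + 1)))),
      Sc (fun i : Fin r => if (i : ℕ) < C.card then (a C : ℤ) else 0)
        (fun κ => if κ ∈ C then (a C : ℤ) else 0) 0
        ((rename Sum.inl (if h : C.card ≤ r then
          brk C.card h (fun t l => (X (C.orderEmbOfFin rfl t, l) : Z (k + 1) r)) else 1)
          : Ex r k) ^ a C) := by
    intro C _
    by_cases hC : C.card ≤ r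
    · rw [dif_pos hC]
      have h2 := (msc_col h C hC).pow (a C)
      have e1 : a C • (om C.card : Fin r → ℤ) =
          fun i : Fin r => if (i : ℕ) < C.card then (a C : ℤ) else 0 := by
        funext i
        simp [om]
      have e2 : a C • (fun κ : Fin (k + 1) => if κ ∈ C then (1 : ℤ) else 0) =
          fun κ => if κ ∈ C then (a C : ℤ) else 0 := by
        funext κ
        simp
      rw [e1, e2, smul_zero] at h2
      exact h2
    · have h3 : a C = 0 := ha C (not_le.1 hC)
      rw [h3, pow_zero]
      have e1 : (fun i : Fin r => if (i : ℕ) < C.card then ((0 : ℕ) : ℤ) else 0) = 0 := by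
        funext i; simp
      have e2 : (fun κ : Fin (k + 1) => if κ ∈ C then ((0 : ℕ) : ℤ) else 0) = 0 := by
        funext κ; simp
      rw [e1, e2]
      exact Sc.one
  have h2 := Sc.prod univ _ _ _ _ h1
  have e1 : (∑ C : Finset (Fin (k + 1)), fun i : Fin r => if (i : ℕ) < C.card then (a C : ℤ) else 0)
      = fun i : Fin r => (row a i : ℤ) := by
    funext i
    rw [Finset.sum_apply]
    unfold row
    push_cast
    rfl
  have e2 : (∑ C : Finset (Fin (k + 1)), fun κ : Fin (k + 1) => if κ ∈ C then (a C : ℤ) else 0)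
      = fun κ => (cont a κ : ℤ) := by
    funext κ
    rw [Finset.sum_apply]
    unfold cont
    push_cast
    rfl
  rw [e1, e2, Finset.sum_const_zero] at h2
  unfold mon
  rw [map_prod]
  simp_rw [map_pow]
  exact h2

end T3

end Pool.Agent.Lib.MP_a688ad_al
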