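import Pool.Agent.Lib.MP_a688ad_al.T3.SpecE

/-!
# MP_a688ad_al, T3: module `Pai` (helper62)
-/

set_option autoImplicit false

open MvPolynomial Finset

namespace Pool.Agent.Lib.MP_a688ad_al

namespace T3

open T2

private theorem pai_brk {R : Type} [CommRing R] {r i : ℕ} (hi : i + 1 ≤ r) (ξ : Fin i → Fin r → R)
    (ζ : Fin r → R) : brk (i + 1) hi (Fin.snoc ξ ζ) =
      Matrix.detRowAlternating (Function.update
        (fun (a : Fin (i + 1)) (b : Fin (i + 1)) => (Fin.snoc ξ (fun _ => 0) : Fin (i + 1) → Fin r → R) a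
          (Fin.castLE hi b)) (Fin.last i) (fun b => ζ (Fin.castLE hi b))) := by
  unfold brk
  show Matrix.detRowAlternating _ = _
  congr 1
  ext a b
  refine Fin.lastCases ?_ (fun a => ?_) a
  · rw [Function.update_self, Matrix.of_apply, Fin.snoc_last]
  · rw [Function.update_of_ne (Fin.castSucc_lt_last a).ne, Matrix.of_apply, Fin.snoc_castSucc,
      Fin.snoc_castSucc]

theorem kPai : PaiStmt := by
  refine ⟨?_, ?_⟩
  · intro R _ r i hi ξ ζ
    unfold vc
    rw [pai_brk hi ξ ζ]
    have e : (fun b : Fin (i + 1) => ζ (Fin.castLE hi b)) =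
        ∑ l, ζ l • fun b : Fin (i + 1) => if Fin.castLE hi b = l then (1 : R) else 0 := by
      ext b
      rw [Finset.sum_apply]
      simp only [Pi.smul_apply, smul_eq_mul, mul_ite, mul_one, mul_zero]
      rw [Finset.sum_ite_eq]
      simp
    rw [e, AlternatingMap.map_update_sum]
    refine Finset.sum_congr rfl fun l _ => ?_
    rw [AlternatingMap.map_update_smul, smul_eq_mul, pai_brk hi ξ]
  · intro r k p hp c
    have e : brk p hp (fun a => (vp (c a) : Fin r → ℂ)) =
        (Matrix.vandermonde fun a => ((c a : ℕ) : ℂ) + 1).det := by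
      unfold brk vp
      congr 1
    rw [e, Matrix.det_vandermonde_ne_zero_iff]
    constructor
    · intro h a b hab
      apply h
      show ((c a : ℕ) : ℂ) + 1 = ((c b : ℕ) : ℂ) + 1
      rw [hab]
    · intro h a b hab
      apply h
      have h1 : ((c a : ℕ) : ℂ) + 1 = ((c b : ℕ) : ℂ) + 1 := hab
      have h2 : ((c a : ℕ) : ℂ) = ((c b : ℕ) : ℂ) := add_right_cancel h1
      exact Fin.ext (by exact_mod_cast h2)

end T3

end Pool.Agent.Lib.MP_a688ad_al
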