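import Pool.Agent.Lib.MP_a688ad_al.T3.SpecU
import Pool.Agent.Lib.MP_a688ad_al.T2.Pol
import Pool.Agent.Lib.MP_a688ad_al.T2.Inj

/-!
# MP_a688ad_al, U3: polarization to `2m` particles
-/

set_option autoImplicit false

open MvPolynomial Finset

namespace Pool.Agent.Lib.MP_a688ad_al

namespace T3

open T2

/-- The value of the basis vector `p` at the pair of particles with index `κ`. -/
noncomputable def plz_ab {r n m : ℕ} (p : Ib r n) (κ : Fin m) : Z (m + m) r :=
  X (Fin.natAdd m κ, p.1) * (p.2.1.map fun c => (X (Fin.castAdd m κ, c) : Z (m + m) r)).prod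

/-- The polarization. -/
noncomputable def plz_Q (r n m : ℕ) : MvPolynomial (Ib r n) ℂ →ₗ[ℂ] Z (m + m) r :=
  ∑ A : Finset (Fin m), ((-1 : ℂ) ^ (m - A.card)) •
    (aeval (fun p => ∑ κ ∈ A, plz_ab p κ) : MvPolynomial (Ib r n) ℂ →ₐ[ℂ] Z (m + m) r).toLinearMap

/-! ### equivariance -/

/-- a derivation of a product in which the letters `j'` are replaced by `i'` -/
private theorem plz_dprod {s l : ℕ} {T : Type} [CommRing T] [Algebra ℂ T] (D : Derivation ℂ T T)
    (i' j' : Fin s) (V : Fin l → Fin s → T) (hV : ∀ b c, D (V b c) = if c = j' then V b i' else 0)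
    (τ : Fin l → Fin s) :
    D (∏ b, V b (τ b)) = ∑ b, if τ b = j' then ∏ c, V c (Function.update τ b i' c) else 0 := by
  have key : ∀ B : Finset (Fin l), D (∏ b ∈ B, V b (τ b))
      = ∑ b ∈ B, if τ b = j' then ∏ c ∈ B, V c (Function.update τ b i' c) else 0 := by
    intro B
    induction B using Finset.induction_on with
    | empty =>
      rw [Finset.prod_empty, Finset.sum_empty]
      exact D.map_one_eq_zero
    | insert a B ha ih =>
      rw [Finset.prod_insert ha, Derivation.leibniz, ih, hV, Finset.sum_insert ha, smul_eq_mul,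
        smul_eq_mul, add_comm]
      congr 1
      · by_cases h : τ a = j'
        · rw [if_pos h, if_pos h, Finset.prod_insert ha, Function.update_self, mul_comm]
          congr 1
          refine Finset.prod_congr rfl fun c hc => ?_
          have hca : c ≠ a := by
            rintro rfl
            exact ha hc
          rw [Function.update_of_ne hca]
        · rw [if_neg h, if_neg h, mul_zero]
      · rw [Finset.mul_sum]
        refine Finset.sum_congr rfl fun b hb => ?_
        have hab : a ≠ b := by
          rintro rfl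
          exact ha hb
        by_cases h : τ b = j'
        · rw [if_pos h, if_pos h, Finset.prod_insert ha, Function.update_of_ne hab]
        · rw [if_neg h, if_neg h, mul_zero]
  exact key univ

private theorem plz_DZ_X {K r : ℕ} (i j c : Fin r) (κ : Fin K) :
    DZ i j (X (κ, c) : Z K r) = if c = j then X (κ, i) else 0 := by
  unfold DZ
  rw [mkDerivation_X]

private theorem plz_equi {r n m : ℕ} (i j : Fin r) (F : MvPolynomial (Ib r n) ℂ) :
    plz_Q r n m (DE i j F) = DZ i j (plz_Q r n m F) := by
  have hA : ∀ A : Finset (Fin m), DZ i j ((aeval (fun p => ∑ κ ∈ A, plz_ab p κ) :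
      MvPolynomial (Ib r n) ℂ →ₐ[ℂ] Z (m + m) r) F) =
      (aeval (fun p => ∑ κ ∈ A, plz_ab p κ) : MvPolynomial (Ib r n) ℂ →ₐ[ℂ] Z (m + m) r)
        (DE i j F) := by
    intro A
    set g : MvPolynomial (Ib r n) ℂ →ₐ[ℂ] Z (m + m) r := aeval (fun p => ∑ κ ∈ A, plz_ab p κ)
      with hg
    have hXt : ∀ τ : Fin (n + 1) → Fin r, g (Xt τ) = ∑ κ ∈ A, ∏ b : Fin (n + 1),
        (Fin.cons (fun c => X (Fin.natAdd m κ, c)) (fun _ => fun c => X (Fin.castAdd m κ, c)) :
          Fin (n + 1) → Fin r → Z (m + m) r) b (τ b) := by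
      intro τ
      unfold Xt
      rw [hg, aeval_X]
      refine Finset.sum_congr rfl fun k _ => ?_
      rw [Fin.prod_univ_succ]
      unfold plz_ab
      rw [sy_val, Multiset.map_map]
      rfl
    have hX : ∀ p : Ib r n, DZ i j (g (X p)) = g (DE i j (X p)) := by
      intro p
      obtain ⟨τ, hτ⟩ := Xt_surj p
      rw [← hτ, DE_Xt, hXt, map_sum, map_sum]
      have h1 : ∀ b : Fin (n + 1), g (if τ b = j then Xt (Function.update τ b i) else 0)
          = if τ b = j then g (Xt (Function.update τ b i)) else 0 := by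
        intro b
        split_ifs
        · rfl
        · exact map_zero g
      rw [Finset.sum_congr rfl fun b _ => h1 b]
      simp only [hXt]
      have h2 : ∀ κ ∈ A, DZ i j (∏ b : Fin (n + 1),
          (Fin.cons (fun c => X (Fin.natAdd m κ, c)) (fun _ => fun c => X (Fin.castAdd m κ, c)) :
            Fin (n + 1) → Fin r → Z (m + m) r) b (τ b)) =
          ∑ b : Fin (n + 1), if τ b = j then ∏ c : Fin (n + 1),
          (Fin.cons (fun c => X (Fin.natAdd m κ, c)) (fun _ => fun c => X (Fin.castAdd m κ, c)) :
            Fin (n + 1) → Fin r → Z (m + m) r) c (Function.update τ b i c) else 0 := by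
        intro κ _
        apply plz_dprod
        intro b c
        refine Fin.cases ?_ (fun b => ?_) b
        · simp only [Fin.cons_zero]
          exact plz_DZ_X i j c _
        · simp only [Fin.cons_succ]
          exact plz_DZ_X i j c _
      rw [Finset.sum_congr rfl h2, Finset.sum_comm]
      refine Finset.sum_congr rfl fun b _ => ?_
      by_cases h : τ b = j
      · simp only [if_pos h]
      · simp only [if_neg h, Finset.sum_const_zero]
    induction F using MvPolynomial.induction_on with
    | C a =>
      rw [← MvPolynomial.algebraMap_eq, AlgHom.commutes, Derivation.map_algebraMap,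
        Derivation.map_algebraMap, map_zero]
    | add p q hp hq => rw [map_add, map_add, hp, hq, map_add, map_add]
    | mul_X p n hp =>
      rw [map_mul, Derivation.leibniz, Derivation.leibniz, map_add, smul_eq_mul, smul_eq_mul,
        smul_eq_mul, smul_eq_mul, map_mul, map_mul, hp, hX]
  unfold plz_Q
  rw [LinearMap.sum_apply, LinearMap.sum_apply, map_sum]
  refine Finset.sum_congr rfl fun A _ => ?_
  rw [LinearMap.smul_apply, LinearMap.smul_apply, Derivation.map_smul]
  exact congrArg _ (hA A).symm

/-! ### the exponents -/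

/-- the exponent of the monomial `plz_ab p κ` -/
noncomputable def plz_mo {r n m : ℕ} (p : Ib r n) (κ : Fin m) : (Fin (m + m) × Fin r) →₀ ℕ :=
  Finsupp.single (Fin.natAdd m κ, p.1) 1 +
    (p.2.1.map fun c => Finsupp.single (Fin.castAdd m κ, c) 1).sum

private theorem plz_prod {I J : Type} (M : Multiset J) (f : J → I) :
    (M.map fun c => (X (f c) : MvPolynomial I ℂ)).prod =
      monomial (M.map fun c => Finsupp.single (f c) 1).sum 1 := by
  induction M using Multiset.induction_on with
  | empty => simp
  | cons a M ih =>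
    rw [Multiset.map_cons, Multiset.prod_cons, ih, Multiset.map_cons, Multiset.sum_cons, X,
      monomial_mul, one_mul]

private theorem plz_ab_eq {r n m : ℕ} (p : Ib r n) (κ : Fin m) :
    plz_ab p κ = monomial (plz_mo p κ) 1 := by
  unfold plz_ab plz_mo
  rw [plz_prod, X, monomial_mul, one_mul]

private theorem plz_sum_apply {I J : Type} (M : Multiset J) (f : J → (I →₀ ℕ)) (z : I) :
    (M.map f).sum z = (M.map fun c => f c z).sum := by
  induction M using Multiset.induction_on with
  | empty => simp
  | cons a M ih => simp only [Multiset.map_cons, Multiset.sum_cons, Finsupp.add_apply, ih]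

private theorem plz_count {s : ℕ} (M : Multiset (Fin s)) (a : Fin s) :
    (M.map fun c => if c = a then 1 else 0).sum = M.count a := by
  induction M using Multiset.induction_on with
  | empty => simp
  | cons b M ih =>
    rw [Multiset.map_cons, Multiset.sum_cons, ih, Multiset.count_cons]
    by_cases h : b = a
    · rw [if_pos h, if_pos h.symm, add_comm]
    · rw [if_neg h, if_neg (Ne.symm h), zero_add, add_zero]

private theorem plz_ne {m : ℕ} (κ κ' : Fin m) : Fin.natAdd m κ ≠ Fin.castAdd m κ' := by
  intro h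
  have h1 := congrArg Fin.val h
  have h2 := κ'.isLt
  simp only [Fin.val_natAdd, Fin.val_castAdd] at h1
  omega

private theorem plz_mo_x {r n m : ℕ} (p : Ib r n) (κ κ' : Fin m) (c : Fin r) :
    plz_mo p κ' (Fin.castAdd m κ, c) = if κ' = κ then p.2.1.count c else 0 := by
  unfold plz_mo
  rw [Finsupp.add_apply, Finsupp.single_apply, if_neg, zero_add, plz_sum_apply]
  · by_cases h : κ' = κ
    · subst h
      rw [if_pos rfl, ← plz_count]
      congr 1
      refine Multiset.map_congr rfl fun c' _ => ?_
      rw [Finsupp.single_apply]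
      by_cases h : c' = c
      · rw [if_pos h, if_pos (by rw [h])]
      · rw [if_neg h, if_neg (fun h' => h (Prod.mk.inj h').2)]
    · rw [if_neg h]
      have e : ∀ c', (Finsupp.single ((Fin.castAdd m κ', c') : Fin (m + m) × Fin r) 1 :
          (Fin (m + m) × Fin r) →₀ ℕ) (Fin.castAdd m κ, c) = 0 := by
        intro c'
        rw [Finsupp.single_apply, if_neg]
        intro h'
        exact h (Fin.castAdd_injective m m (Prod.mk.inj h').1)
      simp only [e]
      simp
  · intro h
    exact plz_ne κ' κ (Prod.mk.inj h).1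

private theorem plz_mo_y {r n m : ℕ} (p : Ib r n) (κ κ' : Fin m) (c : Fin r) :
    plz_mo p κ' (Fin.natAdd m κ, c) = if κ' = κ ∧ p.1 = c then 1 else 0 := by
  unfold plz_mo
  rw [Finsupp.add_apply, plz_sum_apply]
  have e : ∀ c', (Finsupp.single ((Fin.castAdd m κ', c') : Fin (m + m) × Fin r) 1 :
      (Fin (m + m) × Fin r) →₀ ℕ) (Fin.natAdd m κ, c) = 0 := by
    intro c'
    rw [Finsupp.single_apply, if_neg]
    intro h'
    exact plz_ne κ κ' (Prod.mk.inj h').1.symm
  simp only [e]
  rw [Finsupp.single_apply]
  have h0 : (Multiset.map (fun _ : Fin r => 0) p.2.1).sum = 0 := by simp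
  rw [h0, add_zero]
  by_cases h : κ' = κ ∧ p.1 = c
  · rw [if_pos h, if_pos (by rw [h.1, h.2])]
  · rw [if_neg h, if_neg]
    intro h'
    exact h ⟨Fin.natAdd_injective m m (Prod.mk.inj h').1, (Prod.mk.inj h').2⟩

/-- the exponent of a function -/
noncomputable def plz_e {r n m : ℕ} (b : Fin m → Ib r n) : (Fin (m + m) × Fin r) →₀ ℕ :=
  ∑ κ, plz_mo (b κ) κ

private theorem plz_e_x {r n m : ℕ} (b : Fin m → Ib r n) (κ : Fin m) (c : Fin r) :
    plz_e b (Fin.castAdd m κ, c) = (b κ).2.1.count c := by
  unfold plz_e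
  rw [Finsupp.finsetSum_apply, Finset.sum_eq_single κ]
  · rw [plz_mo_x, if_pos rfl]
  · intro j _ hj
    rw [plz_mo_x, if_neg hj]
  · intro h
    exact absurd (Finset.mem_univ κ) h

private theorem plz_e_y {r n m : ℕ} (b : Fin m → Ib r n) (κ : Fin m) (c : Fin r) :
    plz_e b (Fin.natAdd m κ, c) = if (b κ).1 = c then 1 else 0 := by
  unfold plz_e
  rw [Finsupp.finsetSum_apply, Finset.sum_eq_single κ]
  · rw [plz_mo_y]
    simp
  · intro j _ hj
    rw [plz_mo_y, if_neg (fun h => hj h.1)]
  · intro h
    exact absurd (Finset.mem_univ κ) h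

private theorem plz_e_inj {r n m : ℕ} {b b' : Fin m → Ib r n} (h : plz_e b = plz_e b') :
    b = b' := by
  funext κ
  refine Prod.ext ?_ (Subtype.ext (Multiset.ext.mpr fun c => ?_))
  · have h1 := congrArg (fun f => f (Fin.natAdd m κ, (b κ).1)) h
    simp only [plz_e_y] at h1
    by_contra h2
    rw [if_pos trivial, if_neg (fun h3 => h2 h3.symm)] at h1
    exact one_ne_zero h1
  · have h1 := congrArg (fun f => f (Fin.castAdd m κ, c)) h
    simpa only [plz_e_x] using h1

/-! ### the image of a monomial -/

private theorem plz_Q_prod {r n m : ℕ} (a : Fin m → Ib r n) :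
    plz_Q r n m (∏ t, X (a t)) =
      ∑ σ : Equiv.Perm (Fin m), monomial (plz_e fun i => a (σ.symm i)) 1 := by
  have h := kPol m (Z (m + m) r) (Ib r n) (fun b i => plz_ab b i) a
  have h1 : plz_Q r n m (∏ t, X (a t)) = ∑ σ : Equiv.Perm (Fin m), ∏ t, plz_ab (a t) (σ t) := by
    rw [← h]
    unfold plz_Q
    simp only [LinearMap.sum_apply, LinearMap.smul_apply, AlgHom.toLinearMap_apply, map_prod,
      aeval_X]
  rw [h1]
  refine Finset.sum_congr rfl fun σ _ => ?_
  simp only [plz_ab_eq]
  rw [← monomial_sum_one]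
  unfold plz_e
  rw [← Equiv.sum_comp σ (fun x => plz_mo (a (σ.symm x)) x)]
  simp only [Equiv.symm_apply_apply]

private theorem plz_weight {r n m : ℕ} (b : Fin m → Ib r n) :
    Finsupp.weight WZ (plz_e b) =
      (∑ κ, wt (b κ), Fin.addCases (fun _ => (n : ℤ)) fun _ => 1) := by
  have h1 : ∀ (p : Ib r n) (κ : Fin m), Finsupp.weight WZ (plz_mo p κ) =
      (wt p, sg (Fin.natAdd m κ) + n • sg (Fin.castAdd m κ)) := by
    intro p κ
    unfold plz_mo
    rw [map_add, map_multiset_sum, Multiset.map_map, Finsupp.weight_single, one_smul]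
    have h2 : ∀ M : Multiset (Fin r), (M.map ((Finsupp.weight (WZ (K := m + m))) ∘
        fun c => Finsupp.single ((Fin.castAdd m κ, c) : Fin (m + m) × Fin r) 1)).sum =
        ((M.map sg).sum, M.card • sg (Fin.castAdd m κ)) := by
      intro M
      induction M using Multiset.induction_on with
      | empty =>
        simp only [Multiset.map_zero, Multiset.sum_zero, Multiset.card_zero, zero_smul]
        rfl
      | cons a M ih =>
        rw [Multiset.map_cons, Multiset.sum_cons, ih, Multiset.map_cons, Multiset.sum_cons,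
          Multiset.card_cons, Function.comp_apply, Finsupp.weight_single, one_smul, WZ,
          Prod.mk_add_mk, succ_nsmul']
    rw [h2, p.2.2]
    rfl
  unfold plz_e
  rw [map_sum]
  simp only [h1]
  refine Prod.ext ?_ ?_
  · rw [Prod.fst_sum]
  · rw [Prod.snd_sum]
    funext z
    rw [Finset.sum_apply]
    simp only [Pi.add_apply, Pi.smul_apply]
    simp only [nsmul_eq_mul, sg, Pi.single_apply]
    refine Fin.addCases (fun κ => ?_) (fun κ => ?_) z
    · rw [Fin.addCases_left, Finset.sum_eq_single κ]
      · rw [if_neg (plz_ne κ κ).symm, if_pos rfl]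
        simp
      · intro κ' _ h
        rw [if_neg (plz_ne κ' κ).symm, if_neg (fun h' => h (Fin.castAdd_injective m m h').symm)]
        simp
      · intro h
        exact absurd (Finset.mem_univ κ) h
    · rw [Fin.addCases_right, Finset.sum_eq_single κ]
      · rw [if_neg (plz_ne κ κ), if_pos rfl]
        simp
      · intro κ' _ h
        rw [if_neg (plz_ne κ κ'), if_neg (fun h' => h (Fin.natAdd_injective m m h').symm)]
        simp
      · intro h
        exact absurd (Finset.mem_univ κ) h

private theorem plz_coeff {r n m : ℕ} (a b : Fin m → Ib r n) :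
    coeff (plz_e b) (plz_Q r n m (∏ t, X (a t))) =
      ((univ.filter fun σ : Equiv.Perm (Fin m) => (fun i => a (σ.symm i)) = b).card : ℂ) := by
  rw [plz_Q_prod, coeff_sum, Finset.card_filter]
  push_cast
  refine Finset.sum_congr rfl fun σ _ => ?_
  rw [coeff_monomial]
  by_cases h : (fun i => a (σ.symm i)) = b
  · rw [if_pos h, if_pos (by rw [h])]
  · rw [if_neg h, if_neg fun h' => h (plz_e_inj h')]

theorem kPlz : PlzStmt := by
  intro r n m
  refine ⟨plz_Q r n m, plz_equi, ?_⟩
  intro ν F hF
  have hdeg : ∀ d ∈ F.support, d.degree = m := by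
    intro d hd
    have h1 : Finsupp.weight WT d = (ν, (m : ℤ)) := hF (mem_support_iff.1 hd)
    have h2 := weight_snd d
    rw [h1] at h2
    have h3 : (m : ℤ) = (d.degree : ℤ) := h2
    exact_mod_cast h3.symm
  by_cases hF0 : F = 0
  · subst hF0
    exact ⟨by rw [map_zero]; exact isWeightedHomogeneous_zero _ _ _, fun _ => rfl⟩
  have hch : ∀ d : Ib r n →₀ ℕ, ∃ a : Fin m → Ib r n, d ∈ F.support →
      ∑ t, Finsupp.single (a t) 1 = d := by
    intro d
    by_cases hd : d ∈ F.support
    · obtain ⟨a, ha⟩ := inj_tuple d (hdeg d hd)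
      exact ⟨a, fun _ => ha⟩
    · obtain ⟨d', hd'⟩ := MvPolynomial.ne_zero_iff.1 hF0
      obtain ⟨a, _⟩ := inj_tuple d' (hdeg d' (mem_support_iff.2 hd'))
      exact ⟨a, fun h => absurd h hd⟩
  choose a ha using hch
  have hFs : F = ∑ d ∈ F.support, coeff d F • ∏ t, X (a d t) := by
    conv_lhs => rw [← support_sum_monomial_coeff F]
    refine Finset.sum_congr rfl fun d hd => ?_
    rw [← inj_mono, ha d hd, smul_monomial, smul_eq_mul, mul_one]
  have hwt : ∀ d ∈ F.support, ∑ t, wt (a d t) = ν := by
    intro d hd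
    have h1 : Finsupp.weight WT d = (ν, (m : ℤ)) := hF (mem_support_iff.1 hd)
    rw [← ha d hd, map_sum] at h1
    have h2 := congrArg Prod.fst h1
    rw [Prod.fst_sum] at h2
    simp only [Finsupp.weight_single, one_smul, WT] at h2
    exact h2
  refine ⟨?_, fun hQ => ?_⟩
  · rw [hFs, map_sum]
    refine IsWeightedHomogeneous.sum _ _ _ fun d hd => ?_
    rw [map_smul, plz_Q_prod, ← mem_weightedHomogeneousSubmodule ℂ]
    refine Submodule.smul_mem _ _ (Submodule.sum_mem _ fun σ _ => ?_)
    rw [mem_weightedHomogeneousSubmodule]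
    refine isWeightedHomogeneous_monomial _ _ _ ?_
    rw [plz_weight]
    congr 1
    rw [← hwt d hd]
    exact Equiv.sum_comp σ.symm fun t => wt (a d t)
  · by_contra hne
    obtain ⟨d₀, hd₀⟩ := MvPolynomial.ne_zero_iff.1 hne
    have hd₀' : d₀ ∈ F.support := mem_support_iff.2 hd₀
    have h1 : coeff (plz_e (a d₀)) (plz_Q r n m F) = 0 := by rw [hQ, coeff_zero]
    rw [hFs] at h1
    rw [map_sum, coeff_sum] at h1
    simp only [map_smul, coeff_smul, plz_coeff, smul_eq_mul] at h1
    rw [Finset.sum_eq_single d₀] at h1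
    · have h2 : 0 < (univ.filter fun σ : Equiv.Perm (Fin m) =>
          (fun i => a d₀ (σ.symm i)) = a d₀).card := by
        rw [Finset.card_pos]
        exact ⟨1, Finset.mem_filter.mpr ⟨Finset.mem_univ _, rfl⟩⟩
      rcases mul_eq_zero.mp h1 with h3 | h3
      · exact hd₀ h3
      · have h4 : (univ.filter fun σ : Equiv.Perm (Fin m) =>
          (fun i => a d₀ (σ.symm i)) = a d₀).card = 0 := by exact_mod_cast h3
        omega
    · intro d hd hdd
      have h2 : (univ.filter fun σ : Equiv.Perm (Fin m) =>
          (fun i => a d (σ.symm i)) = a d₀) = ∅ := by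
        rw [Finset.filter_eq_empty_iff]
        intro σ _ hσ
        apply hdd
        rw [← ha d hd, ← ha d₀ hd₀', ← hσ]
        exact (Equiv.sum_comp σ.symm fun t => Finsupp.single (a d t) 1).symm
      rw [h2, Finset.card_empty, Nat.cast_zero, mul_zero]
    · intro h
      exact absurd hd₀' h

end T3

end Pool.Agent.Lib.MP_a688ad_al
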