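import Pool.Agent.Lib.MP_a688ad_al.T3.SpecL

/-!
# MP_a688ad_al, all large `n`: injectivity of the symmetrization
-/

set_option autoImplicit false

open MvPolynomial Finset

namespace Pool.Agent.Lib.MP_a688ad_al

namespace T3

open T2

/-- Homogeneous elements of distinct weights are independent. -/
theorem psiI_indep {σ M ι : Type} [AddCommMonoid M] (w : σ → M) (s : Finset ι)
    (f : ι → MvPolynomial σ ℂ) (m : ι → M) (h : ∀ i ∈ s, IsWeightedHomogeneous w (f i) (m i))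
    (hm : ∀ i ∈ s, ∀ j ∈ s, m i = m j → i = j) (h0 : ∑ i ∈ s, f i = 0) : ∀ i ∈ s, f i = 0 := by
  classical
  intro i hi
  have h1 : weightedHomogeneousComponent w (m i) (∑ j ∈ s, f j) = f i := by
    rw [map_sum, Finset.sum_eq_single i]
    · exact (h i hi).weightedHomogeneousComponent_same
    · intro j hj hji
      exact (h j hj).weightedHomogeneousComponent_ne _ fun h2 => hji (hm j hj i hi h2.symm)
    · intro h2
      exact absurd hi h2
  rw [← h1, h0, map_zero]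

theorem kPsiI (_h1 : RscStmt) (h2 : PsiSStmt) (h3 : VdmStmt) : PsiIStmt := by
  classical
  intro r k K β βY βθ c cY cθ c' qY qθ Y θ θ' F hk hF hY hθ hθ' hsym hq hY0 hθ'0 hdis h0 b
  set ζ := (k + 1).factorial with hζ
  have hζ0 : 0 < ζ := Nat.factorial_pos _
  have hb := b.2
  have hKζ : ∀ b' : Fin K, ((b' : ℕ) + 1) * ζ ≤ K * ζ := fun b' =>
    Nat.mul_le_mul_right ζ b'.2
  -- the summands are homogeneous of distinct weights
  have hx : ∀ b' : Fin K, ∀ t < ζ, (b' : ℕ) * ζ + t ≤ K * ζ - 1 := by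
    intro b' t ht
    have h5 := hKζ b'
    rw [add_mul, one_mul] at h5
    omega
  have h0' : ∑ p ∈ (univ : Finset (Fin K)) ×ˢ range ζ,
      psx (K * ζ - 1) Y θ θ' (F p.1) ((p.1 : ℕ) * ζ + p.2) = 0 := by
    rw [Finset.sum_product]
    exact h0
  have hz := psiI_indep (WE : Fin (k + 1) × Fin r ⊕ Ib r k → _) _ _
    (fun p : Fin K × ℕ => (β + βY + ((K * ζ - 1 : ℕ) : ℤ) • βθ, (fun _ : Fin (k + 1) =>
      c + cY + (((p.1 : ℕ) * ζ + p.2 : ℕ) : ℤ) * cθ
        + (((K * ζ - 1 : ℕ) : ℤ) - (((p.1 : ℕ) * ζ + p.2 : ℕ) : ℤ)) * c'),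
      qY + (((p.1 : ℕ) * ζ + p.2 : ℕ) : ℤ) * qθ))
    (fun p hp => (h2 r k (K * ζ - 1) β βY βθ c cY cθ c' qY qθ Y θ θ' (F p.1) (hF p.1) hY hθ hθ' hsym
      ((p.1 : ℕ) * ζ + p.2) (hx p.1 p.2 (Finset.mem_range.1 (Finset.mem_product.1 hp).2))).1.hom)
    (by
      rintro ⟨b1, t1⟩ hp ⟨b2, t2⟩ hp' he
      have ht1 : t1 < ζ := Finset.mem_range.1 (Finset.mem_product.1 hp).2
      have ht2 : t2 < ζ := Finset.mem_range.1 (Finset.mem_product.1 hp').2
      have e1 : qY + (((b1 : ℕ) * ζ + t1 : ℕ) : ℤ) * qθ = qY + (((b2 : ℕ) * ζ + t2 : ℕ) : ℤ) * qθ :=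
        congrArg (fun z => z.2.2) he
      have e2 : (((b1 : ℕ) * ζ + t1 : ℕ) : ℤ) = (((b2 : ℕ) * ζ + t2 : ℕ) : ℤ) :=
        mul_right_cancel₀ hq.ne' (add_left_cancel e1)
      have e3 : (b1 : ℕ) * ζ + t1 = (b2 : ℕ) * ζ + t2 := by exact_mod_cast e2
      have e4 : (b1 : ℕ) = b2 := by
        have a1 : ((b1 : ℕ) * ζ + t1) / ζ = b1 := by
          rw [mul_comm, Nat.mul_add_div hζ0, Nat.div_eq_of_lt ht1, add_zero]
        have a2 : ((b2 : ℕ) * ζ + t2) / ζ = b2 := by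
          rw [mul_comm, Nat.mul_add_div hζ0, Nat.div_eq_of_lt ht2, add_zero]
        rw [← a1, ← a2, e3]
      have e5 : t1 = t2 := by
        rw [e4] at e3
        omega
      rw [e5, Fin.ext e4]) h0'
  -- all the sums vanish
  have hs : ∀ t < ζ, ∑ σ : Equiv.Perm (Fin (k + 1)), rs σ (F b * Y * θ ^ ((b : ℕ) * ζ)) * (rs σ θ) ^ t
      = 0 := by
    intro t ht
    have h5 := hz (b, t) (Finset.mem_product.2 ⟨Finset.mem_univ _, Finset.mem_range.2 ht⟩)
    unfold psx at h5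
    have h6 := (mul_eq_zero.1 h5).resolve_right (pow_ne_zero _ hθ'0)
    rw [← h6]
    refine Finset.sum_congr rfl fun σ _ => ?_
    simp only [map_mul, map_pow]
    rw [pow_add]
    ring
  have h6 := h3 r k θ (F b * Y * θ ^ ((b : ℕ) * ζ)) hdis hs
  have hθ0 : θ ≠ 0 := by
    rintro rfl
    refine hdis (Equiv.swap 0 (Fin.last k)) ?_ (map_zero _)
    intro h7
    have h8 := Equiv.swap_eq_one_iff.1 h7
    have h9 := congrArg Fin.val h8
    simp only [Fin.val_zero, Fin.val_last] at h9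
    omega
  rcases mul_eq_zero.1 h6 with h7 | h7
  · exact (mul_eq_zero.1 h7).resolve_right hY0
  · exact absurd h7 (pow_ne_zero _ hθ0)

end T3

end Pool.Agent.Lib.MP_a688ad_al
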