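import Pool.Agent.Lib.MP_a688ad_al.T3.SpecL

/-!
# MP_a688ad_al, T3: symmetrization of scalars
-/

set_option autoImplicit false

open MvPolynomial Finset

namespace Pool.Agent.Lib.MP_a688ad_al

namespace T3

open T2

theorem kPsiS (h : RscStmt) : PsiSStmt := by
  classical
  intro r k M β βY βθ c cY cθ c' qY qθ Y θ θ' F hF hY hθ hθ' hsym x hx
  obtain ⟨h1, h2, h3, _, _, _⟩ := h
  constructor
  · unfold psx
    have ha := (hF.mul hY).mul (hθ.pow x)
    have hb : Sc (β + βY + x • βθ) ((fun _ => c) + (fun _ => cY) + x • (fun _ => cθ))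
        (0 + qY + x • qθ) (∑ σ : Equiv.Perm (Fin (k + 1)), rs σ (F * Y * θ ^ x)) := by
      apply Sc.sum
      intro σ _
      exact h1 r k σ _ _ _ _ ha
    have hc := hb.mul (hθ'.pow (M - x))
    have e1 : β + βY + x • βθ + (M - x) • βθ = β + βY + (M : ℤ) • βθ := by
      rw [add_assoc, ← add_smul, Nat.add_sub_cancel' hx, natCast_zsmul]
    have e2 : (fun _ : Fin (k + 1) => c) + (fun _ => cY) + x • (fun _ => cθ) +
        (M - x) • (fun _ => c') = fun _ => c + cY + x * cθ + ((M : ℤ) - x) * c' := by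
      funext i
      show c + cY + x • cθ + (M - x) • c' = c + cY + x * cθ + ((M : ℤ) - x) * c'
      rw [nsmul_eq_mul, nsmul_eq_mul, Nat.cast_sub hx]
    have e3 : 0 + qY + x • qθ + (M - x) • (0 : ℤ) = qY + x * qθ := by
      rw [smul_zero, add_zero, zero_add, nsmul_eq_mul]
    rw [e1, e2, e3] at hc
    exact hc
  · intro σ
    unfold psx
    rw [map_mul, map_pow, hsym, map_sum]
    congr 1
    rw [← Equiv.sum_comp (Equiv.mulLeft σ) (fun τ => rs τ (F * Y * θ ^ x))]
    refine Finset.sum_congr rfl fun τ _ => ?_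
    rw [Equiv.coe_mulLeft, h2]

end T3

end Pool.Agent.Lib.MP_a688ad_al
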