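import Pool.Agent.Lib.MP_a688ad_al.T3.SpecB

/-!
# MP_a688ad_al, all large `n`, module Rad: radical of the ideal of elementary symmetric functions
-/

set_option autoImplicit false

open MvPolynomial Finset

namespace Pool.Agent.Lib.MP_a688ad_al

namespace T3

open T2

/-- the subspace of the linear forms which are in `P` for the particle `κ` -/
private noncomputable def radW {k r : ℕ} (P : Ideal (Z (k + 1) r)) (κ : Fin (k + 1)) :
    Submodule ℂ (Fin r → ℂ) where
  carrier := {l | (∑ i, C (l i) * X (κ, i) : Z (k + 1) r) ∈ P}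
  add_mem' := by
    intro a b ha hb
    have e : (∑ i, C ((a + b) i) * X (κ, i) : Z (k + 1) r)
        = ∑ i, C (a i) * X (κ, i) + ∑ i, C (b i) * X (κ, i) := by
      rw [← Finset.sum_add_distrib]
      refine Finset.sum_congr rfl fun i _ => ?_
      rw [Pi.add_apply, C_add, add_mul]
    show (∑ i, C ((a + b) i) * X (κ, i) : Z (k + 1) r) ∈ P
    rw [e]
    exact P.add_mem ha hb
  zero_mem' := by
    show (∑ i, C ((0 : Fin r → ℂ) i) * X (κ, i) : Z (k + 1) r) ∈ P
    simp
  smul_mem' := by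
    intro c a ha
    have e : (∑ i, C ((c • a) i) * X (κ, i) : Z (k + 1) r)
        = C c * ∑ i, C (a i) * X (κ, i) := by
      rw [Finset.mul_sum]
      refine Finset.sum_congr rfl fun i _ => ?_
      rw [Pi.smul_apply, smul_eq_mul, C_mul, mul_assoc]
    show (∑ i, C ((c • a) i) * X (κ, i) : Z (k + 1) r) ∈ P
    rw [e]
    exact P.mul_mem_left _ ha

theorem kRad (h : ElStmt) : RadStmt := by
  classical
  intro k r a
  set I := Ideal.span (Set.range fun p : Ib r k => (el p : Z (k + 1) r)) with hI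
  suffices hrad : (∏ κ, X (κ, a κ) : Z (k + 1) r) ∈ I.radical from hrad
  rw [Ideal.radical_eq_sInf, Submodule.mem_sInf]
  rintro P ⟨hIP, hP⟩
  have hul : ∀ l : Fin r → ℂ, (ul l : Z (k + 1) r) ∈ P := by
    intro l
    have h1 : Submodule.span ℂ (Set.range fun p : Ib r k => (el p : Z (k + 1) r)) ≤
        P.restrictScalars ℂ := by
      rw [Submodule.span_le]
      rintro _ ⟨p, rfl⟩
      exact hIP (Ideal.subset_span ⟨p, rfl⟩)
    exact h1 ((h k r).2.2.2 l)
  have hcov : ⋃ W ∈ (univ : Finset (Fin (k + 1))).image (radW P), (W : Set (Fin r → ℂ))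
      = Set.univ := by
    rw [Set.eq_univ_iff_forall]
    intro l
    have h1 := hul l
    unfold ul at h1
    rw [hP.prod_mem_iff] at h1
    obtain ⟨κ, _, hκ⟩ := h1
    rw [Set.mem_iUnion₂]
    exact ⟨radW P κ, Finset.mem_image_of_mem _ (Finset.mem_univ κ), hκ⟩
  obtain ⟨κ, _, hκ⟩ := Finset.mem_image.1 (Subspace.top_mem_of_biUnion_eq_univ hcov)
  have h2 : (Pi.single (a κ) 1 : Fin r → ℂ) ∈ radW P κ := by
    rw [hκ]
    exact Submodule.mem_top
  have h3 : (∑ i, C ((Pi.single (a κ) 1 : Fin r → ℂ) i) * X (κ, i) : Z (k + 1) r) ∈ P := h2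
  have h4 : (∑ i, C ((Pi.single (a κ) 1 : Fin r → ℂ) i) * X (κ, i) : Z (k + 1) r)
      = X (κ, a κ) := by
    rw [Finset.sum_eq_single (a κ)]
    · rw [Pi.single_eq_same, C_1, one_mul]
    · intro i _ hi
      rw [Pi.single_eq_of_ne hi, C_0, zero_mul]
    · intro hi
      exact absurd (Finset.mem_univ _) hi
  rw [h4] at h3
  exact hP.prod_mem_iff.2 ⟨κ, Finset.mem_univ κ, h3⟩

end T3

end Pool.Agent.Lib.MP_a688ad_al
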