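import Pool.Agent.Lib.MP_a688ad_al.T3.SpecE

/-!
# MP_a688ad_al, all large `n`: products of squares of minors (module `Rb`)
-/

set_option autoImplicit false

open MvPolynomial Finset

namespace Pool.Agent.Lib.MP_a688ad_al

namespace T3

open T2

section

variable {r k j : ℕ}

private def rbE (j : ℕ) (σ : Equiv.Perm (Fin (k + 1))) :
    (Fin j ↪ Fin (k + 1)) ≃ (Fin j ↪ Fin (k + 1)) where
  toFun c := c.trans σ.toEmbedding
  invFun c := c.trans σ.symm.toEmbedding
  left_inv c := by
    ext t
    simp
  right_inv c := by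
    ext t
    simp

private theorem rb_range (σ : Equiv.Perm (Fin (k + 1))) (c : Fin j ↪ Fin (k + 1))
    (a : Fin (k + 1)) : σ a ∈ Set.range (rbE j σ c) ↔ a ∈ Set.range c := by
  constructor
  · rintro ⟨t, ht⟩
    exact ⟨t, σ.injective ht⟩
  · rintro ⟨t, rfl⟩
    exact ⟨t, rfl⟩

open Classical in
private theorem rb_rs (h2 : RscStmt) (hj : j ≤ r) (s : Prop) (σ : Equiv.Perm (Fin (k + 1)))
    (a : Fin (k + 1)) : rs σ (rb j hj s a : Ex r k) = rb j hj s (σ a) := by
  obtain ⟨-, -, -, h2d, -, -⟩ := h2
  unfold rb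
  rw [map_prod]
  refine Fintype.prod_equiv (rbE j σ) _ _ ?_
  intro c
  by_cases h : (a ∈ Set.range c ↔ s)
  · rw [if_pos h, if_pos (by rw [rb_range]; exact h), map_pow, h2d]
    congr 2
    funext t l
    rw [rs_xx]
    rfl
  · rw [if_neg h, if_neg (by rw [rb_range]; exact h), map_one]

open Classical in
private theorem rb_ev (h3 : EvpStmt) (h4 : PaiStmt) (hj : j ≤ r) (s : Prop) (a : Fin (k + 1))
    (T : Ib r k → ℂ) : evp vp T (rb j hj s a : Ex r k) ≠ 0 := by
  unfold rb
  rw [map_prod, Finset.prod_ne_zero_iff]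
  intro c _
  by_cases h : (a ∈ Set.range c ↔ s)
  · rw [if_pos h, map_pow, (h3 r k vp T).2.2.1]
    refine pow_ne_zero 2 ?_
    have h5 : (fun (t : Fin j) (l : Fin r) => evp vp T ((xx (c t) l : Ex r k))) =
        fun t => (vp (c t) : Fin r → ℂ) := by
      funext t l
      exact (h3 r k vp T).1 (c t) l
    rw [h5]
    exact (h4.2 r k j hj c).mpr c.injective
  · rw [if_neg h, map_one]
    exact one_ne_zero

/-- The number of the factors. -/
private noncomputable def rbN (j : ℕ) (s : Prop) (a : Fin (k + 1)) : ℕ := by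
  classical
  exact ∑ c : Fin j ↪ Fin (k + 1), if (a ∈ Set.range c ↔ s) then 1 else 0

/-- The content. -/
private noncomputable def rbC (j : ℕ) (s : Prop) (a κ : Fin (k + 1)) : ℤ := by
  classical
  exact ∑ c : Fin j ↪ Fin (k + 1),
    if (a ∈ Set.range c ↔ s) then 2 * (if κ ∈ Set.range c then 1 else 0) else 0

private theorem rbN_inv (s : Prop) (σ : Equiv.Perm (Fin (k + 1))) (a : Fin (k + 1)) :
    rbN j s (σ a) = rbN j s a := by
  classical
  unfold rbN
  symm
  refine Fintype.sum_equiv (rbE j σ) _ _ ?_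
  intro c
  have h1 := rb_range σ c a
  refine if_congr ?_ rfl rfl
  rw [h1]

private theorem rbN_const (s : Prop) (a b : Fin (k + 1)) : rbN j s a = rbN j s b := by
  have h := rbN_inv (j := j) s (Equiv.swap a b) a
  rw [Equiv.swap_apply_left] at h
  exact h.symm

private theorem rbC_inv (s : Prop) (σ : Equiv.Perm (Fin (k + 1))) (a κ : Fin (k + 1)) :
    rbC j s (σ a) (σ κ) = rbC j s a κ := by
  classical
  unfold rbC
  symm
  refine Fintype.sum_equiv (rbE j σ) _ _ ?_
  intro c
  have h1 := rb_range σ c a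
  have h2 := rb_range σ c κ
  refine if_congr ?_ ?_ rfl
  · rw [h1]
  · rw [if_congr h2 rfl rfl]

private theorem rb_ind (c : Fin j ↪ Fin (k + 1)) (κ : Fin (k + 1)) [Decidable (κ ∈ Set.range c)] :
    (∑ t, sg (c t) : Fin (k + 1) → ℤ) κ = if κ ∈ Set.range c then 1 else 0 := by
  rw [Finset.sum_apply]
  split_ifs with h
  · obtain ⟨t₀, rfl⟩ := h
    rw [Finset.sum_eq_single t₀]
    · simp [sg]
    · intro t _ ht
      have h2 : c t₀ ≠ c t := fun h => ht (c.injective h).symm
      simp [sg, h2]
    · intro h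
      exact absurd (Finset.mem_univ _) h
  · refine Finset.sum_eq_zero fun t _ => ?_
    have h2 : κ ≠ c t := fun h' => h ⟨t, h'.symm⟩
    simp [sg, h2]

private theorem rb_sc (h1 : BrkStmt) (hj : j ≤ r) (s : Prop) (a : Fin (k + 1)) :
    Sc (((2 * rbN j s a : ℕ) : ℤ) • om j) (rbC j s a) 0 (rb j hj s a : Ex r k) := by
  classical
  have h := Sc.prod (r := r) (k := k) (univ : Finset (Fin j ↪ Fin (k + 1)))
    (fun c => if (a ∈ Set.range c ↔ s) then (2 : ℕ) • om j else 0)
    (fun c => if (a ∈ Set.range c ↔ s) then (2 : ℕ) • ∑ t, sg (c t) else 0)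
    (fun _ => 0)
    (fun c => if (a ∈ Set.range c ↔ s) then brk j hj (fun t => xx (c t)) ^ 2 else 1)
    (fun c _ => by
      by_cases h : (a ∈ Set.range c ↔ s)
      · simp only [if_pos h]
        have h5 := (h1 r k j hj (fun _ => 0) (fun t => sg (c t)) (fun _ => 0)
          (fun t => xx (c t)) (fun t => xx_Cv (c t))).pow 2
        rw [Finset.sum_const_zero, Finset.sum_const_zero, add_zero, smul_zero] at h5
        exact h5
      · simp only [if_neg h]
        exact Sc.one)
  have e1 : (((2 * rbN j s a : ℕ) : ℤ) • om j : Fin r → ℤ) =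
      ∑ c : Fin j ↪ Fin (k + 1), if (a ∈ Set.range c ↔ s) then (2 : ℕ) • om j else 0 := by
    rw [← Finset.sum_filter, Finset.sum_const]
    have e2 : rbN j s a = #{c : Fin j ↪ Fin (k + 1) | (a ∈ Set.range c ↔ s)} := by
      unfold rbN
      rw [Finset.card_filter]
    rw [e2, natCast_zsmul, smul_smul, mul_comm]
  have e2 : rbC j s a = ∑ c : Fin j ↪ Fin (k + 1),
      if (a ∈ Set.range c ↔ s) then (2 : ℕ) • ∑ t, (sg (c t) : Fin (k + 1) → ℤ) else 0 := by
    funext κ
    rw [Finset.sum_apply]
    unfold rbC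
    refine Finset.sum_congr rfl fun c _ => ?_
    split_ifs with h h'
    · rw [Pi.smul_apply, rb_ind, if_pos h']
      rfl
    · rw [Pi.smul_apply, rb_ind, if_neg h']
      rfl
    · rfl
  rw [e1, e2]
  rw [Finset.sum_const_zero] at h
  exact h

/-- An embedding with a given set of values. -/
private theorem rb_emb (s : Finset (Fin (k + 1))) (hs : s.card = j) :
    ∃ c : Fin j ↪ Fin (k + 1), Set.range c = (s : Set (Fin (k + 1))) :=
  ⟨(s.orderEmbOfFin hs).toEmbedding, s.range_orderEmbOfFin hs⟩

/-- An embedding with a value `a`, without the value `κ`. -/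
private theorem rb_ex (h1 : 1 ≤ j) (h2 : j ≤ k) {a κ : Fin (k + 1)} (h : a ≠ κ) :
    ∃ c : Fin j ↪ Fin (k + 1), a ∈ Set.range c ∧ κ ∉ Set.range c := by
  obtain ⟨s, hs1, hs2, hs3⟩ := Finset.exists_subsuperset_card_eq (n := j)
    (s := {a}) (t := univ.erase κ) (by simpa using h) (by simpa using h1)
    (by rw [Finset.card_erase_of_mem (Finset.mem_univ _)]; simpa using h2)
  obtain ⟨c, hc⟩ := rb_emb s hs3
  refine ⟨c, ?_, ?_⟩
  · rw [hc]
    exact hs1 (Finset.mem_singleton_self a)
  · rw [hc]
    intro h3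
    exact absurd (hs2 h3) (Finset.notMem_erase κ univ)

end

theorem kRb (h1 : BrkStmt) (h2 : RscStmt) (h3 : EvpStmt) (h4 : PaiStmt) (h5 : IvStmt) :
    RbStmt := by
  classical
  intro r k j hj hj1 hjk
  refine ⟨fun s σ a => rb_rs h2 hj s σ a, fun s a T => rb_ev h3 h4 hj s a T, ?_, ?_⟩
  · obtain ⟨A, B, hAB⟩ := h5 k (rbC j True) (fun σ a κ => rbC_inv True σ a κ)
    refine ⟨2 * rbN j True (0 : Fin (k + 1)), A, B, ?_, fun a => ?_⟩
    · have hk1 : (0 : Fin (k + 1)) ≠ Fin.last k := by
        intro h
        have := congrArg Fin.val h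
        simp at this
        omega
      have e1 := hAB 0 0
      have e2 := hAB 0 (Fin.last k)
      rw [if_pos rfl] at e1
      rw [if_neg hk1.symm, add_zero] at e2
      have e3 : rbC j True (0 : Fin (k + 1)) (Fin.last k) < rbC j True (0 : Fin (k + 1)) 0 := by
        unfold rbC
        refine Finset.sum_lt_sum (fun c _ => ?_) ?_
        · by_cases h : (0 : Fin (k + 1)) ∈ Set.range c
          · simp only [h, if_true]
            split_ifs <;> norm_num
          · simp only [h, iff_true, if_false]
            exact le_rfl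
        · obtain ⟨c, hc1, hc2⟩ := rb_ex hj1 hjk hk1
          refine ⟨c, Finset.mem_univ _, ?_⟩
          simp only [hc1, hc2, if_true, if_false]
          norm_num
      linarith
    · have h := rb_sc h1 hj True a
      have e : rbC j True a = fun κ => A + if κ = a then B else 0 := by
        funext κ
        exact hAB a κ
      rw [e, rbN_const True a 0] at h
      exact h
  · obtain ⟨A, B, hAB⟩ := h5 k (rbC j False) (fun σ a κ => rbC_inv False σ a κ)
    refine ⟨2 * rbN j False (0 : Fin (k + 1)), A, B, ?_, fun a => ?_⟩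
    · have hk1 : (0 : Fin (k + 1)) ≠ Fin.last k := by
        intro h
        have := congrArg Fin.val h
        simp at this
        omega
      have e1 := hAB 0 0
      have e2 := hAB 0 (Fin.last k)
      rw [if_pos rfl] at e1
      rw [if_neg hk1.symm, add_zero] at e2
      have e3 : rbC j False (0 : Fin (k + 1)) 0 < rbC j False 0 (Fin.last k) := by
        unfold rbC
        refine Finset.sum_lt_sum (fun c _ => ?_) ?_
        · by_cases h : (0 : Fin (k + 1)) ∈ Set.range c
          · simp only [h, iff_false, not_true, if_false]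
            exact le_rfl
          · simp only [h, if_true, if_false]
            split_ifs <;> norm_num
        · obtain ⟨c, hc1, hc2⟩ := rb_ex hj1 hjk hk1.symm
          refine ⟨c, Finset.mem_univ _, ?_⟩
          simp only [hc1, hc2, if_true, if_false]
          norm_num
      linarith
    · have h := rb_sc h1 hj False a
      have e : rbC j False a = fun κ => A + if κ = a then B else 0 := by
        funext κ
        exact hAB a κ
      rw [e, rbN_const False a 0] at h
      exact h

end T3

end Pool.Agent.Lib.MP_a688ad_al
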