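import Pool.Agent.Lib.MP_a688ad_al.T3.SpecU

/-!
# MP_a688ad_al, D2: many columns of some height
-/

set_option autoImplicit false

open MvPolynomial Finset

namespace Pool.Agent.Lib.MP_a688ad_al

namespace T3

open T2

private theorem reg_ht {K : ℕ} (a : Finset (Fin K) → ℕ) (j : ℕ) :
    ht a (j + 1) + row a (j + 1) = row a j := by
  unfold ht row
  rw [← Finset.sum_add_distrib]
  refine Finset.sum_congr rfl (fun C _ => ?_)
  split_ifs <;> omega

private theorem reg_total {m n : ℕ} (hm : 1 ≤ m) (a : Finset (Fin (m + m)) → ℕ) (ha : S1 m n a) :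
    ∑ C, C.card * a C = m * n := by
  have h1 : ∑ C : Finset (Fin (m + m)), C.card * a C = ∑ κ, cont a κ := by
    unfold cont
    rw [Finset.sum_comm]
    refine Finset.sum_congr rfl (fun C _ => ?_)
    rw [Finset.sum_ite_mem, Finset.univ_inter, Finset.sum_const, smul_eq_mul]
  rw [h1, Fin.sum_univ_add, Finset.sum_congr rfl (fun κ _ => ha.2.2 κ), Finset.sum_const,
    Finset.card_univ, Fintype.card_fin, smul_eq_mul, mul_one]
  have h2 : ∑ κ : Fin m, cont a (Fin.castAdd m κ) + m = m * n := by
    calc ∑ κ : Fin m, cont a (Fin.castAdd m κ) + m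
        = ∑ κ : Fin m, cont a (Fin.castAdd m κ) + ∑ κ : Fin m, 1 := by simp
      _ = ∑ κ : Fin m, (cont a (Fin.castAdd m κ) + 1) := by rw [Finset.sum_add_distrib]
      _ = ∑ κ : Fin m, n := Finset.sum_congr rfl (fun κ _ => ha.2.1 κ)
      _ = m * n := by simp
  exact h2

private theorem reg_high {m n : ℕ} (a : Finset (Fin (m + m)) → ℕ) (ha : S1 m n a) :
    ∑ C : Finset (Fin (m + m)), (if m < C.card then a C else 0) ≤ m := by
  have h1 : ∑ κ : Fin m, cont a (Fin.natAdd m κ) = m := by
    rw [Finset.sum_congr rfl (fun κ _ => ha.2.2 κ)]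
    simp
  calc ∑ C : Finset (Fin (m + m)), (if m < C.card then a C else 0)
      ≤ ∑ C : Finset (Fin (m + m)), ∑ κ : Fin m, if Fin.natAdd m κ ∈ C then a C else 0 := by
        apply Finset.sum_le_sum
        intro C _
        by_cases h : m < C.card
        · rw [if_pos h]
          have hex : ∃ κ : Fin m, Fin.natAdd m κ ∈ C := by
            by_contra hcon
            push Not at hcon
            have h2 : C ⊆ (univ : Finset (Fin m)).map (Fin.castAddEmb m) := by
              intro x hx
              rw [Finset.mem_map]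
              refine Fin.addCases (motive := fun x => x ∈ C → ∃ a ∈ (univ : Finset (Fin m)),
                Fin.castAddEmb m a = x) ?_ ?_ x hx
              · intro κ _
                exact ⟨κ, Finset.mem_univ _, rfl⟩
              · intro κ hκ
                exact absurd hκ (hcon κ)
            have h3 := Finset.card_le_card h2
            rw [Finset.card_map, Finset.card_univ, Fintype.card_fin] at h3
            omega
          obtain ⟨κ, hκ⟩ := hex
          calc a C = if Fin.natAdd m κ ∈ C then a C else 0 := by rw [if_pos hκ]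
            _ ≤ ∑ κ : Fin m, if Fin.natAdd m κ ∈ C then a C else 0 :=
              Finset.single_le_sum (f := fun κ : Fin m => if Fin.natAdd m κ ∈ C then a C else 0)
                (fun _ _ => Nat.zero_le _) (Finset.mem_univ κ)
        · rw [if_neg h]
          exact Nat.zero_le _
    _ = ∑ κ : Fin m, cont a (Fin.natAdd m κ) := by
        rw [Finset.sum_comm]
        rfl
    _ = m := h1
    _ ≤ m := le_rfl

theorem kReg : RegStmt := by
  intro m D hm
  refine ⟨2 * m * m + m * (m * D), ?_⟩
  intro n hn a ha hrow
  have key : ∑ C, C.card * a C ≤ row a 0 +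
      2 * m * ∑ C : Finset (Fin (m + m)), (if m < C.card then a C else 0) +
      m * ∑ j ∈ Finset.Icc 2 m, ht a j := by
    unfold row ht
    rw [Finset.sum_comm, Finset.mul_sum, Finset.mul_sum, ← Finset.sum_add_distrib,
      ← Finset.sum_add_distrib]
    apply Finset.sum_le_sum
    intro C _
    have hc : C.card ≤ 2 * m := by
      have := Finset.card_le_univ C
      rw [Fintype.card_fin] at this
      omega
    rw [Finset.sum_ite_eq]
    rcases Nat.eq_zero_or_pos C.card with h0 | h0
    · rw [h0, zero_mul]
      exact Nat.zero_le _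
    · rw [if_pos h0]
      by_cases h1 : C.card = 1
      · rw [h1, one_mul, add_assoc]
        exact Nat.le_add_right _ _
      · by_cases h2 : m < C.card
        · rw [if_pos h2]
          have h3 : C.card * a C ≤ 2 * m * a C := Nat.mul_le_mul_right _ hc
          omega
        · rw [if_pos (Finset.mem_Icc.mpr ⟨by omega, by omega⟩)]
          have h3 : C.card * a C ≤ m * a C := Nat.mul_le_mul_right _ (by omega)
          omega
  rw [reg_total hm a ha] at key
  have hh := reg_high a ha
  have hh2 : 2 * m * ∑ C : Finset (Fin (m + m)), (if m < C.card then a C else 0) ≤ 2 * m * m :=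
    Nat.mul_le_mul_left _ hh
  have hex : ∃ j ∈ Finset.Icc 2 m, D ≤ ht a j := by
    by_contra hcon
    push Not at hcon
    have h1 : ∑ j ∈ Finset.Icc 2 m, ht a j ≤ m * D := by
      calc ∑ j ∈ Finset.Icc 2 m, ht a j ≤ ∑ j ∈ Finset.Icc 2 m, D :=
            Finset.sum_le_sum (fun j hj => (hcon j hj).le)
        _ = (Finset.Icc 2 m).card * D := by rw [Finset.sum_const, smul_eq_mul]
        _ ≤ m * D := by
            apply Nat.mul_le_mul_right
            rw [Nat.card_Icc]
            omega
    have h2 : m * ∑ j ∈ Finset.Icc 2 m, ht a j ≤ m * (m * D) := Nat.mul_le_mul_left _ h1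
    omega
  obtain ⟨j, hj, hD⟩ := hex
  rw [Finset.mem_Icc] at hj
  refine ⟨j, hj.1, hj.2, ?_⟩
  intro n' a' _ hrows
  obtain ⟨i, rfl⟩ : ∃ i, j = i + 1 := ⟨j - 1, by omega⟩
  have h1 := reg_ht a i
  have h2 := reg_ht a' i
  rw [hrows i, hrows (i + 1)] at h2
  omega

end T3

end Pool.Agent.Lib.MP_a688ad_al
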