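import Pool.Agent.Lib.MP_a688ad_al.T3.SpecL

/-!
# MP_a688ad_al, all large `n`: comparison of the two bounds
-/

set_option autoImplicit false

open MvPolynomial Finset

namespace Pool.Agent.Lib.MP_a688ad_al

namespace T3

open T2

theorem kRgB (h1 : UppStmt) (h2 : CmbStmt) (h3 : RegStmt) (h4 : LowStmt) : RgBStmt := by
  classical
  intro k hk
  obtain ⟨B, G, hB, hG, hD⟩ := h2 (k + 1) (by omega)
  have hlow : ∀ (b : Finset (Fin (k + 1 + (k + 1))) → ℕ) (g : Finset (Fin (k + 1)) → ℕ) (j : ℕ),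
      ∃ N1 n0 : ℕ, b ∈ B → g ∈ G → 2 ≤ j → j ≤ k + 1 → 1 ≤ ht g j → ∀ N ≥ N1, ∀ n ≥ n0,
        ∀ (n' : ℕ) (lam : Fin (R2 k) → ℤ), Antitone lam → ∑ i, lam i = ((k + 1) * n : ℕ) →
        B.card * G.card * (E0 (k + 1) (R2 k) n' fun i => lam i - row b i
          - ((k + 1).factorial * N : ℕ) * row g i).ncard
          ≤ Module.finrank ℂ ((Gl (R2 k) k n).HW lam) := by
    intro b g j
    by_cases h : b ∈ B ∧ g ∈ G ∧ 2 ≤ j ∧ j ≤ k + 1 ∧ 1 ≤ ht g j
    · obtain ⟨hb, hg, hj, hjk, hgj⟩ := h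
      obtain ⟨nb, hnb⟩ := hB b hb
      obtain ⟨ng, hng⟩ := hG g hg
      obtain ⟨N1, n0, hN⟩ := h4 k j hk hj hjk b nb g ng hnb hng hgj (B.card * G.card)
      exact ⟨N1, n0, fun _ _ _ _ _ => hN⟩
    · exact ⟨0, 0, fun a1 a2 a3 a4 a5 => (h ⟨a1, a2, a3, a4, a5⟩).elim⟩
  choose N1 n0 hN using hlow
  obtain ⟨Ns, hNs⟩ : ∃ Ns : ℕ, ∀ b ∈ B, ∀ g ∈ G, ∀ j ∈ range (k + 2), N1 b g j ≤ Ns := by
    refine ⟨B.sup fun b => G.sup fun g => (range (k + 2)).sup fun j => N1 b g j, ?_⟩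
    intro b hb g hg j hj
    refine le_trans (le_trans ?_ (Finset.le_sup (f := fun g => (range (k + 2)).sup fun j => N1 b g j)
      hg)) (Finset.le_sup (f := fun b => G.sup fun g => (range (k + 2)).sup fun j => N1 b g j) hb)
    exact Finset.le_sup (f := fun j => N1 b g j) hj
  obtain ⟨ns, hns⟩ : ∃ ns : ℕ, ∀ b ∈ B, ∀ g ∈ G, ∀ j ∈ range (k + 2), n0 b g j ≤ ns := by
    refine ⟨B.sup fun b => G.sup fun g => (range (k + 2)).sup fun j => n0 b g j, ?_⟩
    intro b hb g hg j hj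
    refine le_trans (le_trans ?_ (Finset.le_sup (f := fun g => (range (k + 2)).sup fun j => n0 b g j)
      hg)) (Finset.le_sup (f := fun b => G.sup fun g => (range (k + 2)).sup fun j => n0 b g j) hb)
    exact Finset.le_sup (f := fun j => n0 b g j) hj
  choose D hDD using fun j => hD j ((k + 1).factorial * Ns)
  obtain ⟨Nr, hNr⟩ := h3 (k + 1) ((range (k + 2)).sup D) (by omega)
  refine ⟨max Nr (max ns 1), ?_⟩
  intro n hn lam hanti hsum hlam
  have hn1 : Nr ≤ n := le_trans (le_max_left _ _) hn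
  have hn2 : ns ≤ n := le_trans (le_trans (le_max_left _ _) (le_max_right _ _)) hn
  have hn3 : 1 ≤ n := le_trans (le_trans (le_max_right _ _) (le_max_right _ _)) hn
  by_cases hex : ∃ a₀, S1 (k + 1) n a₀ ∧ ∀ i : Fin (k + 1 + (k + 1)), (row a₀ i : ℤ) = lam i
  · obtain ⟨a₀, ha₀, hrow⟩ := hex
    have hr0 : row a₀ 0 + n < (k + 1) * n := by
      have h0 : 0 < k + 1 + (k + 1) := by omega
      have h := hlam ⟨0, h0⟩ rfl
      rw [← hrow ⟨0, h0⟩] at h
      exact_mod_cast h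
    obtain ⟨j, hj2, hjk, hj⟩ := hNr n hn1 a₀ ha₀ hr0
    have hjr : j ∈ range (k + 2) := Finset.mem_range.2 (by omega)
    refine hDD j n lam _ hn3 ?_ ?_
    · intro a ha hra
      refine le_trans (Finset.le_sup (f := D) hjr) (hj n a ha fun i => ?_)
      by_cases hi : i < k + 1 + (k + 1)
      · have h5 := hra ⟨i, hi⟩
        rw [← hrow ⟨i, hi⟩] at h5
        exact_mod_cast h5
      · have hz : ∀ a' : Finset (Fin (k + 1 + (k + 1))) → ℕ, row a' i = 0 := by
          intro a'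
          unfold row
          refine Finset.sum_eq_zero fun C _ => ?_
          rw [if_neg]
          have h5 := Finset.card_le_univ C
          rw [Fintype.card_fin] at h5
          omega
        rw [hz, hz]
    · intro b hb g hg hgj nb ng n' _ _ _
      exact hN b g j hb hg hj2 hjk hgj Ns (hNs b hb g hg j hjr) n
        (le_trans (hns b hb g hg j hjr) hn2) n' lam hanti hsum
  · have h5 := (h1 (k + 1) (R2 k) n lam hn3).2
    have h6 : E1 (k + 1) (R2 k) n lam = ∅ := by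
      rw [Set.eq_empty_iff_forall_notMem]
      rintro d ⟨a, ha1, _, ha3, _⟩
      exact hex ⟨a, ha1, ha3⟩
    rw [h6, Set.ncard_empty] at h5
    exact le_trans h5 (Nat.zero_le _)

end T3

end Pool.Agent.Lib.MP_a688ad_al
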