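import Pool.Agent.Lib.MP_a688ad_al.T3.Asm

/-!
# MP_a688ad_al, all large `n`: the ratio of the two coefficients tends to infinity
-/

set_option autoImplicit false

open MvPolynomial Finset

namespace Pool.Agent.Lib.MP_a688ad_al

namespace T3

open T2

/-- `RgBStmt` with a factor `K`. -/
def RgKStmt : Prop := ∀ K k : ℕ, 2 ≤ k → ∃ N0 : ℕ, ∀ n ≥ N0, ∀ lam : Fin (R2 k) → ℤ, Antitone lam →
  ∑ i, lam i = ((k + 1) * n : ℕ) → (∀ i : Fin (R2 k), (i : ℕ) = 0 → lam i + n < (k + 1) * n) →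
  K * Module.finrank ℂ ((Gl (R2 k) (n - 1) (k + 1)).HW lam)
    ≤ Module.finrank ℂ ((Gl (R2 k) k n).HW lam)

theorem kRgK (h1 : UppStmt) (h2 : CmbStmt) (h3 : RegStmt) (h4 : LowStmt) : RgKStmt := by
  classical
  intro K k hk
  rcases Nat.eq_zero_or_pos K with hK | hK
  · exact ⟨0, fun n _ lam _ _ _ => by subst hK; simp⟩
  obtain ⟨B, G, hB, hG, hD⟩ := h2 (k + 1) (by omega)
  have hlow : ∀ (b : Finset (Fin (k + 1 + (k + 1))) → ℕ) (g : Finset (Fin (k + 1)) → ℕ) (j : ℕ),
      ∃ N1 n0 : ℕ, b ∈ B → g ∈ G → 2 ≤ j → j ≤ k + 1 → 1 ≤ ht g j → ∀ N ≥ N1, ∀ n ≥ n0,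
        ∀ (n' : ℕ) (lam : Fin (R2 k) → ℤ), Antitone lam → ∑ i, lam i = ((k + 1) * n : ℕ) →
        K * (B.card * G.card) * (E0 (k + 1) (R2 k) n' fun i => lam i - row b i
          - ((k + 1).factorial * N : ℕ) * row g i).ncard
          ≤ Module.finrank ℂ ((Gl (R2 k) k n).HW lam) := by
    intro b g j
    by_cases h : b ∈ B ∧ g ∈ G ∧ 2 ≤ j ∧ j ≤ k + 1 ∧ 1 ≤ ht g j
    · obtain ⟨hb, hg, hj, hjk, hgj⟩ := h
      obtain ⟨nb, hnb⟩ := hB b hb
      obtain ⟨ng, hng⟩ := hG g hg
      obtain ⟨N1, n0, hN⟩ := h4 k j hk hj hjk b nb g ng hnb hng hgj (K * (B.card * G.card))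
      exact ⟨N1, n0, fun _ _ _ _ _ => hN⟩
    · exact ⟨0, 0, fun a1 a2 a3 a4 a5 => (h ⟨a1, a2, a3, a4, a5⟩).elim⟩
  choose N1 n0 hN using hlow
  obtain ⟨Ns, hNs⟩ : ∃ Ns : ℕ, ∀ b ∈ B, ∀ g ∈ G, ∀ j ∈ range (k + 2), N1 b g j ≤ Ns := by
    refine ⟨B.sup fun b => G.sup fun g => (range (k + 2)).sup fun j => N1 b g j, ?_⟩
    intro b hb g hg j hj
    refine le_trans (le_trans ?_ (Finset.le_sup (f := fun g => (range (k + 2)).sup fun j => N1 b g j)
      hg)) (Finset.le_sup (f := fun b => G.sup fun g => (range (k + 2)).sup fun j => N1 b g j) hb)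
    exact Finset.le_sup (f := fun j => N1 b g j) hj
  obtain ⟨ns, hns⟩ : ∃ ns : ℕ, ∀ b ∈ B, ∀ g ∈ G, ∀ j ∈ range (k + 2), n0 b g j ≤ ns := by
    refine ⟨B.sup fun b => G.sup fun g => (range (k + 2)).sup fun j => n0 b g j, ?_⟩
    intro b hb g hg j hj
    refine le_trans (le_trans ?_ (Finset.le_sup (f := fun g => (range (k + 2)).sup fun j => n0 b g j)
      hg)) (Finset.le_sup (f := fun b => G.sup fun g => (range (k + 2)).sup fun j => n0 b g j) hb)
    exact Finset.le_sup (f := fun j => n0 b g j) hj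
  choose D hDD using fun j => hD j ((k + 1).factorial * Ns)
  obtain ⟨Nr, hNr⟩ := h3 (k + 1) ((range (k + 2)).sup D) (by omega)
  refine ⟨max Nr (max ns 1), ?_⟩
  intro n hn lam hanti hsum hlam
  have hn1 : Nr ≤ n := le_trans (le_max_left _ _) hn
  have hn2 : ns ≤ n := le_trans (le_trans (le_max_left _ _) (le_max_right _ _)) hn
  have hn3 : 1 ≤ n := le_trans (le_trans (le_max_right _ _) (le_max_right _ _)) hn
  rw [mul_comm, ← Nat.le_div_iff_mul_le hK]
  by_cases hex : ∃ a₀, S1 (k + 1) n a₀ ∧ ∀ i : Fin (k + 1 + (k + 1)), (row a₀ i : ℤ) = lam i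
  · obtain ⟨a₀, ha₀, hrow⟩ := hex
    have hr0 : row a₀ 0 + n < (k + 1) * n := by
      have h0 : 0 < k + 1 + (k + 1) := by omega
      have h := hlam ⟨0, h0⟩ rfl
      rw [← hrow ⟨0, h0⟩] at h
      exact_mod_cast h
    obtain ⟨j, hj2, hjk, hj⟩ := hNr n hn1 a₀ ha₀ hr0
    have hjr : j ∈ range (k + 2) := Finset.mem_range.2 (by omega)
    refine hDD j n lam _ hn3 ?_ ?_
    · intro a ha hra
      refine le_trans (Finset.le_sup (f := D) hjr) (hj n a ha fun i => ?_)
      by_cases hi : i < k + 1 + (k + 1)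
      · have h5 := hra ⟨i, hi⟩
        rw [← hrow ⟨i, hi⟩] at h5
        exact_mod_cast h5
      · have hz : ∀ a' : Finset (Fin (k + 1 + (k + 1))) → ℕ, row a' i = 0 := by
          intro a'
          unfold row
          refine Finset.sum_eq_zero fun C _ => ?_
          rw [if_neg]
          have h5 := Finset.card_le_univ C
          rw [Fintype.card_fin] at h5
          omega
        rw [hz, hz]
    · intro b hb g hg hgj nb ng n' _ _ _
      rw [Nat.le_div_iff_mul_le hK]
      have h5 := hN b g j hb hg hj2 hjk hgj Ns (hNs b hb g hg j hjr) n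
        (le_trans (hns b hb g hg j hjr) hn2) n' lam hanti hsum
      rw [mul_comm, ← mul_assoc]
      exact h5
  · have h5 := (h1 (k + 1) (R2 k) n lam hn3).2
    have h6 : E1 (k + 1) (R2 k) n lam = ∅ := by
      rw [Set.eq_empty_iff_forall_notMem]
      rintro d ⟨a, ha1, _, ha3, _⟩
      exact hex ⟨a, ha1, ha3⟩
    rw [h6, Set.ncard_empty] at h5
    exact le_trans h5 (Nat.zero_le _)

/-- The inequality of dimensions in any number of variables, for row lengths of at most `2 m` rows. -/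
theorem rgK_dim {K k N : ℕ} (h2 : ∀ n ≥ N, ∀ lam : Fin (R2 k) → ℤ, Antitone lam →
    ∑ i, lam i = ((k + 1) * n : ℕ) → (∀ i : Fin (R2 k), (i : ℕ) = 0 → lam i + n < (k + 1) * n) →
    K * Module.finrank ℂ ((Gl (R2 k) (n - 1) (k + 1)).HW lam)
      ≤ Module.finrank ℂ ((Gl (R2 k) k n).HW lam)) (h3 : VarStmt) {n : ℕ} (hn : N ≤ n) (hn1 : 1 ≤ n)
    (r : ℕ) (lam : Fin r → ℤ) (hl : Antitone lam) (h0 : ∀ i, 0 ≤ lam i)
    (hs : ∑ i, lam i = ((k + 1) * n : ℕ))
    (hf : ∀ i : Fin r, (i : ℕ) = 0 → lam i + n < (k + 1) * n)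
    (hz : ∀ i : Fin r, R2 k ≤ i → lam i = 0) :
    K * Module.finrank ℂ ((Gl r (n - 1) (k + 1)).HW lam)
      ≤ Module.finrank ℂ ((Gl r k n).HW lam) := by
  rcases le_total r (R2 k) with hr | hr
  · obtain ⟨t, ht⟩ := Nat.exists_eq_add_of_le hr
    have key : ∀ R, R2 k = R → ∀ lam : Fin R → ℤ, Antitone lam →
        ∑ i, lam i = ((k + 1) * n : ℕ) → (∀ i : Fin R, (i : ℕ) = 0 → lam i + n < (k + 1) * n) →
        K * Module.finrank ℂ ((Gl R (n - 1) (k + 1)).HW lam)
          ≤ Module.finrank ℂ ((Gl R k n).HW lam) := by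
      rintro R rfl
      exact h2 n hn
    rw [h3 r t (n - 1) (k + 1) lam, h3 r t k n lam]
    have hr0 : 0 < r := by
      rcases Nat.eq_zero_or_pos r with h | h
      · subst h
        rw [Finset.univ_eq_empty, Finset.sum_empty] at hs
        have : 0 < (k + 1) * n := by positivity
        exact absurd hs.symm (by exact_mod_cast this.ne')
      · exact h
    refine key (r + t) ht _ ?_ ?_ ?_
    · intro i j hij
      refine Fin.addCases (fun i' => ?_) (fun i' => ?_) i (motive := fun i => i ≤ j →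
        Fin.append lam (fun _ => 0) j ≤ Fin.append lam (fun _ => 0) i) hij
      · refine Fin.addCases (fun j' => ?_) (fun j' => ?_) j (motive := fun j => Fin.castAdd t i' ≤ j →
          Fin.append lam (fun _ => 0) j ≤ Fin.append lam (fun _ => 0) (Fin.castAdd t i'))
        · intro h
          rw [Fin.append_left, Fin.append_left]
          exact hl h
        · intro _
          rw [Fin.append_left, Fin.append_right]
          exact h0 i'
      · refine Fin.addCases (fun j' => ?_) (fun j' => ?_) j (motive := fun j => Fin.natAdd r i' ≤ j →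
          Fin.append lam (fun _ => 0) j ≤ Fin.append lam (fun _ => 0) (Fin.natAdd r i'))
        · intro h
          exfalso
          have h1 : r + (i' : ℕ) ≤ (j' : ℕ) := h
          have := j'.2
          omega
        · intro _
          rw [Fin.append_right, Fin.append_right]
    · rw [Fin.sum_univ_add]
      simp only [Fin.append_left, Fin.append_right, Finset.sum_const_zero, add_zero]
      exact hs
    · intro i hi
      have hi' : i = Fin.castAdd t ⟨0, hr0⟩ := Fin.ext hi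
      rw [hi', Fin.append_left]
      exact hf ⟨0, hr0⟩ rfl
  · obtain ⟨t, rfl⟩ := Nat.exists_eq_add_of_le hr
    have hlam : lam = Fin.append (fun i : Fin (R2 k) => lam (Fin.castAdd t i)) fun _ : Fin t => 0 := by
      funext i
      refine Fin.addCases (fun i' => ?_) (fun i' => ?_) i
      · rw [Fin.append_left]
      · rw [Fin.append_right]
        exact hz _ (by rw [Fin.val_natAdd]; omega)
    rw [hlam, ← h3 (R2 k) t (n - 1) (k + 1), ← h3 (R2 k) t k n]
    refine h2 n hn _ (fun i j hij => hl (by exact hij)) ?_ fun i hi => hf (Fin.castAdd t i) hi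
    rw [hlam, Fin.sum_univ_add] at hs
    simp only [Fin.append_left, Fin.append_right, Finset.sum_const_zero, add_zero] at hs
    exact hs

/-- Outside the stable range the ratio of the coefficients tends to infinity. -/
def AsKStmt : Prop := ∀ m K : ℕ, 3 ≤ m → ∃ N : ℕ, ∀ n ≥ N, ∀ (s : ℕ) (lam : Fin (s + 1) → ℕ),
  Antitone lam → ∑ i, lam i = n * m → lam 0 < n * (m - 1) →
  (K : ℤ) * schurCoeff (pleth (s + 1) m n) lam ≤ schurCoeff (pleth (s + 1) n m) lam

theorem kAsK (h1 : UppStmt) (h2 : RgKStmt) (h3 : VarStmt) : AsKStmt := by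
  intro m K hm
  obtain ⟨k, rfl⟩ : ∃ k, m = k + 1 := ⟨m - 1, by omega⟩
  obtain ⟨N0, hN0⟩ := h2 K k (by omega)
  refine ⟨max N0 (k + 2), fun n hn s lam hl hs hcase => ?_⟩
  have hn0 : N0 ≤ n := (le_max_left _ _).trans hn
  have hn1 : k + 2 ≤ n := (le_max_right _ _).trans hn
  rw [Nat.add_sub_cancel] at hcase
  obtain ⟨l, rfl⟩ : ∃ l, n = l + 1 := ⟨n - 1, by omega⟩
  rw [kCh (s + 1) l (k + 1) lam hl (by rw [hs]), kCh (s + 1) k (l + 1) lam hl (by rw [hs]; ring)]
  rw [← Nat.cast_mul, Nat.cast_le]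
  have hanti : Antitone fun i => (lam i : ℤ) := fun i j hij => by
    show (lam j : ℤ) ≤ lam i
    exact_mod_cast hl hij
  by_cases hz : ∀ i : Fin (s + 1), R2 k ≤ i → lam i = 0
  · refine rgK_dim hN0 h3 hn0 (by omega) (s + 1) _ hanti (fun i => Int.natCast_nonneg _) ?_ ?_ ?_
    · rw [← Nat.cast_sum, hs]
      push_cast
      ring
    · intro i hi
      have hi' : i = 0 := Fin.ext hi
      rw [hi']
      have h6 : (lam 0 : ℤ) < (l + 1) * k := by exact_mod_cast hcase
      push_cast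
      nlinarith
    · intro i hi
      rw [hz i hi]
      rfl
  · push Not at hz
    obtain ⟨i, hi, hi'⟩ := hz
    have h5 := asm_zero h1 (k := k) (n := l + 1) (by omega) (s + 1) (fun i => (lam i : ℤ)) i hi
      (by exact_mod_cast hi')
    rw [Nat.add_sub_cancel] at h5
    rw [h5, Nat.mul_zero]
    exact Nat.zero_le _

end T3

end Pool.Agent.Lib.MP_a688ad_al
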