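import Pool.Agent.Lib.MP_a688ad_al.T3.SpecE

/-!
# MP_a688ad_al, T3: contraction with a rank one element
-/

set_option autoImplicit false

open MvPolynomial Finset

namespace Pool.Agent.Lib.MP_a688ad_al

namespace T3

open T2

section

variable {r k : ℕ}

/-- the sum over all tuples of a product -/
private theorem rk1_sum {n : ℕ} (f : Fin n → Fin r → ℂ) :
    ∑ τ : Fin n → Fin r, ∏ a, f a (τ a) = ∏ a, ∑ l, f a l := by
  rw [Finset.prod_univ_sum, Fintype.piFinset_univ]

/-- the value of the rank one element at the letters `τ` -/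
private theorem rk1_T (α β : Fin r → ℂ) (τ : Fin (k + 1) → Fin r) :
    α (τ 0) * ((sy fun a => τ a.succ).1.map β).prod = α (τ 0) * ∏ a : Fin k, β (τ a.succ) := by
  rw [sy_val, Multiset.map_map]
  rfl

/-- contraction of `τ ↦ α (τ c) ∏_{b ≠ c} β (τ b)` -/
private theorem rk1_c (α β : Fin r → ℂ) (f : Fin (k + 1) → Fin r → ℂ) (c : Fin (k + 1)) :
    ∑ τ : Fin (k + 1) → Fin r, (∏ a, f a (τ a)) * (α (τ c) * ∏ b ∈ Finset.univ.erase c, β (τ b)) =
      (∑ l, α l * f c l) * ∏ b ∈ Finset.univ.erase c, ∑ l, β l * f b l := by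
  classical
  have h1 : ∀ τ : Fin (k + 1) → Fin r,
      (∏ a, f a (τ a)) * (α (τ c) * ∏ b ∈ Finset.univ.erase c, β (τ b)) =
        ∏ a, (if a = c then α (τ a) else β (τ a)) * f a (τ a) := by
    intro τ
    rw [Finset.prod_mul_distrib, mul_comm]
    congr 1
    rw [← Finset.mul_prod_erase Finset.univ _ (Finset.mem_univ c), if_pos rfl]
    congr 1
    refine Finset.prod_congr rfl fun b hb => ?_
    rw [if_neg (Finset.ne_of_mem_erase hb)]
  rw [Finset.sum_congr rfl fun τ _ => h1 τ,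
    rk1_sum fun a l => (if a = c then α l else β l) * f a l,
    ← Finset.mul_prod_erase Finset.univ _ (Finset.mem_univ c)]
  simp only [if_true]
  congr 1
  refine Finset.prod_congr rfl fun b hb => ?_
  simp only [if_neg (Finset.ne_of_mem_erase hb)]

end

theorem kRk1 (h : EvpStmt) : Rk1Stmt := by
  classical
  intro r k hk x α β v w
  obtain ⟨e1, e2, e3, e4, e5, e6⟩ := h r k x (fun p : Ib r k => α p.1 * (p.2.1.map β).prod)
  rw [e5]
  obtain ⟨V, hV⟩ : ∃ V : Fin r → ℂ, ∀ l,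
      evp x (fun p : Ib r k => α p.1 * (p.2.1.map β).prod) (v l) = V l := ⟨_, fun _ => rfl⟩
  obtain ⟨U, hU⟩ : ∃ U : Fin r → ℂ, ∀ l,
      evp x (fun p : Ib r k => α p.1 * (p.2.1.map β).prod) (w l) = U l := ⟨_, fun _ => rfl⟩
  simp only [hV, hU]
  -- the vectors
  obtain ⟨f, hf⟩ : ∃ f : Fin (k + 1) → Fin r → ℂ, f = Fin.cons V fun _ => U := ⟨_, rfl⟩
  have hf0 : f 0 = V := by rw [hf, Fin.cons_zero]
  have hfs : ∀ a : Fin k, f a.succ = U := fun a => by rw [hf, Fin.cons_succ]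
  have hev : ∀ (a : Fin (k + 1)) (l : Fin r),
      evp x (fun p : Ib r k => α p.1 * (p.2.1.map β).prod)
        ((Fin.cons v fun _ => w : Fin (k + 1) → Fin r → Ex r k) a l) = f a l := by
    intro a l
    refine Fin.cases ?_ (fun b => ?_) a
    · rw [hf0, Fin.cons_zero, hV]
    · rw [hfs, Fin.cons_succ, hU]
  simp only [hev]
  -- the value of `g`
  have hval : ∀ (τ : Fin (k + 1) → Fin r) (c : Fin (k + 1)),
      α ((τ ∘ Equiv.swap 0 c) 0) * ((sy fun b => (τ ∘ Equiv.swap 0 c) b.succ).1.map β).prod =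
        α (τ c) * ∏ b ∈ Finset.univ.erase c, β (τ b) := by
    intro τ c
    rw [rk1_T α β (τ ∘ Equiv.swap 0 c)]
    have h1 : (τ ∘ Equiv.swap 0 c) 0 = τ c := by
      rw [Function.comp_apply, Equiv.swap_apply_left]
    rw [h1]
    congr 1
    have h2 : ∏ b : Fin k, β ((τ ∘ Equiv.swap 0 c) b.succ) =
        ∏ b ∈ Finset.univ.erase (0 : Fin (k + 1)), β ((τ ∘ Equiv.swap 0 c) b) := by
      have h3 : Finset.univ.erase (0 : Fin (k + 1)) = Finset.univ.image Fin.succ := by
        ext b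
        rw [Finset.mem_erase, Finset.mem_image]
        constructor
        · rintro ⟨hb, _⟩
          obtain ⟨b', rfl⟩ := Fin.exists_succ_eq_of_ne_zero hb
          exact ⟨b', Finset.mem_univ _, rfl⟩
        · rintro ⟨b', _, rfl⟩
          exact ⟨Fin.succ_ne_zero b', Finset.mem_univ _⟩
      rw [h3, Finset.prod_image fun a _ b _ hab => Fin.succ_injective _ hab]
    rw [h2]
    refine Finset.prod_bij' (fun b _ => Equiv.swap 0 c b) (fun b _ => Equiv.swap 0 c b) ?_ ?_ ?_ ?_ ?_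
    · intro b hb
      rw [Finset.mem_erase] at hb ⊢
      refine ⟨fun h3 => hb.1 ?_, Finset.mem_univ _⟩
      have h4 := congrArg (Equiv.swap (0 : Fin (k + 1)) c) h3
      rw [Equiv.swap_apply_self, Equiv.swap_apply_right] at h4
      exact h4
    · intro b hb
      rw [Finset.mem_erase] at hb ⊢
      refine ⟨fun h3 => hb.1 ?_, Finset.mem_univ _⟩
      have h4 := congrArg (Equiv.swap (0 : Fin (k + 1)) c) h3
      rw [Equiv.swap_apply_self, Equiv.swap_apply_left] at h4
      exact h4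
    · intro b _
      rw [Equiv.swap_apply_self]
    · intro b _
      rw [Equiv.swap_apply_self]
    · intro b _
      rfl
  have hgp : ∀ τ : Fin (k + 1) → Fin r,
      gp (fun p : Ib r k => α p.1 * (p.2.1.map β).prod) τ =
        α (τ 0) * ∏ b ∈ Finset.univ.erase (0 : Fin (k + 1)), β (τ b) - (1 / ((k : ℂ) + 1)) *
          ∑ c, α (τ c) * ∏ b ∈ Finset.univ.erase c, β (τ b) := by
    intro τ
    unfold gp
    congr 1
    · have h1 := hval τ 0
      rw [Equiv.swap_self] at h1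
      exact h1
    · congr 1
      exact Finset.sum_congr rfl fun c _ => hval τ c
  simp only [hgp, mul_sub, Finset.sum_sub_distrib]
  rw [rk1_c α β f 0]
  have hsum : ∑ τ : Fin (k + 1) → Fin r, (∏ a, f a (τ a)) * ((1 / ((k : ℂ) + 1)) *
      ∑ c, α (τ c) * ∏ b ∈ Finset.univ.erase c, β (τ b)) =
      (1 / ((k : ℂ) + 1)) * ∑ c, (∑ l, α l * f c l) * ∏ b ∈ Finset.univ.erase c, ∑ l, β l * f b l := by
    have h1 : ∀ τ : Fin (k + 1) → Fin r, (∏ a, f a (τ a)) * ((1 / ((k : ℂ) + 1)) *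
        ∑ c, α (τ c) * ∏ b ∈ Finset.univ.erase c, β (τ b)) =
        ∑ c, (1 / ((k : ℂ) + 1)) * ((∏ a, f a (τ a)) * (α (τ c) * ∏ b ∈ Finset.univ.erase c, β (τ b))) := by
      intro τ
      rw [← Finset.mul_sum, ← Finset.mul_sum]
      ring
    rw [Finset.sum_congr rfl fun τ _ => h1 τ, Finset.sum_comm, Finset.mul_sum]
    refine Finset.sum_congr rfl fun c _ => ?_
    rw [← Finset.mul_sum, rk1_c α β f c]
  rw [hsum]
  -- products
  have hp0 : ∏ b ∈ Finset.univ.erase (0 : Fin (k + 1)), ∑ l, β l * f b l = (∑ l, β l * U l) ^ k := by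
    rw [Finset.prod_congr rfl (g := fun _ => ∑ l, β l * U l), Finset.prod_const,
      Finset.card_erase_of_mem (Finset.mem_univ _), Finset.card_univ, Fintype.card_fin,
      Nat.add_sub_cancel]
    intro b hb
    obtain ⟨b', rfl⟩ := Fin.exists_succ_eq_of_ne_zero (Finset.ne_of_mem_erase hb)
    rw [hfs]
  have hps : ∀ c : Fin k, ∏ b ∈ Finset.univ.erase c.succ, ∑ l, β l * f b l =
      (∑ l, β l * V l) * (∑ l, β l * U l) ^ (k - 1) := by
    intro c
    have h0 : (0 : Fin (k + 1)) ∈ Finset.univ.erase c.succ :=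
      Finset.mem_erase.2 ⟨(Fin.succ_ne_zero c).symm, Finset.mem_univ _⟩
    rw [← Finset.mul_prod_erase _ _ h0, hf0]
    congr 1
    rw [Finset.prod_congr rfl (g := fun _ => ∑ l, β l * U l), Finset.prod_const,
      Finset.card_erase_of_mem h0, Finset.card_erase_of_mem (Finset.mem_univ _), Finset.card_univ,
      Fintype.card_fin]
    · congr 1
    · intro b hb
      obtain ⟨b', rfl⟩ := Fin.exists_succ_eq_of_ne_zero (Finset.ne_of_mem_erase hb)
      rw [hfs]
  rw [Fin.sum_univ_succ, hp0, hf0]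
  simp only [hps, hfs]
  rw [Finset.sum_const, Finset.card_univ, Fintype.card_fin, nsmul_eq_mul]
  obtain ⟨k', rfl⟩ := Nat.exists_eq_add_of_le' hk
  rw [Nat.add_sub_cancel]
  have hk1 : (((k' + 1 : ℕ) : ℂ) + 1) ≠ 0 := Nat.cast_add_one_ne_zero _
  field_simp
  ring

end T3

end Pool.Agent.Lib.MP_a688ad_al
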