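import Pool.Agent.Lib.MP_a688ad_al.T3.SpecE

/-!
# MP_a688ad_al, all large `n`: permutations of the particles
-/

set_option autoImplicit false

open MvPolynomial Finset

namespace Pool.Agent.Lib.MP_a688ad_al

namespace T3

open T2

theorem rsc_hom {σ τ M N : Type} [AddCommMonoid M] [AddCommMonoid N] (w : σ → M) (w' : τ → N)
    (f : σ → τ) (L : M →+ N) (h : ∀ v, w' (f v) = L (w v)) {F : MvPolynomial σ ℂ} {m : M}
    (hF : IsWeightedHomogeneous w F m) : IsWeightedHomogeneous w' (rename f F) (L m) := by
  intro d hd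
  obtain ⟨u, rfl, hu⟩ := coeff_rename_ne_zero f F d hd
  have h1 : Finsupp.weight w u = m := hF hu
  rw [← h1, Finsupp.weight_apply, Finsupp.weight_apply, Finsupp.sum_mapDomain_index
    (h := fun (i : τ) (c : ℕ) => c • w' i) (fun _ => zero_smul _ _) (fun _ _ _ => add_smul _ _ _),
    Finsupp.sum, Finsupp.sum, map_sum]
  refine Finset.sum_congr rfl fun v _ => ?_
  rw [h, map_nsmul]

theorem rsc_der {σ τ : Type} (φ : MvPolynomial σ ℂ →ₐ[ℂ] MvPolynomial τ ℂ)
    (D : Derivation ℂ (MvPolynomial σ ℂ) (MvPolynomial σ ℂ))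
    (D' : Derivation ℂ (MvPolynomial τ ℂ) (MvPolynomial τ ℂ))
    (h : ∀ v, D' (φ (X v)) = φ (D (X v))) (F : MvPolynomial σ ℂ) : D' (φ F) = φ (D F) := by
  induction F using MvPolynomial.induction_on with
  | C a =>
    rw [← algebraMap_eq, AlgHom.commutes, Derivation.map_algebraMap, Derivation.map_algebraMap,
      map_zero]
  | add p q hp hq => rw [map_add, map_add, map_add, map_add, hp, hq]
  | mul_X p v hp =>
    rw [map_mul, Derivation.leibniz, Derivation.leibniz, hp, h, smul_eq_mul, smul_eq_mul,
      smul_eq_mul, smul_eq_mul, map_add, map_mul, map_mul]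

/-- The action on the weights. -/
def rscL {r k : ℕ} (σ : Equiv.Perm (Fin (k + 1))) : (Fin r → ℤ) × (Fin (k + 1) → ℤ) × ℤ →+
    (Fin r → ℤ) × (Fin (k + 1) → ℤ) × ℤ where
  toFun m := (m.1, m.2.1 ∘ σ.symm, m.2.2)
  map_zero' := rfl
  map_add' _ _ := rfl

theorem kRsc : RscStmt := by
  refine ⟨?_, ?_, ?_, ?_, ?_, ?_⟩
  · intro r k σ β c q F hF
    refine ⟨?_, ?_, ?_⟩
    · refine rsc_hom WE WE _ (rscL σ) ?_ hF.hom
      rintro (⟨κ, i⟩ | p)
      · refine Prod.ext rfl (Prod.ext ?_ rfl)
        funext κ'
        show sg (σ κ) κ' = sg κ (σ.symm κ')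
        unfold sg
        rw [Pi.single_apply, Pi.single_apply]
        congr 1
        rw [Equiv.symm_apply_eq]
      · rfl
    · intro i j hij
      have h := rsc_der (rs σ) (DX i j) (DX i j) (fun v => ?_) F
      · rw [h, hF.inv i j hij, map_zero]
      · unfold rs DX
        rcases v with ⟨κ, l⟩ | p
        · rw [rename_X, mkDerivation_X, mkDerivation_X]
          simp only [Sum.map_inl, Sum.elim_inl, Prod.map_apply, id_eq]
          split_ifs
          · rw [rename_X]
            rfl
          · rw [map_zero]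
        · rw [rename_X, mkDerivation_X, mkDerivation_X]
          simp only [Sum.map_inr, Sum.elim_inr, id_eq]
          rw [rename_rename]
          rfl
    · have h : (pr : Ex r k →ₐ[ℂ] Ex r k).comp (rs σ) = (rs σ).comp pr := by
        apply algHom_ext
        intro v
        rw [AlgHom.comp_apply, AlgHom.comp_apply]
        unfold rs pr
        rcases v with ⟨κ, l⟩ | p
        · rw [rename_X, aeval_X, aeval_X]
          simp only [Sum.map_inl, Sum.elim_inl, Prod.map_apply, id_eq]
          rw [rename_X]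
          rfl
        · rw [rename_X, aeval_X, aeval_X]
          simp only [Sum.map_inr, Sum.elim_inr, id_eq]
          rw [rename_rename]
          rfl
      have h1 := congrArg (fun φ => φ F) h
      simp only [AlgHom.comp_apply] at h1
      rw [h1, hF.prj]
  · intro r k σ τ F
    unfold rs
    rw [rename_rename]
    congr 1
    congr 1
    funext v
    rcases v with ⟨κ, l⟩ | p <;> rfl
  · intro r k F
    unfold rs
    have e : (Sum.map (Prod.map (⇑(1 : Equiv.Perm (Fin (k + 1)))) id) id :
        Fin (k + 1) × Fin r ⊕ Ib r k → Fin (k + 1) × Fin r ⊕ Ib r k) = id := by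
      funext v
      rcases v with ⟨κ, l⟩ | p <;> rfl
    rw [e, rename_id_apply]
  · intro r k σ p hp ξ
    unfold brk
    rw [AlgHom.map_det]
    rfl
  · intro r k σ i hi ξ l
    unfold vc brk
    rw [AlgHom.map_det]
    congr 1
    funext a b
    show rs σ ((Fin.snoc ξ (fun l' => if l' = l then 1 else 0) : Fin (i + 1) → Fin r → Ex r k) a
      (Fin.castLE hi b)) = (Fin.snoc (fun a l => rs σ (ξ a l)) (fun l' => if l' = l then 1 else 0) :
        Fin (i + 1) → Fin r → Ex r k) a (Fin.castLE hi b)
    refine Fin.lastCases ?_ (fun a => ?_) a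
    · rw [Fin.snoc_last, Fin.snoc_last]
      split_ifs
      · rw [map_one]
      · rw [map_zero]
    · rw [Fin.snoc_castSucc, Fin.snoc_castSucc]
  · intro r k σ v
    unfold ct
    rw [map_sum]
    refine Finset.sum_congr rfl fun τ _ => ?_
    rw [map_mul, map_prod, rs_gg]

end T3

end Pool.Agent.Lib.MP_a688ad_al
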