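import Pool.Agent.Lib.MP_a688ad_al.T3.Zj

/-!
# MP_a688ad_al, all large `n`: scalars which change the content, heights up to `k`
-/

set_option autoImplicit false

open MvPolynomial Finset

namespace Pool.Agent.Lib.MP_a688ad_al

namespace T3

open T2

theorem kSaA (h1 : BrkStmt) (h2 : EvpStmt) (h3 : PaiStmt) : SaAStmt := by
  classical
  intro k j hj2 hjk a b hab
  obtain ⟨i, rfl⟩ : ∃ i, j = i + 1 := ⟨j - 1, by omega⟩
  have hj' : i + 1 ≤ R2 k := by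
    show i + 1 ≤ k + 1 + (k + 1)
    omega
  have hcard : i ≤ ((univ.erase a).erase b : Finset (Fin (k + 1))).card := by
    rw [Finset.card_erase_of_mem (Finset.mem_erase.2 ⟨hab.symm, Finset.mem_univ b⟩),
      Finset.card_erase_of_mem (Finset.mem_univ a), Finset.card_univ, Fintype.card_fin]
    omega
  obtain ⟨c₀, hc₀⟩ : ∃ c₀ : Fin i ↪ Fin (k + 1), ∀ t, c₀ t ∈ ((univ.erase a).erase b :
      Finset (Fin (k + 1))) :=
    ⟨(Finset.orderEmbOfCardLe _ hcard).toEmbedding, Finset.orderEmbOfCardLe_mem _ hcard⟩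
  have hca : a ∉ Set.range c₀ := by
    rintro ⟨t, ht⟩
    exact (Finset.mem_erase.1 (Finset.mem_erase.1 (hc₀ t)).2).1 ht
  have hcb : b ∉ Set.range c₀ := by
    rintro ⟨t, ht⟩
    exact (Finset.mem_erase.1 (hc₀ t)).1 ht
  obtain ⟨c₁, hc₁⟩ : ∃ c₁ : Fin (i + 1) ↪ Fin (k + 1), ⇑c₁ = (Fin.cons a c₀ : Fin (i + 1) → _) :=
    ⟨⟨_, Fin.cons_injective_iff.2 ⟨hca, c₀.injective⟩⟩, rfl⟩
  obtain ⟨c₂, hc₂⟩ : ∃ c₂ : Fin (i + 1) ↪ Fin (k + 1), ⇑c₂ = (Fin.cons b c₀ : Fin (i + 1) → _) :=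
    ⟨⟨_, Fin.cons_injective_iff.2 ⟨hcb, c₀.injective⟩⟩, rfl⟩
  obtain ⟨C, hC⟩ := zjp_cont k (i + 1)
  have hp := zjp_sc h1 (k := k) (i + 1) hj'
  obtain ⟨C', hC'⟩ := hp
  have hCC : C' = C := by
    obtain ⟨C'', h4⟩ : ∃ C'' : ℤ, C'' = C := ⟨_, rfl⟩
    have h5 := Sc.prod (univ : Finset (Fin (i + 1) ↪ Fin (k + 1))) (fun _ => om (i + 1))
      (fun c => ∑ t, sg (c t)) (fun _ => 0) (fun c => (zjb (i + 1) hj' c : Ex (R2 k) k))
      fun c _ => zj_sc h1 (i + 1) hj' c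
    rw [hC, Finset.sum_const_zero] at h5
    have h6 := hC'.hom.inj_right (zjp_ne h2 h3 (i + 1) hj') h5.hom
    have h7 := congrArg (fun m => m.2.1 0) h6
    exact h7
  rw [hCC] at hC'
  have hm : 1 ≤ (k + 1 - (i + 1)).factorial := Nat.factorial_pos _
  obtain ⟨e, he⟩ : ∃ e, (k + 1 - (i + 1)).factorial = e + 1 := ⟨_, (Nat.sub_add_cancel hm).symm⟩
  have hs1 := zj_sc h1 (r := R2 k) (k := k) (i + 1) hj' c₁
  have hs2 := Sc.prod (univ.erase c₂ : Finset (Fin (i + 1) ↪ Fin (k + 1))) (fun _ => om (i + 1))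
      (fun c => ∑ t, sg (c t)) (fun _ => 0) (fun c => (zjb (i + 1) hj' c : Ex (R2 k) k))
      fun c _ => zj_sc h1 (i + 1) hj' c
  have hs3 := hC'.pow e
  have hs := (hs1.mul hs2).mul hs3
  have hne : (∏ c ∈ (univ.erase c₂ : Finset (Fin (i + 1) ↪ Fin (k + 1))),
      (zjb (i + 1) hj' c : Ex (R2 k) k)) ≠ 0 :=
    Finset.prod_ne_zero_iff.2 fun c _ => zj_ne h2 h3 (i + 1) hj' c c.injective
  refine ⟨(e + 1) * C, 0, _, ?_, mul_ne_zero (mul_ne_zero (zj_ne h2 h3 (i + 1) hj' c₁ c₁.injective)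
    hne) (pow_ne_zero e (zjp_ne h2 h3 (i + 1) hj'))⟩
  have hd : 0 < (k + 1).descFactorial (i + 1) := Nat.descFactorial_pos.2 (by omega)
  have e1 : om (i + 1) + ∑ _c ∈ (univ.erase c₂ : Finset (Fin (i + 1) ↪ Fin (k + 1))), om (i + 1)
      + e • ((((k + 1).descFactorial (i + 1) : ℕ) : ℤ) • (om (i + 1) : Fin (R2 k) → ℤ))
      = (((k + 1).factorial : ℕ) : ℤ) • om (i + 1) := by
    rw [← Nat.factorial_mul_descFactorial (show i + 1 ≤ k + 1 by omega), he, Finset.sum_const,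
      Finset.card_erase_of_mem (Finset.mem_univ _), Finset.card_univ, Fintype.card_embedding_eq,
      Fintype.card_fin, Fintype.card_fin]
    obtain ⟨D, hD⟩ : ∃ D, (k + 1).descFactorial (i + 1) = D + 1 :=
      ⟨_, (Nat.sub_add_cancel hd).symm⟩
    rw [hD, Nat.add_sub_cancel]
    funext x
    rw [Pi.add_apply, Pi.add_apply, Pi.smul_apply, Pi.smul_apply, Pi.smul_apply, Pi.smul_apply]
    simp only [smul_eq_mul, nsmul_eq_mul]
    push_cast
    ring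
  have e2 : ∑ t, sg (c₁ t) + ∑ c ∈ (univ.erase c₂ : Finset (Fin (i + 1) ↪ Fin (k + 1))),
      ∑ t, sg (c t) + e • (fun _ : Fin (k + 1) => C)
      = fun κ => (e + 1) * C + (if κ = a then 1 else 0) - if κ = b then 1 else 0 := by
    have h4 := Finset.add_sum_erase univ (fun c : Fin (i + 1) ↪ Fin (k + 1) =>
      (∑ t, sg (c t) : Fin (k + 1) → ℤ)) (Finset.mem_univ c₂)
    have h5 : ∑ c ∈ (univ.erase c₂ : Finset (Fin (i + 1) ↪ Fin (k + 1))), ∑ t, sg (c t)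
        = (fun _ => C) - ∑ t, sg (c₂ t) := by
      rw [← hC, ← h4]
      abel
    rw [h5, hc₁, hc₂, Fin.sum_univ_succ, Fin.sum_univ_succ]
    simp only [Fin.cons_zero, Fin.cons_succ]
    funext κ
    rw [Pi.add_apply, Pi.add_apply, Pi.sub_apply, Pi.add_apply, Pi.add_apply, Pi.smul_apply,
      nsmul_eq_mul]
    have h6 : ∀ x : Fin (k + 1), sg x κ = if κ = x then 1 else 0 := by
      intro x
      unfold sg
      rw [Pi.single_apply]
    rw [h6 a, h6 b]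
    ring
  have e3 : (0 : ℤ) + ∑ _c ∈ (univ.erase c₂ : Finset (Fin (i + 1) ↪ Fin (k + 1))), 0 + e • (0 : ℤ)
      = 0 := by
    rw [Finset.sum_const_zero, smul_zero, add_zero, add_zero]
  rw [e1, e2, e3] at hs
  exact hs

end T3

end Pool.Agent.Lib.MP_a688ad_al
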