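import Pool.Agent.Lib.MP_a688ad_al.T3.EvX

/-!
# MP_a688ad_al: scalars which change the content, height `k + 1`
-/

set_option autoImplicit false

open MvPolynomial Finset

namespace Pool.Agent.Lib.MP_a688ad_al

namespace T3

open T2

/-- the value of `g` at the point of SaB -/
theorem sab_gp {k : ℕ} (hk : 2 ≤ k) (hr : k + 1 ≤ R2 k) (a b : Fin (k + 1)) (hab : a ≠ b)
    (T : Ib (R2 k) k → ℂ) (hT : ∀ p : Ib (R2 k) k, T p =
      if p.1 = Fin.castLE hr b ∧ p.2 = sy (fun t => Fin.castLE hr (a.succAbove t)) then 1 else 0) :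
    gp T (Fin.cons (Fin.castLE hr b) (fun t => Fin.castLE hr (a.succAbove t)) :
      Fin (k + 1) → Fin (R2 k)) ≠ 0 := by
  classical
  set τ : Fin (k + 1) → Fin (R2 k) :=
    Fin.cons (Fin.castLE hr b) (fun t => Fin.castLE hr (a.succAbove t)) with hτ
  have hτ0 : τ 0 = Fin.castLE hr b := by rw [hτ, Fin.cons_zero]
  have hτs : ∀ t : Fin k, τ t.succ = Fin.castLE hr (a.succAbove t) := by
    intro t
    rw [hτ, Fin.cons_succ]
  have hTτ : T (τ 0, sy fun t => τ t.succ) = 1 := by
    rw [hT, if_pos]
    exact ⟨hτ0, congrArg sy (funext hτs)⟩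
  obtain ⟨t₀, ht₀⟩ := Fin.exists_succAbove_eq hab.symm
  have hinj : ∀ t, τ t.succ = Fin.castLE hr b → t = t₀ := by
    intro t ht
    rw [hτs, ← ht₀] at ht
    exact Fin.succAbove_right_injective (Fin.castLE_injective hr ht)
  have hsum : ∑ s, T ((τ ∘ Equiv.swap 0 s) 0, sy fun c => (τ ∘ Equiv.swap 0 s) c.succ) = 2 := by
    have h1 : ∀ s, τ s = Fin.castLE hr b → τ ∘ Equiv.swap 0 s = τ := by
      intro s hs
      funext c
      rw [Function.comp_apply]
      by_cases hc0 : c = 0
      · subst hc0
        rw [Equiv.swap_apply_left, hs, hτ0]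
      · by_cases hcs : c = s
        · subst hcs
          rw [Equiv.swap_apply_right, hs, hτ0]
        · rw [Equiv.swap_apply_of_ne_of_ne hc0 hcs]
    have h2 : ∀ s, T ((τ ∘ Equiv.swap 0 s) 0, sy fun c => (τ ∘ Equiv.swap 0 s) c.succ) =
        if s = 0 ∨ s = t₀.succ then 1 else 0 := by
      intro s
      by_cases hs : τ s = Fin.castLE hr b
      · rw [h1 s hs, hTτ, if_pos]
        refine Fin.cases (fun _ => Or.inl rfl) (fun t ht => Or.inr ?_) s hs
        rw [hinj t ht]
      · rw [if_neg, hT, if_neg]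
        · rintro ⟨h3, -⟩
          apply hs
          rw [← h3]
          simp only [Function.comp_apply, Equiv.swap_apply_left]
        · rintro (rfl | rfl)
          · exact hs hτ0
          · exact hs (by rw [hτs, ht₀])
    rw [Finset.sum_congr rfl (fun s _ => h2 s), ← Finset.sum_filter, Finset.sum_const]
    have h3 : (Finset.univ.filter fun s : Fin (k + 1) => s = 0 ∨ s = t₀.succ) = {0, t₀.succ} := by
      ext s
      simp
    rw [h3, Finset.card_pair (Fin.succ_ne_zero t₀).symm]
    norm_num
  unfold gp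
  rw [hTτ, hsum]
  have hk1 : ((k : ℂ) + 1) ≠ 0 := by
    have : ((k + 1 : ℕ) : ℂ) ≠ 0 := Nat.cast_ne_zero.mpr (by omega)
    push_cast at this
    exact this
  intro h
  have h1 : ((k : ℂ) + 1) = 2 := by
    field_simp at h
    linear_combination h
  have h2 : ((k + 1 : ℕ) : ℂ) = ((2 : ℕ) : ℂ) := by
    push_cast
    exact h1
  have h3 := Nat.cast_injective (R := ℂ) h2
  omega

theorem kSaB (h1 : VcsStmt) (h2 : CtsStmt) (h3 : BrkStmt) (h4 : EvpStmt) : SaBStmt := by
  classical
  intro k hk a b hab
  have hr : k + 1 ≤ R2 k := by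
    unfold R2
    omega
  have hfac : k + 1 ≤ (k + 1).factorial := Nat.self_le_factorial _
  obtain ⟨N, hN⟩ : ∃ N : ℕ, N + (k + 1) = (k + 1).factorial := ⟨(k + 1).factorial - (k + 1), by omega⟩
  set u : Fin (k + 1) → Fin (R2 k) → Ex (R2 k) k :=
    Fin.cons (vt k hr b.succAbove) (fun t => vt k hr (a.succAbove t).succAbove) with hu
  have hct := h2.1 (R2 k) k (fun _ => om (k + 1))
    (Fin.cons ((fun _ => 1) - sg b) (fun t => (fun _ => 1) - sg (a.succAbove t)) :
      Fin (k + 1) → Fin (k + 1) → ℤ) (fun _ => 0) u (by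
      intro i
      refine Fin.cases ?_ (fun t => ?_) i
      · rw [hu, Fin.cons_zero, Fin.cons_zero]
        exact ex_Vc h1 hr b
      · rw [hu, Fin.cons_succ, Fin.cons_succ]
        exact ex_Vc h1 hr _)
  have hbrk := h3 (R2 k) k (k + 1) hr (fun _ => 0) (fun κ => sg κ) (fun _ => 0) (fun κ => xx κ)
    (fun κ => xx_Cv κ)
  have hs := hct.mul (hbrk.pow N)
  refine ⟨(k : ℤ) + N, 1, ct u * brk (k + 1) hr (fun κ => xx κ) ^ N, ?_, ?_⟩
  · convert hs using 1
    · funext l
      have e1 : ((((k + 1).factorial : ℕ) : ℤ)) = N + (k + 1) := by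
        rw [← hN]
        push_cast
        ring
      rw [e1]
      simp only [Finset.sum_const_zero, add_zero, Finset.sum_const, Finset.card_univ,
        Fintype.card_fin, Pi.add_apply, Pi.smul_apply]
      simp only [smul_eq_mul, nsmul_eq_mul, Nat.cast_add, Nat.cast_one]
      ring
    · funext κ
      rw [Fin.sum_univ_succ, Fin.cons_zero, ex_sg_sum]
      simp only [Fin.cons_succ]
      rw [Finset.sum_sub_distrib, ex_sg_succAbove]
      simp only [Finset.sum_const, Finset.card_univ, Fintype.card_fin, Pi.add_apply, Pi.sub_apply,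
        Pi.smul_apply, sg, Pi.single_apply]
      simp only [smul_eq_mul, nsmul_eq_mul]
      ring
    · simp only [Finset.sum_const_zero, smul_zero, add_zero, zero_add]
  · -- the value
    choose ε hε1 hε2 using fun i : Fin (k + 1) => ex_vt (r := R2 k) hr i
    let T : Ib (R2 k) k → ℂ := fun p =>
      if p.1 = Fin.castLE hr b ∧ p.2 = sy (fun t => Fin.castLE hr (a.succAbove t)) then 1 else 0
    have hbv : evp exE T (brk (k + 1) hr (fun κ => (xx κ : Fin (R2 k) → Ex (R2 k) k))) = 1 := by
      rw [(h4 (R2 k) k exE T).2.2.1]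
      have e1 := ex_brk (k := k) hr le_rfl
      rw [← e1]
      congr 1
      funext κ l
      rw [(h4 (R2 k) k exE T).1]
      rfl
    have hcv : evp exE T (ct u) ≠ 0 := by
      rw [(h4 (R2 k) k exE T).2.2.2.2.1 u]
      rw [ex_sum (fun i l => evp exE T (u i l))
        (Fin.cons (Fin.castLE hr b) (fun t => Fin.castLE hr (a.succAbove t)))
        (Fin.cons (ε b) (fun t => ε (a.succAbove t))) (by
          intro i l
          refine Fin.cases ?_ (fun t => ?_) i
          · rw [hu, Fin.cons_zero, Fin.cons_zero, Fin.cons_zero, ex_evt h4]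
            exact hε2 b l
          · rw [hu, Fin.cons_succ, Fin.cons_succ, Fin.cons_succ, ex_evt h4]
            exact hε2 _ l)]
      apply mul_ne_zero
      · apply Finset.prod_ne_zero_iff.mpr
        intro i _
        have hne : ∀ i, ε i ≠ 0 := by
          intro i h0
          have := hε1 i
          rw [h0, mul_zero] at this
          exact zero_ne_one this
        refine Fin.cases ?_ (fun t => ?_) i
        · rw [Fin.cons_zero]
          exact hne _
        · rw [Fin.cons_succ]
          exact hne _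
      · exact sab_gp hk hr a b hab T (fun _ => rfl)
    intro h0
    have h5 : evp exE T (ct u * brk (k + 1) hr (fun κ => xx κ) ^ N) = 0 := by
      rw [h0, map_zero]
    rw [map_mul, map_pow, hbv, one_pow, mul_one] at h5
    exact hcv h5

end T3

end Pool.Agent.Lib.MP_a688ad_al
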