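import Pool.Agent.Lib.MP_a688ad_al.T3.SpecE

/-!
# MP_a688ad_al, T3: module `Siz` (helper62)
-/

set_option autoImplicit false

open MvPolynomial Finset

namespace Pool.Agent.Lib.MP_a688ad_al

namespace T3

open T2

theorem kSiz : SizStmt := by
  intro r k β c q F hF hne
  obtain ⟨m, hm⟩ := MvPolynomial.ne_zero_iff.1 hne
  have h := hF hm
  obtain ⟨L, hLdef⟩ : ∃ L : (Fin r → ℤ) × (Fin (k + 1) → ℤ) × ℤ →+ ℤ,
      ∀ w, L w = ∑ i, w.1 i - ∑ κ, w.2.1 κ - (k + 1) * w.2.2 := by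
    refine ⟨{ toFun := fun w => ∑ i, w.1 i - ∑ κ, w.2.1 κ - (k + 1) * w.2.2
              map_zero' := by simp
              map_add' := fun a b => ?_ }, fun w => rfl⟩
    simp only [Prod.fst_add, Prod.snd_add, Pi.add_apply, Finset.sum_add_distrib]
    ring
  have hL : ∀ v : Fin (k + 1) × Fin r ⊕ Ib r k, L (WE v) = 0 := by
    rintro (p | p)
    · rw [hLdef]
      show ∑ i, sg p.2 i - ∑ κ, sg p.1 κ - ((k : ℤ) + 1) * 0 = 0
      rw [GlFam.sum_sg, GlFam.sum_sg]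
      ring
    · rw [hLdef]
      show ∑ i, wt p i - ∑ κ, (0 : Fin (k + 1) → ℤ) κ - ((k : ℤ) + 1) * 1 = 0
      rw [sum_wt]
      simp
  have h2 : L (β, c, q) = 0 := by
    rw [← h, Finsupp.weight_apply, map_finsuppSum]
    unfold Finsupp.sum
    apply Finset.sum_eq_zero
    intro v _
    show L (m v • WE v) = 0
    rw [map_nsmul, hL, smul_zero]
  rw [hLdef] at h2
  have h3 : ∑ i, β i - ∑ κ, c κ - (k + 1) * q = 0 := h2
  linarith

end T3

end Pool.Agent.Lib.MP_a688ad_al
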