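import Pool.Agent.Lib.MP_a688ad_al.T3.Defs

/-!
# MP_a688ad_al, all large `n`: symmetric functions of particles (statements with proofs on paper)

THEOREM (BrStmt).  For all `k`, `r` there is `N0` such that every polynomial in the coordinates of `k + 1`
particles which is symmetric and homogeneous of degree `c ≥ N0` in each particle is a homogeneous
polynomial of degree `c` in the `el p`.

IDEA (Brion).  `M_c`, the symmetric polynomials of content `c`, form a finitely generated module over the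
algebra generated by the `el p` (B3).  For a linear form `ℓ` let `ul ℓ = ∏_κ ℓ(z_κ)`.  Where `z_κ 0 = 1` for all
`κ` the symmetric polynomials are generated by elementary ones, so `(ul ℓ)^N f` is a polynomial in the
`el p` (B5, B6), and the `ul ℓ` span the space of the `el p`.
-/

set_option autoImplicit false

open MvPolynomial Finset

namespace Pool.Agent.Lib.MP_a688ad_al

namespace T3

open T2

/-- Content `c` in each particle. -/
def Cn {K r : ℕ} (c : ℕ) (f : Z K r) : Prop :=
  IsWeightedHomogeneous (fun p : Fin K × Fin r => (sg p.1 : Fin K → ℤ)) f fun _ => (c : ℤ)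

/-- Symmetric polynomials. -/
def Sy {K r : ℕ} (f : Z K r) : Prop := ∀ σ : Equiv.Perm (Fin K), rz σ f = f

/-- The product of the values of a linear form. -/
noncomputable def ul {K r : ℕ} (l : Fin r → ℂ) : Z K r := ∏ κ, ∑ i, C (l i) * X (κ, i)

/-- Homogeneous polynomials of degree `c` in the `el p`. -/
def PE {k r : ℕ} (c : ℕ) (f : Z (k + 1) r) : Prop :=
  ∃ P : MvPolynomial (Ib r k) ℂ, P.IsHomogeneous c ∧ aeval (fun p => (el p : Z (k + 1) r)) P = f

/-- B1 (module `El`, theorem `kEl`): the elements `el`.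
(1) For letters `τ`: `el (τ 0, sy (τ ∘ succ)) = ∑_σ ∏_κ z (σ κ) (τ κ)`: this is `kPol` (`T2/Pol.lean`) with
`z i κ = X (κ, i)`, `a = τ`.  (2) So `el p` is symmetric and has content `1`, and it depends only on the
multiset of all letters.
(3) `el p` is a combination of `ul l` with `l` in the finite set `univ.image (fun A => ...)`: in the
definition of `el`, `∏_{t} (∑_{κ ∈ A} X (κ, τ t))` is not a `ul`; apply instead `kPol` with the roles
exchanged, `I = Fin (k+1)` (particles), `z κ t = X (κ, τ t)`, `a = id`: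
`∑_σ ∏_κ X (κ, τ (σ κ)) = ∑_A (-1)^(k+1-|A|) ∏_κ ∑_{t ∈ A} X (κ, τ t)` and
`∏_κ ∑_{t ∈ A} X (κ, τ t) = ul (fun i => #{t ∈ A | τ t = i})`.
(4) `ul l` is a combination of the `el p`: `∏_κ ∑_i l i X (κ, i) = ∑_τ ∏_κ l (τ κ) * ∏_κ X (κ, τ κ)`, average
over the permutations of the letters of `τ` (the left side is symmetric). -/
def ElStmt : Prop := ∀ k r : ℕ,
  (∀ τ : Fin (k + 1) → Fin r, (el (τ 0, sy fun a => τ a.succ) : Z (k + 1) r)
    = ∑ σ : Equiv.Perm (Fin (k + 1)), ∏ κ, X (σ κ, τ κ)) ∧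
  (∀ p : Ib r k, Sy (el p) ∧ Cn 1 (el p)) ∧
  (∃ s : Finset (Fin r → ℂ), ∀ p : Ib r k, (el p : Z (k + 1) r) ∈ Submodule.span ℂ (ul '' (s : Set (Fin r → ℂ)))) ∧
  ∀ l : Fin r → ℂ, (ul l : Z (k + 1) r) ∈ Submodule.span ℂ (Set.range fun p : Ib r k => (el p : Z (k + 1) r))

/-- B2 (module `Rad`, `kRad`).  Uses ElStmt.  Let `I` be the ideal generated by the `el p`; it contains all
`ul l` (ElStmt (4)).  It suffices that `∏_κ X (κ, a κ)` is in every prime ideal `P ⊇ I`
(`Ideal.radical_eq_sInf`).  In the domain `Z / P`: for every `l : Fin r → ℂ` some factor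
`∑_i l i X (κ, i)` of `ul l` is in `P`.  So the space `Fin r → ℂ` is the union of the `k + 1` subspaces
`{l | ∑_i l i X (κ, i) ∈ P}`, hence one of them is everything
(`Submodule.iUnion_ssubset_of_forall_ne_top_of_card_lt` or a similar lemma; `ℂ` is infinite): all `X (κ, i)`
are in `P` for this `κ`. -/
def RadStmt : Prop := ∀ (k r : ℕ) (a : Fin (k + 1) → Fin r), ∃ N : ℕ,
  (∏ κ, X (κ, a κ) : Z (k + 1) r) ^ N ∈ Ideal.span (Set.range fun p : Ib r k => (el p : Z (k + 1) r))

/-- B3 (module `Gen`, `kGen`).  Uses ElStmt, RadStmt.  Let `N ≥ 1` be a common exponent in RadStmt for all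
`a : Fin (k+1) → Fin r` and `N1 = N * r^(k+1) + 1`.  A monomial of content `c` is a product of `c`
factors `s_a = ∏_κ X (κ, a κ)` (for each particle list its `c` letters).  If `c ≥ N1` some `s_a` occurs `N`
times, `s_a^N = ∑_p h_p el p`, and we may take the homogeneous part of content `N - 1` of the `h_p`.  So
every `f` of content `c ≥ N1` is `∑_p f_p el p`, `f_p` of content `c - 1`.  If `f` is symmetric, average over
`σ` (`el p` is symmetric): the `f_p` can be chosen symmetric. -/
def GenStmt : Prop := ∀ k r : ℕ, ∃ N1 : ℕ, 1 ≤ N1 ∧ ∀ c ≥ N1, ∀ f : Z (k + 1) r, Cn c f → Sy f →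
  ∃ g : Ib r k → Z (k + 1) r, (∀ p, Cn (c - 1) (g p) ∧ Sy (g p)) ∧ f = ∑ p, g p * el p

/-- The elementary symmetric functions of particles with affine coordinates. -/
noncomputable def es {K s : ℕ} (S : Finset ℕ) (u : ℕ → Fin s) : Z K s :=
  Ef (fun (ω : ℕ) (κ : Fin K) => (X (κ, u ω) : Z K s)) S

/-- B4 (module `MSa`, `kMSa`).  Symmetric polynomials are generated by power sums
`p M = ∑_κ ∏_{i ∈ M} X (κ, i)`, `M : Multiset (Fin s)` (model: `T2/Or1.lean`).  A symmetric `f` is
`(1/K!) ∑_σ rz σ f`, so it suffices to treat `∑_σ ∏_κ (monomial in the particle σ κ)`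
`= Ef (fun κ i => ∏_{c ∈ M κ} X (i, c)) univ` (embeddings of `univ` are the permutations).  By strong
induction on `|S|` and `kE2` (`T2/Key.lean`) every `Ef (fun κ i => ∏_{c ∈ M κ} X (i, c)) S` is in the
subalgebra generated by the `p M`. -/
def MSaStmt : Prop := ∀ (K s : ℕ) (f : Z K s), Sy f →
  f ∈ Algebra.adjoin ℂ (Set.range fun M : Multiset (Fin s) => (∑ κ, (M.map fun i => X (κ, i)).prod : Z K s))

/-- B5 (module `MSb`, `kMSb`).  Uses MSaStmt.  Power sums are in the algebra generated by the `es S u`,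
`S.card ≤ K`: strong induction on `|M|`; `|M| = 0`: the constant `K`.  Write the letters of `M` as
`u ω`, `ω ∈ insert j0 S` (`exists_xs` in `T2/Defs.lean`, `xs`), and use `kE2` with `a ω κ = X (κ, u ω)`:
`Ef a (insert j0 S) = ∑_{R ⊆ S} (-1)^|R| |R|! p(letters of insert j0 R) Ef a (S \ R)`; the term `R = S` is
`± |S|! p M`, the others contain smaller power sums, and `Ef a S' = 0` if `|S'| > K`. -/
def MSbStmt : Prop := ∀ (K s : ℕ) (f : Z K s), Sy f → f ∈ Algebra.adjoin ℂ
  {z | ∃ (S : Finset ℕ) (u : ℕ → Fin s), S.card ≤ K ∧ (es S u : Z K s) = z}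

/-- B6 (module `Loc0`, `kLoc0`): the chart `z_κ 0 = 1`.  Uses ElStmt, MSbStmt.  Let
`δ : Z (k+1) (s+1) → Z (k+1) s`, `X (κ, 0) ↦ 1`, `X (κ, i.succ) ↦ X (κ, i)`.  It is injective on the
polynomials of content `c` (a monomial of content `c` is determined by its image).  For `S.card ≤ k + 1`,
letters `u ω`, let `τ` have the letters `(u ω).succ` for `ω ∈ S` and `0` otherwise:
`δ (el τ) = (k + 1 - |S|)! • es S u`.  So `δ f` (symmetric) is a polynomial in the `δ (el p)`:
`δ f = P (δ el)`, let `P_t` be the homogeneous parts, `c + N ≥ deg P`.  With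
`u₀ = el (0, ..., 0) = (k+1)! ∏_κ X (κ, 0)`, `δ u₀ = (k+1)!`, the homogeneous polynomial
`P' = ∑_t P_t * (u₀ / (k+1)!)^(c + N - t)` of degree `c + N` satisfies `δ (P' (el)) = δ f = δ (ul e₀ ^ N * f)`,
`ul e₀ = ∏_κ X (κ, 0)`; both have content `c + N`, so `P' (el) = ul e₀ ^ N * f`. -/
def Loc0Stmt : Prop := ∀ (k s c : ℕ) (f : Z (k + 1) (s + 1)), Cn c f → Sy f →
  ∃ N : ℕ, PE (c + N) (ul (Pi.single 0 1) ^ N * f)

/-- B7 (module `Loc`, `kLoc`).  Uses ElStmt, Loc0Stmt.  `l ≠ 0`, so `r = s + 1`.  There is an invertible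
matrix `g` with row `0` equal to `l`.  The substitution `φ : X (κ, i) ↦ ∑_j g i j X (κ, j)` is an
automorphism of `Z (k+1) r` which preserves content and symmetry, maps each `el p` to a combination of
the `el p'` (by the formula ElStmt (1)), so `PE c f → PE c (φ f)`, and `φ (ul e₀) = ul l`.  Apply Loc0Stmt to
`φ⁻¹ f`. -/
def LocStmt : Prop := ∀ (k r c : ℕ) (l : Fin r → ℂ) (f : Z (k + 1) r), l ≠ 0 → Cn c f → Sy f →
  ∃ N : ℕ, PE (c + N) (ul l ^ N * f)

/-- B8 (module `Br`, `kBr`).  Uses ElStmt, GenStmt, LocStmt.  Let `s` be the finite set of ElStmt (3), without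
`0` (`ul 0 = 0`).  The space `M` of symmetric polynomials of content `N1` is finite dimensional; by LocStmt
there is `N` with `PE (N1 + N) (ul l ^ N * f)` for all `l ∈ s`, `f ∈ M` (for a basis; `ul l` is `PE 1`, so
the exponent can be increased).  By GenStmt and ElStmt (3) every symmetric `f` of content `c = N1 + t` is a
combination of `∏_{l ∈ s} ul l ^ α l * h`, `∑ α = t`, `h ∈ M` (induction on `t`).  If `t ≥ N |s|` some
`α l ≥ N` and the term is `PE c`.  `N0 = N1 + N |s|`. -/
def BrStmt : Prop := ∀ k r : ℕ, ∃ N0 : ℕ, ∀ c ≥ N0, ∀ f : Z (k + 1) r, Cn c f → Sy f → PE c f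

end T3

end Pool.Agent.Lib.MP_a688ad_al
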