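import Pool.Agent.Lib.MP_a688ad_al.T3.Defs

/-!
# MP_a688ad_al, all large `n`: explicit invariants (statements with proofs on paper)

`m = k + 1` particles `x_κ` (covectors of `V = ℂ^r`) and a generic `g` in the dual of `V ⊗ Sym^k V` without
symmetric component.  `Sc β c q F`: `F` is a polynomial in `x`, `g`, killed by the raising operators, of
weight `β`, degree `c κ` in `x_κ` and degree `q` in `g`.  For a height `j`, `2 ≤ j ≤ k + 1`, we construct
scalars whose weights are multiples of `om j` (the weight of a `j × j` minor).  Vectors in the span of the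
first `j` basis vectors are made of `j - 1` particles: `vc`.
-/

set_option autoImplicit false

open MvPolynomial Finset

namespace Pool.Agent.Lib.MP_a688ad_al

namespace T3

open T2

/-- The dimension of `V`. -/
abbrev R2 (k : ℕ) : ℕ := k + 1 + (k + 1)

/-! ## Formalism -/

/-- F1 (module `Gg`, theorem `kGg`).  (1) `rp_sy` and `sy`: the term of `c = τ a.succ` in `sym` is
`Xt (τ ∘ swap 0 a.succ)`.  (2) `isW_Xt`.  (3) `DX i j (rename inr F) = rename inr (DE i j F)` (both are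
derivations along `rename inr`, compare on variables), `DE_Xt`, and
`update (τ ∘ s) (s b) i = update τ b i ∘ s` for `s = swap 0 a` (an involution), reindex the sum by `s`.
(4) `pr (rename inr F) = rename inr (D F)` with `D = aeval dg`; `D (sym p) = 0`, since
`∑_a ∑_b Xt (τ ∘ swap 0 a ∘ swap 0 b) = (k + 1) ∑_b Xt (τ ∘ swap 0 b)`: `Xt` depends only on the first letter
and on the multiset of the other ones. -/
def GgStmt : Prop := ∀ (r k : ℕ) (τ : Fin (k + 1) → Fin r),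
  ((gg τ : Ex r k) = rename Sum.inr (Xt τ - (1 / ((k : ℂ) + 1)) • ∑ a, Xt (τ ∘ Equiv.swap 0 a))) ∧
  IsWeightedHomogeneous WE (gg τ : Ex r k) (∑ a, sg (τ a), 0, 1) ∧
  (∀ i j, DX i j (gg τ : Ex r k) = ∑ a, if τ a = j then gg (Function.update τ a i) else 0) ∧
  pr (gg τ : Ex r k) = gg τ

/-- F2 (module `Brk`, `kBrk`).  `brk` is a sum over permutations `π` of `± ∏_a ξ a (π a)`, of weight
`∑ β a + ∑_a sg (π a)` and `∑_{b < p} sg b = om p`.  `DX i j` with `i < j`: if `j ≥ p` every entry is killed; if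
`j < p` the derivative is the determinant with the column `j` replaced by the column `i` (Leibniz rule,
multilinearity in columns), which has two equal columns. -/
def BrkStmt : Prop := ∀ (r k p : ℕ) (hp : p ≤ r) (β : Fin p → Fin r → ℤ)
  (c : Fin p → Fin (k + 1) → ℤ) (q : Fin p → ℤ) (ξ : Fin p → Fin r → Ex r k),
  (∀ a, Cv (β a) (c a) (q a) (ξ a)) → Sc (om p + ∑ a, β a) (∑ a, c a) (∑ a, q a) (brk p hp ξ)

/-- F3 (module `Vcs`, `kVcs`).  The pairing: linearity of the determinant in the last row.  Weight of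
`vc i hi ξ l`, `l < i + 1`: a permutation `π` contributes only if `π (last) = l`, and then
`∑_{a} sg (π a) = om (i+1) - sg l`; if `l ≥ i + 1` then `vc .. l = 0`.  `DX a b`, `a < b`: if `b ≥ i + 1` then both
sides are `0`.  If `b < i + 1`: the derivative is the determinant with the column `b` replaced by the column
`a` in the first `i` rows and by `0` in the last row; it differs from the determinant with two equal
columns by `(δ_{al})` times the minor of the last row and column `b`, so it is `- δ_{al} vc .. b`. -/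
def VcsStmt : Prop := ∀ (r k i : ℕ) (hi : i + 1 ≤ r) (β : Fin i → Fin r → ℤ)
  (c : Fin i → Fin (k + 1) → ℤ) (q : Fin i → ℤ) (ξ : Fin i → Fin r → Ex r k),
  (∀ a, Cv (β a) (c a) (q a) (ξ a)) →
    Vc (om (i + 1) + ∑ a, β a) (∑ a, c a) (∑ a, q a) (vc i hi ξ)

/-- F4 (module `Cts`, `kCts`).  Uses GgStmt.  Weight of a term of `ct`: `∑ (β a - sg (τ a)) + ∑ sg (τ a)`.
`DX i j`, `i < j`, Leibniz rule: the terms in which `v a (τ a)` is differentiated: `τ a = i`, value `- v a j`;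
the terms in which the letter `a` of `gg τ` is differentiated: `τ a = j`, value `gg (update τ a i)`.  The
substitution `τ ↦ update τ a i` (from `τ a = j` to `τ a = i`) shows that they cancel for each `a`.  For `cv` the
letter `0` of `gg` remains: `DX i j (cv v l) = if l = j then cv v i else 0`. -/
def CtsStmt : Prop := (∀ (r k : ℕ) (β : Fin (k + 1) → Fin r → ℤ) (c : Fin (k + 1) → Fin (k + 1) → ℤ)
  (q : Fin (k + 1) → ℤ) (v : Fin (k + 1) → Fin r → Ex r k), (∀ a, Vc (β a) (c a) (q a) (v a)) →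
    Sc (∑ a, β a) (∑ a, c a) (∑ a, q a + 1) (ct v)) ∧
  ∀ (r k : ℕ) (β : Fin k → Fin r → ℤ) (c : Fin k → Fin (k + 1) → ℤ)
  (q : Fin k → ℤ) (v : Fin k → Fin r → Ex r k), (∀ a, Vc (β a) (c a) (q a) (v a)) →
    Cv (∑ a, β a) (∑ a, c a) (∑ a, q a + 1) (cv v)

/-- F5 (module `Siz`, `kSiz`): `∑ β = ∑ c + (k + 1) q` for every nonzero homogeneous `F`; true for the weights
of the variables (`GlFam.sum_sg`, `sum_wt`), so for the exponents of `F`. -/
def SizStmt : Prop := ∀ (r k : ℕ) (β : Fin r → ℤ) (c : Fin (k + 1) → ℤ) (q : ℤ) (F : Ex r k),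
  IsWeightedHomogeneous WE F (β, c, q) → F ≠ 0 → ∑ i, β i = ∑ κ, c κ + (k + 1) * q

/-- F6 (module `Rsc`, `kRsc`): permutations of the particles. `rs σ` commutes with `DX i j` and `pr` (compare on
variables) and maps weight, content `c` to content `c ∘ σ⁻¹`. `map_det` for `brk`. -/
def RscStmt : Prop := (∀ (r k : ℕ) (σ : Equiv.Perm (Fin (k + 1))) (β : Fin r → ℤ)
  (c : Fin (k + 1) → ℤ) (q : ℤ) (F : Ex r k), Sc β c q F → Sc β (c ∘ σ.symm) q (rs σ F)) ∧
  (∀ (r k : ℕ) (σ τ : Equiv.Perm (Fin (k + 1))) (F : Ex r k), rs (σ * τ) F = rs σ (rs τ F)) ∧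
  (∀ (r k : ℕ) (F : Ex r k), rs 1 F = F) ∧
  (∀ (r k : ℕ) (σ : Equiv.Perm (Fin (k + 1))) (p : ℕ) (hp : p ≤ r) (ξ : Fin p → Fin r → Ex r k),
    rs σ (brk p hp ξ) = brk p hp fun a l => rs σ (ξ a l)) ∧
  (∀ (r k : ℕ) (σ : Equiv.Perm (Fin (k + 1))) (i : ℕ) (hi : i + 1 ≤ r) (ξ : Fin i → Fin r → Ex r k)
    (l : Fin r), rs σ (vc i hi ξ l) = vc i hi (fun a l => rs σ (ξ a l)) l) ∧
  ∀ (r k : ℕ) (σ : Equiv.Perm (Fin (k + 1))) (v : Fin (k + 1) → Fin r → Ex r k),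
    rs σ (ct v) = ct fun a l => rs σ (v a l)

/-! ## Evaluation -/

/-- Evaluation at a point. -/
noncomputable def evp {r k : ℕ} (x : Fin (k + 1) → Fin r → ℂ) (T : Ib r k → ℂ) : Ex r k →ₐ[ℂ] ℂ :=
  aeval (Sum.elim (fun p => x p.1 p.2) T)

/-- The values of `g` at a point. -/
noncomputable def gp {r k : ℕ} (T : Ib r k → ℂ) (τ : Fin (k + 1) → Fin r) : ℂ :=
  T (τ 0, sy fun a => τ a.succ) - (1 / ((k : ℂ) + 1)) *
    ∑ a, T ((τ ∘ Equiv.swap 0 a) 0, sy fun b => (τ ∘ Equiv.swap 0 a) b.succ)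

/-- The point whose covectors are powers. -/
noncomputable def vp {r k : ℕ} (κ : Fin (k + 1)) (l : Fin r) : ℂ := ((κ : ℕ) + 1 : ℂ) ^ (l : ℕ)

/-- V1 (module `Evp`, `kEvp`).  Uses GgStmt (1).  Everything is a polynomial expression. -/
def EvpStmt : Prop := ∀ (r k : ℕ) (x : Fin (k + 1) → Fin r → ℂ) (T : Ib r k → ℂ),
  (∀ κ l, evp x T (xx κ l) = x κ l) ∧ (∀ τ, evp x T (gg τ) = gp T τ) ∧
  (∀ (p : ℕ) (hp : p ≤ r) (ξ : Fin p → Fin r → Ex r k),
    evp x T (brk p hp ξ) = brk p hp fun a l => evp x T (ξ a l)) ∧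
  (∀ (i : ℕ) (hi : i + 1 ≤ r) (ξ : Fin i → Fin r → Ex r k) (l : Fin r),
    evp x T (vc i hi ξ l) = vc i hi (fun a l => evp x T (ξ a l)) l) ∧
  (∀ v : Fin (k + 1) → Fin r → Ex r k,
    evp x T (ct v) = ∑ τ : Fin (k + 1) → Fin r, (∏ a, evp x T (v a (τ a))) * gp T τ) ∧
  ∀ (v : Fin k → Fin r → Ex r k) (l : Fin r),
    evp x T (cv v l) = ∑ τ : Fin k → Fin r, (∏ a, evp x T (v a (τ a))) * gp T (Fin.cons l τ)

/-- V2 (module `Rk1`, `kRk1`).  Uses EvpStmt.  `T = α ⊗ β^k`: `gp T τ = α (τ 0) ∏_{a ≠ 0} β (τ a)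
- (1/(k+1)) ∑_a α (τ a) ∏_{b ≠ a} β (τ b)`; contract: with `α(v) = ∑_l α l * v l` etc. the value at
`(v; w, ..., w)` is `α(v) β(w)^k - (1/(k+1)) (α(v) β(w)^k + k α(w) β(v) β(w)^(k-1))`. -/
def Rk1Stmt : Prop := ∀ (r k : ℕ), 1 ≤ k → ∀ (x : Fin (k + 1) → Fin r → ℂ) (α β : Fin r → ℂ)
  (v w : Fin r → Ex r k), evp x (fun p : Ib r k => α p.1 * (p.2.1.map β).prod)
      (ct (Fin.cons v fun _ => w))
    = ((k : ℂ) / (k + 1)) * (∑ l, β l * evp x (fun p : Ib r k => α p.1 * (p.2.1.map β).prod) (w l)) ^ (k - 1)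
      * ((∑ l, α l * evp x (fun p : Ib r k => α p.1 * (p.2.1.map β).prod) (v l))
          * (∑ l, β l * evp x (fun p : Ib r k => α p.1 * (p.2.1.map β).prod) (w l))
        - (∑ l, α l * evp x (fun p : Ib r k => α p.1 * (p.2.1.map β).prod) (w l))
          * (∑ l, β l * evp x (fun p : Ib r k => α p.1 * (p.2.1.map β).prod) (v l)))

/-- V3 (module `Pai`, `kPai`).  (1) Linearity of the determinant in the last row, over any commutative ring.
(2) Vandermonde determinant: `brk` at `vp (c a)` is nonzero if and only if `c` is injective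
(`Matrix.det_vandermonde_ne_zero_iff`). -/
def PaiStmt : Prop := (∀ (R : Type) [CommRing R] (r i : ℕ) (hi : i + 1 ≤ r) (ξ : Fin i → Fin r → R)
  (ζ : Fin r → R), ∑ l, ζ l * vc i hi ξ l = brk (i + 1) hi (Fin.snoc ξ ζ)) ∧
  ∀ (r k p : ℕ) (hp : p ≤ r) (c : Fin p → Fin (k + 1)),
    brk p hp (fun a => (vp (c a) : Fin r → ℂ)) ≠ 0 ↔ Function.Injective c

/-! ## Scalars with distinct conjugates -/

/-- The vector of a tuple of particles. -/
noncomputable def vt {r k : ℕ} (i : ℕ) (hi : i + 1 ≤ r) (c : Fin i → Fin (k + 1)) :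
    Fin r → Ex r k := vc i hi fun a => xx (c a)

open Classical in
/-- The product over all pairs of tuples, the second one without `a`. -/
noncomputable def ha {r k : ℕ} (i : ℕ) (hi : i + 1 ≤ r) (a : Fin (k + 1)) : Ex r k :=
  ∏ c : (Fin i ↪ Fin (k + 1)) × (Fin i ↪ Fin (k + 1)),
    if a ∉ Set.range c.2 ∧ Set.range c.1 ≠ Set.range c.2 then
      ct (Fin.cons (vt i hi c.1) fun _ => vt i hi c.2) ^ 2 else 1

open Classical in
/-- The product of the squares of the minors which contain (`s` true) or avoid (`s` false) `a`. -/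
noncomputable def rb {r k : ℕ} (j : ℕ) (hj : j ≤ r) (s : Prop) (a : Fin (k + 1)) : Ex r k :=
  ∏ c : Fin j ↪ Fin (k + 1), if (a ∈ Set.range c ↔ s) then brk j hj (fun t => xx (c t)) ^ 2 else 1

/-- H0 (module `Iv`, `kIv`).  A function of pairs which is invariant under simultaneous permutations has this
form: for `a ≠ κ`, `b ≠ κ'` there is a permutation with `a ↦ b`, `κ ↦ κ'` (product of two
transpositions), so `C` is constant off the diagonal, and it is constant on the diagonal. -/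
def IvStmt : Prop := ∀ (k : ℕ) (C : Fin (k + 1) → Fin (k + 1) → ℤ),
  (∀ (σ : Equiv.Perm (Fin (k + 1))) (a κ : Fin (k + 1)), C (σ a) (σ κ) = C a κ) →
    ∃ A B : ℤ, ∀ a κ, C a κ = A + if κ = a then B else 0

/-- H1 (module `Ha`, `kHa`).  Uses IvStmt, VcsStmt, CtsStmt, RscStmt.
`rs σ` maps the factor of `(c, c')` for `a` to the factor of `(c.trans σ, c'.trans σ)` for `σ a`.  Every factor is
`Sc (2 (k+1) om j) .. 2` (`j = i + 1`; `ct` of `k + 1` vectors of weight `om j`), so `ha` is `Sc` with content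
`C a κ = ∑ (2 [κ ∈ range c] + 2 k [κ ∈ range c'])`, which satisfies the hypothesis of IvStmt.  The product is
not empty (`1 ≤ i ≤ k - 1`), so `q > 0`. -/
def HaStmt : Prop := ∀ (r k i : ℕ) (hi : i + 1 ≤ r), 1 ≤ i → i + 1 ≤ k →
  (∀ σ a, rs σ (ha i hi a : Ex r k) = ha i hi (σ a)) ∧
  ∃ (w : ℕ) (A B q : ℤ), 0 < q ∧ ∀ a, Sc ((w : ℤ) • om (i + 1))
    (fun κ => A + if κ = a then B else 0) q (ha i hi a : Ex r k)

/-- H2 (module `HaE`, `kHaE`).  Uses EvpStmt, Rk1Stmt, PaiStmt.  `x = vp`, `T = α ⊗ β^k` with `β = vp b`.  The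
vectors `v_c` (values of `vt i hi c`) satisfy `vp κ (v_c) = 0` if `κ ∈ range c` and `≠ 0` otherwise (PaiStmt).
If `b ∉ range c'` and `range c ≠ range c'` then `w = β(v_c') v_c - β(v_c) v_c' ≠ 0`: choose
`κ ∈ range c' \ range c` (same cardinality), `vp κ (w) = β(v_c') vp κ (v_c) ≠ 0`.  Choose `α` with
`α(w) ≠ 0` for all these finitely many `w` (the product of finitely many nonzero linear forms is not the
zero polynomial).  By Rk1Stmt the factor of `(c, c')` has the value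
`((k/(k+1)) β(v_c')^(k-1) α(w))^2`.  For `a = b` all factors are nonzero.  For `a ≠ b` there are `c'` with
`b ∈ range c'`, `a ∉ range c'`, and `c` with `range c ≠ range c'` (`1 ≤ i ≤ k - 1`), and this factor is `0` since
`k - 1 ≥ 1`. -/
def HaEStmt : Prop := ∀ (r k i : ℕ) (hi : i + 1 ≤ r), 1 ≤ i → i + 1 ≤ k → ∀ b : Fin (k + 1),
  ∃ T : Ib r k → ℂ, ∀ a, (evp vp T (ha i hi a) ≠ 0 ↔ a = b)

/-- H3 (module `Rb`, `kRb`).  Uses BrkStmt, RscStmt, EvpStmt, PaiStmt, IvStmt.  As HaStmt.  Content of `rb j hj True a`: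
at `a` it is `2 #{c | a ∈ range c}`, at `κ ≠ a` it is `2 #{c | a, κ ∈ range c}`, smaller since there is `c` with
`a ∈ range c`, `κ ∉ range c` (`1 ≤ j ≤ k`).  Content of `rb j hj False a`: `0` at `a`, positive elsewhere. -/
def RbStmt : Prop := ∀ (r k j : ℕ) (hj : j ≤ r), 1 ≤ j → j ≤ k →
  (∀ (s : Prop) σ a, rs σ (rb j hj s a : Ex r k) = rb j hj s (σ a)) ∧
  (∀ (s : Prop) a T, evp vp T (rb j hj s a : Ex r k) ≠ 0) ∧
  (∃ (w : ℕ) (A B : ℤ), 0 < B ∧ ∀ a, Sc ((w : ℤ) • om j)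
    (fun κ => A + if κ = a then B else 0) 0 (rb j hj True a : Ex r k)) ∧
  ∃ (w : ℕ) (A B : ℤ), B < 0 ∧ ∀ a, Sc ((w : ℤ) • om j)
    (fun κ => A + if κ = a then B else 0) 0 (rb j hj False a : Ex r k)

/-- A family of scalars permuted by the permutations of the particles, and points which separate it. -/
def Hf (k j : ℕ) : Prop := ∃ (w : ℕ) (c q : ℤ) (f : Fin (k + 1) → Ex (R2 k) k)
  (e : Fin (k + 1) → Ex (R2 k) k →ₐ[ℂ] ℂ), 0 < q ∧ (∀ a, Sc ((w : ℤ) • om j) (fun _ => c) q (f a)) ∧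
  (∀ σ a, rs σ (f a) = f (σ a)) ∧ ∀ a b, (e b (f a) ≠ 0 ↔ a = b)

/-- H4 (module `HfA`, `kHfA`).  Uses HaStmt, HaEStmt, RbStmt.  `j = i + 1`.  Let `B`, `Bp > 0`, `Bm < 0` be the
numbers of `ha`, `rb True`, `rb False`.  `f a = ha^x * (rb True)^y * (rb False)^z` with `x = - Bm`,
`y = (- Bm) |B|`, `z = B + |B| Bp ≥ 0`: `x B + y Bp + z Bm = 0`, so the content is constant.  `e b = evp vp T_b`
with `T_b` from HaEStmt. -/
def HfAStmt : Prop := ∀ k j : ℕ, 2 ≤ j → j ≤ k → Hf k j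

/-- H5 (module `HfB`, `kHfB`): the height `j = k + 1`.  Uses VcsStmt, CtsStmt, RscStmt, EvpStmt.
`v_a = vt k _ a.succAbove`, content `1 - 1_a`; `f a = ∏_{b ≠ a} ct (v_a; v_b, ..., v_b)^2` has the content
`∑_{b ≠ a} 2 ((1 - 1_a) + k (1 - 1_b)) = 2 k^2` (constant), `w = 2 k (k + 1)`, `q = 2 k`.
`σ ∘ a.succAbove = (σ a).succAbove ∘ π` for a permutation `π`, so `rs σ v_a = sign π • v_(σ a)` (permutation of
rows), and the squares are permuted.  Points: `x κ l = if l = κ then 1 else 0`: the value of `v_a` is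
`± e_a`.  `T_b p = if p.1 = b and p.2 = {i, ..., i} for some i ≠ b (i < k + 1) then 1 else 0`.  The value of
`ct (v_a; v_i, ..., v_i)`, `i ≠ a`, is `± gp T_b (a; i, ..., i) = ± (T(a; i^k) - (T(a; i^k) + k T(i; a i^(k-1)))/(k+1))`:
for `a = b` it is `± k/(k+1)`; for `a ≠ b` both `T` are `0` (`T_b (i; a i^(k-1))` could be nonzero only if
`i = b` and `{a, b, ..., b}` is constant, but `k ≥ 2`). -/
def HfBStmt : Prop := ∀ k : ℕ, 2 ≤ k → Hf k (k + 1)

/-- H6 (module `Tht`, `kTht`).  Uses HfAStmt, HfBStmt.  `f' a = f a ^ ((k+1)!)`,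
`θ = ∑_a (a + 1) • f' a`.  `e b (rs σ θ) = ∑_a (a + 1) e b (f' (σ a)) = (σ⁻¹ b + 1) e b (f' b)`; if `rs σ θ = θ` then
`σ⁻¹ b = b` for all `b`. -/
def ThtStmt : Prop := ∀ k j : ℕ, 2 ≤ k → 2 ≤ j → j ≤ k + 1 → ∃ (w : ℕ) (c q : ℤ) (θ : Ex (R2 k) k),
  0 < q ∧ Sc ((((k + 1).factorial * w : ℕ) : ℤ) • om j) (fun _ => c) q θ ∧ ∀ σ ≠ 1, rs σ θ ≠ θ

/-! ## Scalars with given weights -/

/-- Y1 (module `Zj`, `kZj`).  Uses BrkStmt, RscStmt, EvpStmt, PaiStmt.  `z = (∏_{c : Fin j ↪ Fin (k+1)} brk (xx ∘ c))^e`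
with `e = (k + 1 - j)!`; there are `(k+1)!/(k+1-j)!` embeddings; `rs σ` permutes the factors; the content is
constant since it is invariant under permutations; nonzero at `vp`. -/
def ZjStmt : Prop := ∀ k j : ℕ, 1 ≤ j → j ≤ k + 1 → ∃ (c : ℤ) (z : Ex (R2 k) k),
  Sc ((((k + 1).factorial : ℕ) : ℤ) • om j) (fun _ => c) 0 z ∧ z ≠ 0 ∧ ∀ σ, rs σ z = z

/-- Scalars which change the content. -/
def Sab (k j : ℕ) : Prop := ∀ a b : Fin (k + 1), a ≠ b → ∃ (C q : ℤ) (s : Ex (R2 k) k),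
  Sc ((((k + 1).factorial : ℕ) : ℤ) • om j)
    (fun κ => C + (if κ = a then 1 else 0) - if κ = b then 1 else 0) q s ∧ s ≠ 0

/-- Y2 (module `SaA`, `kSaA`).  Uses BrkStmt, EvpStmt, PaiStmt.  `j ≤ k`: choose an injective tuple `c` of `j - 1`
particles different from `a`, `b`.  `s = brk (c, a) * ∏_{J ≠ (c, b)} brk J * (∏_J brk J)^((k+1-j)! - 1)`, `J` over all
embeddings `Fin j ↪ Fin (k+1)`.  The content of `∏_J brk J` is constant. -/
def SaAStmt : Prop := ∀ k j : ℕ, 2 ≤ j → j ≤ k → Sab k j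

/-- Y3 (module `SaB`, `kSaB`): `j = k + 1`.  Uses VcsStmt, CtsStmt, BrkStmt, EvpStmt.  With
`v_i = vt k _ i.succAbove` (content `1 - 1_i`) let
`s = ct (v_b; v_(a.succAbove 0), ..., v_(a.succAbove (k-1))) * brk (xx 0, ..., xx k)^((k+1)! - (k+1))`: the content of
the first factor is `(1 - 1_b) + ∑_{i ≠ a} (1 - 1_i) = k + 1_a - 1_b`.  Point: `x κ l = if l = κ then 1 else 0`,
`v_i = ± e_i`, `T p = if p.1 = b and p.2 = {i | i ≠ a} then 1 else 0`: the value is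
`± gp T (b; {i ≠ a}) = ± (1 - 2/(k+1)) ≠ 0` (the letter `b` occurs twice among the letters; `k ≥ 2`). -/
def SaBStmt : Prop := ∀ k : ℕ, 2 ≤ k → Sab k (k + 1)

/-- Y4 (module `Wp`, `kWp`).  Uses BrkStmt, VcsStmt, CtsStmt, EvpStmt, PaiStmt.  `p ≤ k + 1`:
`W = brk p (xx 0, ..., xx (p-1))`.  `p > k + 1`: let `i = j - 1`, `v = vt i (0, ..., i-1)`, `w = vt i (1, ..., i)`,
`η_t = cv (v, ..., v, w, ..., w)` (`t` times `v`, `k - t` times `w`), `0 ≤ t < p - (k+1)`, a covector of weight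
`k om j`; `W = brk p (xx 0, ..., xx k, η_0, ..., η_(p-k-2)) * brk j (xx 0, ..., xx (j-1))^(p-k-1)`, of weight
`om p + (p-k-1)(k+1) om j`.  Nonzero: evaluate at `x κ l = if l = κ then 1 else 0` and
`T p = if k + 1 ≤ p.1 and p.2 = {i^t, 0^(k-t)} with t = p.1 - (k+1) then 1 else 0`.  Then `v = e_i`, `w = ± e_0`, and for
`l ≥ k + 1`: `η_t(l) = ± gp T (l; i^t, 0^(k-t)) = ± (k/(k+1)) [l = k + 1 + t]` (all letters except `l` are
`< k + 1`, where `T` is `0`; `i ≥ 1`, so different `t` give different multisets).  The matrix has the blocks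
`(1, 0; *, diagonal)`. -/
def WpStmt : Prop := ∀ k j p : ℕ, 2 ≤ j → j ≤ k + 1 → p ≤ R2 k →
  ∃ (e : ℕ) (c : Fin (k + 1) → ℤ) (q : ℤ) (W : Ex (R2 k) k), (p ≤ k + 1 → e = 0 ∧ q = 0) ∧
    Sc (om p + ((((k + 1) * e : ℕ)) : ℤ) • om j) c q W ∧ W ≠ 0

/-- Y5 (module `Yb`, `kYb`).  Uses WpStmt, SaAStmt, SaBStmt, SizStmt.  `Y₁ = ∏_C W_(C.card)^(b C)` has the weight
`∑_i row b i + (k+1) E om j` (`row b = ∑_C b C • om C.card`) and some content `c`.  Multiply by
`W_j^a`, `a = (k + 1) a'`, `a' + E ≡ 0 mod k!` (here `W_j` has weight `om j`): the weight is now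
`row b + (k+1)! e' om j`.  By SizStmt `∑_κ c κ ≡ ∑_i row b i + (k+1)! e' j ≡ 0 mod k + 1`
(`∑_i row b i = ∑_κ cont b κ = (k+1) nb`).  So `c = C + δ` with a constant `C` and `∑ δ = 0`; `- δ` is a sum of
vectors `1_a - 1_b'` (induction on `∑ |δ|`); multiply by the corresponding scalars `Sab`; each adds
`(k+1)! om j` to the weight. -/
def YbStmt : Prop := ∀ k j : ℕ, 2 ≤ k → 2 ≤ j → j ≤ k + 1 → ∀ b nb, S1 (k + 1) nb b →
  ∃ (e : ℕ) (c q : ℤ) (Y : Ex (R2 k) k),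
    Sc ((fun i : Fin (R2 k) => (row b i : ℤ)) + ((((k + 1).factorial * e : ℕ)) : ℤ) • om j)
      (fun _ => c) q Y ∧ Y ≠ 0

/-- Y6 (module `Yy`, `kYy`).  Uses YbStmt, ZjStmt.  `row g = ∑_{1 ≤ j' ≤ k+1} ht g j' om j'`.  With `Y_b`, `e` from
YbStmt and `z_j'` from ZjStmt let `Y = Y_b * z_j^(N ht g j - e - T) * ∏_{j' ≠ j} z_j'^(N ht g j')`,
`N ≥ N1 = e + T`. -/
def YyStmt : Prop := ∀ k j : ℕ, 2 ≤ k → 2 ≤ j → j ≤ k + 1 → ∀ b nb g ng, S1 (k + 1) nb b →
  S0 (k + 1) ng g → 1 ≤ ht g j → ∀ T : ℕ, ∃ (N1 : ℕ) (q : ℤ), ∀ N ≥ N1, ∃ (c : ℤ) (Y : Ex (R2 k) k),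
    Sc (fun i : Fin (R2 k) => (row b i : ℤ) + ((k + 1).factorial * N : ℕ) * (row g i : ℤ)
      - ((k + 1).factorial * T : ℕ) * om j i) (fun _ => c) q Y ∧ Y ≠ 0

end T3

end Pool.Agent.Lib.MP_a688ad_al
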