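import Pool.Agent.Lib.MP_a688ad_al.T3.SpecU
import Pool.Agent.Lib.MP_a688ad_al.T3.SpecB
import Pool.Agent.Lib.MP_a688ad_al.T3.SpecE

/-!
# MP_a688ad_al, all large `n`: the lower bound (statements with proofs on paper)

`Ev : Sym(V ⊗ Sym^k V) → ℂ[x, g]` commutes with `gl_r`.  Every symmetric `F ∈ ℂ[x, g]` of large content in the
particles `x` is in the image of `Ev` (ImStmt); if `F` is killed by the raising operators and of weight
`lam` it is the image of a highest weight vector (LftStmt).  So `c_λ(n, m)` is at least the dimension of any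
space of symmetric scalars of weight `lam` and large content (FrStmt).  Such a space of dimension
`K * #E0` is the image of the injective map `psi` on `K`-tuples of combinations of the monomials `mon`.
-/

set_option autoImplicit false

open MvPolynomial Finset

namespace Pool.Agent.Lib.MP_a688ad_al

namespace T3

open T2

/-! ## The map `Ev` -/

/-- The weight of a variable. -/
def W1 {r k : ℕ} (v : Fin (k + 1) × Fin r ⊕ Ib r k) : Fin r → ℤ := (WE v).1

/-- L1 (module `EvE`, theorem `kEvE`).  Uses ElStmt, GgStmt.  By ElStmt (1) and GgStmt,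
`Ev (Xt τ) = rename inl (el τ) + gg τ` with `el τ = ∑_σ ∏_κ X (σ κ, τ κ)`.
(1) Both sides are derivations along `Ev`, compare on the variables `X p = Xt τ` (`Xt_surj`, `DE_Xt`):
`DX i j (rename inl (el τ)) = ∑_a if τ a = j then rename inl (el (update τ a i)) else 0` (Leibniz rule for
`∏_κ X (σ κ, τ κ)`, the factor `κ = a`) and GgStmt (3).
(2) `sym p` is the sum over the `k + 1` choices of the distinguished letter (`rp_sy`), `el` does not depend
on the choice, and the sum of `dg` over the choices is `sym p - sym p = 0` (`sym` does not depend on the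
choice either).  (3) The variables `X p` go to polynomials of weight `wt p`. -/
def EvEStmt : Prop := ∀ r k : ℕ,
  (∀ (i j : Fin r) (P : MvPolynomial (Ib r k) ℂ), Ev (DE i j P) = DX i j (Ev P)) ∧
  (∀ p : Ib r k, Ev (dg p) = (rename Sum.inr (dg p) : Ex r k) ∧
    Ev (sym p) = ((k : ℂ) + 1) • (rename Sum.inl (el p) : Ex r k)) ∧
  ∀ (ν : Fin r → ℤ) (d : ℤ) (P : MvPolynomial (Ib r k) ℂ), IsWeightedHomogeneous WT P (ν, d) →
    IsWeightedHomogeneous W1 (Ev P) ν

/-- L2 (module `GE`, `kGE`).  `Ex r k` with the operators `DX` is a `GlFam`; model: `Gl` in `T2/Act.lean`.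
`comm`: both sides are derivations, compare on variables; on `rename inr F` use
`DX i j (rename inr F) = rename inr (DE i j F)` and `DE_comm`.  `G ν` is the space of weighted homogeneous
polynomials of weight `ν` for `W1` if `∑ ν = d`, and `⊥` otherwise; finite dimensional since every variable
has nonnegative weights with the sum `1` or `k + 1` (`sum_wt`). -/
def GEStmt : Prop := ∀ r k d : ℕ, ∃ S : GlFam r (Ex r k), S.d0 = d ∧
  (∀ i j F, S.E i j F = DX i j F) ∧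
  ∀ ν F, F ∈ S.G ν ↔ IsWeightedHomogeneous W1 F ν ∧ (F = 0 ∨ ∑ i, ν i = d)

/-- L3 (module `Lft`, `kLft`).  Uses EvEStmt, GEStmt; model: `T2/Cs.lean`, `cs_lift`.  `N = (Gl r k n).G lam`,
`f` the Casimir operator on `N` (`Cas_mem`), `φ` the restriction of `Ev`, `g` the Casimir operator of the
family `S` of GEStmt (`d = (k + 1) n`).  `φ (f x) = g (φ x)` (`Cas_apply`, EvEStmt (1)).
`g (φ P) = cval lam • φ P` (`Cas_hw`: `Ev P ∈ S.G lam` by EvEStmt (3)).  `cs_lift` gives `P'` in the generalized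
eigenspace for `cval lam`, so `P' ∈ HW lam` by `HW_eq`. -/
def LftStmt : Prop := ∀ (r k n : ℕ) (lam : Fin r → ℤ) (P : MvPolynomial (Ib r k) ℂ), Antitone lam →
  ∑ i, lam i = ((k + 1) * n : ℕ) → P ∈ (Gl r k n).G lam → (∀ i j, i < j → DX i j (Ev P) = 0) →
  ∃ P' ∈ (Gl r k n).HW lam, Ev P' = Ev P

/-- L4 (module `Fr`, `kFr`).  Uses LftStmt.  The range of `ψ` is contained in the image of `HW lam` under `Ev`,
and `HW lam` is finite dimensional (a submodule of `G lam`). -/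
def FrStmt : Prop := ∀ (r k n : ℕ) (lam : Fin r → ℤ) (W : Type) [AddCommGroup W] [Module ℂ W]
  [FiniteDimensional ℂ W] (ψ : W →ₗ[ℂ] Ex r k), Function.Injective ψ → Antitone lam →
  ∑ i, lam i = ((k + 1) * n : ℕ) →
  (∀ w, (∀ i j, i < j → DX i j (ψ w) = 0) ∧ ∃ P ∈ (Gl r k n).G lam, Ev P = ψ w) →
  Module.finrank ℂ W ≤ Module.finrank ℂ ((Gl r k n).HW lam)

/-- L5 (module `Im`, `kIm`).  Uses BrStmt, EvEStmt.  Write `F = ∑_d rename inl (F_d) * rename inr (monomial d 1)`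
(coefficients with respect to the variables `T`; e.g. `sumAlgEquiv`).  `F_d ≠ 0` only if `|d| = q`; `F_d` has
content `c` in each particle and is symmetric (`rs σ` acts on the variables `x` only), so by BrStmt
`F_d = P_d(el)` with `P_d` homogeneous of degree `c`.  Let
`P₀ = ∑_d (aeval (fun p => (1/(k+1)) • sym p) P_d) * ∏_p (dg p)^(d p)`, homogeneous of degree `c + q`.  By
EvEStmt (2) `Ev P₀ = ∑_d rename inl (F_d) * rename inr (∏_p (dg p)^(d p)) = pr F = F`.  Let `P` be the component of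
weight `(β, c + q)` of `P₀` for `WT`.  By EvEStmt (3) `Ev P` is the component of weight `β` of `F` for `W1`, which is
`F`. -/
def ImStmt : Prop := ∀ k r : ℕ, ∃ N0 : ℕ, ∀ c ≥ N0, ∀ (β : Fin r → ℤ) (q : ℤ) (F : Ex r k),
  IsWeightedHomogeneous WE F (β, (fun _ => (c : ℤ)), q) → pr F = F → (∀ σ, rs σ F = F) →
  ∃ P : MvPolynomial (Ib r k) ℂ, IsWeightedHomogeneous WT P (β, (c : ℤ) + q) ∧ Ev P = F

/-! ## Monomials in minors -/

/-- The product of the minors of the columns. -/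
noncomputable def mon {K : ℕ} (r : ℕ) (a : Finset (Fin K) → ℕ) : Z K r :=
  ∏ C, (if h : C.card ≤ r then brk C.card h (fun t l => (X (C.orderEmbOfFin rfl t, l) : Z K r))
    else 1) ^ a C

/-- L6 (module `LI`, `kLI`).  Let `ω (κ, i) = κ * i` (natural numbers) and `ω d = ∑ d p * ω p` for an exponent
`d`.  Say that `f` has the top `d₀` if `coeff d₀ f = 1` and `coeff d f ≠ 0` implies `ω d < ω d₀` or `d = d₀`.
Products have tops (sum of the tops).  The minor of the column `C = {c_0 < c_1 < ...}` is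
`∑_π ± ∏_t X (c_t, π t)`, and `∑_t c_t * π t ≤ ∑_t c_t * t` with equality only for `π = 1` (rearrangement
inequality, `Monovary.sum_mul_comp_perm_eq_sum_mul_iff` or similar), so it has the top `dC r C`, and
`mon r a` has the top `dA r a`.  If `∑ c a • mon r a = 0` and some `c a ≠ 0` choose such an `a` with maximal
`ω (dA r a)`: the coefficient of the exponent `dA r a` is `c a`, since
`coeff (dA r a) (mon r a') ≠ 0` implies `dA r a' = dA r a`, so `a' = a`. -/
def LIStmt : Prop := ∀ (K r : ℕ) (s : Finset (Finset (Fin K) → ℕ)) (c : (Finset (Fin K) → ℕ) → ℂ),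
  (∀ a ∈ s, ∀ C, r < C.card → a C = 0) → (∀ a ∈ s, ∀ a' ∈ s, dA r a = dA r a' → a = a') →
  ∑ a ∈ s, c a • mon r a = 0 → ∀ a ∈ s, c a = 0

/-- L7 (module `MSc`, `kMSc`).  Uses BrkStmt.  `rename inl` of a minor is the `brk` of the `xx κ` (`AlgHom.map_det`);
BrkStmt with `xx_Cv`, `Sc.pow`, `Sc.prod`.  Weight: `∑_C a C • om C.card i = row a i`; content:
`∑_C a C • ∑_t sg (C.orderEmbOfFin rfl t) κ = cont a κ`. -/
def MScStmt : Prop := ∀ (r k : ℕ) (a : Finset (Fin (k + 1)) → ℕ), (∀ C, r < C.card → a C = 0) →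
  Sc (fun i : Fin r => (row a i : ℤ)) (fun κ => (cont a κ : ℤ)) 0
    (rename Sum.inl (mon r a) : Ex r k)

/-- L8 (module `Ef0`, `kEf0`).  `∑_C a C ≤ ∑_κ cont a κ = m n` if `a ∅ = 0` (`∑_κ cont a κ = ∑_C C.card * a C`), so
there are finitely many `a`. -/
def Ef0Stmt : Prop := ∀ (m r n : ℕ) (lam : Fin r → ℤ), (E0 m r n lam).Finite

/-! ## Symmetrization -/

/-- L9 (module `Vdm`, `kVdm`).  Uses RscStmt (2), (3).  The `rs σ θ` are pairwise distinct:
`rs σ θ = rs τ θ` gives `rs (τ⁻¹ * σ) θ = θ`.  Let `p = ∏_{σ ≠ 1} (T - C (rs σ θ))`, a polynomial in `T` over `Ex r k`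
of degree `(k+1)! - 1` with the coefficients `p_t`.  `0 = ∑_t p_t ∑_σ rs σ F * (rs σ θ)^t = ∑_σ rs σ F * p(rs σ θ)
= F * p(θ)`, and `p(θ) ≠ 0`. -/
def VdmStmt : Prop := ∀ (r k : ℕ) (θ F : Ex r k),
  (∀ σ : Equiv.Perm (Fin (k + 1)), σ ≠ 1 → rs σ θ ≠ θ) →
  (∀ t < (k + 1).factorial, ∑ σ : Equiv.Perm (Fin (k + 1)), rs σ F * (rs σ θ) ^ t = 0) → F = 0

/-- A summand of `psi`. -/
noncomputable def psx {r k : ℕ} (M : ℕ) (Y θ θ' F : Ex r k) (x : ℕ) : Ex r k :=
  (∑ σ : Equiv.Perm (Fin (k + 1)), rs σ (F * Y * θ ^ x)) * θ' ^ (M - x)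

/-- The map `psi`. -/
noncomputable def psi {r k : ℕ} (K : ℕ) (Y θ θ' : Ex r k) (F : Fin K → Ex r k) : Ex r k :=
  ∑ b : Fin K, ∑ t ∈ range (k + 1).factorial,
    psx (K * (k + 1).factorial - 1) Y θ θ' (F b) ((b : ℕ) * (k + 1).factorial + t)

/-- L10 (module `PsiS`, `kPsiS`).  Uses RscStmt.  `Sc.mul`, `Sc.pow`, RscStmt (1) (the contents are constant, so
they do not change), `Sc.sum`.  Symmetry: reindex the sum over `σ` (RscStmt (2)). -/
def PsiSStmt : Prop := ∀ (r k M : ℕ) (β βY βθ : Fin r → ℤ) (c cY cθ c' qY qθ : ℤ)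
  (Y θ θ' F : Ex r k), Sc β (fun _ => c) 0 F → Sc βY (fun _ => cY) qY Y →
  Sc βθ (fun _ => cθ) qθ θ → Sc βθ (fun _ => c') 0 θ' → (∀ σ, rs σ θ' = θ') → ∀ x ≤ M,
    Sc (β + βY + (M : ℤ) • βθ) (fun _ => c + cY + x * cθ + ((M : ℤ) - x) * c') (qY + x * qθ)
      (psx M Y θ θ' F x) ∧ ∀ σ, rs σ (psx M Y θ θ' F x) = psx M Y θ θ' F x

/-- L11 (module `PsiI`, `kPsiI`).  Uses RscStmt, PsiSStmt, VdmStmt.  `K = 0` is trivial.  The summand of `(b, t)`,
`t < (k+1)!`, is homogeneous of degree `qY + (b (k+1)! + t) qθ` in `g` (the last component of `WE`), and these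
degrees are distinct.  So every summand is `0`, and since `θ' ≠ 0`,
`0 = ∑_σ rs σ (F b * Y * θ^(b (k+1)! + t)) = ∑_σ rs σ (F b * Y * θ^(b (k+1)!)) * (rs σ θ)^t` for all
`t < (k+1)!`.  By VdmStmt `F b * Y * θ^(b (k+1)!) = 0`, and `θ ≠ 0` since `k ≥ 1`. -/
def PsiIStmt : Prop := ∀ (r k K : ℕ) (β βY βθ : Fin r → ℤ) (c cY cθ c' qY qθ : ℤ)
  (Y θ θ' : Ex r k) (F : Fin K → Ex r k), 1 ≤ k → (∀ b, Sc β (fun _ => c) 0 (F b)) →
  Sc βY (fun _ => cY) qY Y → Sc βθ (fun _ => cθ) qθ θ → Sc βθ (fun _ => c') 0 θ' →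
  (∀ σ, rs σ θ' = θ') → 0 < qθ → Y ≠ 0 → θ' ≠ 0 →
  (∀ σ : Equiv.Perm (Fin (k + 1)), σ ≠ 1 → rs σ θ ≠ θ) → psi K Y θ θ' F = 0 → ∀ b, F b = 0

/-! ## The lower bound -/

/-- L12 (module `Low`, `kLow`).  Uses ThtStmt, ZjStmt, YyStmt, SizStmt, ImStmt, FrStmt, LIStmt, MScStmt, Ef0Stmt,
PsiSStmt, PsiIStmt.  `K ≥ 1`.  `ζ = (k+1)!`, `M = K ζ - 1`.  `θ`, `w`, `cθ`, `qθ` from ThtStmt, `z` from ZjStmt,
`θ' = z^w` (the same weight `ζ w om j`, content constant, degree `0` in `g`), `T = M w`, `N1`, `qY` from YyStmt for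
this `T`, `N0` from ImStmt for `r = R2 k`, `n0 = N0 + (qY + M qθ).toNat`.  Given `N`, `n`, `n'`, `lam` let
`lam'` be the weight in the statement, `E = E0 (k+1) (R2 k) n' lam'`, finite (Ef0Stmt).  For `d ∈ E` choose `a_d`
with `dA a_d = d`.  `W = Fin K → (E → ℂ)`, `F_b(v) = ∑_d v b d • rename inl (mon a_d)`, which is `Sc lam' n' 0`
(MScStmt, `C.card ≤ k + 1 ≤ r`), `ψ v = psi K Y θ θ' (F(v))`, linear.  Injective: PsiIStmt, LIStmt (`rename inl` is
injective, `d ↦ a_d` is injective).  By PsiSStmt the summands of `ψ v` are `Sc`, symmetric, of weight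
`lam' + (row b + ζ N row g - ζ T om j) + M ζ w om j = lam`, of degree `q_x = qY + x qθ ≤ qY + M qθ` in `g`, of
constant content `c_x`; if the summand is not `0` then by SizStmt `(k+1) n = (k+1) c_x + (k+1) q_x`, so
`c_x = n - q_x ≥ N0`, and ImStmt gives `P ∈ (Gl r k n).G lam` with `Ev P` = the summand.  Apply FrStmt. -/
def LowStmt : Prop := ∀ k j : ℕ, 2 ≤ k → 2 ≤ j → j ≤ k + 1 → ∀ b nb g ng, S1 (k + 1) nb b →
  S0 (k + 1) ng g → 1 ≤ ht g j → ∀ K : ℕ, ∃ N1 n0 : ℕ, ∀ N ≥ N1, ∀ n ≥ n0, ∀ (n' : ℕ)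
  (lam : Fin (R2 k) → ℤ), Antitone lam → ∑ i, lam i = ((k + 1) * n : ℕ) →
  K * (E0 (k + 1) (R2 k) n' fun i => lam i - row b i - ((k + 1).factorial * N : ℕ) * row g i).ncard
    ≤ Module.finrank ℂ ((Gl (R2 k) k n).HW lam)

/-- L13 (module `RgB`, `kRgB`).  Uses UppStmt, CmbStmt, RegStmt, LowStmt.  `m = k + 1`.  `B`, `G` from CmbStmt.  For
`b ∈ B`, `g ∈ G`, `2 ≤ j ≤ m` with `ht g j ≥ 1` let `N1`, `n0` be from LowStmt for `K = #B * #G`; let `N*`, `n0*` be
the maxima.  `N = (k+1)! N*`; for each `j` let `D_j` be from CmbStmt for `j`, `N`; `D = max D_j`; `N0` from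
RegStmt for `D`.  Let `n ≥ max (N0, n0*, 1)`.  If there is no `a₀` with `S1 m n a₀`, row lengths `lam`, then
`E1 = ∅` and UppStmt gives `finrank = 0`.  Otherwise RegStmt for `a₀` gives `j` (rows `i ≥ 2m` are `0`:
`C.card ≤ 2m`), and CmbStmt for `j`, `N`, `L = finrank (HW of Gl (R2 k) k n)` with LowStmt. -/
def RgBStmt : Prop := ∀ k : ℕ, 2 ≤ k → ∃ N0 : ℕ, ∀ n ≥ N0, ∀ lam : Fin (R2 k) → ℤ, Antitone lam →
  ∑ i, lam i = ((k + 1) * n : ℕ) → (∀ i : Fin (R2 k), (i : ℕ) = 0 → lam i + n < (k + 1) * n) →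
  Module.finrank ℂ ((Gl (R2 k) (n - 1) (k + 1)).HW lam)
    ≤ Module.finrank ℂ ((Gl (R2 k) k n).HW lam)

/-- L14 (module `Var`, `kVar`): the number of variables.  `φ = rename (Prod.map (Fin.castAdd t) (Sym.map
(Fin.castAdd t)))` is injective, `φ (Xt τ) = Xt (castAdd ∘ τ)`,
`DE (castAdd i) (castAdd j) (φ F) = φ (DE i j F)`, `DE i (natAdd j) (φ F) = 0` (compare on variables, `Xt_surj`,
`DE_Xt`), and `φ` maps weight `(ν, a)` to weight `(Fin.append ν 0, a)`.  A polynomial of weight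
`(Fin.append lam 0, a)` contains only variables without letters `natAdd j` (weights are nonnegative, `wt_nonneg`,
and such a variable has positive weight at `natAdd j`), so it is `φ F`.  So `φ` gives a linear
equivalence of the spaces `HW` (`mem_HW`; for `i < j`: both in `castAdd`, or `j` in `natAdd`). -/
def VarStmt : Prop := ∀ (r t k a : ℕ) (lam : Fin r → ℤ),
  Module.finrank ℂ ((Gl r k a).HW lam)
    = Module.finrank ℂ ((Gl (r + t) k a).HW (Fin.append lam fun _ => 0))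

/-- **T3** (module `Asm`, `kAsm`).  Uses UppStmt, RgBStmt, VarStmt; `T2.kCh`, `T2.kT2`.  `m = k + 1`,
`N` = the number of RgBStmt, at least `m + 1`.  `r = s + 1` variables.  If `n * (m - 1) ≤ lam 0` use `T2.kT2`.
Otherwise by `kCh` both sides are dimensions: the left one of `(Gl r (n-1) m).HW`, the right one of
`(Gl r k n).HW`.  If `lam i ≠ 0` for some `i ≥ 2m` then `E1 m r n lam = ∅` and UppStmt gives `0`.  Otherwise,
if `r ≤ 2m`, `2m = r + t`, VarStmt for both sides and RgBStmt for `Fin.append lam 0`; if `r = 2m + t` then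
`lam = Fin.append lam₀ 0`, VarStmt in the other direction. -/
def AsmStmt : Prop := ∀ m : ℕ, 3 ≤ m → ∃ N : ℕ, ∀ n ≥ N, ∀ (s : ℕ) (lam : Fin (s + 1) → ℕ),
  Antitone lam → ∑ i, lam i = n * m →
  (3 ≤ (univ.filter (fun i => lam i ≠ 0)).card ∨ lam 0 < n * (m - 1)) →
  schurCoeff (pleth (s + 1) m n) lam ≤ schurCoeff (pleth (s + 1) n m) lam

end T3

end Pool.Agent.Lib.MP_a688ad_al
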