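import Pool.Agent.Lib.MP_a688ad_al.T3.Defs

/-!
# MP_a688ad_al, all large `n`: the upper bound (statements with proofs on paper)

The highest weight vectors of `Sym^m(V ⊗ Sym^{n-1} V)` are polynomials `f` in the coordinates of `2 m`
particles `x_1, ..., x_m, y_1, ..., y_m` which are killed by the raising operators.  Every nonzero `f`
of this kind has a nonzero coefficient at the exponent `dA a` of a multiset `a` of columns (U2).  So
`c_λ(m, n)` is at most the number of exponents `dA a`, `a ∈ S1`, with row lengths `λ`.  By Dickson's lemma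
every `a ∈ S1` with many columns of height `j` is `b + N g + a'` with `b`, `g` in finite sets, `g` with a
column of height `j`, and `a' ∈ S0`.
-/

set_option autoImplicit false

open MvPolynomial Finset

namespace Pool.Agent.Lib.MP_a688ad_al

namespace T3

open T2

/-! ## Z: particles -/

/-- Z1 (module `GZ`, theorem `kGZ`): `Z K r` with the operators `DZ` is a `GlFam`; model: `Gl` in
`T2/Act.lean` (here everything is simpler: the variables are `z κ i`).
`comm`: both sides are derivations, compare on variables.  `G ν` is the space of weighted homogeneous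
polynomials of weight `ν` if `∑ ν = d`, and `⊥` otherwise; finite dimensional since `∑ ν` is the degree. -/
def GZStmt : Prop := ∀ K r d : ℕ, ∃ S : GlFam r (Z K r), S.d0 = d ∧ (∀ i j f, S.E i j f = DZ i j f) ∧
  ∀ ν f, f ∈ S.G ν ↔ IsWeightedHomogeneous (fun p => sg p.2) f ν ∧ (f = 0 ∨ ∑ i, ν i = d)

/-- Z2 (module `Str`, `kStr`).  Uses GZStmt.  `v = E^p w` with `E = DZ i j`, `E v = 0`, `v ≠ 0` of weight
`κ`.  Let `F = DZ j i`, `h = κ i - κ j`.  Suppose `p > h`.  By `GlFam.dominant` `h ≥ 0`.  As in the proof of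
`GlFam.dominant`, `E (F^(t+1) v) = (t+1)(h - t) F^t v`; for `t = h`: `u = F^(h+1) v` is killed by `E` and has
weight difference `-h-2 < 0`, so `u = 0` by `dominant`.  So `F^p v = 0`.  The form
`⟨f, g⟩ = ∑_d conj (coeff d f) * coeff d g * ∏_p (d p)!` is positive definite and `E` is adjoint to `F`
(check on monomials: `⟨z_(κ,i) ∂_(κ,j) f, g⟩ = ⟨f, z_(κ,j) ∂_(κ,i) g⟩`).  So
`⟨v, v⟩ = ⟨E^p w, v⟩ = ⟨w, F^p v⟩ = 0`, a contradiction. -/
def StrStmt : Prop := ∀ (K r : ℕ) (i j : Fin r), i ≠ j → ∀ (p : ℕ) (κ : Fin r → ℤ) (w v : Z K r),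
  IsWeightedHomogeneous (fun p => sg p.2) v κ → (DZ i j)^[p] w = v → DZ i j v = 0 → v ≠ 0 →
    (p : ℤ) ≤ κ i - κ j

/-- The interlacing conditions for a matrix: the number of the entries `≤ κ` in the row `i + 1` is at most
the number of the entries `< κ` in the row `i`. -/
def Il {K r : ℕ} (A : (Fin K × Fin r) →₀ ℕ) : Prop := ∀ (κ : Fin K) (i i' : Fin r),
  (i : ℕ) + 1 = i' → ∑ κ' ∈ univ.filter (· ≤ κ), A (κ', i') ≤ ∑ κ' ∈ univ.filter (· < κ), A (κ', i)

/-- U1 (module `LMt`, `kLMt`).  Uses StrStmt.  Induction on `K`; `K = 0`: `f` is a constant, `A = 0`.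
`K + 1`: write `f = ∑_γ f_γ z_K^γ`, `γ : Fin r →₀ ℕ`, `f_γ ∈ Z K r` (split off the last particle
`Fin.last K`; e.g. `sumAlgEquiv` after renaming `Fin (K+1) × Fin r ≃ Fin K × Fin r ⊕ Fin r`, or describe
`f_γ` by its coefficients).  The coefficient of `z_K^γ` in `DZ i j f = 0`, `i < j`, is
(*) `DZ i j f_γ = - (γ j + 1) f_(γ + ε_j - ε_i)` if `γ i ≥ 1`, and `DZ i j f_γ = 0` if `γ i = 0`.
Each `f_γ` has weight `κ = λ - γ`.  Choose `γ` with `f_γ ≠ 0` and `∑_i i * γ i` maximal.  Then by (*)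
`DZ i j f_γ = 0` for all `i < j`, and the induction hypothesis gives `A'` with `Il A'` and
`coeff A' f_γ ≠ 0`.  Let `A = (A', γ)`.  Conditions `Il` for `κ ≠ last` are those of `A'`.  For `κ = last` and
the rows `i`, `i' = i + 1`: the left side is `κ_{i'} + γ_{i'}`, the right side is `κ_i` (the row sums of
`A'` are the weight `κ` of `f_γ`).  Let `p = γ i'`, `γ_t = γ + (p - t)(ε_i - ε_i')`, `0 ≤ t ≤ p`: by (*)
`DZ i i' f_(γ_t) = - (t + 1) f_(γ_(t+1))`, so `(DZ i i')^[p] f_(γ_0) = (-1)^p p! f_γ`, and StrStmt gives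
`p ≤ κ_i - κ_i'`. -/
def LMtStmt : Prop := ∀ (K r : ℕ) (lam : Fin r → ℤ) (f : Z K r), f ≠ 0 →
  IsWeightedHomogeneous (fun p => sg p.2) f lam → (∀ i j, i < j → DZ i j f = 0) →
  ∃ A, Il A ∧ coeff A f ≠ 0

/-- U2 (module `Ilc`, `kIlc`).  Induction on the number of entries of the row `0` (if `r = 0` or if the row
`0` is zero then `A = 0` by the conditions: the row `i + 1` is zero if the row `i` is).  Let `r ≥ 1` and let
the row `0` be nonzero.  The nonzero rows are the rows `0, ..., p - 1`.  Let `c i` be the smallest `κ` with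
`A (κ, i) ≠ 0`, `i < p`.  Then `c (i+1) > c i`: the condition for `κ = c (i+1)` has a positive left side.
Let `C = {c 0, ..., c (p-1)}`; `dC r C` has the entries `1` at `(c i, i)`, `dC r C ≤ A`.  `A' = A - dC r C`
satisfies `Il`: the right side for `(κ, i)` decreases by one if `c i < κ`, the left side decreases by one if
`c (i+1) ≤ κ` and `i + 1 < p`.  If the right side decreases and the left does not, then `κ < c (i+1)` or
`i + 1 ≥ p`, and the left side is `0`.  `C` is nonempty and `C.card = p ≤ r`. -/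
def IlcStmt : Prop := ∀ (K r : ℕ) (A : (Fin K × Fin r) →₀ ℕ), Il A →
  ∃ a : Finset (Fin K) → ℕ, a ∅ = 0 ∧ (∀ C, r < C.card → a C = 0) ∧ dA r a = A

/-- U3 (module `Plz`, `kPlz`): polarization, in the style of `Th` (`T2/Defs.lean`) and of `T2/Inj.lean`.
`Q F = ∑_{A ⊆ Fin m} (-1)^(m - |A|) aeval (fun p => ∑_{κ ∈ A} y κ p.1 * ∏_{c ∈ p.2} x κ c) F` with
`x κ c = X (castAdd κ, c)`, `y κ c = X (natAdd κ, c)`.  By `kPol` (`T2/Pol.lean`) it maps
`∏_{t : Fin m} X (a t)` to `∑_σ ∏_t mo (a t) (σ t)` where `mo p κ = y κ p.1 * ∏_{c ∈ p.2} x κ c` is a monomial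
with one letter `y κ`, `n` letters `x κ`; it is injective on the polynomials of degree `m`, since
`b ↦ ∏_κ mo (b κ) κ` is injective on `Fin m → Ib r n` and the coefficient of this monomial in
`Q F`, `F = ∑ c_d X^d`, is `c_d * ∏ (d p)!` for the multiset `d` of the `b κ`.
Equivariance: as `T2/ThE.lean` (`aeval` of a sum over `A`, derivations along an algebra map, variables
`Xt τ`, `DE_Xt`). -/
def PlzStmt : Prop := ∀ r n m : ℕ, ∃ Q : MvPolynomial (Ib r n) ℂ →ₗ[ℂ] Z (m + m) r,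
  (∀ i j F, Q (DE i j F) = DZ i j (Q F)) ∧
  ∀ ν F, IsWeightedHomogeneous WT F (ν, (m : ℤ)) →
    IsWeightedHomogeneous WZ (Q F) (ν, Fin.addCases (fun _ => (n : ℤ)) fun _ => 1) ∧ (Q F = 0 → F = 0)

/-- U4 (module `Upp`, `kUpp`).  Uses LMtStmt, IlcStmt, PlzStmt.  `E1` is finite: `a ↦` its content bounds the
number of columns (each column is nonempty, so `∑ a C ≤ ∑_κ cont a κ = m n`).  Let `Q` be from PlzStmt
(with `n - 1` in place of `n`; `n ≥ 1`).  For a nonzero `F ∈ HW lam` the polynomial `f = Q F` is nonzero,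
homogeneous for `WZ`, killed by the `DZ i j`, `i < j`; LMtStmt and IlcStmt give `a` with
`coeff (dA r a) f ≠ 0`; the weight and the content of the exponent `dA r a` are `row a i`, `cont a κ`
(`weight` of `dC r C`: the entries of `dC r C` in the row `i` sum to `1` if `i < C.card`, and the entries of
the particle `κ` sum to `1` if `κ ∈ C`, `C.card ≤ r`), so `dA r a ∈ E1 m r n lam`.  So the linear map
`HW lam → (E1 → ℂ)`, `F ↦ (coeff d (Q F))_d`, is injective. -/
def UppStmt : Prop := ∀ (m r n : ℕ) (lam : Fin r → ℤ), 1 ≤ n → (E1 m r n lam).Finite ∧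
  Module.finrank ℂ ((Gl r (n - 1) m).HW lam) ≤ (E1 m r n lam).ncard

/-! ## D: Dickson's lemma -/

/-- D1 (module `Dk`, `kDk`).  Dickson's lemma for `Finset (Fin K) → ℕ`, componentwise order: a set of pairwise
incomparable elements is finite, and below every element of a set `S` there is a minimal one
(`Set.isPWO_of_wellQuasiOrderedLE`, `Pi.wellQuasiOrderedLE`, or `Set.PartiallyWellOrderedOn`; well
foundedness).  Let `B` be the minimal elements of `S1 = ⋃_n S1 m n`, `G` the minimal elements of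
`⋃_n S0 m n \ {0}`.
(1) If `a ∈ S1 m n`, `b ∈ S1 m n'`, `b ≤ a`, then `a - b` has content `n - n'` on the first `m` particles
(`m ≥ 1`) and `0` on the others, so no column with a particle `≥ m` occurs: `a - b = up a'` with
`a' C' = (a - b) (C'.map castAdd)`, `a' ∈ S0 m (n - n')`.
(2) Every `a' ∈ S0 m n` is `∑_{g ∈ G} e g • g`: strong induction on `∑ a' C`; if `a' ≠ 0` choose `g ∈ G`,
`g ≤ a'`; `a' - g ∈ S0`.
(3) `ht` is additive, `ht (up a') j = ht a' j`.  Given `j`, `N` let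
`D = ∑_{b ∈ B} ht b j + N * ∑_{g ∈ G} ht g j + 1`.  If `a ∈ S1 m n`, `ht a j ≥ D`: `a = b + up a'`,
`a' = ∑ e g • g`, `ht a' j > N ∑_g ht g j`, so some `g ∈ G` has `ht g j ≥ 1`, `e g ≥ N`. -/
def DkStmt : Prop := ∀ m : ℕ, 1 ≤ m → ∃ (B : Finset (Finset (Fin (m + m)) → ℕ))
  (G : Finset (Finset (Fin m) → ℕ)), (∀ b ∈ B, ∃ n, S1 m n b) ∧ (∀ g ∈ G, ∃ n, S0 m n g) ∧
  ∀ j N : ℕ, ∃ D : ℕ, ∀ n a, S1 m n a → D ≤ ht a j →
    ∃ b ∈ B, ∃ g ∈ G, ∃ a' n', S0 m n' a' ∧ 1 ≤ ht g j ∧ a = b + up (N • g + a')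

/-- D2 (module `Reg`, `kReg`): many columns of some height `j`.  For `a ∈ S1 m n`:
`∑_C C.card * a C = ∑_κ cont a κ = m n` (double counting), the columns which contain one of the last `m`
particles are at most `m` (`∑_{κ ≥ m} cont a κ = m`), a column of height `> m` contains such a particle, and
`row a 0 = ∑_{C ≠ ∅} a C`.  So `m n - row a 0 = ∑_C (C.card - 1) a C`
`≤ (2 m - 1) m + (m - 1) ∑_{2 ≤ j ≤ m} ht a j`.  If `m n - row a 0 > n` and `n` is large then some `ht a j`,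
`2 ≤ j ≤ m`, is `≥ D`.  But `j` has to depend on `lam` only: `ht a j = row a (j-1) - row a j`. -/
def RegStmt : Prop := ∀ m D : ℕ, 1 ≤ m → ∃ N0 : ℕ, ∀ n ≥ N0, ∀ a₀, S1 m n a₀ →
  row a₀ 0 + n < m * n → ∃ j, 2 ≤ j ∧ j ≤ m ∧
    ∀ n' a, S1 m n' a → (∀ i, row a i = row a₀ i) → D ≤ ht a j

/-- D3 (module `Cmb`, `kCmb`): counting.  Uses UppStmt, DkStmt.  `r = m + m`.  Let `B`, `G` be from DkStmt, `p`
the number of pairs `(b, g)`.  Given `lam` and a height `j` such that every `a ∈ S1 m n` with row lengths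
`lam` has `ht a j ≥ D` (`D` for `j`, `N`), every `d ∈ E1 m r n lam`, `d = dA r a`, is
`dA r b + (N • dA r g + dA r a')` with the exponents on `Fin m` pushed forward to `Fin (m + m)` along
`castAdd` (`dA r (up a') = (dA r a').mapDomain (Prod.map (castAdd) id)`; `dA` is additive; `dC` of
`C'.map castAdd` is the push forward of `dC C'`), and `dA r a' ∈ E0 m r n' lam'` with
`lam' = lam - row b - N row g`, `n' = n - n_b - N n_g`.  So `d ↦ (b, g, dA r a')` is injective and
`#E1 ≤ ∑_(b,g) #E0(...) ≤ p * (L / p)`. -/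
def CmbStmt : Prop := ∀ m : ℕ, 1 ≤ m → ∃ (B : Finset (Finset (Fin (m + m)) → ℕ))
  (G : Finset (Finset (Fin m) → ℕ)), (∀ b ∈ B, ∃ n, S1 m n b) ∧ (∀ g ∈ G, ∃ n, S0 m n g) ∧
  ∀ j N : ℕ, ∃ D : ℕ, ∀ (n : ℕ) (lam : Fin (m + m) → ℤ) (L : ℕ), 1 ≤ n →
    (∀ a, S1 m n a → (∀ i : Fin (m + m), (row a i : ℤ) = lam i) → D ≤ ht a j) →
    (∀ b ∈ B, ∀ g ∈ G, 1 ≤ ht g j → ∀ nb ng n', S1 m nb b → S0 m ng g → n = nb + N * ng + n' →
      B.card * G.card * (E0 m (m + m) n' fun i => lam i - row b i - N * row g i).ncard ≤ L) →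
    Module.finrank ℂ ((Gl (m + m) (n - 1) m).HW lam) ≤ L

end T3

end Pool.Agent.Lib.MP_a688ad_al
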