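import Pool.Agent.Lib.MP_a688ad_al.T3.SpecU

/-!
# MP_a688ad_al, Z2: the `sl_2` strip lemma for polynomials
-/

set_option autoImplicit false

open MvPolynomial Finset

namespace Pool.Agent.Lib.MP_a688ad_al

namespace T3

open T2

section Form

variable {σ : Type} [Fintype σ]

private noncomputable def str_fac (d : σ →₀ ℕ) : ℂ := ∏ p, ((d p).factorial : ℂ)

private theorem str_fac_add (d : σ →₀ ℕ) (p : σ) :
    str_fac (d + Finsupp.single p 1) = str_fac d * (d p + 1) := by
  classical
  unfold str_fac
  rw [← Finset.mul_prod_erase univ _ (Finset.mem_univ p),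
    ← Finset.mul_prod_erase univ (fun q => ((d q).factorial : ℂ)) (Finset.mem_univ p)]
  have h1 : ∏ x ∈ univ.erase p, (((d + Finsupp.single p 1 : σ →₀ ℕ) x).factorial : ℂ) =
      ∏ x ∈ univ.erase p, ((d x).factorial : ℂ) := by
    refine Finset.prod_congr rfl (fun x hx => ?_)
    rw [Finset.mem_erase] at hx
    rw [Finsupp.add_apply, Finsupp.single_eq_of_ne hx.1, add_zero]
  rw [h1, Finsupp.add_apply, Finsupp.single_eq_same, Nat.factorial_succ]
  push_cast
  ring

private noncomputable def str_B (f g : MvPolynomial σ ℂ) : ℂ :=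
  ∑ d ∈ f.support, coeff d f * (str_fac d * coeff d g)

private theorem str_B_sup (f g : MvPolynomial σ ℂ) (s : Finset (σ →₀ ℕ)) (h : f.support ⊆ s) :
    str_B f g = ∑ d ∈ s, coeff d f * (str_fac d * coeff d g) := by
  unfold str_B
  apply Finset.sum_subset h
  intro d _ hd
  rw [notMem_support_iff] at hd
  rw [hd, zero_mul]

private theorem str_B_comm (f g : MvPolynomial σ ℂ) : str_B f g = str_B g f := by
  classical
  rw [str_B_sup f g (f.support ∪ g.support) Finset.subset_union_left,
    str_B_sup g f (f.support ∪ g.support) Finset.subset_union_right]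
  refine Finset.sum_congr rfl (fun d _ => ?_)
  ring

private theorem str_B_add (f g h : MvPolynomial σ ℂ) : str_B f (g + h) = str_B f g + str_B f h := by
  unfold str_B
  rw [← Finset.sum_add_distrib]
  refine Finset.sum_congr rfl (fun d _ => ?_)
  rw [coeff_add]
  ring

private theorem str_B_zero (f : MvPolynomial σ ℂ) : str_B f 0 = 0 := by
  unfold str_B
  simp

private theorem str_B_sum {ι : Type} (s : Finset ι) (f : MvPolynomial σ ℂ)
    (g : ι → MvPolynomial σ ℂ) : str_B f (∑ i ∈ s, g i) = ∑ i ∈ s, str_B f (g i) := by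
  classical
  induction s using Finset.induction_on with
  | empty => simp [str_B_zero]
  | insert a s ha ih => rw [Finset.sum_insert ha, Finset.sum_insert ha, str_B_add, ih]

private theorem str_B_add' (f g h : MvPolynomial σ ℂ) :
    str_B (f + g) h = str_B f h + str_B g h := by
  rw [str_B_comm, str_B_add, str_B_comm h f, str_B_comm h g]

private theorem str_B_mon (d : σ →₀ ℕ) (a : ℂ) (g : MvPolynomial σ ℂ) :
    str_B (monomial d a) g = a * (str_fac d * coeff d g) := by
  classical
  rw [str_B_sup _ _ {d} support_monomial_subset, Finset.sum_singleton, coeff_monomial, if_pos rfl]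

private theorem str_B_adj (p : σ) (f g : MvPolynomial σ ℂ) :
    str_B (X p * f) g = str_B f (pderiv p g) := by
  induction f using MvPolynomial.induction_on' with
  | monomial u a =>
    have h1 : X p * monomial u a = monomial (u + Finsupp.single p 1) a := by
      rw [X, monomial_mul, one_mul, add_comm]
    rw [h1, str_B_mon, str_B_mon, str_fac_add, coeff_pderiv]
    ring
  | add f f' hf hf' => rw [mul_add, str_B_add', str_B_add', hf, hf']

private theorem str_B_pos (v : MvPolynomial σ ℂ)
    (h : str_B (map (starRingEnd ℂ) v) v = 0) : v = 0 := by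
  rw [str_B_comm] at h
  unfold str_B at h
  have h1 : ∀ d, coeff d v * (str_fac d * coeff d (map (starRingEnd ℂ) v)) =
      (((∏ p, ((d p).factorial : ℝ)) * Complex.normSq (coeff d v) : ℝ) : ℂ) := by
    intro d
    rw [coeff_map, Complex.ofReal_mul, ← Complex.mul_conj]
    unfold str_fac
    push_cast
    ring
  rw [Finset.sum_congr rfl (fun d _ => h1 d), ← Complex.ofReal_sum, Complex.ofReal_eq_zero,
    Finset.sum_eq_zero_iff_of_nonneg] at h
  · ext d
    rw [coeff_zero]
    by_contra hd
    have h2 := h d (mem_support_iff.mpr hd)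
    rcases mul_eq_zero.mp h2 with h3 | h3
    · rw [Finset.prod_eq_zero_iff] at h3
      obtain ⟨p, -, hp⟩ := h3
      exact Nat.factorial_ne_zero _ (by exact_mod_cast hp)
    · exact hd (Complex.normSq_eq_zero.mp h3)
  · intro d _
    exact mul_nonneg (Finset.prod_nonneg (fun p _ => Nat.cast_nonneg _)) (Complex.normSq_nonneg _)

end Form

private theorem str_sum_apply {σ ι : Type} (s : Finset ι)
    (D : ι → Derivation ℂ (MvPolynomial σ ℂ) (MvPolynomial σ ℂ)) (f : MvPolynomial σ ℂ) :
    (∑ i ∈ s, D i) f = ∑ i ∈ s, D i f := by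
  classical
  induction s using Finset.induction_on with
  | empty => simp
  | insert a s ha ih => rw [Finset.sum_insert ha, Finset.sum_insert ha, Derivation.add_apply, ih]

private theorem str_DZ {K r : ℕ} (i j : Fin r) (f : Z K r) :
    DZ i j f = ∑ κ : Fin K, X (κ, i) * pderiv (κ, j) f := by
  classical
  have h1 : (DZ i j : Derivation ℂ (Z K r) (Z K r)) =
      ∑ κ : Fin K, (X (κ, i) : Z K r) • (pderiv (κ, j) : Derivation ℂ (Z K r) (Z K r)) := by
    apply derivation_ext
    rintro ⟨κ, l⟩
    unfold DZ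
    rw [mkDerivation_X]
    have h2 : (∑ κ' : Fin K, (X (κ', i) : Z K r) •
        (pderiv (κ', j) : Derivation ℂ (Z K r) (Z K r))) (X (κ, l)) =
        ∑ κ' : Fin K, (X (κ', i) : Z K r) * pderiv (κ', j) (X (κ, l)) := by
      rw [str_sum_apply]
      rfl
    rw [h2]
    by_cases hl : l = j
    · subst hl
      rw [if_pos rfl, Finset.sum_eq_single κ]
      · rw [pderiv_X_self, mul_one]
      · intro κ' _ hne
        rw [pderiv_X_of_ne (fun h => hne (congrArg Prod.fst h).symm), mul_zero]
      · intro h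
        exact absurd (Finset.mem_univ κ) h
    · rw [if_neg hl]
      symm
      apply Finset.sum_eq_zero
      intro κ' _
      rw [pderiv_X_of_ne (fun h => hl (congrArg Prod.snd h)), mul_zero]
  rw [h1, str_sum_apply]
  rfl

private theorem str_adj {K r : ℕ} (i j : Fin r) (f g : Z K r) :
    str_B (DZ i j f) g = str_B f (DZ j i g) := by
  rw [str_DZ, str_DZ, str_B_comm, str_B_sum, str_B_sum]
  refine Finset.sum_congr rfl (fun κ _ => ?_)
  rw [str_B_comm, str_B_adj, str_B_comm f, str_B_adj, str_B_comm]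

private theorem str_adj_iter {K r : ℕ} (i j : Fin r) (p : ℕ) (f g : Z K r) :
    str_B ((DZ i j)^[p] f) g = str_B f ((DZ j i)^[p] g) := by
  induction p generalizing f with
  | zero => rfl
  | succ p ih =>
    rw [Function.iterate_succ_apply, ih, str_adj, Function.iterate_succ_apply']

private theorem str_conj {K r : ℕ} (i j : Fin r) (f : Z K r) :
    map (starRingEnd ℂ) (DZ i j f) = DZ i j (map (starRingEnd ℂ) f) := by
  rw [str_DZ, str_DZ, map_sum]
  refine Finset.sum_congr rfl (fun κ _ => ?_)
  rw [map_mul, map_X, pderiv_map]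

private theorem str_conj_iter {K r : ℕ} (i j : Fin r) (p : ℕ) (f : Z K r) :
    map (starRingEnd ℂ) ((DZ i j)^[p] f) = (DZ i j)^[p] (map (starRingEnd ℂ) f) := by
  induction p generalizing f with
  | zero => rfl
  | succ p ih => rw [Function.iterate_succ_apply, ih, str_conj, Function.iterate_succ_apply]

/-- the `sl_2` relation -/
private theorem str_key {r : ℕ} {V : Type*} [AddCommGroup V] [Module ℂ V] (S : GlFam r V)
    {κ : Fin r → ℤ} {v : V} (hv : v ∈ S.G κ) {i j : Fin r} (hij : i ≠ j) (h : S.E i j v = 0)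
    (k : ℕ) : S.E i j ((S.E j i)^[k + 1] v) =
      (((k : ℂ) + 1) * ((κ i : ℂ) - κ j - k)) • (S.E j i)^[k] v := by
  have e1 : ∀ k : ℕ, (κ + k • (sg j - sg i)) i = κ i - k := by
    intro k; simp [sg, hij]; ring
  have e2 : ∀ k : ℕ, (κ + k • (sg j - sg i)) j = κ j + k := by
    intro k; simp [sg, hij.symm]
  induction k with
  | zero =>
    have h1 := S.comm i j j i v
    rw [if_pos rfl, if_pos rfl, h, map_zero, sub_zero, S.diag κ i v hv, S.diag κ j v hv] at h1
    simp only [Function.iterate_succ, Function.iterate_zero, Function.comp_apply, id_eq]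
    rw [h1, ← sub_smul]
    congr 1
    push_cast
    ring
  | succ k ih =>
    have hm := S.iter_mem hv i j (k + 1)
    have h1 := S.comm i j j i ((S.E j i)^[k + 1] v)
    rw [if_pos rfl, if_pos rfl, ih, S.diag _ i _ hm, S.diag _ j _ hm, map_smul] at h1
    rw [Function.iterate_succ_apply']
    rw [sub_eq_iff_eq_add] at h1
    rw [h1, ← sub_smul, e1, e2]
    have h2 : S.E j i ((S.E j i)^[k] v) = (S.E j i)^[k + 1] v :=
      (Function.iterate_succ_apply' _ _ _).symm
    rw [h2, ← add_smul]
    congr 1
    push_cast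
    ring

/-- one lowering step too many -/
private theorem str_van {r : ℕ} {V : Type*} [AddCommGroup V] [Module ℂ V] (S : GlFam r V)
    {κ : Fin r → ℤ} {v : V} (hv : v ∈ S.G κ) (h0 : v ≠ 0) {i j : Fin r} (hij : i ≠ j)
    (h : S.E i j v = 0) : κ j ≤ κ i ∧ (S.E j i)^[(κ i - κ j).toNat + 1] v = 0 := by
  have hd := S.dominant hv h0 hij h
  refine ⟨hd, ?_⟩
  have hk := str_key S hv hij h (κ i - κ j).toNat
  have h1 : ((κ i : ℂ) - κ j - ((κ i - κ j).toNat : ℕ)) = 0 := by
    have h2 : ((κ i - κ j).toNat : ℤ) = κ i - κ j := Int.toNat_of_nonneg (by omega)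
    have h3 : (((κ i - κ j).toNat : ℕ) : ℂ) = ((κ i - κ j : ℤ) : ℂ) := by
      rw [← h2]
      push_cast
      rfl
    rw [h3]
    push_cast
    ring
  rw [h1, mul_zero, zero_smul] at hk
  by_contra hne
  have hm := S.iter_mem hv i j ((κ i - κ j).toNat + 1)
  have hd2 := S.dominant hm hne hij hk
  have e1 : (κ + ((κ i - κ j).toNat + 1) • (sg j - sg i)) i =
      κ i - ((κ i - κ j).toNat + 1) := by
    simp [sg, hij]; ring
  have e2 : (κ + ((κ i - κ j).toNat + 1) • (sg j - sg i)) j =
      κ j + ((κ i - κ j).toNat + 1) := by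
    simp [sg, hij.symm]
  rw [e1, e2] at hd2
  omega

theorem kStr (h : GZStmt) : StrStmt := by
  intro K r i j hij p κ w v hv hw hE h0
  -- the sum of the weights is nonnegative
  have hsum : 0 ≤ ∑ l, κ l := by
    obtain ⟨d, hd⟩ := ne_zero_iff.mp h0
    have h1 := hv hd
    rw [← h1]
    apply Finset.sum_nonneg
    intro l _
    rw [Finsupp.weight_apply, Finsupp.sum, Finset.sum_apply]
    apply Finset.sum_nonneg
    intro q _
    rw [Pi.smul_apply]
    apply nsmul_nonneg
    unfold sg
    by_cases hl : l = q.2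
    · rw [hl, Pi.single_eq_same]
      norm_num
    · rw [Pi.single_eq_of_ne hl]
  obtain ⟨S, hS1, hS2, hS3⟩ := h K r (∑ l, κ l).toNat
  have hvG : v ∈ S.G κ := by
    rw [hS3]
    exact ⟨hv, Or.inr (by rw [Int.toNat_of_nonneg hsum])⟩
  have hEv : S.E i j v = 0 := by rw [hS2, hE]
  obtain ⟨hdom, hvan⟩ := str_van S hvG h0 hij hEv
  have hfun : (⇑(S.E j i) : Z K r → Z K r) = ⇑(DZ j i : Derivation ℂ (Z K r) (Z K r)) :=
    funext (fun f => hS2 j i f)
  rw [hfun] at hvan
  by_contra hlt
  push Not at hlt
  have hp : (DZ j i)^[p] v = 0 := by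
    obtain ⟨q, hq⟩ : ∃ q, p = q + ((κ i - κ j).toNat + 1) := by
      refine ⟨p - ((κ i - κ j).toNat + 1), ?_⟩
      omega
    rw [hq, Function.iterate_add_apply, hvan]
    clear hq
    induction q with
    | zero => rfl
    | succ q ih => rw [Function.iterate_succ_apply, map_zero, ih]
  apply h0
  apply str_B_pos
  rw [← hw, str_conj_iter, str_adj_iter, hw, hp, str_B_zero]

end T3

end Pool.Agent.Lib.MP_a688ad_al
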