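import Pool.Agent.Lib.MP_a688ad_al.T3.SpecE

/-!
# MP_a688ad_al, T3: a scalar with distinct conjugates
-/

set_option autoImplicit false

open MvPolynomial Finset

namespace Pool.Agent.Lib.MP_a688ad_al

namespace T3

open T2

private theorem tht_of {k j : ℕ} (h : Hf k j) : ∃ (w : ℕ) (c q : ℤ) (θ : Ex (R2 k) k),
    0 < q ∧ Sc ((((k + 1).factorial * w : ℕ) : ℤ) • om j) (fun _ => c) q θ ∧
      ∀ σ ≠ 1, rs σ θ ≠ θ := by
  classical
  obtain ⟨w, c, q, f, e, hq, hSc, hrs, he⟩ := h
  set N : ℕ := (k + 1).factorial with hN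
  have hNpos : 0 < N := Nat.factorial_pos _
  let θ : Ex (R2 k) k := ∑ a : Fin (k + 1), (((a : ℕ) : ℂ) + 1) • f a ^ N
  refine ⟨w, N * c, N * q, θ, by positivity, ?_, ?_⟩
  · apply Sc.sum
    intro a _
    have h1 := ((hSc a).pow N).smul (((a : ℕ) : ℂ) + 1)
    have e1 : N • ((w : ℤ) • (om j : Fin (R2 k) → ℤ)) = ((N * w : ℕ) : ℤ) • om j := by
      funext i
      simp only [Pi.smul_apply, nsmul_eq_mul, smul_eq_mul]
      push_cast
      ring
    have e2 : N • (fun _ : Fin (k + 1) => c) = fun _ => (N : ℤ) * c := by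
      funext i
      simp only [Pi.smul_apply, nsmul_eq_mul]
    have e3 : N • q = (N : ℤ) * q := nsmul_eq_mul _ _
    rw [e1, e2, e3] at h1
    exact h1
  · intro σ hσ heq
    apply hσ
    have key : ∀ b : Fin (k + 1), ∀ τ : Equiv.Perm (Fin (k + 1)),
        e b (∑ a : Fin (k + 1), (((a : ℕ) : ℂ) + 1) • f (τ a) ^ N) =
          (((τ.symm b : Fin (k + 1)) : ℕ) + 1 : ℂ) * (e b (f b)) ^ N := by
      intro b τ
      rw [map_sum, Finset.sum_eq_single (τ.symm b)]
      · rw [map_smul, map_pow, Equiv.apply_symm_apply, smul_eq_mul]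
      · intro a _ ha
        rw [map_smul, map_pow]
        have h2 : e b (f (τ a)) = 0 := by
          by_contra h3
          have h4 := (he (τ a) b).mp h3
          exact ha (by rw [← h4, Equiv.symm_apply_apply])
        rw [h2, zero_pow hNpos.ne', smul_zero]
      · intro h
        exact (h (Finset.mem_univ _)).elim
    have hrsθ : rs σ θ = ∑ a : Fin (k + 1), (((a : ℕ) : ℂ) + 1) • f (σ a) ^ N := by
      show rs σ (∑ a : Fin (k + 1), (((a : ℕ) : ℂ) + 1) • f a ^ N) = _
      rw [map_sum]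
      refine Finset.sum_congr rfl fun a _ => ?_
      rw [map_smul, map_pow, hrs]
    rw [hrsθ] at heq
    have hsymm : ∀ b : Fin (k + 1), σ.symm b = b := by
      intro b
      have h1 := key b σ
      have h2 := key b 1
      rw [heq] at h1
      have h3 : e b θ = (((b : Fin (k + 1)) : ℕ) + 1 : ℂ) * (e b (f b)) ^ N := h2
      rw [h3] at h1
      have h4 : (e b (f b)) ^ N ≠ 0 := pow_ne_zero _ ((he b b).mpr rfl)
      have h5 := mul_right_cancel₀ h4 h1
      have h6 : ((b : ℕ) : ℂ) = ((σ.symm b : Fin (k + 1)) : ℕ) := add_right_cancel h5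
      exact (Fin.ext (by exact_mod_cast h6)).symm
    apply Equiv.ext
    intro b
    have h1 := hsymm b
    rw [Equiv.symm_apply_eq] at h1
    exact h1.symm

theorem kTht (h1 : HfAStmt) (h2 : HfBStmt) : ThtStmt := by
  intro k j hk hj hjk
  rcases Nat.lt_or_ge k j with h | h
  · obtain rfl : j = k + 1 := by omega
    exact tht_of (h2 k hk)
  · exact tht_of (h1 k j hj h)

end T3

end Pool.Agent.Lib.MP_a688ad_al
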