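import Pool.Agent.Lib.MP_a688ad_al.T3.SpecU

/-!
# MP_a688ad_al, all large `n`, module Upp: upper bound for highest weight vectors
-/

set_option autoImplicit false

open MvPolynomial Finset

namespace Pool.Agent.Lib.MP_a688ad_al

namespace T3

open T2

private theorem upp_w1 {K r : ℕ} (d : (Fin K × Fin r) →₀ ℕ) (i : Fin r) :
    (Finsupp.weight (WZ : Fin K × Fin r → (Fin r → ℤ) × (Fin K → ℤ)) d).1 i
      = ((∑ κ, d (κ, i) : ℕ) : ℤ) := by
  rw [Finsupp.weight_apply, Finsupp.sum_fintype d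
    (fun p n => n • (WZ p : (Fin r → ℤ) × (Fin K → ℤ))) (fun _ => zero_smul ℕ _),
    Fintype.sum_prod_type, Prod.fst_sum, Finset.sum_apply]
  push_cast
  refine Finset.sum_congr rfl fun κ _ => ?_
  rw [Prod.fst_sum, Finset.sum_apply, Finset.sum_eq_single i]
  · unfold WZ sg
    simp
  · intro i' _ hne
    unfold WZ sg
    simp [Pi.single_apply, hne.symm]
  · intro h
    exact absurd (Finset.mem_univ _) h

private theorem upp_w2 {K r : ℕ} (d : (Fin K × Fin r) →₀ ℕ) (κ : Fin K) :
    (Finsupp.weight (WZ : Fin K × Fin r → (Fin r → ℤ) × (Fin K → ℤ)) d).2 κ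
      = ((∑ i, d (κ, i) : ℕ) : ℤ) := by
  rw [Finsupp.weight_apply, Finsupp.sum_fintype d
    (fun p n => n • (WZ p : (Fin r → ℤ) × (Fin K → ℤ))) (fun _ => zero_smul ℕ _),
    Fintype.sum_prod_type, Prod.snd_sum, Finset.sum_apply, Finset.sum_eq_single κ]
  · rw [Prod.snd_sum, Finset.sum_apply]
    push_cast
    refine Finset.sum_congr rfl fun i _ => ?_
    unfold WZ sg
    simp
  · intro κ' _ hne
    rw [Prod.snd_sum, Finset.sum_apply]
    refine Finset.sum_eq_zero fun i _ => ?_
    unfold WZ sg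
    simp [Pi.single_apply, hne.symm]
  · intro h
    exact absurd (Finset.mem_univ _) h

/-- the ranks of the elements of a finite set -/
private theorem upp_rank {K : ℕ} (C : Finset (Fin K)) (i : ℕ) :
    (univ.filter fun κ : Fin K => κ ∈ C ∧ (C.filter (· < κ)).card = i).card
      = if i < C.card then 1 else 0 := by
  have hlt : ∀ κ ∈ C, (C.filter (· < κ)).card < C.card := by
    intro κ hκ
    apply Finset.card_lt_card
    rw [Finset.ssubset_iff_of_subset (Finset.filter_subset _ _)]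
    exact ⟨κ, hκ, fun h => lt_irrefl _ (Finset.mem_filter.1 h).2⟩
  have hmono : ∀ κ ∈ C, ∀ κ' ∈ C, κ < κ' → (C.filter (· < κ)).card < (C.filter (· < κ')).card := by
    intro κ hκ κ' _ hlt'
    apply Finset.card_lt_card
    rw [Finset.ssubset_iff_of_subset]
    · exact ⟨κ, Finset.mem_filter.2 ⟨hκ, hlt'⟩, fun h => lt_irrefl _ (Finset.mem_filter.1 h).2⟩
    · intro x hx
      rw [Finset.mem_filter] at hx ⊢
      exact ⟨hx.1, hx.2.trans hlt'⟩
  have hinj : ∀ κ ∈ C, ∀ κ' ∈ C, (C.filter (· < κ)).card = (C.filter (· < κ')).card → κ = κ' := by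
    intro κ hκ κ' hκ' h
    rcases lt_trichotomy κ κ' with h1 | h1 | h1
    · exact absurd h (hmono κ hκ κ' hκ' h1).ne
    · exact h1
    · exact absurd h (hmono κ' hκ' κ hκ h1).ne'
  have himg : C.image (fun κ => (C.filter (· < κ)).card) = range C.card := by
    apply Finset.eq_of_subset_of_card_le
    · intro x hx
      obtain ⟨κ, hκ, rfl⟩ := Finset.mem_image.1 hx
      exact Finset.mem_range.2 (hlt κ hκ)
    · rw [Finset.card_range, Finset.card_image_of_injOn]
      intro κ hκ κ' hκ' h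
      exact hinj κ hκ κ' hκ' h
  split_ifs with hi
  · have h1 : i ∈ C.image (fun κ => (C.filter (· < κ)).card) := by
      rw [himg]
      exact Finset.mem_range.2 hi
    obtain ⟨κ, hκ, hκi⟩ := Finset.mem_image.1 h1
    rw [Finset.card_eq_one]
    refine ⟨κ, ?_⟩
    ext κ'
    rw [Finset.mem_filter, Finset.mem_singleton]
    constructor
    · rintro ⟨_, h2, h3⟩
      exact hinj κ' h2 κ hκ (h3.trans hκi.symm)
    · rintro rfl
      exact ⟨Finset.mem_univ _, hκ, hκi⟩
  · rw [Finset.card_eq_zero, Finset.filter_eq_empty_iff]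
    rintro κ _ ⟨h2, h3⟩
    exact hi (h3 ▸ hlt κ h2)

private theorem upp_dC {K r : ℕ} (C : Finset (Fin K)) (κ : Fin K) (i : Fin r) :
    dC r C (κ, i) = if κ ∈ C ∧ (C.filter (· < κ)).card = (i : ℕ) then 1 else 0 := rfl

private theorem upp_dA {K r : ℕ} (a : Finset (Fin K) → ℕ) (p : Fin K × Fin r) :
    dA r a p = ∑ C, a C * dC r C p := by
  unfold dA
  rw [Finsupp.finset_sum_apply]
  refine Finset.sum_congr rfl fun C _ => ?_
  rw [Finsupp.smul_apply, smul_eq_mul]

private theorem upp_row {K r : ℕ} (a : Finset (Fin K) → ℕ) (i : Fin r) :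
    ∑ κ, dA r a (κ, i) = row a i := by
  rw [Finset.sum_congr rfl fun κ _ => upp_dA a (κ, i), Finset.sum_comm]
  unfold row
  refine Finset.sum_congr rfl fun C _ => ?_
  rw [← Finset.mul_sum]
  have h1 : ∑ κ, dC r C (κ, i) = if (i : ℕ) < C.card then 1 else 0 := by
    rw [Finset.sum_congr rfl fun κ _ => upp_dC C κ i, ← Finset.card_filter, upp_rank]
  rw [h1]
  split_ifs
  · rw [mul_one]
  · rw [mul_zero]

private theorem upp_cont {K r : ℕ} (a : Finset (Fin K) → ℕ) (ha : ∀ C, r < C.card → a C = 0)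
    (κ : Fin K) : ∑ i, dA r a (κ, i) = cont a κ := by
  rw [Finset.sum_congr rfl fun i _ => upp_dA a (κ, i), Finset.sum_comm]
  unfold cont
  refine Finset.sum_congr rfl fun C _ => ?_
  rw [← Finset.mul_sum]
  by_cases hC : r < C.card
  · rw [ha C hC, zero_mul, ite_self]
  by_cases hκ : κ ∈ C
  · have hlt : (C.filter (· < κ)).card < C.card := by
      apply Finset.card_lt_card
      rw [Finset.ssubset_iff_of_subset (Finset.filter_subset _ _)]
      exact ⟨κ, hκ, fun h => lt_irrefl _ (Finset.mem_filter.1 h).2⟩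
    have hr : (C.filter (· < κ)).card < r := by omega
    rw [if_pos hκ, Finset.sum_eq_single (⟨(C.filter (· < κ)).card, hr⟩ : Fin r)]
    · rw [upp_dC, if_pos ⟨hκ, rfl⟩, mul_one]
    · intro i _ hne
      rw [upp_dC, if_neg]
      rintro ⟨_, h2⟩
      exact hne (Fin.ext h2.symm)
    · intro h
      exact absurd (Finset.mem_univ _) h
  · rw [if_neg hκ, Finset.sum_eq_zero, mul_zero]
    intro i _
    rw [upp_dC, if_neg (fun h => hκ h.1)]

private theorem upp_le {K : ℕ} (a : Finset (Fin K) → ℕ) (C : Finset (Fin K)) (κ : Fin K)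
    (hκ : κ ∈ C) : a C ≤ cont a κ := by
  unfold cont
  have h := Finset.single_le_sum (f := fun C' : Finset (Fin K) => if κ ∈ C' then a C' else 0)
    (fun _ _ => Nat.zero_le _) (Finset.mem_univ C)
  simp only [if_pos hκ] at h
  exact h

private theorem upp_fin (m r n : ℕ) (lam : Fin r → ℤ) : (E1 m r n lam).Finite := by
  have h1 : {a : Finset (Fin (m + m)) → ℕ | ∀ C, a C ∈ Set.Iic (n + 1)}.Finite :=
    Set.Finite.pi' fun _ => Set.finite_Iic _
  apply (h1.image (dA r)).subset
  rintro d ⟨a, ha, _, _, rfl⟩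
  refine ⟨a, ?_, rfl⟩
  intro C
  rw [Set.mem_Iic]
  rcases C.eq_empty_or_nonempty with rfl | ⟨κ, hκ⟩
  · rw [ha.1]
    exact Nat.zero_le _
  · have h2 := upp_le a C κ hκ
    have h3 : cont a κ ≤ n + 1 := by
      refine Fin.addCases (motive := fun κ => cont a κ ≤ n + 1) (fun κ => ?_) (fun κ => ?_) κ
      · have := ha.2.1 κ
        omega
      · have := ha.2.2 κ
        omega
    omega

private theorem upp_ex (h1 : LMtStmt) (h2 : IlcStmt) {m r n : ℕ} {lam : Fin r → ℤ} (hn : 1 ≤ n)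
    {f : Z (m + m) r} (hf0 : f ≠ 0) (hf : IsWeightedHomogeneous WZ f
      (lam, Fin.addCases (fun _ => ((n - 1 : ℕ) : ℤ)) fun _ => 1))
    (hD : ∀ i j, i < j → DZ i j f = 0) : ∃ d ∈ E1 m r n lam, coeff d f ≠ 0 := by
  have hf1 : IsWeightedHomogeneous (fun p : Fin (m + m) × Fin r => (sg p.2 : Fin r → ℤ)) f lam := by
    intro d hd
    have h3 := hf hd
    funext i
    have h4 : (Finsupp.weight (WZ : Fin (m + m) × Fin r → _) d).1 i = lam i :=
      congrFun (congrArg Prod.fst h3) i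
    rw [upp_w1] at h4
    rw [← h4, Finsupp.weight_apply, Finsupp.sum_fintype d
      (fun p n => n • (sg p.2 : Fin r → ℤ)) (fun _ => zero_smul ℕ _), Fintype.sum_prod_type,
      Finset.sum_apply]
    push_cast
    refine Finset.sum_congr rfl fun κ _ => ?_
    rw [Finset.sum_apply, Finset.sum_eq_single i]
    · unfold sg
      simp
    · intro i' _ hne
      unfold sg
      simp [Pi.single_apply, hne.symm]
    · intro h
      exact absurd (Finset.mem_univ _) h
  obtain ⟨A, hA, hAf⟩ := h1 (m + m) r lam f hf0 hf1 hD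
  obtain ⟨a, ha0, har, rfl⟩ := h2 (m + m) r A hA
  refine ⟨dA r a, ⟨a, ⟨ha0, fun κ => ?_, fun κ => ?_⟩, har, fun i => ?_, rfl⟩, hAf⟩
  · have h4 := congrFun (congrArg Prod.snd (hf hAf)) (Fin.castAdd m κ)
    rw [upp_w2, upp_cont a har] at h4
    simp only [Fin.addCases_left] at h4
    have h5 : cont a (Fin.castAdd m κ) = n - 1 := by exact_mod_cast h4
    omega
  · have h4 := congrFun (congrArg Prod.snd (hf hAf)) (Fin.natAdd m κ)
    rw [upp_w2, upp_cont a har] at h4
    simp only [Fin.addCases_right] at h4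
    exact_mod_cast h4
  · have h4 := congrFun (congrArg Prod.fst (hf hAf)) i
    rw [upp_w1, upp_row a] at h4
    exact h4

theorem kUpp (h1 : LMtStmt) (h2 : IlcStmt) (h3 : PlzStmt) : UppStmt := by
  intro m r n lam hn
  refine ⟨upp_fin m r n lam, ?_⟩
  obtain ⟨Q, hQ1, hQ2⟩ := h3 r (n - 1) m
  have hfin := upp_fin m r n lam
  have : Finite (E1 m r n lam) := hfin.to_subtype
  have : Fintype (E1 m r n lam) := Fintype.ofFinite _
  let φ : (Gl r (n - 1) m).HW lam →ₗ[ℂ] (E1 m r n lam → ℂ) :=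
    LinearMap.pi fun d => (lcoeff ℂ d.1).comp (Q.comp ((Gl r (n - 1) m).HW lam).subtype)
  have hφ : ∀ (F : (Gl r (n - 1) m).HW lam) (d : E1 m r n lam), φ F d = coeff d.1 (Q F.1) :=
    fun F d => rfl
  have hinj : Function.Injective φ := by
    rw [injective_iff_map_eq_zero]
    intro F hF
    by_contra hF0
    have hF1 : F.1 ≠ 0 := fun h => hF0 (Subtype.ext h)
    have hFG : IsWeightedHomogeneous WT F.1 (lam, (m : ℤ)) := F.2.1
    obtain ⟨h4, h5⟩ := hQ2 lam F.1 hFG
    have h6 : Q F.1 ≠ 0 := fun h => hF1 (h5 h)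
    have h7 : ∀ i j, i < j → DZ i j (Q F.1) = 0 := by
      intro i j hij
      have h8 : DE i j F.1 = 0 := F.2.2 i j hij
      rw [← hQ1, h8, map_zero]
    obtain ⟨d, hd, hd0⟩ := upp_ex h1 h2 hn h6 h4 h7
    apply hd0
    have h9 := congrFun hF ⟨d, hd⟩
    rw [hφ] at h9
    exact h9
  have h10 := LinearMap.finrank_le_finrank_of_injective hinj
  rw [Module.finrank_fintype_fun_eq_card] at h10
  rw [← Nat.card_coe_set_eq, Nat.card_eq_fintype_card]
  exact h10

end T3

end Pool.Agent.Lib.MP_a688ad_al
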