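import Pool.Agent.Lib.MP_a688ad_al.T3.SpecL

/-!
# MP_a688ad_al, T3: the number of variables
-/

set_option autoImplicit false

open MvPolynomial Finset

namespace Pool.Agent.Lib.MP_a688ad_al

namespace T3

open T2

/-- The inclusion of the index sets. -/
def varV (t : ℕ) {r k : ℕ} (p : Ib r k) : Ib (r + t) k :=
  (Fin.castAdd t p.1, Sym.map (Fin.castAdd t) p.2)

theorem varV_inj (t : ℕ) {r k : ℕ} : Function.Injective (varV t : Ib r k → Ib (r + t) k) := by
  intro p q h
  have h1 := congrArg Prod.fst h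
  have h2 := congrArg Prod.snd h
  exact Prod.ext (Fin.castAdd_injective r t h1) (Sym.map_injective (Fin.castAdd_injective r t) k h2)

theorem varV_sy (t : ℕ) {r k : ℕ} (τ : Fin k → Fin r) :
    Sym.map (Fin.castAdd t) (sy τ) = sy fun a => Fin.castAdd t (τ a) := by
  apply Subtype.ext
  show Multiset.map (Fin.castAdd t) (univ.val.map τ) = univ.val.map fun a => Fin.castAdd t (τ a)
  rw [Multiset.map_map]
  rfl

theorem varX (t : ℕ) {r k : ℕ} (τ : Fin (k + 1) → Fin r) :
    rename (varV t) (Xt τ : MvPolynomial (Ib r k) ℂ) = Xt fun a => Fin.castAdd t (τ a) := by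
  unfold Xt
  rw [rename_X]
  unfold varV
  rw [varV_sy]

/-- A relation along an algebra map can be checked on the variables. -/
theorem varD {σ : Type} {B : Type} [CommRing B] [Algebra ℂ B] (φ : MvPolynomial σ ℂ →ₐ[ℂ] B)
    (D : Derivation ℂ B B) (D' : Derivation ℂ (MvPolynomial σ ℂ) (MvPolynomial σ ℂ))
    (h : ∀ p, D (φ (X p)) = φ (D' (X p))) (F : MvPolynomial σ ℂ) : D (φ F) = φ (D' F) := by
  induction F using MvPolynomial.induction_on with
  | C a =>
    have h1 : (C a : MvPolynomial σ ℂ) = algebraMap ℂ _ a := rfl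
    rw [h1, AlgHom.commutes, Derivation.map_algebraMap, Derivation.map_algebraMap, map_zero]
  | add p q hp hq => rw [map_add, map_add, map_add, map_add, hp, hq]
  | mul_X p n hp =>
    rw [map_mul, Derivation.leibniz, Derivation.leibniz, hp, h]
    simp only [smul_eq_mul, map_add, map_mul]

theorem varDE (t : ℕ) {r k : ℕ} (i j : Fin r) (F : MvPolynomial (Ib r k) ℂ) :
    DE (Fin.castAdd t i) (Fin.castAdd t j) (rename (varV t) F) = rename (varV t) (DE i j F) := by
  refine varD (rename (varV t)) _ (DE i j) (fun p => ?_) F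
  obtain ⟨τ, hτ⟩ := Xt_surj p
  rw [← hτ, varX, DE_Xt, DE_Xt, map_sum]
  refine Finset.sum_congr rfl fun a _ => ?_
  by_cases ha : τ a = j
  · rw [if_pos ha, if_pos (by rw [ha]), varX]
    congr 1
    funext b
    by_cases hb : b = a
    · subst hb
      rw [Function.update_self, Function.update_self]
    · rw [Function.update_of_ne hb, Function.update_of_ne hb]
  · rw [if_neg ha, if_neg (fun h => ha (Fin.castAdd_injective r t h)), map_zero]

theorem varDE0 (t : ℕ) {r k : ℕ} (i : Fin (r + t)) (j : Fin t) (F : MvPolynomial (Ib r k) ℂ) :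
    DE i (Fin.natAdd r j) (rename (varV t) F) = 0 := by
  have h := varD (rename (varV t)) (DE i (Fin.natAdd r j)) (0 : Derivation ℂ
    (MvPolynomial (Ib r k) ℂ) (MvPolynomial (Ib r k) ℂ)) (fun p => ?_) F
  · rw [h, Derivation.zero_apply, map_zero]
  · obtain ⟨τ, hτ⟩ := Xt_surj p
    rw [← hτ, varX, DE_Xt, Derivation.zero_apply, map_zero]
    refine Finset.sum_eq_zero fun a _ => ?_
    rw [if_neg]
    intro h
    have h1 := congrArg Fin.val h
    rw [Fin.val_castAdd, Fin.val_natAdd] at h1
    have h2 := (τ a).isLt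
    omega

/-- Weights of the variables. -/
theorem varSg (t : ℕ) {r : ℕ} (i : Fin r) :
    sg (Fin.castAdd t i) = Fin.append (sg i) fun _ => (0 : ℤ) := by
  funext l
  unfold sg
  refine Fin.addCases (fun l' => ?_) (fun l' => ?_) l
  · rw [Fin.append_left, Pi.single_apply, Pi.single_apply]
    congr 1
    exact propext ⟨fun h => Fin.castAdd_injective r t h, fun h => by rw [h]⟩
  · rw [Fin.append_right, Pi.single_apply, if_neg]
    intro h
    have h1 := congrArg Fin.val h
    rw [Fin.val_castAdd, Fin.val_natAdd] at h1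
    have h2 := i.isLt
    omega

/-- The map of the weights. -/
def varL (t r : ℕ) : (Fin r → ℤ) × ℤ →+ (Fin (r + t) → ℤ) × ℤ where
  toFun ν := (Fin.append ν.1 fun _ => 0, ν.2)
  map_zero' := by
    refine Prod.ext ?_ rfl
    funext l
    refine Fin.addCases (fun l' => ?_) (fun l' => ?_) l
    · simp
    · simp
  map_add' a b := by
    refine Prod.ext ?_ rfl
    funext l
    refine Fin.addCases (fun l' => ?_) (fun l' => ?_) l
    · simp
    · simp

theorem varL_inj (t r : ℕ) : Function.Injective (varL t r) := by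
  intro a b h
  have h1 := congrArg Prod.fst h
  have h2 := congrArg Prod.snd h
  refine Prod.ext ?_ h2
  funext i
  have h3 := congrFun h1 (Fin.castAdd t i)
  simpa [varL] using h3

theorem varWT (t : ℕ) {r k : ℕ} (p : Ib r k) : WT (varV t p) = varL t r (WT p) := by
  obtain ⟨u, s⟩ := p
  obtain ⟨τ, rfl⟩ := sy_surj s
  have h0 : varV t (u, sy τ) = (Fin.castAdd t u, sy fun a => Fin.castAdd t (τ a)) := by
    unfold varV
    rw [varV_sy]
  have h1 := wt_tuple (k := k) (Fin.cons u τ : Fin (k + 1) → Fin r)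
  have h2 := wt_tuple (k := k) (fun a => Fin.castAdd t ((Fin.cons u τ : Fin (k + 1) → Fin r) a))
  simp only [Fin.cons_zero, Fin.cons_succ] at h1 h2
  rw [h0]
  unfold WT
  rw [h1, h2]
  refine Prod.ext ?_ rfl
  show (∑ a, sg (Fin.castAdd t ((Fin.cons u τ : Fin (k + 1) → Fin r) a)))
    = Fin.append (∑ a, sg ((Fin.cons u τ : Fin (k + 1) → Fin r) a)) fun _ => (0 : ℤ)
  funext l
  rw [Finset.sum_apply]
  refine Fin.addCases (fun l' => ?_) (fun l' => ?_) l
  · rw [Fin.append_left, Finset.sum_apply]
    refine Finset.sum_congr rfl fun a _ => ?_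
    rw [varSg, Fin.append_left]
  · rw [Fin.append_right]
    refine Finset.sum_eq_zero fun a _ => ?_
    rw [varSg, Fin.append_right]

theorem varWeight (t : ℕ) {r k : ℕ} (d : Ib r k →₀ ℕ) :
    Finsupp.weight WT (d.mapDomain (varV t)) = varL t r (Finsupp.weight WT d) := by
  rw [Finsupp.weight_apply, Finsupp.weight_apply, Finsupp.sum_mapDomain_index
    (fun b => by rw [zero_smul]) (fun b m₁ m₂ => by rw [add_smul]), Finsupp.sum, Finsupp.sum, map_sum]
  refine Finset.sum_congr rfl fun p _ => ?_
  rw [varWT, map_nsmul]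

theorem varHom (t : ℕ) {r k : ℕ} (ν : (Fin r → ℤ) × ℤ) (P : MvPolynomial (Ib r k) ℂ) :
    IsWeightedHomogeneous WT (rename (varV t) P) (varL t r ν) ↔ IsWeightedHomogeneous WT P ν := by
  constructor
  · intro h d hd
    apply varL_inj t r
    rw [← varWeight]
    apply h
    rw [coeff_rename_mapDomain _ (varV_inj t)]
    exact hd
  · intro h d hd
    obtain ⟨u, hu, hu'⟩ := coeff_rename_ne_zero _ _ _ hd
    rw [← hu, varWeight, h hu']

theorem varRange (t : ℕ) {r k : ℕ} (p : Ib (r + t) k) (h : ∀ j : Fin t, wt p (Fin.natAdd r j) = 0) :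
    p ∈ Set.range (varV t : Ib r k → Ib (r + t) k) := by
  obtain ⟨τ, hτ⟩ := Xt_surj p
  have hp : p = (τ 0, sy fun a => τ a.succ) := (X_injective hτ).symm
  have h1 : ∀ a, ∃ b : Fin r, Fin.castAdd t b = τ a := by
    intro a
    rcases lt_or_ge (τ a : ℕ) r with ha | ha
    · exact ⟨⟨τ a, ha⟩, Fin.ext rfl⟩
    · exfalso
      have hlt : (τ a : ℕ) - r < t := by
        have := (τ a).isLt
        omega
      have h2 : Fin.natAdd r ⟨(τ a : ℕ) - r, hlt⟩ = τ a := Fin.ext (by
        rw [Fin.val_natAdd]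
        show r + ((τ a : ℕ) - r) = τ a
        omega)
      have h3 := h ⟨(τ a : ℕ) - r, hlt⟩
      rw [h2, hp, wt_tuple, Finset.sum_apply] at h3
      have h4 := (Finset.sum_eq_zero_iff_of_nonneg fun b _ => sg_nonneg (τ b) (τ a)).1 h3 a
        (Finset.mem_univ a)
      unfold sg at h4
      rw [Pi.single_eq_same] at h4
      exact one_ne_zero h4
  choose σ hσ using h1
  refine ⟨(σ 0, sy fun a => σ a.succ), ?_⟩
  unfold varV
  rw [varV_sy, hp]
  simp only [hσ]

theorem varEx (t : ℕ) {r k : ℕ} (ν : (Fin r → ℤ) × ℤ) (F : MvPolynomial (Ib (r + t) k) ℂ)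
    (hF : IsWeightedHomogeneous WT F (varL t r ν)) :
    ∃ P : MvPolynomial (Ib r k) ℂ, rename (varV t) P = F := by
  apply exists_rename_eq_of_vars_subset_range F (varV t) (varV_inj t)
  intro p hp
  obtain ⟨d, hd, hpd⟩ := (mem_vars_iff_mem_support p).1 (Finset.mem_coe.1 hp)
  apply varRange
  intro j
  have h1 := hF (mem_support_iff.1 hd)
  have h2 := weight_fst d (Fin.natAdd r j)
  rw [h1] at h2
  have h3 : (varL t r ν).1 (Fin.natAdd r j) = 0 := by
    show (Fin.append ν.1 fun _ => (0 : ℤ)) (Fin.natAdd r j) = 0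
    rw [Fin.append_right]
  rw [h3] at h2
  have h4 := (Finset.sum_eq_zero_iff_of_nonneg fun q _ =>
    mul_nonneg (Int.natCast_nonneg (d q)) (wt_nonneg q (Fin.natAdd r j))).1 h2.symm p hpd
  rcases mul_eq_zero.1 h4 with h5 | h5
  · exact absurd (by exact_mod_cast h5) (Finsupp.mem_support_iff.1 hpd)
  · exact h5

theorem kVar : VarStmt := by
  intro r t k a lam
  have hinj : Function.Injective (rename (varV t) : MvPolynomial (Ib r k) ℂ →ₐ[ℂ] _) :=
    rename_injective _ (varV_inj t)
  have key : (Gl (r + t) k a).HW (Fin.append lam fun _ => 0)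
      = ((Gl r k a).HW lam).map (rename (varV t) : MvPolynomial (Ib r k) ℂ →ₐ[ℂ] _).toLinearMap := by
    have hL : ((Fin.append lam fun _ => 0, (a : ℤ)) : (Fin (r + t) → ℤ) × ℤ)
        = varL t r (lam, (a : ℤ)) := rfl
    ext F
    rw [GlFam.mem_HW, mem_Gl, Submodule.mem_map]
    constructor
    · rintro ⟨h1, h2⟩
      rw [hL] at h1
      obtain ⟨P, rfl⟩ := varEx t _ F h1
      refine ⟨P, ?_, rfl⟩
      rw [GlFam.mem_HW, mem_Gl]
      refine ⟨(varHom t _ P).1 h1, fun i j hij => ?_⟩
      apply hinj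
      rw [Gl_E, ← varDE, map_zero]
      exact h2 (Fin.castAdd t i) (Fin.castAdd t j) (by
        rw [Fin.lt_def] at hij ⊢
        simpa using hij)
    · rintro ⟨P, hP, rfl⟩
      rw [GlFam.mem_HW, mem_Gl] at hP
      refine ⟨?_, fun i j hij => ?_⟩
      · rw [hL]
        exact (varHom t _ P).2 hP.1
      · rw [Gl_E]
        show DE i j (rename (varV t) P) = 0
        revert hij
        refine Fin.addCases (fun j' => ?_) (fun j' => ?_) j
        · refine Fin.addCases (fun i' => ?_) (fun i' => ?_) i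
          · intro hij
            rw [varDE]
            have h3 : DE i' j' P = 0 := hP.2 i' j' (by
              rw [Fin.lt_def] at hij ⊢
              simpa using hij)
            rw [h3, map_zero]
          · intro hij
            exfalso
            rw [Fin.lt_def, Fin.val_natAdd, Fin.val_castAdd] at hij
            have := j'.isLt
            omega
        · intro _
          exact varDE0 t i j' P
  rw [key]
  exact LinearEquiv.finrank_eq (Submodule.equivMapOfInjective _ hinj _)

end T3

end Pool.Agent.Lib.MP_a688ad_al
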