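import Pool.Agent.Lib.MP_a688ad_al.T3.SpecE

/-!
# MP_a688ad_al, all large `n`: vectors made of minors (F3)
-/

set_option autoImplicit false

open MvPolynomial Finset

namespace Pool.Agent.Lib.MP_a688ad_al

namespace T3

open T2

/-- Leibniz rule for a product. -/
private theorem vcsLeib {A : Type} [CommRing A] [Algebra ℂ A] (D : Derivation ℂ A A) {ι : Type}
    [DecidableEq ι] (s : Finset ι) (f : ι → A) :
    D (∏ b ∈ s, f b) = ∑ b ∈ s, (∏ c ∈ s.erase b, f c) * D (f b) := by
  induction s using Finset.induction_on with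
  | empty => simp
  | insert a s ha ih =>
    rw [Finset.prod_insert ha, Derivation.leibniz, ih, Finset.sum_insert ha,
      Finset.erase_insert ha, smul_eq_mul, smul_eq_mul, add_comm, Finset.mul_sum]
    congr 1
    refine Finset.sum_congr rfl fun b hb => ?_
    have hab : a ≠ b := fun h => ha (h ▸ hb)
    rw [Finset.erase_insert_of_ne hab, Finset.prod_insert (fun h => ha (Finset.mem_of_mem_erase h)),
      mul_assoc]

/-- The derivative of a determinant, by columns. -/
private theorem vcsDet {A : Type} [CommRing A] [Algebra ℂ A] (D : Derivation ℂ A A) {n : ℕ}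
    (M : Matrix (Fin n) (Fin n) A) :
    D M.det = ∑ b, (M.updateCol b fun a => D (M a b)).det := by
  rw [Matrix.det_apply, map_sum]
  simp only [Matrix.det_apply]
  rw [Finset.sum_comm]
  refine Finset.sum_congr rfl fun σ _ => ?_
  rw [← Finset.smul_sum]
  have h : D (Equiv.Perm.sign σ • ∏ b, M (σ b) b) = Equiv.Perm.sign σ • D (∏ b, M (σ b) b) := by
    rcases Int.units_eq_one_or (Equiv.Perm.sign σ) with h | h <;> rw [h] <;> simp
  rw [h, vcsLeib]
  congr 1
  refine Finset.sum_congr rfl fun b _ => ?_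
  rw [← Finset.mul_prod_erase univ _ (Finset.mem_univ b), Matrix.updateCol_self, mul_comm]
  congr 1
  refine Finset.prod_congr rfl fun c hc => ?_
  rw [Matrix.updateCol_ne (Finset.ne_of_mem_erase hc)]

/-- The matrix of `vc`. -/
private noncomputable def vcsM {r k i : ℕ} (hi : i + 1 ≤ r) (ξ : Fin i → Fin r → Ex r k)
    (l : Fin r) : Matrix (Fin (i + 1)) (Fin (i + 1)) (Ex r k) :=
  Matrix.of fun a b => (Fin.snoc ξ fun l' => if l' = l then 1 else 0 :
    Fin (i + 1) → Fin r → Ex r k) a (Fin.castLE hi b)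

private theorem vcs_det {r k i : ℕ} (hi : i + 1 ≤ r) (ξ : Fin i → Fin r → Ex r k)
    (l : Fin r) : vc i hi ξ l = (vcsM hi ξ l).det := rfl

private theorem vcsM_cast {r k i : ℕ} (hi : i + 1 ≤ r) (ξ : Fin i → Fin r → Ex r k)
    (l : Fin r) (a : Fin i) (b : Fin (i + 1)) :
    vcsM hi ξ l a.castSucc b = ξ a (Fin.castLE hi b) := by
  unfold vcsM
  rw [Matrix.of_apply, Fin.snoc_castSucc]

private theorem vcsM_last {r k i : ℕ} (hi : i + 1 ≤ r) (ξ : Fin i → Fin r → Ex r k)
    (l : Fin r) (b : Fin (i + 1)) :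
    vcsM hi ξ l (Fin.last i) b = if Fin.castLE hi b = l then 1 else 0 := by
  unfold vcsM
  rw [Matrix.of_apply, Fin.snoc_last]

private theorem vcs_om {r i : ℕ} (hi : i ≤ r) :
    (∑ b : Fin i, sg (Fin.castLE hi b) : Fin r → ℤ) = om i := by
  funext l
  rw [Finset.sum_apply]
  unfold om sg
  simp only [Pi.single_apply]
  by_cases h : (l : ℕ) < i
  · rw [if_pos h, Finset.sum_eq_single (⟨l, h⟩ : Fin i)]
    · rw [if_pos]
      apply Fin.ext
      rfl
    · intro b _ hb
      rw [if_neg]
      intro hl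
      apply hb
      apply Fin.ext
      have := congrArg Fin.val hl
      exact this.symm
    · intro h
      exact absurd (Finset.mem_univ _) h
  · rw [if_neg h]
    apply Finset.sum_eq_zero
    intro b _
    rw [if_neg]
    intro hl
    apply h
    rw [hl]
    exact b.2

private theorem vcs_hom {r k i : ℕ} (hi : i + 1 ≤ r) (β : Fin i → Fin r → ℤ)
    (c : Fin i → Fin (k + 1) → ℤ) (q : Fin i → ℤ) (ξ : Fin i → Fin r → Ex r k)
    (h : ∀ a, Cv (β a) (c a) (q a) (ξ a)) (l : Fin r) :
    IsWeightedHomogeneous WE (vc i hi ξ l)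
      (om (i + 1) + ∑ a, β a - sg l, ∑ a, c a, ∑ a, q a) := by
  rw [vcs_det, Matrix.det_apply]
  apply IsWeightedHomogeneous.sum
  intro σ _
  have h1 : IsWeightedHomogeneous WE (∏ b, vcsM hi ξ l (σ b) b)
      (∑ b, ((Fin.snoc (fun a => (β a, c a, q a)) (- sg l, 0, 0) :
        Fin (i + 1) → (Fin r → ℤ) × (Fin (k + 1) → ℤ) × ℤ) (σ b)
          + (sg (Fin.castLE hi b), 0, 0))) := by
    apply IsWeightedHomogeneous.prod
    intro b _
    generalize σ b = a
    refine Fin.lastCases ?_ (fun a => ?_) a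
    · rw [vcsM_last, Fin.snoc_last]
      split_ifs with hb
      · rw [← hb]
        have e : ((- sg (Fin.castLE hi b), 0, 0) + (sg (Fin.castLE hi b), 0, 0) :
            (Fin r → ℤ) × (Fin (k + 1) → ℤ) × ℤ) = 0 := by
          rw [Prod.mk_add_mk, neg_add_cancel]
          simp
        rw [e]
        exact isWeightedHomogeneous_one _ _
      · exact isWeightedHomogeneous_zero _ _ _
    · rw [vcsM_cast, Fin.snoc_castSucc]
      have e := (h a).hom (Fin.castLE hi b)
      rw [Prod.mk_add_mk, Prod.mk_add_mk, add_zero, add_zero]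
      exact e
  have h2 : (∑ b, ((Fin.snoc (fun a => (β a, c a, q a)) (- sg l, 0, 0) :
        Fin (i + 1) → (Fin r → ℤ) × (Fin (k + 1) → ℤ) × ℤ) (σ b)
          + (sg (Fin.castLE hi b), 0, 0)))
      = (om (i + 1) + ∑ a, β a - sg l, ∑ a, c a, ∑ a, q a) := by
    rw [Finset.sum_add_distrib, Equiv.sum_comp σ, Fin.sum_univ_castSucc, Fin.snoc_last]
    simp only [Fin.snoc_castSucc]
    apply Prod.ext
    · simp only [Prod.fst_add, Prod.fst_sum]
      rw [vcs_om]
      abel
    · apply Prod.ext
      · simp only [Prod.fst_add, Prod.snd_add, Prod.fst_sum, Prod.snd_sum]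
        simp
      · simp only [Prod.snd_add, Prod.snd_sum]
        simp
  rw [h2] at h1
  rw [← mem_weightedHomogeneousSubmodule ℂ] at *
  rcases Int.units_eq_one_or (Equiv.Perm.sign σ) with hs | hs <;> rw [hs]
  · rw [one_smul]
    exact h1
  · rw [Units.neg_smul, one_smul]
    exact Submodule.neg_mem _ h1

private theorem vcs_prj {r k i : ℕ} (hi : i + 1 ≤ r) (β : Fin i → Fin r → ℤ)
    (c : Fin i → Fin (k + 1) → ℤ) (q : Fin i → ℤ) (ξ : Fin i → Fin r → Ex r k)
    (h : ∀ a, Cv (β a) (c a) (q a) (ξ a)) (l : Fin r) : pr (vc i hi ξ l) = vc i hi ξ l := by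
  rw [vcs_det, AlgHom.map_det]
  congr 1
  ext1 a b
  rw [AlgHom.mapMatrix_apply, Matrix.map_apply]
  refine Fin.lastCases ?_ (fun a => ?_) a
  · rw [vcsM_last]
    split_ifs
    · exact map_one _
    · exact map_zero _
  · rw [vcsM_cast, (h a).prj]

/-- The determinant with a unit vector in the column `b` and the last row. -/
private theorem vcs_cof {r k i : ℕ} (hi : i + 1 ≤ r) (ξ : Fin i → Fin r → Ex r k) (l : Fin r)
    (b : Fin (i + 1)) : ((vcsM hi ξ l).updateCol b (Pi.single (Fin.last i) 1)).det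
      = vc i hi ξ (Fin.castLE hi b) := by
  rw [← Matrix.cramer_apply, Matrix.cramer_eq_adjugate_mulVec, Matrix.mulVec_single_one,
    Matrix.col_apply, Matrix.adjugate_apply, vcs_det]
  congr 1
  ext1 a b'
  refine Fin.lastCases ?_ (fun a => ?_) a
  · rw [Matrix.updateRow_self, vcsM_last, Pi.single_apply]
    congr 1
    apply propext
    constructor
    · intro h
      rw [h]
    · intro h
      exact Fin.castLE_injective hi h
  · rw [Matrix.updateRow_ne (Fin.castSucc_lt_last a).ne, vcsM_cast, vcsM_cast]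

private theorem vcs_inv {r k i : ℕ} (hi : i + 1 ≤ r) (β : Fin i → Fin r → ℤ)
    (c : Fin i → Fin (k + 1) → ℤ) (q : Fin i → ℤ) (ξ : Fin i → Fin r → Ex r k)
    (h : ∀ a, Cv (β a) (c a) (q a) (ξ a)) (p s l : Fin r) (hps : p < s) :
    DX p s (vc i hi ξ l) = if l = p then - vc i hi ξ s else 0 := by
  rw [vcs_det, vcsDet]
  have hlast : ∀ b, DX p s (vcsM hi ξ l (Fin.last i) b) = 0 := by
    intro b
    rw [vcsM_last]
    split_ifs
    · exact Derivation.map_one_eq_zero _
    · exact map_zero _
  have hne : ∀ b, Fin.castLE hi b ≠ s →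
      ((vcsM hi ξ l).updateCol b fun a => DX p s (vcsM hi ξ l a b)).det = 0 := by
    intro b hb
    apply Matrix.det_eq_zero_of_column_eq_zero b
    intro a
    rw [Matrix.updateCol_self]
    refine Fin.lastCases ?_ (fun a => ?_) a
    · exact hlast b
    · rw [vcsM_cast, (h a).inv p s _ hps, if_neg hb]
  by_cases hs : (s : ℕ) < i + 1
  · have hs' : Fin.castLE hi ⟨s, hs⟩ = s := by
      apply Fin.ext
      rfl
    have hp : (p : ℕ) < i + 1 := lt_trans hps hs
    have hp' : Fin.castLE hi ⟨p, hp⟩ = p := by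
      apply Fin.ext
      rfl
    have hne' : (⟨s, hs⟩ : Fin (i + 1)) ≠ ⟨p, hp⟩ := by
      intro e
      have := congrArg Fin.val e
      exact absurd this (ne_of_gt hps)
    rw [Finset.sum_eq_single (⟨s, hs⟩ : Fin (i + 1))]
    · have hcol : (fun a => DX p s (vcsM hi ξ l a ⟨s, hs⟩))
          = (fun a => vcsM hi ξ l a ⟨p, hp⟩)
            + (if l = p then (-1 : Ex r k) else 0) • Pi.single (Fin.last i) 1 := by
        funext a
        rw [Pi.add_apply, Pi.smul_apply]
        refine Fin.lastCases ?_ (fun a => ?_) a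
        · rw [hlast, vcsM_last, Pi.single_eq_same, hp', smul_eq_mul, mul_one]
          by_cases hl : l = p
          · rw [if_pos hl, if_pos hl.symm, add_neg_cancel]
          · rw [if_neg hl, if_neg (fun e => hl e.symm), add_zero]
        · rw [vcsM_cast, (h a).inv p s _ hps, if_pos hs', vcsM_cast, hp',
            Pi.single_eq_of_ne (Fin.castSucc_lt_last a).ne, smul_zero, add_zero]
      rw [hcol, Matrix.det_updateCol_add, Matrix.det_updateCol_smul, vcs_cof, hs']
      have h0 : ((vcsM hi ξ l).updateCol ⟨s, hs⟩ fun a => vcsM hi ξ l a ⟨p, hp⟩).det = 0 := by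
        apply Matrix.det_zero_of_column_eq hne'
        intro a
        rw [Matrix.updateCol_self, Matrix.updateCol_ne hne'.symm]
      rw [h0, zero_add]
      split_ifs
      · rw [neg_one_mul]
      · rw [zero_mul]
    · intro b _ hb
      apply hne
      intro e
      apply hb
      rw [← hs'] at e
      exact Fin.castLE_injective hi e
    · intro h'
      exact absurd (Finset.mem_univ _) h'
  · rw [Finset.sum_eq_zero]
    · split_ifs with hl
      · have h0 : vc i hi ξ s = 0 := by
          rw [vcs_det]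
          apply Matrix.det_eq_zero_of_row_eq_zero (Fin.last i)
          intro b
          rw [vcsM_last, if_neg]
          intro e
          apply hs
          rw [← e]
          exact b.2
        rw [h0, neg_zero]
      · rfl
    · intro b _
      apply hne
      intro e
      apply hs
      rw [← e]
      exact b.2

theorem kVcs : VcsStmt := by
  intro r k i hi β c q ξ h
  refine ⟨fun l => vcs_hom hi β c q ξ h l, fun p s l hps => vcs_inv hi β c q ξ h p s l hps,
    fun l => vcs_prj hi β c q ξ h l⟩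

end T3

end Pool.Agent.Lib.MP_a688ad_al
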