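import Pool.Agent.Lib.MP_a688ad_al.T3.SpecL

/-!
# MP_a688ad_al, T3: the Vandermonde argument
-/

set_option autoImplicit false

open MvPolynomial Finset

namespace Pool.Agent.Lib.MP_a688ad_al

namespace T3

open T2

theorem kVdm (h : RscStmt) : VdmStmt := by
  classical
  intro r k θ F hθ hF
  obtain ⟨_, _, h1, _, _, _⟩ := h
  set N : ℕ := (k + 1).factorial with hN
  let p : Polynomial (Ex r k) := ∏ σ ∈ (univ : Finset (Equiv.Perm (Fin (k + 1)))).erase 1,
    (Polynomial.X - Polynomial.C (rs σ θ))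
  have hcard : ((univ : Finset (Equiv.Perm (Fin (k + 1)))).erase 1).card = N - 1 := by
    rw [Finset.card_erase_of_mem (Finset.mem_univ _), Finset.card_univ, Fintype.card_perm,
      Fintype.card_fin]
  have hNpos : 0 < N := Nat.factorial_pos _
  have hdeg : p.natDegree < N := by
    have h2 : p.natDegree = ((univ : Finset (Equiv.Perm (Fin (k + 1)))).erase 1).card :=
      Polynomial.natDegree_finsetProd_X_sub_C_eq_card _ _
    rw [h2, hcard]
    omega
  have hev : ∀ z : Ex r k, p.eval z = ∏ σ ∈ (univ : Finset (Equiv.Perm (Fin (k + 1)))).erase 1,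
      (z - rs σ θ) := by
    intro z
    rw [Polynomial.eval_prod]
    refine Finset.prod_congr rfl fun σ _ => ?_
    rw [Polynomial.eval_sub, Polynomial.eval_X, Polynomial.eval_C]
  have hzero : ∀ σ : Equiv.Perm (Fin (k + 1)), σ ≠ 1 → p.eval (rs σ θ) = 0 := by
    intro σ hσ
    rw [hev]
    exact Finset.prod_eq_zero (Finset.mem_erase.mpr ⟨hσ, Finset.mem_univ σ⟩) (sub_self _)
  have hne : p.eval θ ≠ 0 := by
    rw [hev, Finset.prod_ne_zero_iff]
    intro σ hσ
    exact sub_ne_zero.mpr (hθ σ (Finset.ne_of_mem_erase hσ)).symm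
  have hsum : ∑ σ : Equiv.Perm (Fin (k + 1)), rs σ F * p.eval (rs σ θ) = 0 := by
    have h2 : ∀ σ : Equiv.Perm (Fin (k + 1)), rs σ F * p.eval (rs σ θ) =
        ∑ t ∈ range N, p.coeff t * (rs σ F * (rs σ θ) ^ t) := by
      intro σ
      rw [Polynomial.eval_eq_sum_range' hdeg, Finset.mul_sum]
      refine Finset.sum_congr rfl fun t _ => ?_
      ring
    rw [Finset.sum_congr rfl fun σ _ => h2 σ, Finset.sum_comm]
    refine Finset.sum_eq_zero fun t ht => ?_
    rw [← Finset.mul_sum, hF t (Finset.mem_range.mp ht), mul_zero]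
  rw [Finset.sum_eq_single (1 : Equiv.Perm (Fin (k + 1))) (fun σ _ hσ => by
    rw [hzero σ hσ, mul_zero]) (fun h => (h (Finset.mem_univ _)).elim), h1, h1] at hsum
  exact (mul_eq_zero.mp hsum).resolve_right hne

end T3

end Pool.Agent.Lib.MP_a688ad_al
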