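import Pool.Agent.Lib.MP_a688ad_al.T3.EvX

/-!
# MP_a688ad_al: minors of all sizes
-/

set_option autoImplicit false

open MvPolynomial Finset

namespace Pool.Agent.Lib.MP_a688ad_al

namespace T3

open T2

/-- the number of places before `t` -/
theorem wp_card {k t : ℕ} (ht : t ≤ k) : (univ.filter (fun s : Fin k => (s : ℕ) < t)).card = t := by
  have h := Fin.sum_univ_eq_sum_range (fun s => if s < t then (1 : ℕ) else 0) k
  rw [Finset.card_filter, h, Finset.sum_boole]
  have h2 : (Finset.range k).filter (fun s => s < t) = Finset.range t := by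
    ext s
    rw [Finset.mem_filter, Finset.mem_range, Finset.mem_range]
    omega
  rw [h2, Finset.card_range]
  rfl

/-- different numbers of places give different multisets -/
theorem wp_sy {r k t t' : ℕ} (ht : t ≤ k) (ht' : t' ≤ k) (x y : Fin r) (hxy : x ≠ y)
    (h : sy (fun s : Fin k => if (s : ℕ) < t then x else y) =
      sy (fun s : Fin k => if (s : ℕ) < t' then x else y)) : t = t' := by
  classical
  have key : ∀ t, t ≤ k → Multiset.count x (sy (fun s : Fin k => if (s : ℕ) < t then x else y)).1
      = t := by
    intro t ht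
    change Multiset.count x ((univ.val : Multiset (Fin k)).map
      (fun s : Fin k => if (s : ℕ) < t then x else y)) = t
    rw [Multiset.count_map]
    have h2 : (univ.val : Multiset (Fin k)).filter
        (fun s : Fin k => x = if (s : ℕ) < t then x else y) =
        (univ.filter (fun s : Fin k => (s : ℕ) < t)).val := by
      rw [Finset.filter_val]
      apply Multiset.filter_congr
      intro s _
      constructor
      · intro h3
        by_contra h4
        rw [if_neg h4] at h3
        exact hxy h3
      · intro h3
        rw [if_pos h3]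
    rw [h2]
    exact wp_card ht
  have h1 := key t ht
  have h2 := key t' ht'
  rw [h] at h1
  exact h1.symm.trans h2

/-- the value of `g` -/
theorem wp_gp {r k : ℕ} (T : Ib r k → ℂ) (l : Fin r) (m : Fin k → Fin r)
    (hT : ∀ (s : Fin k) (p : Sym (Fin r) k), T (m s, p) = 0) :
    gp T (Fin.cons l m : Fin (k + 1) → Fin r) = ((k : ℂ) / (k + 1)) * T (l, sy m) := by
  have hk1 : ((k : ℂ) + 1) ≠ 0 := by
    have : ((k + 1 : ℕ) : ℂ) ≠ 0 := Nat.cast_ne_zero.mpr (by omega)
    push_cast at this
    exact this
  set τ : Fin (k + 1) → Fin r := Fin.cons l m with hτ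
  have hτ0 : τ 0 = l := by rw [hτ, Fin.cons_zero]
  have hτs : ∀ t : Fin k, τ t.succ = m t := by
    intro t
    rw [hτ, Fin.cons_succ]
  have hTτ : T (τ 0, sy fun t => τ t.succ) = T (l, sy m) := by
    rw [hτ0, show (fun t : Fin k => τ t.succ) = m from funext hτs]
  have hsum : ∑ s, T ((τ ∘ Equiv.swap 0 s) 0, sy fun c => (τ ∘ Equiv.swap 0 s) c.succ) =
      T (l, sy m) := by
    rw [Fin.sum_univ_succ, Finset.sum_eq_zero, add_zero]
    · rw [Equiv.swap_self, Equiv.coe_refl, Function.comp_id]
      exact hTτ
    · intro t _
      have h3 : (τ ∘ Equiv.swap 0 t.succ) 0 = m t := by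
        rw [Function.comp_apply, Equiv.swap_apply_left]
        exact hτs t
      rw [h3]
      exact hT t _
  unfold gp
  rw [hTτ, hsum]
  field_simp
  ring

theorem kWp (h1 : BrkStmt) (h2 : VcsStmt) (h3 : CtsStmt) (h4 : EvpStmt) (_h5 : PaiStmt) :
    WpStmt := by
  classical
  intro k j p hj2 hjk hp
  by_cases hpk : p ≤ k + 1
  · refine ⟨0, ∑ a : Fin p, sg (Fin.castLE hpk a), 0,
      brk p hp (fun a => xx (Fin.castLE hpk a)), fun _ => ⟨rfl, rfl⟩, ?_, ?_⟩
    · have h := h1 (R2 k) k p hp (fun _ => 0) (fun a => sg (Fin.castLE hpk a)) (fun _ => 0)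
        (fun a => xx (Fin.castLE hpk a)) (fun a => xx_Cv _)
      rw [Finset.sum_const_zero, Finset.sum_const_zero, add_zero] at h
      rw [mul_zero, Nat.cast_zero, zero_smul, add_zero]
      exact h
    · intro h0
      have h := (h4 (R2 k) k exE (fun _ => 0)).2.2.1 p hp (fun a => xx (Fin.castLE hpk a))
      rw [h0, map_zero] at h
      have h6 : (fun (a : Fin p) (l : Fin (R2 k)) => evp exE (fun _ => 0)
          (xx (Fin.castLE hpk a) l : Ex (R2 k) k)) =
          fun a => (exE (Fin.castLE hpk a : Fin (k + 1)) : Fin (R2 k) → ℂ) := by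
        funext a l
        exact (h4 (R2 k) k exE (fun _ => 0)).1 _ _
      rw [h6, ex_brk hp hpk] at h
      exact zero_ne_one h
  · obtain ⟨n, rfl⟩ : ∃ n, p = k + 1 + n := ⟨p - (k + 1), by omega⟩
    obtain ⟨i, rfl⟩ : ∃ i, j = i + 1 := ⟨j - 1, by omega⟩
    have hR : R2 k = k + 1 + (k + 1) := rfl
    have hn : n ≤ k + 1 := by omega
    have hi : i + 1 ≤ R2 k := by omega
    have hik : i ≤ k := by omega
    set c0 : Fin i → Fin (k + 1) := fun t => ⟨t, by have := t.2; omega⟩ with hc0
    set c1 : Fin i → Fin (k + 1) := fun t => ⟨t + 1, by have := t.2; omega⟩ with hc1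
    set v : Fin (R2 k) → Ex (R2 k) k := vt i hi c0 with hv
    set w : Fin (R2 k) → Ex (R2 k) k := vt i hi c1 with hw
    have hVv : Vc (om (i + 1)) (∑ t, sg (c0 t)) 0 v := by
      have h := h2 (R2 k) k i hi (fun _ => 0) (fun t => sg (c0 t)) (fun _ => 0)
        (fun t => xx (c0 t)) (fun t => xx_Cv _)
      rw [Finset.sum_const_zero, Finset.sum_const_zero, add_zero] at h
      exact h
    have hVw : Vc (om (i + 1)) (∑ t, sg (c1 t)) 0 w := by
      have h := h2 (R2 k) k i hi (fun _ => 0) (fun t => sg (c1 t)) (fun _ => 0)
        (fun t => xx (c1 t)) (fun t => xx_Cv _)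
      rw [Finset.sum_const_zero, Finset.sum_const_zero, add_zero] at h
      exact h
    let η : ℕ → Fin (R2 k) → Ex (R2 k) k := fun t =>
      cv (fun s : Fin k => if (s : ℕ) < t then v else w)
    let cη : ℕ → Fin (k + 1) → ℤ := fun t =>
      ∑ s : Fin k, if (s : ℕ) < t then ∑ t, sg (c0 t) else ∑ t, sg (c1 t)
    have hη : ∀ t, Cv (k • om (i + 1)) (cη t) 1 (η t) := by
      intro t
      have h := h3.2 (R2 k) k (fun _ => om (i + 1))
        (fun s => if (s : ℕ) < t then ∑ t, sg (c0 t) else ∑ t, sg (c1 t)) (fun _ => 0)
        (fun s : Fin k => if (s : ℕ) < t then v else w) (by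
          intro s
          by_cases hs : (s : ℕ) < t
          · simp only [if_pos hs]
            exact hVv
          · simp only [if_neg hs]
            exact hVw)
      rw [Finset.sum_const, Finset.card_univ, Fintype.card_fin, Finset.sum_const_zero, zero_add]
        at h
      exact h
    let ξ : Fin (k + 1 + n) → Fin (R2 k) → Ex (R2 k) k :=
      Fin.addCases (fun a => xx a) (fun t => η t)
    let β : Fin (k + 1 + n) → Fin (R2 k) → ℤ := Fin.addCases (fun _ => 0) (fun _ => k • om (i + 1))
    let c : Fin (k + 1 + n) → Fin (k + 1) → ℤ := Fin.addCases (fun a => sg a) (fun t => cη t)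
    let q : Fin (k + 1 + n) → ℤ := Fin.addCases (fun _ => 0) (fun _ => 1)
    have hξ : ∀ a, Cv (β a) (c a) (q a) (ξ a) := by
      intro a
      refine Fin.addCases (fun a => ?_) (fun t => ?_) a
      · simp only [β, c, q, ξ, Fin.addCases_left]
        exact xx_Cv a
      · simp only [β, c, q, ξ, Fin.addCases_right]
        exact hη t
    have hβ : ∑ a, β a = (n * k) • om (i + 1) := by
      rw [Fin.sum_univ_add]
      simp only [β, Fin.addCases_left, Fin.addCases_right]
      rw [Finset.sum_const_zero, zero_add, Finset.sum_const, Finset.card_univ, Fintype.card_fin,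
        smul_smul]
    have hb := h1 (R2 k) k (k + 1 + n) hp β c q ξ hξ
    rw [hβ] at hb
    have hb2 := h1 (R2 k) k (i + 1) hi (fun _ => 0) (fun a => sg (Fin.castLE hjk a)) (fun _ => 0)
        (fun a => xx (Fin.castLE hjk a)) (fun a => xx_Cv _)
    rw [Finset.sum_const_zero, Finset.sum_const_zero, add_zero] at hb2
    refine ⟨n, (∑ a, c a) + n • ∑ a, sg (Fin.castLE hjk a), (∑ a, q a) + n • 0,
      brk (k + 1 + n) hp ξ *
      brk (i + 1) hi (fun a => xx (Fin.castLE hjk a)) ^ n, fun h => absurd h hpk, ?_, ?_⟩
    · have hb3 := hb.mul (hb2.pow n)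
      have e1 : om (k + 1 + n) + ((((k + 1) * n : ℕ) : ℤ)) • (om (i + 1) : Fin (R2 k) → ℤ) =
          om (k + 1 + n) + (n * k) • om (i + 1) + n • om (i + 1) := by
        rw [add_assoc (om (k + 1 + n)), natCast_zsmul, ← add_smul]
        congr 2
        ring
      rw [e1]
      exact hb3
    · intro h0
      have hr1 : k + 1 ≤ R2 k := by omega
      set x : Fin (R2 k) := ⟨i, by omega⟩ with hx
      set y : Fin (R2 k) := ⟨0, by omega⟩ with hy
      have hxy : x ≠ y := by
        rw [hx, hy]
        intro h
        rw [Fin.mk.injEq] at h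
        omega
      let T : Ib (R2 k) k → ℂ := fun p =>
        if k + 1 ≤ (p.1 : ℕ) ∧ p.2 = sy (fun s : Fin k =>
          if (s : ℕ) < (p.1 : ℕ) - (k + 1) then x else y) then 1 else 0
      obtain ⟨ε, hε1, hε2⟩ := ex_vc (k := k) hi c0
        (fun a b h => by
          rw [hc0] at h
          simp only [Fin.mk.injEq] at h
          exact Fin.ext h)
        (fun t => by
          have := t.2
          rw [hc0]
          simp only
          omega) i le_rfl
        (fun t => by
          have := t.2
          rw [hc0]
          simp only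
          omega)
      obtain ⟨ε', hε1', hε2'⟩ := ex_vc (k := k) hi c1
        (fun a b h => by
          rw [hc1] at h
          simp only [Fin.mk.injEq] at h
          exact Fin.ext (by omega))
        (fun t => by
          have := t.2
          rw [hc1]
          simp only
          omega) 0 (Nat.zero_le _)
        (fun t => by
          rw [hc1]
          simp only
          omega)
      have hε0 : ε ≠ 0 := by
        intro h
        rw [h, mul_zero] at hε1
        exact zero_ne_one hε1
      have hε0' : ε' ≠ 0 := by
        intro h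
        rw [h, mul_zero] at hε1'
        exact zero_ne_one hε1'
      have hηv : ∀ (t : ℕ) (l : Fin (R2 k)), t ≤ k → k + 1 ≤ (l : ℕ) →
          evp exE T (η t l) = (∏ s : Fin k, if (s : ℕ) < t then ε else ε') *
            (((k : ℂ) / (k + 1)) * if t = (l : ℕ) - (k + 1) then 1 else 0) := by
        intro t l ht hl
        simp only [η]
        rw [(h4 (R2 k) k exE T).2.2.2.2.2]
        rw [ex_sum (fun s l => evp exE T ((if (s : ℕ) < t then v else w) l))
          (fun s => if (s : ℕ) < t then x else y) (fun s => if (s : ℕ) < t then ε else ε') (by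
            intro s l
            by_cases hs : (s : ℕ) < t
            · simp only [if_pos hs]
              rw [hv, ex_evt h4, hε2 l]
              simp only [Fin.ext_iff, hx]
            · simp only [if_neg hs]
              rw [hw, ex_evt h4, hε2' l]
              simp only [Fin.ext_iff, hy]) (fun τ => gp T (Fin.cons l τ))]
        rw [wp_gp]
        · congr 2
          simp only [T]
          by_cases htl : t = (l : ℕ) - (k + 1)
          · rw [if_pos htl, if_pos ⟨hl, by rw [htl]⟩]
          · rw [if_neg htl, if_neg]
            rintro ⟨-, h6⟩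
            apply htl
            have hl2 := l.2
            exact wp_sy ht (by omega) x y hxy h6
        · intro s p
          simp only [T]
          rw [if_neg]
          rintro ⟨h6, -⟩
          split_ifs at h6
          · rw [hx] at h6
            simp only at h6
            omega
          · rw [hy] at h6
            simp only at h6
            omega
      have hk0 : ((k : ℂ) / (k + 1)) ≠ 0 := by
        apply div_ne_zero
        · exact Nat.cast_ne_zero.mpr (by omega)
        · have : ((k + 1 : ℕ) : ℂ) ≠ 0 := Nat.cast_ne_zero.mpr (by omega)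
          push_cast at this
          exact this
      have h := congrArg (evp exE T) h0
      rw [map_mul, map_pow, map_zero, (h4 (R2 k) k exE T).2.2.1, (h4 (R2 k) k exE T).2.2.1] at h
      have h6 : (fun (a : Fin (i + 1)) (l : Fin (R2 k)) => evp exE T
          (xx (Fin.castLE hjk a) l : Ex (R2 k) k)) =
          fun a => (exE (Fin.castLE hjk a : Fin (k + 1)) : Fin (R2 k) → ℂ) := by
        funext a l
        exact (h4 (R2 k) k exE T).1 _ _
      rw [h6, ex_brk hi hjk, one_pow, mul_one] at h
      have hent1 : ∀ (a : Fin (k + 1)) (l : Fin (R2 k)),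
          evp exE T (ξ (Fin.castAdd n a) l) = if (l : ℕ) = (a : ℕ) then 1 else 0 := by
        intro a l
        simp only [ξ, Fin.addCases_left]
        exact (h4 (R2 k) k exE T).1 _ _
      have hent2 : ∀ (t : Fin n) (l : Fin (R2 k)), k + 1 ≤ (l : ℕ) →
          evp exE T (ξ (Fin.natAdd (k + 1) t) l) =
          (∏ s : Fin k, if (s : ℕ) < (t : ℕ) then ε else ε') *
            (((k : ℂ) / (k + 1)) * if (t : ℕ) = (l : ℕ) - (k + 1) then 1 else 0) := by
        intro t l hl
        simp only [ξ, Fin.addCases_right]
        have := t.2
        exact hηv t l (by omega) hl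
      unfold brk at h
      rw [Matrix.det_of_isLowerTriangular] at h
      · rw [Finset.prod_eq_zero_iff] at h
        obtain ⟨a, -, ha⟩ := h
        rw [Matrix.of_apply] at ha
        revert ha
        refine Fin.addCases (fun a => ?_) (fun t => ?_) a
        · intro ha
          simp only at ha
          rw [hent1, if_pos (by simp)] at ha
          exact one_ne_zero ha
        · intro ha
          simp only at ha
          rw [hent2 _ _ (by simp), if_pos (by simp)] at ha
          rw [mul_one] at ha
          revert ha
          apply mul_ne_zero _ hk0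
          apply Finset.prod_ne_zero_iff.mpr
          intro s _
          split_ifs
          · exact hε0
          · exact hε0'
      · intro a b hab
        rw [OrderDual.toDual_lt_toDual] at hab
        rw [Matrix.of_apply]
        revert hab
        refine Fin.addCases (fun a => ?_) (fun t => ?_) a
        · intro hab
          simp only
          rw [hent1, if_neg]
          rw [Fin.lt_def] at hab
          simp only [Fin.val_castLE, Fin.val_castAdd] at *
          omega
        · intro hab
          rw [Fin.lt_def] at hab
          simp only [Fin.val_natAdd] at hab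
          simp only
          rw [hent2 _ _ (by simp only [Fin.val_castLE]; omega), if_neg, mul_zero, mul_zero]
          simp only [Fin.val_castLE]
          omega

end T3

end Pool.Agent.Lib.MP_a688ad_al
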