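import Pool.Agent.Lib.MP_a688ad_al.T3.SpecE

/-!
# MP_a688ad_al, T3, module Yb: scalars of given weight
-/

set_option autoImplicit false

open MvPolynomial Finset

namespace Pool.Agent.Lib.MP_a688ad_al

namespace T3

open T2

private theorem yb_om (R p : ℕ) (hp : p ≤ R) (x : ℤ) :
    ∑ i : Fin R, (if (i : ℕ) < p then x else 0) = p * x := by
  rw [Fin.sum_univ_eq_sum_range (fun i => if i < p then x else 0) R, Finset.sum_ite,
    Finset.sum_const_zero, add_zero, Finset.sum_const]
  have : (range R).filter (fun i => i < p) = range p := by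
    ext i
    simp only [mem_filter, mem_range]
    omega
  rw [this, card_range, nsmul_eq_mul]

/-- balancing the content -/
private theorem yb_bal (k j : ℕ) (hS : Sab k j) : ∀ (N : ℕ) (β : Fin (R2 k) → ℤ)
    (c : Fin (k + 1) → ℤ) (q C : ℤ) (Y : Ex (R2 k) k), Sc β c q Y → Y ≠ 0 →
    ∑ κ, (c κ - C) = 0 → ∑ κ, |c κ - C| ≤ (N : ℤ) →
    ∃ (e : ℕ) (c' q' : ℤ) (Y' : Ex (R2 k) k),
      Sc (β + ((((k + 1).factorial * e : ℕ)) : ℤ) • om j) (fun _ => c') q' Y' ∧ Y' ≠ 0 := by
  intro N
  have hdone : ∀ (β : Fin (R2 k) → ℤ) (c : Fin (k + 1) → ℤ) (q C : ℤ) (Y : Ex (R2 k) k),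
      Sc β c q Y → Y ≠ 0 → (∀ κ, c κ = C) → ∃ (e : ℕ) (c' q' : ℤ) (Y' : Ex (R2 k) k),
      Sc (β + ((((k + 1).factorial * e : ℕ)) : ℤ) • om j) (fun _ => c') q' Y' ∧ Y' ≠ 0 := by
    intro β c q C Y hY hY0 hc
    refine ⟨0, C, q, Y, ?_, hY0⟩
    have e : c = fun _ => C := funext hc
    rw [Nat.mul_zero, Nat.cast_zero, zero_smul, add_zero, ← e]
    exact hY
  induction N with
  | zero =>
    intro β c q C Y hY hY0 _ hN
    refine hdone β c q C Y hY hY0 fun κ => ?_
    have h1 : |c κ - C| ≤ ∑ κ, |c κ - C| :=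
      Finset.single_le_sum (f := fun κ => |c κ - C|) (fun _ _ => abs_nonneg _) (mem_univ κ)
    have h2 : |c κ - C| = 0 := le_antisymm (by simpa using h1.trans hN) (abs_nonneg _)
    have h3 := abs_eq_zero.1 h2
    omega
  | succ N ih =>
    intro β c q C Y hY hY0 hsum hN
    by_cases hall : ∀ κ, c κ = C
    · exact hdone β c q C Y hY hY0 hall
    · push Not at hall
      obtain ⟨κ₀, hκ₀⟩ := hall
      obtain ⟨a, -, ha⟩ := Finset.exists_pos_of_sum_zero_of_exists_nonzero
        (fun κ => c κ - C) hsum ⟨κ₀, mem_univ _, fun h => hκ₀ (by omega)⟩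
      obtain ⟨b, -, hb⟩ := Finset.exists_pos_of_sum_zero_of_exists_nonzero
        (fun κ => -(c κ - C)) (by rw [Finset.sum_neg_distrib, hsum, neg_zero])
        ⟨κ₀, mem_univ _, fun h => hκ₀ (by omega)⟩
      have hba : b ≠ a := by
        rintro rfl
        omega
      obtain ⟨C', q', s, hs, hs0⟩ := hS b a hba
      have hYs := hY.mul hs
      obtain ⟨e, c2, q2, Y2, hY2, hY20⟩ := ih _ _ _ (C + C') _ hYs (mul_ne_zero hY0 hs0) (by
        have e1 : ∀ κ, (c + fun κ => C' + (if κ = b then 1 else 0) - if κ = a then 1 else 0) κ -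
            (C + C') = (c κ - C) + (if κ = b then 1 else 0) - (if κ = a then 1 else 0) := by
          intro κ
          simp only [Pi.add_apply]
          ring
        simp only [e1]
        rw [Finset.sum_sub_distrib, Finset.sum_add_distrib, hsum, Finset.sum_ite_eq',
          Finset.sum_ite_eq']
        simp) (by
        have e1 : ∀ κ, |(c + fun κ => C' + (if κ = b then 1 else 0) - if κ = a then 1 else 0) κ -
            (C + C')| = |c κ - C| - (if κ = b then 1 else 0) - (if κ = a then 1 else 0) := by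
          intro κ
          simp only [Pi.add_apply]
          by_cases h1 : κ = b
          · subst h1
            rw [if_pos rfl, if_neg hba, abs_of_nonpos (a := c κ - C) (by omega),
              abs_of_nonpos (by omega)]
            omega
          · by_cases h2 : κ = a
            · subst h2
              rw [if_neg h1, if_pos rfl, abs_of_pos (a := c κ - C) (by omega),
                abs_of_nonneg (by omega)]
              omega
            · rw [if_neg h1, if_neg h2]
              simp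
        simp only [e1]
        rw [Finset.sum_sub_distrib, Finset.sum_sub_distrib, Finset.sum_ite_eq',
          Finset.sum_ite_eq']
        simp only [mem_univ, if_true]
        push_cast at hN
        omega)
      refine ⟨e + 1, c2, q2, Y2, ?_, hY20⟩
      have e3 : β + ((((k + 1).factorial * (e + 1) : ℕ)) : ℤ) • (om j : Fin (R2 k) → ℤ) =
          β + (((k + 1).factorial : ℕ) : ℤ) • om j + ((((k + 1).factorial * e : ℕ)) : ℤ) • om j := by
        rw [add_assoc, ← add_smul]
        congr 2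
        push_cast
        ring
      rw [e3]
      exact hY2

/-- the sum of the rows -/
private theorem yb_row (k nb : ℕ) (b : Finset (Fin (k + 1 + (k + 1))) → ℕ) (hb : S1 (k + 1) nb b) :
    ∑ i : Fin (R2 k), (row b i : ℤ) = (k + 1) * nb := by
  have h1 : ∑ i : Fin (R2 k), (row b i : ℤ) = ∑ C, (C.card : ℤ) * b C := by
    unfold row
    push_cast
    rw [Finset.sum_comm]
    refine Finset.sum_congr rfl fun C _ => ?_
    refine yb_om (R2 k) C.card ?_ _
    have := card_le_univ C
    rwa [Fintype.card_fin] at this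
  have h2 : ∑ κ, (cont b κ : ℤ) = ∑ C, (C.card : ℤ) * b C := by
    unfold cont
    push_cast
    rw [Finset.sum_comm]
    refine Finset.sum_congr rfl fun C _ => ?_
    rw [Finset.sum_ite_mem, univ_inter, Finset.sum_const, nsmul_eq_mul]
  rw [h1, ← h2, Fin.sum_univ_add, ← Finset.sum_add_distrib]
  have h3 : ∀ κ : Fin (k + 1), (cont b (Fin.castAdd (k + 1) κ) : ℤ) +
      (cont b (Fin.natAdd (k + 1) κ) : ℤ) = nb := by
    intro κ
    rw [hb.2.2 κ, ← hb.2.1 κ]
    push_cast
    ring
  rw [Finset.sum_congr rfl (fun κ _ => h3 κ), Finset.sum_const, card_univ, Fintype.card_fin,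
    nsmul_eq_mul]
  push_cast
  ring

theorem kYb (h1 : WpStmt) (h2 : SaAStmt) (h3 : SaBStmt) (h4 : SizStmt) : YbStmt := by
  intro k j hk hj hjk b nb hb
  have hS : Sab k j := by
    rcases Nat.lt_or_ge k j with h | h
    · have : j = k + 1 := by omega
      subst this
      exact h3 k hk
    · exact h2 k j hj h
  have hcard : ∀ C : Finset (Fin (k + 1 + (k + 1))), C.card ≤ R2 k := by
    intro C
    have := card_le_univ C
    rwa [Fintype.card_fin] at this
  choose eC cC qC W hW0 hW hWne using fun C : Finset (Fin (k + 1 + (k + 1))) =>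
    h1 k j C.card hj hjk (hcard C)
  obtain ⟨ej, cj, qj, Wj, hj0, hWj, hWjne⟩ := h1 k j j hj hjk (by unfold R2; omega)
  obtain ⟨hej, hqj⟩ := hj0 hjk
  subst hej
  rw [Nat.mul_zero, Nat.cast_zero, zero_smul, add_zero] at hWj
  set E : ℕ := ∑ C, b C * eC C with hE
  have hY1 := Sc.prod univ (fun C => b C • (om C.card + ((((k + 1) * eC C : ℕ)) : ℤ) • om j))
    (fun C => b C • cC C) (fun C => b C • qC C) (fun C => W C ^ b C) (fun C _ => (hW C).pow (b C))
  have hY1ne : ∏ C, W C ^ b C ≠ 0 := Finset.prod_ne_zero_iff.2 fun C _ => pow_ne_zero _ (hWne C)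
  have hY2 := hY1.mul (hWj.pow ((k + 1) * ((k.factorial - 1) * E)))
  have hY2ne : (∏ C, W C ^ b C) * Wj ^ ((k + 1) * ((k.factorial - 1) * E)) ≠ 0 :=
    mul_ne_zero hY1ne (pow_ne_zero _ hWjne)
  have hβ : (∑ C, b C • (om C.card + ((((k + 1) * eC C : ℕ)) : ℤ) • om j)) +
      ((k + 1) * ((k.factorial - 1) * E)) • om j =
      (fun i : Fin (R2 k) => (row b i : ℤ)) + ((((k + 1).factorial * E : ℕ)) : ℤ) • om j := by
    funext i
    simp only [Pi.add_apply, Finset.sum_apply, Pi.smul_apply, smul_eq_mul]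
    simp only [nsmul_eq_mul]
    have e1 : (row b i : ℤ) = ∑ C, (b C : ℤ) * om C.card i := by
      unfold row om
      push_cast
      refine Finset.sum_congr rfl fun C _ => ?_
      split_ifs <;> simp
    have e2 : ∑ C, (b C : ℤ) * (om C.card i + (((k + 1) * eC C : ℕ) : ℤ) * om j i) =
        (∑ C, (b C : ℤ) * om C.card i) + ((k + 1 : ℤ) * E) * om j i := by
      rw [hE]
      push_cast
      rw [Finset.mul_sum, Finset.sum_mul, ← Finset.sum_add_distrib]
      refine Finset.sum_congr rfl fun C _ => ?_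
      ring
    rw [e1, e2, Nat.factorial_succ]
    have hf : 1 ≤ k.factorial := Nat.factorial_pos k
    push_cast [Nat.cast_sub hf]
    ring
  rw [hβ] at hY2
  obtain ⟨cc, qq, hY2⟩ : ∃ (cc : Fin (k + 1) → ℤ) (qq : ℤ),
      Sc ((fun i : Fin (R2 k) => (row b i : ℤ)) + ((((k + 1).factorial * E : ℕ)) : ℤ) • om j)
        cc qq ((∏ C, W C ^ b C) * Wj ^ ((k + 1) * ((k.factorial - 1) * E))) := ⟨_, _, hY2⟩
  have hsiz := h4 _ _ _ _ _ _ hY2.hom hY2ne
  have hs1 : ∑ i : Fin (R2 k), ((fun i : Fin (R2 k) => (row b i : ℤ)) +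
      ((((k + 1).factorial * E : ℕ)) : ℤ) • (om j : Fin (R2 k) → ℤ) : Fin (R2 k) → ℤ) i =
      (k + 1) * nb + ((((k + 1).factorial * E : ℕ)) : ℤ) * j := by
    simp only [Pi.add_apply, Pi.smul_apply, smul_eq_mul, Finset.sum_add_distrib, ← Finset.mul_sum]
    rw [yb_row k nb b hb]
    congr 2
    unfold om
    rw [yb_om (R2 k) j (by unfold R2; omega) 1, mul_one]
  rw [hs1] at hsiz
  refine (yb_bal k j hS (∑ κ, |cc κ - (nb + k.factorial * E * j - qq)|).toNat _ _ _
    (nb + k.factorial * E * j - qq) _ hY2 hY2ne ?_ ?_).elim ?_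
  · rw [Finset.sum_sub_distrib, Finset.sum_const, card_univ, Fintype.card_fin, nsmul_eq_mul,
      sub_eq_zero]
    rw [Nat.factorial_succ] at hsiz
    push_cast at hsiz ⊢
    linear_combination -hsiz
  · rw [Int.toNat_of_nonneg (Finset.sum_nonneg fun _ _ => abs_nonneg _)]
  · rintro e ⟨c', q', Y', hY', hY'0⟩
    refine ⟨E + e, c', q', Y', ?_, hY'0⟩
    have e3 : (fun i : Fin (R2 k) => (row b i : ℤ)) +
        ((((k + 1).factorial * (E + e) : ℕ)) : ℤ) • (om j : Fin (R2 k) → ℤ) =
        (fun i : Fin (R2 k) => (row b i : ℤ)) + ((((k + 1).factorial * E : ℕ)) : ℤ) • om j +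
          ((((k + 1).factorial * e : ℕ)) : ℤ) • om j := by
      funext i
      simp only [Pi.add_apply, Pi.smul_apply, smul_eq_mul]
      push_cast
      ring
    rw [e3]
    exact hY'

end T3

end Pool.Agent.Lib.MP_a688ad_al
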