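import Pool.Agent.Lib.MP_a688ad_al.T3.SpecE

/-!
# MP_a688ad_al, T3, Yy: scalars of given large weight
-/

set_option autoImplicit false

open MvPolynomial Finset

namespace Pool.Agent.Lib.MP_a688ad_al

namespace T3

open T2

private theorem yy_row {K : ℕ} (g : Finset (Fin K) → ℕ) (i : ℕ) :
    (row g i : ℤ) = ∑ j' ∈ Finset.Icc 1 K, (ht g j' : ℤ) * (if i < j' then 1 else 0) := by
  unfold row ht
  push_cast
  simp_rw [Finset.sum_mul]
  rw [Finset.sum_comm]
  refine Finset.sum_congr rfl fun C _ => ?_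
  have hC : C.card ≤ K := by simpa using Finset.card_le_univ C
  by_cases hi : i < C.card
  · rw [if_pos hi, Finset.sum_eq_single C.card]
    · rw [if_pos rfl, if_pos hi, mul_one]
    · intro j' _ hj'
      rw [if_neg (fun h => hj' h.symm), zero_mul]
    · intro h
      exact absurd (Finset.mem_Icc.2 ⟨by omega, hC⟩) h
  · rw [if_neg hi]
    symm
    refine Finset.sum_eq_zero fun j' _ => ?_
    by_cases h : C.card = j'
    · rw [← h, if_neg hi, mul_zero]
    · rw [if_neg h, zero_mul]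

private theorem yy_sum {ι : Type} (s : Finset ℕ) (n : ℕ → ℕ) (f : ℕ → ι → ℤ) (i : ι) :
    (∑ j ∈ s, n j • f j) i = ∑ j ∈ s, (n j : ℤ) * f j i := by
  rw [Finset.sum_apply]
  refine Finset.sum_congr rfl fun j _ => ?_
  rw [Pi.smul_apply, nsmul_eq_mul]

theorem kYy (h1 : YbStmt) (h2 : ZjStmt) : YyStmt := by
  intro k j hk hj hjk b nb g ng hb hg hht T
  obtain ⟨e, cb, q, Yb, hYb, hYb0⟩ := h1 k j hk hj hjk b nb hb
  have hz : ∀ j' : ℕ, ∃ (c : ℤ) (z : Ex (R2 k) k), j' ∈ Finset.Icc 1 (k + 1) →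
      Sc ((((k + 1).factorial : ℕ) : ℤ) • om j') (fun _ => c) 0 z ∧ z ≠ 0 := by
    intro j'
    by_cases h : j' ∈ Finset.Icc 1 (k + 1)
    · obtain ⟨c, z, hz1, hz2, _⟩ := h2 k j' (Finset.mem_Icc.1 h).1 (Finset.mem_Icc.1 h).2
      exact ⟨c, z, fun _ => ⟨hz1, hz2⟩⟩
    · exact ⟨0, 0, fun h' => absurd h' h⟩
  choose c z hz using hz
  refine ⟨e + T, q, fun N hN => ?_⟩
  let x : ℕ → ℕ := fun j' => if j' = j then N * ht g j - (e + T) else N * ht g j'
  have hx : ∀ j', (x j' : ℤ) = (N : ℤ) * ht g j' - if j' = j then ((e : ℤ) + T) else 0 := by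
    intro j'
    by_cases h : j' = j
    · have h3 : e + T ≤ N * ht g j := hN.trans (Nat.le_mul_of_pos_right N hht)
      simp only [x, if_pos h]
      rw [Nat.cast_sub h3, h]
      push_cast
      ring
    · simp only [x, if_neg h]
      push_cast
      ring
  have hprod := Sc.prod (Finset.Icc 1 (k + 1)) _ _ _ (fun j' => z j' ^ x j')
    fun j' hj' => (hz j' hj').1.pow (x j')
  have hS := hYb.mul hprod
  refine ⟨cb + ∑ j' ∈ Finset.Icc 1 (k + 1), (x j' : ℤ) * c j',
    Yb * ∏ j' ∈ Finset.Icc 1 (k + 1), z j' ^ x j', ?_, ?_⟩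
  · have e1 : (fun i : Fin (R2 k) => (row b i : ℤ)) + ((((k + 1).factorial * e : ℕ)) : ℤ) • om j
        + ∑ j' ∈ Finset.Icc 1 (k + 1), x j' • ((((k + 1).factorial : ℕ) : ℤ) • om j')
        = fun i : Fin (R2 k) => (row b i : ℤ) + ((k + 1).factorial * N : ℕ) * (row g i : ℤ)
          - ((k + 1).factorial * T : ℕ) * om j i := by
      funext i
      rw [Pi.add_apply, Pi.add_apply, yy_sum]
      simp only [Pi.smul_apply, smul_eq_mul]
      have h3 : ∑ j' ∈ Finset.Icc 1 (k + 1), (x j' : ℤ) * ((((k + 1).factorial : ℕ) : ℤ) * om j' i)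
          = ((k + 1).factorial : ℤ) * ((N : ℤ) * row g i - ((e : ℤ) + T) * om j i) := by
        rw [yy_row g i, Finset.mul_sum, mul_sub, Finset.mul_sum]
        simp_rw [hx, sub_mul]
        rw [Finset.sum_sub_distrib]
        congr 1
        · refine Finset.sum_congr rfl fun j' _ => ?_
          unfold om
          ring
        · rw [Finset.sum_eq_single j]
          · rw [if_pos rfl]
            ring
          · intro j' _ hj'
            rw [if_neg hj', zero_mul]
          · intro h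
            exact absurd (Finset.mem_Icc.2 ⟨by omega, hjk⟩) h
      rw [h3]
      push_cast
      ring
    have e2 : (fun _ : Fin (k + 1) => cb) + ∑ j' ∈ Finset.Icc 1 (k + 1),
        x j' • (fun _ : Fin (k + 1) => c j')
        = fun _ => cb + ∑ j' ∈ Finset.Icc 1 (k + 1), (x j' : ℤ) * c j' := by
      funext κ
      rw [Pi.add_apply, yy_sum]
    have e3 : q + ∑ j' ∈ Finset.Icc 1 (k + 1), x j' • (0 : ℤ) = q := by simp
    rw [e1, e2, e3] at hS
    exact hS
  · refine mul_ne_zero hYb0 (Finset.prod_ne_zero_iff.2 fun j' hj' => pow_ne_zero _ (hz j' hj').2)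

end T3

end Pool.Agent.Lib.MP_a688ad_al
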