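import Pool.Agent.Lib.MP_a688ad_al.T3.SpecE

/-!
# MP_a688ad_al, all large `n`: a symmetric product of minors
-/

set_option autoImplicit false

open MvPolynomial Finset

namespace Pool.Agent.Lib.MP_a688ad_al

namespace T3

open T2

/-- The minor of a tuple of particles. -/
noncomputable def zjb {r k : ℕ} (j : ℕ) (hj : j ≤ r) (c : Fin j → Fin (k + 1)) : Ex r k :=
  brk j hj fun t => xx (c t)

theorem zj_sc (h1 : BrkStmt) {r k : ℕ} (j : ℕ) (hj : j ≤ r) (c : Fin j → Fin (k + 1)) :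
    Sc (om j) (∑ t, sg (c t)) 0 (zjb j hj c : Ex r k) := by
  have h := h1 r k j hj (fun _ => 0) (fun t => sg (c t)) (fun _ => 0) (fun t => xx (c t))
    fun t => xx_Cv (c t)
  rw [Finset.sum_const_zero, Finset.sum_const_zero, add_zero] at h
  exact h

theorem zj_ne (h3 : EvpStmt) (h4 : PaiStmt) {r k : ℕ} (j : ℕ) (hj : j ≤ r)
    (c : Fin j → Fin (k + 1)) (hc : Function.Injective c) : (zjb j hj c : Ex r k) ≠ 0 := by
  intro h0
  have h := (h3 r k vp 0).2.2.1 j hj (fun t => xx (c t))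
  have h5 : evp vp 0 (brk j hj fun t => (xx (c t) : Fin r → Ex r k)) = 0 := by
    have h6 : (brk j hj fun t => (xx (c t) : Fin r → Ex r k)) = 0 := h0
    rw [h6, map_zero]
  rw [h5] at h
  refine (h4.2 r k j hj c).2 hc ?_
  rw [h]
  congr 1
  funext t l
  exact ((h3 r k vp 0).1 (c t) l).symm

theorem zj_rs (h2 : RscStmt) {r k : ℕ} (σ : Equiv.Perm (Fin (k + 1))) (j : ℕ) (hj : j ≤ r)
    (c : Fin j → Fin (k + 1)) : rs σ (zjb j hj c : Ex r k) = zjb j hj (σ ∘ c) := by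
  unfold zjb
  rw [h2.2.2.2.1]
  congr 1
  funext t l
  exact rs_xx σ (c t) l

/-- Permutations act on tuples of distinct particles. -/
def zjE {k : ℕ} (σ : Equiv.Perm (Fin (k + 1))) (j : ℕ) :
    (Fin j ↪ Fin (k + 1)) ≃ (Fin j ↪ Fin (k + 1)) := (Equiv.refl _).embeddingCongr σ

theorem zjE_apply {k : ℕ} (σ : Equiv.Perm (Fin (k + 1))) (j : ℕ) (c : Fin j ↪ Fin (k + 1))
    (t : Fin j) : zjE σ j c t = σ (c t) := rfl

/-- The product of all minors of the size `j`. -/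
noncomputable def zjp {r k : ℕ} (j : ℕ) (hj : j ≤ r) : Ex r k :=
  ∏ c : Fin j ↪ Fin (k + 1), zjb j hj c

theorem zjp_cont (k j : ℕ) : ∃ C : ℤ, ∑ c : Fin j ↪ Fin (k + 1), ∑ t, sg (c t) = fun _ => C := by
  refine ⟨(∑ c : Fin j ↪ Fin (k + 1), ∑ t, sg (c t)) 0, ?_⟩
  funext κ
  rw [Finset.sum_apply, Finset.sum_apply,
    ← Equiv.sum_comp (zjE (Equiv.swap κ 0) j) fun c => (∑ t, sg (c t) : Fin (k + 1) → ℤ) 0]
  refine Finset.sum_congr rfl fun c _ => ?_
  rw [Finset.sum_apply, Finset.sum_apply]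
  refine Finset.sum_congr rfl fun t _ => ?_
  rw [zjE_apply]
  unfold sg
  rw [Pi.single_apply, Pi.single_apply]
  have e : (0 : Fin (k + 1)) = Equiv.swap κ 0 (c t) ↔ κ = c t := by
    constructor
    · intro h
      have h1 := congrArg (Equiv.swap κ 0) h
      rw [Equiv.swap_apply_right, Equiv.swap_apply_self] at h1
      exact h1
    · intro h
      rw [← h, Equiv.swap_apply_left]
  by_cases h : κ = c t
  · rw [if_pos h, if_pos (e.2 h)]
  · rw [if_neg h, if_neg fun h' => h (e.1 h')]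

theorem zjp_sc (h1 : BrkStmt) {r k : ℕ} (j : ℕ) (hj : j ≤ r) :
    ∃ C : ℤ, Sc ((((k + 1).descFactorial j : ℕ) : ℤ) • om j) (fun _ => C) 0 (zjp j hj : Ex r k) := by
  obtain ⟨C, hC⟩ := zjp_cont k j
  refine ⟨C, ?_⟩
  have h := Sc.prod (univ : Finset (Fin j ↪ Fin (k + 1))) (fun _ => om j)
    (fun c => ∑ t, sg (c t)) (fun _ => 0) (fun c => (zjb j hj c : Ex r k))
    fun c _ => zj_sc h1 j hj c
  rw [hC, Finset.sum_const, Finset.sum_const, smul_zero, Finset.card_univ,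
    Fintype.card_embedding_eq, Fintype.card_fin, Fintype.card_fin, ← natCast_zsmul] at h
  exact h

theorem zjp_ne (h3 : EvpStmt) (h4 : PaiStmt) {r k : ℕ} (j : ℕ) (hj : j ≤ r) :
    (zjp j hj : Ex r k) ≠ 0 :=
  Finset.prod_ne_zero_iff.2 fun c _ => zj_ne h3 h4 j hj c c.injective

theorem zjp_rs (h2 : RscStmt) {r k : ℕ} (σ : Equiv.Perm (Fin (k + 1))) (j : ℕ) (hj : j ≤ r) :
    rs σ (zjp j hj : Ex r k) = zjp j hj := by
  unfold zjp
  rw [map_prod, ← Equiv.prod_comp (zjE σ j) fun c => (zjb j hj c : Ex r k)]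
  refine Finset.prod_congr rfl fun c _ => ?_
  rw [zj_rs h2]
  rfl

theorem kZj (h1 : BrkStmt) (h2 : RscStmt) (h3 : EvpStmt) (h4 : PaiStmt) : ZjStmt := by
  intro k j _ hj
  have hj' : j ≤ R2 k := le_trans hj (Nat.le_add_right _ _)
  obtain ⟨C, hC⟩ := zjp_sc h1 (k := k) j hj'
  refine ⟨((k + 1 - j).factorial : ℤ) * C, zjp j hj' ^ (k + 1 - j).factorial, ?_,
    pow_ne_zero _ (zjp_ne h3 h4 j hj'), fun σ => by rw [map_pow, zjp_rs h2]⟩
  have h := hC.pow (k + 1 - j).factorial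
  have e1 : (k + 1 - j).factorial • ((((k + 1).descFactorial j : ℕ) : ℤ) • (om j : Fin (R2 k) → ℤ))
      = (((k + 1).factorial : ℕ) : ℤ) • om j := by
    rw [← Nat.factorial_mul_descFactorial hj]
    funext i
    simp only [Pi.smul_apply, smul_eq_mul, nsmul_eq_mul]
    push_cast
    ring
  have e2 : (k + 1 - j).factorial • (fun _ : Fin (k + 1) => C)
      = fun _ => ((k + 1 - j).factorial : ℤ) * C := by
    funext i
    simp only [Pi.smul_apply, nsmul_eq_mul]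
  rw [e1, e2, smul_zero] at h
  exact h

end T3

end Pool.Agent.Lib.MP_a688ad_al
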